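import Pool.Agent.K4H71.RL.Par

/-! Assembly for fixed dimension. -/

set_option autoImplicit false

namespace Pool.Agent.K4H71.RL

open MeasureTheory Finset Filter Topology

/-- the prefactor -/
noncomputable def P0 (k : ℕ) : ℝ := (k + 1) * k ^ k * 3 ^ (k * k)

/-- the real parameters -/
structure Pr (n k G0 : ℕ) (δ lam T : ℝ) : Prop where
  hδ : 0 < δ
  hδ1 : δ ≤ 1
  hlam0 : 0 < lam
  hlam : lam ≤ 1 / 256
  hT : T = 5 / (√lam * lam)
  hk : 1 ≤ k
  hn : 3 * k + 3 ≤ n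
  hV : 6 * Real.exp (8 * lam * n) ≤ Vb n (RR n δ)
  hτ : 2 * √2 * n * Real.exp (-(((n : ℝ) / 4) ^ 2 / (2 * n))) ≤ 1 / 2 * Real.exp (-(4 * lam * n))
  hG0 : 1 ≤ G0

namespace Pr

variable {n k G0 : ℕ} {δ lam T : ℝ}

theorem n3 (h : Pr n k G0 δ lam T) : 3 ≤ n := by
  have := h.hn
  omega

theorem n1 (h : Pr n k G0 δ lam T) : 1 ≤ n := by
  have := h.hn
  omega

theorem R0 (h : Pr n k G0 δ lam T) : 0 < RR n δ := RR_pos h.n1 h.hδ

theorem sq_lam (h : Pr n k G0 δ lam T) : √lam ≤ 1 / 16 := by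
  have h1 : √lam ≤ √((1 / 16) ^ 2) := by
    refine Real.sqrt_le_sqrt ?_
    have := h.hlam
    norm_num
    linarith
  rwa [Real.sqrt_sq (by norm_num)] at h1

theorem T1 (h : Pr n k G0 δ lam T) : 1 ≤ T := by
  have h1 := h.sq_lam
  have h2 := h.hlam0
  have h3 : 0 < √lam := Real.sqrt_pos.2 h2
  rw [h.hT, le_div_iff₀ (by positivity), one_mul]
  have h4 := h.hlam
  nlinarith

theorem V1 (h : Pr n k G0 δ lam T) (a : ℝ) (ha : a ≤ 8) :
    6 ≤ Vb n (RR n δ) * Real.exp (-(a * lam * n)) := by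
  have h1 := h.hV
  have hn0 : (0 : ℝ) ≤ n := Nat.cast_nonneg _
  have h2 := h.hlam0
  have h3 : Real.exp (a * lam * n) ≤ Real.exp (8 * lam * n) := by
    apply Real.exp_le_exp.2
    refine mul_le_mul_of_nonneg_right ?_ hn0
    exact mul_le_mul_of_nonneg_right ha h2.le
  rw [Real.exp_neg, ← div_eq_mul_inv, le_div_iff₀ (Real.exp_pos _)]
  linarith

theorem ev (h : Pr n k G0 δ lam T) (ρ0 : ℝ) {ε : ℝ} (hε : 0 < ε) : ∃ s0 : ℝ, 1 ≤ s0 ∧ ∀ s, s0 ≤ s →
    ρ0 ≤ RR n δ * s ∧ 2 ≤ T * s ∧ (k * n : ℕ) + 1 ≤ T * s ∧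
    G0 * ((T * s) * (k + 1)) < s ^ n ∧
    k.factorial * (n * (T * s) ^ 2) ^ k < s ^ n ∧
    P0 k * ((2 : ℝ) ^ k * (k * (3 * T) ^ (k * n) * (3 * (T * s)) ^ k)) * G0 ^ (3 * k + 1) ≤
      ε / 2 * s ^ n ∧
    P0 k * ((2 : ℝ) ^ k * ((2 * k + 3) * T) ^ (k * n)) * 2 *
      (((T * s / 2) / (k * n)) ^ (n - (3 * k + 2)))⁻¹ ≤ ε / 2 ∧
    4 ≤ s ^ n * (Vb n (RR n δ) * Real.exp (-(4 * lam * n))) ∧
    √lam * √n / (2 * Real.pi * (RR n δ * s)) ≤ 1 / 2 := by
  have hT := h.T1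
  have hR := h.R0
  have hn := h.hn
  have hk := h.hk
  have hn0 : (0 : ℝ) < n := by
    have := h.n1
    positivity
  have hk0 : (0 : ℝ) < k := by positivity
  have hid : Tendsto (fun s : ℝ => s) atTop atTop := tendsto_id
  have e1 := (hid.const_mul_atTop hR).eventually_ge_atTop ρ0
  have e2 := (hid.const_mul_atTop (by linarith : 0 < T)).eventually_ge_atTop 2
  have e3 := (hid.const_mul_atTop (by linarith : 0 < T)).eventually_ge_atTop ((k * n : ℕ) + 1)
  have e4 := poly_ev (j := 1) (n := n) (by omega) (G0 * (T * (k + 1))) (ε := 1 / 2) (by norm_num)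
  have e5 := poly_ev (j := 2 * k) (n := n) (by omega) (k.factorial * (n * T ^ 2) ^ k)
    (ε := 1 / 2) (by norm_num)
  have e6 := poly_ev (j := k) (n := n) (by omega)
    (P0 k * ((2 : ℝ) ^ k * (k * (3 * T) ^ (k * n) * (3 * T) ^ k)) * G0 ^ (3 * k + 1))
    (ε := ε / 2) (by positivity)
  have e7 : ∀ᶠ s : ℝ in atTop, P0 k * ((2 : ℝ) ^ k * ((2 * k + 3) * T) ^ (k * n)) * 2 *
      (((T * s / 2) / (k * n)) ^ (n - (3 * k + 2)))⁻¹ ≤ ε / 2 := by
    have h1 : Tendsto (fun s : ℝ => (T * s / 2) / (k * n)) atTop atTop := by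
      refine ((hid.const_mul_atTop (by linarith : 0 < T)).atTop_div_const (by norm_num)).atTop_div_const ?_
      positivity
    have h2 : Tendsto (fun s : ℝ => ((T * s / 2) / (k * n)) ^ (n - (3 * k + 2))) atTop atTop :=
      (tendsto_pow_atTop (by omega)).comp h1
    have h3 := (tendsto_inv_atTop_zero.comp h2).const_mul
      (P0 k * ((2 : ℝ) ^ k * ((2 * k + 3) * T) ^ (k * n)) * 2)
    rw [mul_zero] at h3
    exact h3.eventually_le_const (half_pos hε)
  have hVe : 0 < Vb n (RR n δ) * Real.exp (-(4 * lam * n)) :=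
    mul_pos (Vb_pos hR) (Real.exp_pos _)
  have e8 := ((tendsto_pow_atTop (α := ℝ) (n := n) (by omega)).atTop_mul_const hVe).eventually_ge_atTop 4
  have e9 : ∀ᶠ s : ℝ in atTop, √lam * √n / (2 * Real.pi * (RR n δ * s)) ≤ 1 / 2 := by
    have h1 : Tendsto (fun s : ℝ => 2 * Real.pi * (RR n δ * s)) atTop atTop :=
      (hid.const_mul_atTop hR).const_mul_atTop Real.two_pi_pos
    have h2 := (tendsto_inv_atTop_zero.comp h1).const_mul (√lam * √n)
    rw [mul_zero] at h2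
    refine (h2.eventually_le_const (by norm_num : (0 : ℝ) < 1 / 2)).mono fun s hs => ?_
    rw [div_eq_mul_inv]
    exact hs
  obtain ⟨s0, hs0⟩ := eventually_atTop.1 (e1.and (e2.and (e3.and (e4.and (e5.and (e6.and
    (e7.and (e8.and e9))))))))
  refine ⟨max s0 1, le_max_right _ _, fun s hs => ?_⟩
  obtain ⟨h1, h2, h3, h4, h5, h6, h7, h8, h9⟩ := hs0 s ((le_max_left _ _).trans hs)
  have hs1 : 1 ≤ s := (le_max_right _ _).trans hs
  have hsn : 0 < s ^ n := by positivity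
  refine ⟨h1, h2, h3, ?_, ?_, ?_, h7, h8, h9⟩
  · have : (G0 : ℝ) * ((T * s) * (k + 1)) = G0 * (T * (k + 1)) * s ^ 1 := by ring
    rw [this]
    linarith
  · have : (k.factorial : ℝ) * (n * (T * s) ^ 2) ^ k = k.factorial * (n * T ^ 2) ^ k * s ^ (2 * k) := by
      rw [pow_mul, mul_pow T s 2, ← mul_assoc, mul_pow _ (s ^ 2)]
      ring
    rw [this]
    linarith
  · have : P0 k * ((2 : ℝ) ^ k * (k * (3 * T) ^ (k * n) * (3 * (T * s)) ^ k)) * G0 ^ (3 * k + 1) =
        P0 k * ((2 : ℝ) ^ k * (k * (3 * T) ^ (k * n) * (3 * T) ^ k)) * G0 ^ (3 * k + 1) * s ^ k := by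
      rw [← mul_assoc 3 T s, mul_pow (3 * T) s]
      ring
    rw [this]
    exact h6

end Pr

open Classical in
/-- number of vectors whose lattice has no short vectors -/
noncomputable def nadm (n p : ℕ) [Fact p.Prime] (ρ : ℝ) : ℕ :=
  ((Finset.univ : Finset (Fin n → ZMod p)).filter (fun a => Adm p ρ a)).card

theorem one_n {n k G0 : ℕ} {δ lam T : ℝ} (h : Pr n k G0 δ lam T) (hke : Even k) {ε : ℝ}
    (hε : 0 < ε) : ∃ p0 : ℕ, ∀ p : ℕ, ∀ _ : Fact p.Prime, p0 ≤ p →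
      (nadm n p (RR n δ * (p : ℝ) ^ ((n : ℝ)⁻¹)) : ℝ) ≤ p ^ n * (P0 k *
        ((2 * Real.exp (-(2 * lam * n))) ^ k * G0 ^ (3 * k + 1) +
          4 * (4 * T) ^ (k * n) * ((G0 : ℝ) ^ (n - (3 * k + 2)))⁻¹) + ε) := by
  classical
  have hn3 := h.n3
  have hn1 := h.n1
  have hn0 : (0 : ℝ) < n := by positivity
  have hk := h.hk
  have hk0 : (0 : ℝ) < k := by positivity
  have hR := h.R0
  have hT1 := h.T1
  have hlam0 := h.hlam0
  have hsl := h.sq_lam
  have hsl0 : 0 < √lam := Real.sqrt_pos.2 hlam0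
  set V : ℝ := Vb n (RR n δ) with hVd
  have hVpos : 0 < V := Vb_pos hR
  set x0 : ℝ := (n : ℝ) / 4 with hx0d
  have hx0 : 0 < x0 := by positivity
  have hx0n : x0 ≤ (n : ℝ) / 2 := by
    rw [hx0d]
    linarith
  obtain ⟨ρ1, hρ1, hρ1'⟩ := Js_main hn3 hx0.le hx0n
    (show 0 < 1 / 4 * Real.exp (-(4 * lam * n)) by positivity)
  obtain ⟨ρ2, hρ2, hρ2'⟩ := card_SS (n := n) one_pos
  obtain ⟨s0, hs01, hs0⟩ := h.ev (max ρ1 ρ2) hε
  refine ⟨⌈s0 ^ n⌉₊, fun p hpf hp => ?_⟩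
  have hp0 : (0 : ℝ) < p := by exact_mod_cast (Fact.out : p.Prime).pos
  set s : ℝ := (p : ℝ) ^ ((n : ℝ)⁻¹) with hsd
  have hspos : 0 < s := by positivity
  have hsn : s ^ n = p := Real.rpow_inv_natCast_pow hp0.le (by omega)
  have hss : s0 ≤ s := by
    have h1 : s0 ^ n ≤ s ^ n := by
      rw [hsn]
      exact (Nat.le_ceil _).trans (by exact_mod_cast hp)
    exact le_of_pow_le_pow_left₀ (by omega) hspos.le h1
  obtain ⟨e1, e2, e3, e4, e5, e6, e7, e8, e9⟩ := hs0 s hss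
  rw [hsn] at e4 e5 e6 e8
  set ρ : ℝ := RR n δ * s with hρd
  have hρ : 0 < ρ := mul_pos hR hspos
  have hρ1p : ρ1 ≤ ρ := (le_max_left _ _).trans e1
  have hρ2p : ρ2 ≤ ρ := (le_max_right _ _).trans e1
  have hVρ : Vb n ρ = p * V := by
    rw [hVd, Vb_scale hρ, Vb_scale hR, hρd, mul_pow, hsn]
    ring
  set N : ℕ := ⌊T * s⌋₊ with hNd
  have hNle : (N : ℝ) ≤ T * s := Nat.floor_le (by positivity)
  have hNge : T * s / 2 ≤ N := by
    have := Nat.lt_floor_add_one (T * s)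
    linarith
  have hN0 : (0 : ℝ) < N := by linarith
  have hN1 : 1 ≤ N := by exact_mod_cast hN0
  have hkn : k * n ≤ N := by
    have h1 : ((k * n : ℕ) : ℝ) ≤ N := by
      have := Nat.lt_floor_add_one (T * s)
      linarith
    exact_mod_cast h1
  have hNT : (N : ℝ) ^ n ≤ T ^ n * p := by
    calc (N : ℝ) ^ n ≤ (T * s) ^ n := pow_le_pow_left₀ hN0.le hNle n
      _ = T ^ n * p := by rw [mul_pow, hsn]
  have hψ : hat (Hf n ρ x0) 0 ≤ 1 := (Hf_hat0 hn3 hρ hx0 hx0n).trans (psi_small hn1)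
  -- the constants
  set B : ℝ := V * Real.exp (-(4 * lam * n)) with hBd
  set m0 : ℝ := V * Real.exp (-(2 * lam * n)) / 2 with hm0d
  have hB0 : 0 < B := mul_pos hVpos (Real.exp_pos _)
  have hB6 : 6 ≤ B := h.V1 4 (by norm_num)
  have hm06 : 6 ≤ V * Real.exp (-(2 * lam * n)) := h.V1 2 (by norm_num)
  have hm01 : 1 ≤ m0 := by
    rw [hm0d]
    linarith
  have hB2 : 6 * V ≤ B ^ 2 := by
    have h1 : 6 ≤ V * Real.exp (-(8 * lam * n)) := h.V1 8 le_rfl
    have h2 : B ^ 2 = V * (V * Real.exp (-(8 * lam * n))) := by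
      rw [hBd, mul_pow, ← Real.exp_nat_mul]
      have : ((2 : ℕ) : ℝ) * -(4 * lam * n) = -(8 * lam * n) := by
        push_cast
        ring
      rw [this]
      ring
    rw [h2]
    nlinarith
  have hJs := hρ1' ρ hρ1p
  have hcard : ((SS n ρ).card : ℝ) ≤ 2 * Vb n ρ := by
    have := (abs_le.1 (hρ2' ρ hρ2p)).2
    linarith
  -- the moment bound
  have hmom := moment (p := p) (k := k) (n := n) (N := N) (G0 := G0) hk (by have := h.hn; omega)
    h.hG0 hkn hT1 hNT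
    (by
      have h1 : (G0 : ℝ) * (N * (k + 1)) < p := by
        refine lt_of_le_of_lt ?_ e4
        refine mul_le_mul_of_nonneg_left ?_ (Nat.cast_nonneg _)
        exact mul_le_mul_of_nonneg_right hNle (by positivity)
      exact_mod_cast h1)
    (by
      have h1 : (k.factorial : ℝ) * (n * N ^ 2) ^ k < p := by
        refine lt_of_le_of_lt ?_ e5
        refine mul_le_mul_of_nonneg_left ?_ (Nat.cast_nonneg _)
        refine pow_le_pow_left₀ (by positivity) ?_ k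
        refine mul_le_mul_of_nonneg_left ?_ hn0.le
        exact pow_le_pow_left₀ hN0.le hNle 2
      exact_mod_cast h1)
    (hh n ρ x0 N) (b := 2) (B := B) (hh_abs hn3 hρ hx0n hψ) hB0
    (fun x => (hh_abs hn3 hρ hx0n hψ x).trans (by linarith))
    (by
      refine (hh_sq hN1 hn3 hρ hx0n hψ).trans ?_
      have h1 : 2 * ((SS n ρ).card : ℝ) + 2 * Vb n ρ ≤ 6 * (p * V) := by
        rw [hVρ] at hcard ⊢
        linarith
      refine h1.trans ?_
      calc 6 * (p * V) = p * (6 * V) := by ring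
        _ ≤ p * B ^ 2 := mul_le_mul_of_nonneg_left hB2 hp0.le)
    (by
      intro χ
      refine (hh_char hN1 hn3 hρ hx0n hψ hJs χ).trans ?_
      rw [hVρ]
      have h1 := h.hτ
      have h2 : 2 * √2 * n * Real.exp (-(x0 ^ 2 / (2 * n))) + 1 / 4 * Real.exp (-(4 * lam * n)) ≤
          3 / 4 * Real.exp (-(4 * lam * n)) := by
        rw [hx0d]
        linarith
      have h3 : p * V * (2 * √2 * n * Real.exp (-(x0 ^ 2 / (2 * n))) +
          1 / 4 * Real.exp (-(4 * lam * n))) ≤ p * V * (3 / 4 * Real.exp (-(4 * lam * n))) :=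
        mul_le_mul_of_nonneg_left h2 (by positivity)
      have h4 : p * V * (3 / 4 * Real.exp (-(4 * lam * n))) = 3 / 4 * (p * B) := by
        rw [hBd]
        ring
      have h5 : 4 ≤ p * B := e8
      linarith)
  -- the deterministic part
  have hadm : ∀ a : Fin n → ZMod p, Adm p ρ a → m0 ≤ -(FF p N (hh n ρ x0 N) a) := by
    intro a ha
    have h1 := FF_adm hN1 hn3 hρ hx0n a ha
    set κ : ℝ := √lam * √n / (2 * Real.pi * ρ) with hκd
    have hκ : 0 < κ := by positivity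
    have hz : 2 * Real.pi * (ρ * (√n * κ)) = √lam * n := by
      rw [hκd]
      have h2 : √(n : ℝ) ^ 2 = n := Real.sq_sqrt hn0.le
      field_simp
      exact h2
    have hu : 1 / (2 * N * κ) ≤ lam / 2 := by
      have h2 : 1 / (2 * N * κ) = Real.pi * ρ / (N * (√lam * √n)) := by
        rw [hκd]
        field_simp
      rw [h2, div_le_iff₀ (by positivity)]
      have h3 := RR_le (n := n) h.hδ1
      have h4 : Real.pi * ρ ≤ Real.pi * (7 / 20 * √n * s) := by
        rw [hρd]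
        refine mul_le_mul_of_nonneg_left ?_ Real.pi_pos.le
        exact mul_le_mul_of_nonneg_right h3 hspos.le
      have h5 : T * (√lam * lam) = 5 := by
        rw [h.hT]
        field_simp
      have h6 : lam / 2 * (T * s / 2 * (√lam * √n)) ≤ lam / 2 * (N * (√lam * √n)) := by
        refine mul_le_mul_of_nonneg_left ?_ (by positivity)
        exact mul_le_mul_of_nonneg_right hNge (by positivity)
      have h7 : lam / 2 * (T * s / 2 * (√lam * √n)) = 5 / 4 * (√n * s) := by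
        calc lam / 2 * (T * s / 2 * (√lam * √n)) = (T * (√lam * lam)) / 4 * (√n * s) := by ring
          _ = _ := by rw [h5]
      have h8 : Real.pi * (7 / 20 * √n * s) ≤ 5 / 4 * (√n * s) := by
        have hpi := Real.pi_lt_d2
        have h9 : 0 < √(n : ℝ) * s := by positivity
        nlinarith
      linarith
    have hu0 : 0 ≤ 1 / (2 * N * κ) := by positivity
    have h2 := Hf_origin (x0 := x0) hN1 hn3 hρ hx0n hκ e9 hz.le
      (by
        rw [hx0d]
        nlinarith) (by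
        have := h.hlam
        linarith)
    have h3 := one_sub_pow hu0 hu h.hlam n
    have h4 : (√lam * n) ^ 2 / n = lam * n := by
      rw [mul_pow, Real.sq_sqrt hlam0.le]
      field_simp
    rw [h4, hVρ] at h2
    have h5 : p * (V * Real.exp (-(2 * lam * n))) ≤
        p * V * Real.exp (-(lam * n)) * (1 - 1 / (2 * N * κ)) ^ n := by
      have h6 : Real.exp (-(2 * lam * n)) = Real.exp (-(lam * n)) * Real.exp (-(lam * n)) := by
        rw [← Real.exp_add]
        congr 1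
        ring
      rw [h6]
      calc p * (V * (Real.exp (-(lam * n)) * Real.exp (-(lam * n))))
          = p * V * Real.exp (-(lam * n)) * Real.exp (-(lam * n)) := by ring
        _ ≤ _ := mul_le_mul_of_nonneg_left h3 (by positivity)
    have h7 : p * FF p N (hh n ρ x0 N) a ≤ p * (-m0) := by
      have h8 : p * hat (Hf n ρ x0) 0 ≤ p * 1 := mul_le_mul_of_nonneg_left hψ hp0.le
      have h9 : (p : ℝ) * (-m0) = -(p * (V * Real.exp (-(2 * lam * n)))) / 2 := by
        rw [hm0d]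
        ring
      have h10 : (p : ℝ) * 2 ≤ p * (V * Real.exp (-(2 * lam * n))) :=
        mul_le_mul_of_nonneg_left (by linarith) hp0.le
      rw [h9]
      linarith
    have h8 := le_of_mul_le_mul_left h7 hp0
    linarith
  have hm0k : 0 < m0 ^ k := by positivity
  have hcnt : (nadm n p ρ : ℝ) * m0 ^ k ≤ p ^ n * bound k n N G0 p T 2 B := by
    refine le_trans ?_ hmom
    calc (nadm n p ρ : ℝ) * m0 ^ k = ∑ _a ∈ (Finset.univ : Finset (Fin n → ZMod p)).filter
          (fun a => Adm p ρ a), m0 ^ k := by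
          rw [Finset.sum_const, nsmul_eq_mul, nadm]
      _ ≤ ∑ a ∈ (Finset.univ : Finset (Fin n → ZMod p)).filter (fun a => Adm p ρ a),
          (FF p N (hh n ρ x0 N) a) ^ k := by
          refine Finset.sum_le_sum fun a ha => ?_
          have h1 := hadm a (Finset.mem_filter.1 ha).2
          have h2 : (FF p N (hh n ρ x0 N) a) ^ k = (-(FF p N (hh n ρ x0 N) a)) ^ k :=
            (hke.neg_pow _).symm
          rw [h2]
          exact pow_le_pow_left₀ (by linarith) h1 k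
      _ ≤ _ := Finset.sum_le_sum_of_subset_of_nonneg (Finset.filter_subset _ _)
          fun a _ _ => hke.pow_nonneg _
  have hG0' : (1 : ℝ) ≤ G0 := by exact_mod_cast h.hG0
  have hP0 : 0 ≤ P0 k := by
    unfold P0
    positivity
  have hbd : bound k n N G0 p T 2 B ≤ P0 k * (B ^ k * G0 ^ (3 * k + 1) +
      4 * (4 * T) ^ (k * n) * ((G0 : ℝ) ^ (n - (3 * k + 2)))⁻¹) + ε := by
    have h1 : P0 k * ((2 : ℝ) ^ k * (k * (3 * T) ^ (k * n) * (3 * N) ^ k / p)) * G0 ^ (3 * k + 1) ≤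
        ε / 2 := by
      have h2 : P0 k * ((2 : ℝ) ^ k * (k * (3 * T) ^ (k * n) * (3 * N) ^ k / p)) * G0 ^ (3 * k + 1) =
          (P0 k * ((2 : ℝ) ^ k * (k * (3 * T) ^ (k * n) * (3 * N) ^ k)) * G0 ^ (3 * k + 1)) / p := by
        ring
      rw [h2, div_le_iff₀ hp0]
      refine le_trans ?_ e6
      refine mul_le_mul_of_nonneg_right ?_ (by positivity)
      refine mul_le_mul_of_nonneg_left ?_ hP0
      refine mul_le_mul_of_nonneg_left ?_ (by positivity)
      refine mul_le_mul_of_nonneg_left ?_ (by positivity)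
      exact pow_le_pow_left₀ (by positivity) (by linarith) k
    have h3 : P0 k * ((2 : ℝ) ^ k * ((2 * k + 3) * T) ^ (k * n)) * 2 *
        ((N / (k * n) : ℝ) ^ (n - (3 * k + 2)))⁻¹ ≤ ε / 2 := by
      refine le_trans ?_ e7
      refine mul_le_mul_of_nonneg_left ?_ (by positivity)
      refine inv_anti₀ (by positivity) ?_
      refine pow_le_pow_left₀ (by positivity) ?_ _
      exact div_le_div_of_nonneg_right hNge (by positivity)
    have h4 : (2 : ℝ) * 2 ^ k * (2 * T) ^ (k * n) * 2 ≤ 4 * (4 * T) ^ (k * n) := by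
      have h5 : (2 : ℝ) ^ k ≤ 2 ^ (k * n) :=
        pow_le_pow_right₀ (by norm_num) (Nat.le_mul_of_pos_right _ (by omega))
      have h6 : (4 * T) ^ (k * n) = 2 ^ (k * n) * (2 * T) ^ (k * n) := by
        rw [← mul_pow]
        congr 1
        ring
      rw [h6]
      have h7 : (0 : ℝ) < (2 * T) ^ (k * n) := by positivity
      nlinarith
    have h5 : P0 k * ((2 * 2 ^ k * (2 * T) ^ (k * n)) * 2 * ((G0 : ℝ) ^ (n - (3 * k + 2)))⁻¹) ≤
        P0 k * (4 * (4 * T) ^ (k * n) * ((G0 : ℝ) ^ (n - (3 * k + 2)))⁻¹) := by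
      refine mul_le_mul_of_nonneg_left ?_ hP0
      exact mul_le_mul_of_nonneg_right h4 (by positivity)
    have h6 : bound k n N G0 p T 2 B = P0 k * (B ^ k * G0 ^ (3 * k + 1)) +
        P0 k * ((2 : ℝ) ^ k * (k * (3 * T) ^ (k * n) * (3 * N) ^ k / p)) * G0 ^ (3 * k + 1) +
        P0 k * ((2 * 2 ^ k * (2 * T) ^ (k * n)) * 2 * ((G0 : ℝ) ^ (n - (3 * k + 2)))⁻¹) +
        P0 k * ((2 : ℝ) ^ k * ((2 * k + 3) * T) ^ (k * n)) * 2 *
        ((N / (k * n) : ℝ) ^ (n - (3 * k + 2)))⁻¹ := by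
      rw [bound, P0]
      ring
    rw [h6, mul_add]
    linarith
  have hpn : (0 : ℝ) < (p : ℝ) ^ n := by positivity
  have hBm : B = (2 * Real.exp (-(2 * lam * n))) * m0 := by
    rw [hBd, hm0d]
    have h6 : Real.exp (-(4 * lam * n)) = Real.exp (-(2 * lam * n)) * Real.exp (-(2 * lam * n)) := by
      rw [← Real.exp_add]
      congr 1
      ring
    rw [h6]
    ring
  have hm0k1 : 1 ≤ m0 ^ k := one_le_pow₀ hm01
  have hfin : (nadm n p ρ : ℝ) * m0 ^ k ≤ (p ^ n * (P0 k *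
        ((2 * Real.exp (-(2 * lam * n))) ^ k * G0 ^ (3 * k + 1) +
          4 * (4 * T) ^ (k * n) * ((G0 : ℝ) ^ (n - (3 * k + 2)))⁻¹) + ε)) * m0 ^ k := by
    refine hcnt.trans ?_
    rw [mul_assoc]
    refine mul_le_mul_of_nonneg_left ?_ hpn.le
    refine hbd.trans ?_
    have h1 : B ^ k = (2 * Real.exp (-(2 * lam * n))) ^ k * m0 ^ k := by
      rw [hBm, mul_pow _ m0]
    rw [h1]
    have h2 : 0 ≤ P0 k * (4 * (4 * T) ^ (k * n) * ((G0 : ℝ) ^ (n - (3 * k + 2)))⁻¹) := by positivity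
    have h3 : P0 k * (4 * (4 * T) ^ (k * n) * ((G0 : ℝ) ^ (n - (3 * k + 2)))⁻¹) + ε ≤
        (P0 k * (4 * (4 * T) ^ (k * n) * ((G0 : ℝ) ^ (n - (3 * k + 2)))⁻¹) + ε) * m0 ^ k :=
      le_mul_of_one_le_right (by linarith) hm0k1
    calc P0 k * ((2 * Real.exp (-(2 * lam * n))) ^ k * m0 ^ k * G0 ^ (3 * k + 1) +
          4 * (4 * T) ^ (k * n) * ((G0 : ℝ) ^ (n - (3 * k + 2)))⁻¹) + ε
        = P0 k * ((2 * Real.exp (-(2 * lam * n))) ^ k * G0 ^ (3 * k + 1)) * m0 ^ k +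
          (P0 k * (4 * (4 * T) ^ (k * n) * ((G0 : ℝ) ^ (n - (3 * k + 2)))⁻¹) + ε) := by ring
      _ ≤ P0 k * ((2 * Real.exp (-(2 * lam * n))) ^ k * G0 ^ (3 * k + 1)) * m0 ^ k +
          (P0 k * (4 * (4 * T) ^ (k * n) * ((G0 : ℝ) ^ (n - (3 * k + 2)))⁻¹) + ε) * m0 ^ k := by
          linarith
      _ = _ := by ring
  exact le_of_mul_le_mul_right hfin hm0k

end Pool.Agent.K4H71.RL
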