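import Pool.Agent.K4H71.RL.Bes

/-! The transform of the ball in coordinates. -/

set_option autoImplicit false

namespace Pool.Agent.K4H71.RL

open MeasureTheory Set Pool.Agent.K4H71.TS Filter Topology
open scoped RealInnerProductSpace

/-- dot product -/
def dt {n : ℕ} (a b : Fin n → ℝ) : ℝ := ∑ i, a i * b i

/-- Euclidean norm -/
noncomputable def nm {n : ℕ} (a : Fin n → ℝ) : ℝ := √(dt a a)

/-- open ball -/
def Db (n : ℕ) (ρ : ℝ) : Set (Fin n → ℝ) := {y | nm y < ρ}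

/-- its volume -/
noncomputable def Vb (n : ℕ) (ρ : ℝ) : ℝ := (volume (Db n ρ)).toReal

/-- its Fourier transform -/
noncomputable def Jb (n : ℕ) (ρ : ℝ) (φ : Fin n → ℝ) : ℝ :=
  ∫ y in Db n ρ, Real.cos (2 * Real.pi * dt φ y)

theorem dt_self_nonneg {n : ℕ} (a : Fin n → ℝ) : 0 ≤ dt a a :=
  Finset.sum_nonneg fun i _ => mul_self_nonneg (a i)

theorem nm_nonneg {n : ℕ} (a : Fin n → ℝ) : 0 ≤ nm a := Real.sqrt_nonneg _

theorem nm_sq {n : ℕ} (a : Fin n → ℝ) : nm a ^ 2 = dt a a := Real.sq_sqrt (dt_self_nonneg a)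

theorem nm_toLp {n : ℕ} (a : Fin n → ℝ) : nm a = ‖(WithLp.toLp 2 a : EuclideanSpace ℝ (Fin n))‖ := by
  rw [EuclideanSpace.norm_eq, nm, dt]
  congr 1
  refine Finset.sum_congr rfl fun i _ => ?_
  simp [sq]

theorem inner_toLp {n : ℕ} (a b : Fin n → ℝ) :
    inner ℝ (WithLp.toLp 2 a : EuclideanSpace ℝ (Fin n)) (WithLp.toLp 2 b) = dt a b := by
  simp only [PiLp.inner_apply, dt]
  refine Finset.sum_congr rfl fun i _ => ?_
  simp [mul_comm]

theorem Db_pre (n : ℕ) (ρ : ℝ) :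
    (WithLp.toLp 2 : (Fin n → ℝ) → EuclideanSpace ℝ (Fin n)) ⁻¹' Metric.ball 0 ρ = Db n ρ := by
  ext y
  rw [mem_preimage, mem_ball_zero_iff, Db, mem_ofPred_eq, nm_toLp]

theorem Db_meas (n : ℕ) (ρ : ℝ) : MeasurableSet (Db n ρ) := by
  rw [← Db_pre]
  exact (MeasurableEquiv.toLp 2 (Fin n → ℝ)).measurable Metric.isOpen_ball.measurableSet

theorem Vb_eq (n : ℕ) (ρ : ℝ) :
    volume (Db n ρ) = volume (Metric.ball (0 : EuclideanSpace ℝ (Fin n)) ρ) := by
  rw [← Db_pre]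
  exact (PiLp.volume_preserving_toLp (Fin n)).measure_preimage_emb
    (MeasurableEquiv.toLp 2 (Fin n → ℝ)).measurableEmbedding _

theorem Db_fin (n : ℕ) (ρ : ℝ) : volume (Db n ρ) < ⊤ := by
  rw [Vb_eq]
  exact measure_ball_lt_top

theorem Vb_nonneg (n : ℕ) (ρ : ℝ) : 0 ≤ Vb n ρ := ENNReal.toReal_nonneg

theorem Vb_pos {n : ℕ} {ρ : ℝ} (hρ : 0 < ρ) : 0 < Vb n ρ := by
  rw [Vb, Vb_eq]
  exact ENNReal.toReal_pos (Metric.measure_ball_pos _ _ hρ).ne' measure_ball_lt_top.ne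

theorem Jb_eq0 (n : ℕ) (ρ : ℝ) (φ : Fin n → ℝ) :
    Jb n ρ φ = ∫ x in Metric.ball (0 : EuclideanSpace ℝ (Fin n)) ρ,
      Real.cos (inner ℝ (WithLp.toLp 2 ((2 * Real.pi) • φ) : EuclideanSpace ℝ (Fin n)) x) := by
  have h := (PiLp.volume_preserving_toLp (Fin n)).setIntegral_preimage_emb
    (MeasurableEquiv.toLp 2 (Fin n → ℝ)).measurableEmbedding
    (fun x => Real.cos (inner ℝ (WithLp.toLp 2 ((2 * Real.pi) • φ) : EuclideanSpace ℝ (Fin n)) x))
    (Metric.ball 0 ρ)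
  rw [← h, Db_pre, Jb]
  refine setIntegral_congr_fun (Db_meas n ρ) fun y _ => ?_
  simp only [inner_toLp]
  congr 1
  simp only [dt, Pi.smul_apply, smul_eq_mul]
  rw [Finset.mul_sum]
  refine Finset.sum_congr rfl fun i _ => ?_
  ring

/-- the normalised radial profile -/
noncomputable def Kn (n : ℕ) (z : ℝ) : ℝ :=
  n * ∫ r in (0 : ℝ)..1, r ^ (n - 1) * Om n (r * (2 * Real.pi * z))

theorem nm_smul {n : ℕ} (c : ℝ) (a : Fin n → ℝ) : nm (c • a) = |c| * nm a := by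
  rw [nm, nm, ← Real.sqrt_sq_eq_abs, ← Real.sqrt_mul (sq_nonneg c)]
  congr 1
  simp only [dt, Pi.smul_apply, smul_eq_mul]
  rw [Finset.mul_sum]
  refine Finset.sum_congr rfl fun i _ => ?_
  ring

theorem Jb_eq {n : ℕ} (hn : 3 ≤ n) {ρ : ℝ} (hρ : 0 < ρ) (φ : Fin n → ℝ) :
    Jb n ρ φ = Vb n ρ * Kn n (ρ * nm φ) := by
  have hn0 : (0 : ℝ) < n := by positivity
  rw [Jb_eq0]
  have h1 := ball_cos hn (WithLp.toLp 2 ((2 * Real.pi) • φ) : EuclideanSpace ℝ (Fin n)) hρ.le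
  refine h1.trans ?_
  rw [← nm_toLp, nm_smul, abs_of_pos Real.two_pi_pos]
  have h2 : (Pool.Agent.H789R2.FR.sg n).real univ * (ρ ^ n / n) = Vb n ρ := by
    rw [Vb, Vb_eq]
    exact sg_vol hn (R := ρ) hρ.le
  rw [← h2, Kn]
  have h4 : ∫ r in (0 : ℝ)..ρ, r ^ (n - 1) * Om n (r * (2 * Real.pi * nm φ)) =
      ρ ^ n * ∫ r in (0 : ℝ)..1, r ^ (n - 1) * Om n (r * (2 * Real.pi * (ρ * nm φ))) := by
    have h5 := intervalIntegral.mul_integral_comp_mul_left (a := 0) (b := 1)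
      (f := fun r => r ^ (n - 1) * Om n (r * (2 * Real.pi * nm φ))) ρ
    simp only [mul_zero, mul_one] at h5
    rw [← h5]
    have h6 : ρ ^ n = ρ * ρ ^ (n - 1) := by
      rw [← pow_succ']
      congr 1
      omega
    have h8 : ∫ r in (0 : ℝ)..1, (ρ * r) ^ (n - 1) * Om n (ρ * r * (2 * Real.pi * nm φ)) =
        ρ ^ (n - 1) * ∫ r in (0 : ℝ)..1, r ^ (n - 1) * Om n (r * (2 * Real.pi * (ρ * nm φ))) := by
      rw [← intervalIntegral.integral_const_mul]
      refine intervalIntegral.integral_congr fun r _ => ?_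
      have h7 : ρ * r * (2 * Real.pi * nm φ) = r * (2 * Real.pi * (ρ * nm φ)) := by ring
      rw [h7, mul_pow]
      ring
    rw [h8, h6]
    ring
  rw [h4]
  generalize (∫ r in (0 : ℝ)..1, r ^ (n - 1) * Om n (r * (2 * Real.pi * (ρ * nm φ)))) = I
  field_simp

theorem Kn_low {n : ℕ} (hn : 3 ≤ n) {z : ℝ} (hz : 0 ≤ z) (hz2 : 2 * Real.pi * z ≤ (n : ℝ) / 2) :
    Real.exp (-((2 * Real.pi * z) ^ 2 / n)) ≤ Kn n z := by
  have hn0 : (0 : ℝ) < n := by positivity
  have h1 := ball_low hn (by positivity : 0 ≤ 2 * Real.pi * z) hz2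
  rw [div_le_iff₀ hn0] at h1
  rw [Kn]
  linarith

theorem Kn_far {n : ℕ} (hn : 3 ≤ n) {z x0 : ℝ} (hx0 : 0 ≤ x0) (hx0n : x0 ≤ (n : ℝ) / 2)
    (hz : x0 ≤ 2 * Real.pi * z) :
    |Kn n z| ≤ 2 * √2 * n * Real.exp (-(x0 ^ 2 / (2 * n))) := by
  have hn0 : (0 : ℝ) < n := by positivity
  have h1 := ball_far hn hx0 hx0n hz
  rw [Kn, abs_mul, Nat.abs_cast]
  calc (n : ℝ) * |∫ r in (0 : ℝ)..1, r ^ (n - 1) * Om n (r * (2 * Real.pi * z))|
      ≤ n * (2 * √2 * Real.exp (-(x0 ^ 2 / (2 * n)))) := mul_le_mul_of_nonneg_left h1 hn0.le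
    _ = _ := by ring

theorem Jb_le (n : ℕ) (ρ : ℝ) (φ : Fin n → ℝ) : |Jb n ρ φ| ≤ Vb n ρ := by
  have h := norm_setIntegral_le_of_norm_le_const (C := 1)
    (f := fun y => Real.cos (2 * Real.pi * dt φ y)) (Db_fin n ρ)
    (fun y _ => by
      rw [Real.norm_eq_abs]
      exact Real.abs_cos_le_one _)
  rw [Real.norm_eq_abs, one_mul] at h
  exact h

theorem Jb_even (n : ℕ) (ρ : ℝ) (φ : Fin n → ℝ) : Jb n ρ (-φ) = Jb n ρ φ := by
  rw [Jb, Jb]
  refine setIntegral_congr_fun (Db_meas n ρ) fun y _ => ?_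
  have : dt (-φ) y = -dt φ y := by
    simp [dt, Finset.sum_neg_distrib]
  simp only [this]
  rw [mul_neg, Real.cos_neg]

/-- the Riemann-Lebesgue lemma -/
theorem Kn_zero {n : ℕ} (hn : 3 ≤ n) : Tendsto (Kn n) atTop (𝓝 0) := by
  set e0 : Fin n → ℝ := Pi.single ⟨0, by omega⟩ 1 with he0
  have hnm : nm e0 = 1 := by
    rw [nm, dt, he0, Finset.sum_eq_single ⟨0, by omega⟩]
    · simp
    · intro j _ hj
      simp [Pi.single_eq_of_ne hj]
    · intro h
      exact absurd (Finset.mem_univ _) h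
  set V := EuclideanSpace ℝ (Fin n)
  set u : V := WithLp.toLp 2 e0 with hu
  have hun : ‖u‖ = 1 := by rw [hu, ← nm_toLp, hnm]
  set f : V → ℂ := (Metric.ball (0 : V) 1).indicator 1 with hf
  have h1 := tendsto_integral_exp_inner_smul_cocompact f
  have h2 : Tendsto (fun z : ℝ => z • u) atTop (cocompact V) := by
    rw [← Metric.cobounded_eq_cocompact, ← tendsto_norm_atTop_iff_cobounded]
    have : (fun z : ℝ => ‖z • u‖) = fun z => |z| := by
      funext z
      rw [norm_smul, hun, mul_one, Real.norm_eq_abs]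
    rw [this]
    exact tendsto_abs_atTop_atTop
  have h3 := h1.comp h2
  have h4 : Tendsto (fun z : ℝ => (∫ v, Real.fourierChar (-⟪v, z • u⟫) • f v).re) atTop (𝓝 0) := by
    have := (Complex.continuous_re.tendsto 0).comp h3
    rw [Complex.zero_re] at this
    exact this
  have h5 : ∀ z : ℝ, 0 < z → (∫ v, Real.fourierChar (-⟪v, z • u⟫) • f v).re = Vb n 1 * Kn n z := by
    intro z hz
    have h6 : (fun v : V => Real.fourierChar (-⟪v, z • u⟫) • f v) =
        (Metric.ball (0 : V) 1).indicator (fun v => ((Real.fourierChar (-⟪v, z • u⟫) : ℂ))) := by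
      funext v
      by_cases hv : v ∈ Metric.ball (0 : V) 1
      · rw [hf, indicator_of_mem hv, indicator_of_mem hv]
        simp [Circle.smul_def]
      · rw [hf, indicator_of_notMem hv, indicator_of_notMem hv]
        simp
    rw [h6, integral_indicator Metric.isOpen_ball.measurableSet]
    have hint : Integrable (fun v : V => ((Real.fourierChar (-⟪v, z • u⟫) : ℂ)))
        (volume.restrict (Metric.ball (0 : V) 1)) := by
      refine Measure.integrableOn_of_bounded (M := 1) measure_ball_lt_top.ne ?_ ?_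
      · refine Continuous.aestronglyMeasurable ?_
        exact continuous_subtype_val.comp (Real.continuous_fourierChar.comp (by fun_prop))
      · refine Filter.Eventually.of_forall fun x => ?_
        simp
    have h7 : (∫ v in Metric.ball (0 : V) 1, ((Real.fourierChar (-⟪v, z • u⟫) : ℂ))).re =
        ∫ v in Metric.ball (0 : V) 1, Real.cos (inner ℝ (WithLp.toLp 2 ((2 * Real.pi) • (z • e0)) : V) v) := by
      rw [← RCLike.re_eq_complex_re, ← integral_re hint]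
      refine integral_congr_ae (Filter.Eventually.of_forall fun v => ?_)
      simp only [RCLike.re_eq_complex_re]
      rw [Real.fourierChar_apply, Complex.exp_ofReal_mul_I_re]
      rw [mul_neg, Real.cos_neg]
      congr 1
      have h8 : (WithLp.toLp 2 ((2 * Real.pi) • (z • e0)) : V) = (2 * Real.pi) • (z • u) := by
        rw [hu]
        rfl
      rw [h8, inner_smul_left, real_inner_comm]
      simp
    rw [h7, ← Jb_eq0, Jb_eq hn one_pos, one_mul, nm_smul, hnm, mul_one, abs_of_pos hz]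
  have hV : 0 < Vb n 1 := Vb_pos one_pos
  have h6 : Tendsto (fun z : ℝ => Vb n 1 * Kn n z) atTop (𝓝 0) := by
    refine h4.congr' ?_
    filter_upwards [eventually_gt_atTop 0] with z hz
    exact h5 z hz
  have h7 := h6.const_mul (Vb n 1)⁻¹
  rw [mul_zero] at h7
  refine h7.congr fun z => ?_
  rw [← mul_assoc, inv_mul_cancel₀ hV.ne', one_mul]

end Pool.Agent.K4H71.RL
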