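import Pool.Agent.K4H71.TS.Str

/-! Bounds for the Fourier transform of the ball. -/

set_option autoImplicit false

namespace Pool.Agent.K4H71.RL

open MeasureTheory Set Pool.Agent.K4H71.TS

section radial
variable {n : ℕ} {F F1 F2 : ℝ → ℝ}

theorem F_sub (h : Radial n F F1 F2) (hn : 2 ≤ n) :
    ∀ x : ℝ, 0 ≤ x → x ≤ (n : ℝ) / 2 → n * F1 x + x * F x ≤ 0 := by
  obtain ⟨m, rfl⟩ : ∃ m, n = m + 2 := ⟨n - 2, by omega⟩
  have hd : ∀ x, HasDerivAt (fun x => ((m + 2 : ℕ) : ℝ) * (x ^ (m + 1) * F1 x) + x ^ (m + 2) * F x)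
      (x ^ (m + 2) * F1 x) x := by
    intro x
    have e1 : HasDerivAt (fun x : ℝ => x ^ (m + 1)) (((m + 1 : ℕ) : ℝ) * x ^ m) x := by
      simpa using hasDerivAt_pow (m + 1) x
    have e2 : HasDerivAt (fun x : ℝ => x ^ (m + 2)) (((m + 2 : ℕ) : ℝ) * x ^ (m + 1)) x := by
      simpa using hasDerivAt_pow (m + 2) x
    refine (((e1.mul (h.d2 x)).const_mul _).add (e2.mul (h.d1 x))).congr_deriv ?_
    have ho := h.ode x
    push_cast at ho ⊢
    have e3 : x ^ (m + 1) = x ^ m * x := pow_succ x m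
    have e4 : x ^ (m + 2) = x ^ m * x * x := by rw [pow_succ, pow_succ]
    rw [e3, e4]
    linear_combination ((m : ℝ) + 2) * (x ^ m) * ho
  have hanti : AntitoneOn (fun x => ((m + 2 : ℕ) : ℝ) * (x ^ (m + 1) * F1 x) + x ^ (m + 2) * F x)
      (Set.Icc 0 (((m + 2 : ℕ) : ℝ) / 2)) := by
    refine antitoneOn_of_hasDerivWithinAt_nonpos (convex_Icc _ _)
      (fun x _ => (hd x).continuousAt.continuousWithinAt) (fun x hx => (hd x).hasDerivWithinAt) ?_
    intro x hx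
    rw [interior_Icc] at hx
    have h1 := h.dec hn x hx.1.le hx.2.le
    have h2 : 0 ≤ x ^ (m + 2) := pow_nonneg hx.1.le _
    exact mul_nonpos_of_nonneg_of_nonpos h2 h1
  intro x hx hx2
  rcases hx.eq_or_lt with rfl | hx0
  · rw [h.zero1]
    simp
  · have h1 := hanti ⟨le_rfl, by positivity⟩ ⟨hx, hx2⟩ hx
    simp only [ne_eq, Nat.add_eq_zero_iff, one_ne_zero, and_false, not_false_eq_true, zero_pow,
      zero_mul, OfNat.ofNat_ne_zero, mul_zero, add_zero] at h1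
    have h3 : 0 < x ^ (m + 1) := by positivity
    have h4 : x ^ (m + 1) * (((m + 2 : ℕ) : ℝ) * F1 x + x * F x) ≤ 0 := by
      refine le_trans (le_of_eq ?_) h1
      rw [pow_succ x (m + 1)]
      ring
    by_contra hc
    push Not at hc
    have := mul_pos h3 hc
    linarith

theorem F_up (h : Radial n F F1 F2) (hn : 2 ≤ n) {x : ℝ} (hx : 0 ≤ x) (hx2 : x ≤ (n : ℝ) / 2) :
    F x ≤ Real.exp (-(x ^ 2 / (2 * n))) := by
  have hn0 : (0 : ℝ) < n := by positivity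
  have hd : ∀ x, HasDerivAt (fun x => Real.exp (x ^ 2 / (2 * n)) * F x)
      (Real.exp (x ^ 2 / (2 * n)) * (F1 x + x / n * F x)) x := by
    intro x
    have e2 : HasDerivAt (fun x : ℝ => Real.exp (x ^ 2 / (2 * n)))
        (Real.exp (x ^ 2 / (2 * n)) * (x / n)) x := by
      have := ((hasDerivAt_pow 2 x).div_const (2 * n : ℝ)).exp
      refine this.congr_deriv ?_
      simp only [Nat.cast_ofNat, Nat.add_one_sub_one, pow_one]
      field_simp
    refine (e2.mul (h.d1 x)).congr_deriv ?_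
    ring
  have hanti : AntitoneOn (fun x => Real.exp (x ^ 2 / (2 * n)) * F x) (Set.Icc 0 ((n : ℝ) / 2)) := by
    refine antitoneOn_of_hasDerivWithinAt_nonpos (convex_Icc _ _)
      (fun x _ => (hd x).continuousAt.continuousWithinAt) (fun x hx => (hd x).hasDerivWithinAt) ?_
    intro x hx
    rw [interior_Icc] at hx
    have h1 := F_sub h hn x hx.1.le hx.2.le
    refine mul_nonpos_of_nonneg_of_nonpos (Real.exp_pos _).le ?_
    have h2 : F1 x + x / n * F x = (n * F1 x + x * F x) / n := by field_simp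
    rw [h2]
    exact div_nonpos_of_nonpos_of_nonneg h1 hn0.le
  have h1 := hanti ⟨le_rfl, by positivity⟩ ⟨hx, hx2⟩ hx
  simp only [ne_eq, OfNat.ofNat_ne_zero, not_false_eq_true, zero_pow, zero_div, Real.exp_zero,
    one_mul, h.zero] at h1
  rw [Real.exp_neg]
  rw [← one_div, le_div_iff₀ (Real.exp_pos _), mul_comm]
  exact h1

theorem F_low (h : Radial n F F1 F2) (hn : 2 ≤ n) {x : ℝ} (hx : 0 ≤ x) (hx2 : x ≤ (n : ℝ) / 2) :
    Real.exp (-(x ^ 2 / n)) ≤ F x := by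
  have h1 := h.growth hn le_rfl hx hx2
  rw [h.zero] at h1
  rw [Real.exp_neg, ← one_div, div_le_iff₀ (Real.exp_pos _), mul_comm]
  simpa using h1

theorem F_le_one (h : Radial n F F1 F2) (hn : 2 ≤ n) {x : ℝ} (hx : 0 ≤ x)
    (hx2 : x ≤ (n : ℝ) / 2) : F x ≤ 1 := by
  have h1 := h.anti hn le_rfl hx hx2
  rwa [h.zero] at h1

/-- a bound in terms of a threshold `x0 ≤ n / 2` -/
theorem F_far (h : Radial n F F1 F2) (hn : 2 ≤ n) {x x0 t : ℝ} (hx0 : 0 ≤ x0)
    (hx0n : x0 ≤ (n : ℝ) / 2) (ht0 : 0 ≤ t) (ht1 : t ≤ 1) (hx : t * x0 ≤ x) :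
    |F x| ≤ √2 * Real.exp (-(t ^ 2 * (x0 ^ 2 / (2 * n)))) := by
  have hn0 : (0 : ℝ) < n := by positivity
  have hs2 : 1 ≤ √2 := by
    rw [Real.one_le_sqrt]
    norm_num
  have htx : 0 ≤ t * x0 := mul_nonneg ht0 hx0
  rcases le_or_gt x ((n : ℝ) / 2) with hxn | hxn
  · have h1 := F_up h hn (htx.trans hx) hxn
    have h2 := h.pos hn x (htx.trans hx) hxn
    rw [abs_of_pos h2]
    have h3 : Real.exp (-(x ^ 2 / (2 * n))) ≤ Real.exp (-(t ^ 2 * (x0 ^ 2 / (2 * n)))) := by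
      apply Real.exp_le_exp.2
      rw [neg_le_neg_iff]
      have h4 : (t * x0) ^ 2 ≤ x ^ 2 := pow_le_pow_left₀ htx hx 2
      calc t ^ 2 * (x0 ^ 2 / (2 * n)) = (t * x0) ^ 2 / (2 * n) := by ring
        _ ≤ x ^ 2 / (2 * n) := div_le_div_of_nonneg_right h4 (by positivity)
    calc F x ≤ 1 * Real.exp (-(t ^ 2 * (x0 ^ 2 / (2 * n)))) := by linarith
      _ ≤ _ := mul_le_mul_of_nonneg_right hs2 (Real.exp_pos _).le
  · refine (h.far hn hxn.le).trans ?_
    refine mul_le_mul_of_nonneg_left ?_ (by positivity)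
    refine (F_up h hn (by positivity) le_rfl).trans ?_
    apply Real.exp_le_exp.2
    rw [neg_le_neg_iff]
    have h4 : (t * x0) ^ 2 ≤ ((n : ℝ) / 2) ^ 2 := by
      refine pow_le_pow_left₀ htx ?_ 2
      calc t * x0 ≤ 1 * x0 := mul_le_mul_of_nonneg_right ht1 hx0
        _ ≤ _ := by linarith
    calc t ^ 2 * (x0 ^ 2 / (2 * n)) = (t * x0) ^ 2 / (2 * n) := by ring
      _ ≤ ((n : ℝ) / 2) ^ 2 / (2 * n) := div_le_div_of_nonneg_right h4 (by positivity)

end radial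

/-- the transform of the ball of radius one, normalised: small frequencies -/
theorem ball_low {n : ℕ} (hn : 3 ≤ n) {κ : ℝ} (hκ : 0 ≤ κ) (hκn : κ ≤ (n : ℝ) / 2) :
    Real.exp (-(κ ^ 2 / n)) / n ≤ ∫ r in (0 : ℝ)..1, r ^ (n - 1) * Om n (r * κ) := by
  have hO := Om_radial hn
  have hn0 : (0 : ℝ) < n := by positivity
  have h1 : ∫ r in (0 : ℝ)..1, r ^ (n - 1) * Real.exp (-(κ ^ 2 / n)) = Real.exp (-(κ ^ 2 / n)) / n := by
    rw [intervalIntegral.integral_mul_const, integral_pow]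
    have h1 : n - 1 + 1 = n := by omega
    have h2 : ((n - 1 : ℕ) : ℝ) + 1 = n := by exact_mod_cast h1
    rw [h1, h2, one_pow, zero_pow (by omega), sub_zero]
    ring
  rw [← h1]
  refine intervalIntegral.integral_mono_on zero_le_one ?_ ?_ ?_
  · exact Continuous.intervalIntegrable (by fun_prop) _ _
  · refine Continuous.intervalIntegrable ?_ _ _
    exact (continuous_pow _).mul (hO.cont.comp (by fun_prop))
  · intro r hr
    refine mul_le_mul_of_nonneg_left ?_ (pow_nonneg hr.1 _)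
    have hrκ : r * κ ≤ κ := by nlinarith [hr.2]
    have h2 := F_low hO (by omega) (mul_nonneg hr.1 hκ) (hrκ.trans hκn)
    refine le_trans ?_ h2
    apply Real.exp_le_exp.2
    rw [neg_le_neg_iff]
    exact div_le_div_of_nonneg_right (pow_le_pow_left₀ (mul_nonneg hr.1 hκ) hrκ 2) hn0.le

theorem ball_far {n : ℕ} (hn : 3 ≤ n) {κ x0 : ℝ} (hx0 : 0 ≤ x0) (hx0n : x0 ≤ (n : ℝ) / 2)
    (hκ : x0 ≤ κ) :
    |∫ r in (0 : ℝ)..1, r ^ (n - 1) * Om n (r * κ)| ≤ 2 * √2 * Real.exp (-(x0 ^ 2 / (2 * n))) := by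
  have hO := Om_radial hn
  have hn0 : (0 : ℝ) < n := by positivity
  have h1 : ∀ r ∈ Set.uIoc (0 : ℝ) 1, ‖r ^ (n - 1) * Om n (r * κ)‖ ≤
      2 * √2 * Real.exp (-(x0 ^ 2 / (2 * n))) := by
    intro r hr
    rw [Set.uIoc_of_le zero_le_one] at hr
    have hr0 := hr.1.le
    rw [norm_mul, Real.norm_eq_abs, Real.norm_eq_abs, abs_of_nonneg (pow_nonneg hr0 _)]
    have h2 := F_far hO (by omega) hx0 hx0n hr0 hr.2
      (show r * x0 ≤ r * κ from mul_le_mul_of_nonneg_left hκ hr0)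
    have h3 := small_pow (n := n) (by omega) hr0 hr.2
    have h4 : Real.exp (-(r ^ 2 * (x0 ^ 2 / (2 * n)))) ≤
        Real.exp ((n : ℝ) / 4 * (1 - r ^ 2)) * Real.exp (-(x0 ^ 2 / (2 * n))) := by
      rw [← Real.exp_add]
      apply Real.exp_le_exp.2
      have h5 : x0 ^ 2 / (2 * n) ≤ n / 4 := by
        rw [div_le_iff₀ (by positivity)]
        nlinarith
      have h6 : r ^ 2 ≤ 1 := pow_le_one₀ hr0 hr.2
      nlinarith
    calc r ^ (n - 1) * |Om n (r * κ)|
        ≤ r ^ (n - 1) * (√2 * (Real.exp ((n : ℝ) / 4 * (1 - r ^ 2)) *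
          Real.exp (-(x0 ^ 2 / (2 * n))))) := by
          refine mul_le_mul_of_nonneg_left ?_ (pow_nonneg hr0 _)
          exact h2.trans (mul_le_mul_of_nonneg_left h4 (by positivity))
      _ = (r ^ (n - 1) * Real.exp ((n : ℝ) / 4 * (1 - r ^ 2))) *
          (√2 * Real.exp (-(x0 ^ 2 / (2 * n)))) := by ring
      _ ≤ 2 * (√2 * Real.exp (-(x0 ^ 2 / (2 * n)))) :=
          mul_le_mul_of_nonneg_right h3 (by positivity)
      _ = _ := by ring
  have h2 := intervalIntegral.norm_integral_le_of_norm_le_const h1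
  simpa using h2

end Pool.Agent.K4H71.RL
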