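import Pool.Agent.K4H71.RL.Cls

/-! Classes of large index; summing over the classes. -/

set_option autoImplicit false

namespace Pool.Agent.K4H71.RL

open Finset Module Submodule

section
variable {p : ℕ} [Fact p.Prime]

open Classical in
theorem fib_le {k n r N : ℕ} {ι : Fin r → Fin k} {C : Fin k → Fin r → ℚ}
    {K : Submodule ℚ (Fin k → ℚ)} (hT : IsT n ι C K) :
    ((bxt k n N).filter (fun X => Kx X = K)).card ≤
      ((bx r N).filter (fun z => z ∈ MC C)).card ^ n := by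
  refine le_trans (Finset.card_le_card ?_) (rel_card ι C N)
  intro X hX
  obtain ⟨hX1, hX2⟩ := Finset.mem_filter.1 hX
  exact Finset.mem_filter.2 ⟨hX1, ((hT.2.2 X).1 hX2).1⟩

open Classical in
theorem fib_res {k n r N : ℕ} {ι : Fin r → Fin k} {C : Fin k → Fin r → ℚ}
    {K : Submodule ℚ (Fin k → ℚ)} (hT : IsT n ι C K) :
    ((bxt k n N).filter (fun X => Kx X = K)).card * (MC C).index ^ n ≤
      ((2 * N + (MC C).index) ^ r) ^ n := by
  calc ((bxt k n N).filter (fun X => Kx X = K)).card * (MC C).index ^ n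
      ≤ ((bx r N).filter (fun z => z ∈ MC C)).card ^ n * (MC C).index ^ n :=
        Nat.mul_le_mul_right _ (fib_le hT)
    _ = (((bx r N).filter (fun z => z ∈ MC C)).card * (MC C).index) ^ n := (mul_pow _ _ _).symm
    _ ≤ _ := Nat.pow_le_pow_left (count_res _ (MC_index C) N) n

open Classical in
theorem fib_span {k n r N : ℕ} {ι : Fin r → Fin k} {C : Fin k → Fin r → ℚ}
    {K : Submodule ℚ (Fin k → ℚ)} (hT : IsT n ι C K) :
    ((bxt k n N).filter (fun X => Kx X = K)).card * (MC C).index ^ n ≤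
      ((2 * ((r + 1) * N) + 1) ^ r) ^ n := by
  rcases ((bxt k n N).filter (fun X => Kx X = K)).eq_empty_or_nonempty with he | ⟨X, hX⟩
  · rw [he]
    simp
  obtain ⟨hX1, hX2⟩ := Finset.mem_filter.1 hX
  obtain ⟨hR, hI⟩ := (hT.2.2 X).1 hX2
  obtain ⟨c, hc⟩ := col_basis (fun i => X (ι i)) hI
  calc ((bxt k n N).filter (fun X => Kx X = K)).card * (MC C).index ^ n
      ≤ ((bx r N).filter (fun z => z ∈ MC C)).card ^ n * (MC C).index ^ n :=
        Nat.mul_le_mul_right _ (fib_le hT)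
    _ = (((bx r N).filter (fun z => z ∈ MC C)).card * (MC C).index) ^ n := (mul_pow _ _ _).symm
    _ ≤ _ := Nat.pow_le_pow_left (count_span _ (MC_index C) N (fun i => cols ι X (c i))
        (fun i => hR.mem _) (fun i => mem_bx.2 fun j => mem_bx.1 (mem_bxt.1 hX1 (ι j)) _) hc) n

theorem SK_mid {k n r N : ℕ} {ι : Fin r → Fin k} {C : Fin k → Fin r → ℚ}
    {K : Submodule ℚ (Fin k → ℚ)} (hT : IsT n ι C K)
    (h : (Fin n → ℤ) → ℝ) {b T : ℝ} (hb : ∀ x, |h x| ≤ b) (hp2 : r.factorial * (n * N ^ 2) ^ r < p)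
    (hN : 1 ≤ N) (hT1 : 1 ≤ T) (hNT : (N : ℝ) ^ n ≤ T ^ n * p)
    (hg : k * n * (MC C).index ≤ N) :
    |SK p N h K| * (MC C).index ^ n ≤ p ^ n * (2 * b ^ k * (2 * T) ^ (k * n)) := by
  have hp0 : (0 : ℝ) < p := by exact_mod_cast (Fact.out : p.Prime).pos
  have hb0 : 0 ≤ b := (abs_nonneg _).trans (hb 0)
  have hrk := hT.le
  set g := (MC C).index with hgd
  have hN0 : (0 : ℝ) < N := by exact_mod_cast hN
  have h1 : (((bxt k n N).filter (fun X => Kx X = K)).card : ℝ) * (g : ℝ) ^ n ≤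
      ((2 * N + g : ℝ) ^ r) ^ n := by
    exact_mod_cast fib_res (N := N) hT
  have h2 : ((2 * N + g : ℝ) ^ r) ^ n ≤ 2 * ((2 * T) ^ (k * n) * p ^ r) := by
    have h3 : (2 * N + g : ℝ) = (2 * N) * (1 + g / (2 * N)) := by field_simp
    have h4 : (1 + g / (2 * N) : ℝ) ^ (r * n) ≤ 2 := by
      have h5 : (1 + g / (2 * N) : ℝ) ≤ Real.exp (g / (2 * N)) := by
        rw [add_comm]
        exact Real.add_one_le_exp _
      have h6 : (0 : ℝ) ≤ 1 + g / (2 * N) := by positivity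
      calc (1 + g / (2 * N) : ℝ) ^ (r * n) ≤ (Real.exp (g / (2 * N))) ^ (r * n) :=
            pow_le_pow_left₀ h6 h5 _
        _ = Real.exp ((r * n : ℕ) * (g / (2 * N))) := by rw [← Real.exp_nat_mul]
        _ ≤ Real.exp (1 / 2) := by
            apply Real.exp_le_exp.2
            have h7 : ((r * n : ℕ) : ℝ) * g ≤ N := by
              have h8 : r * n * g ≤ N := le_trans
                (Nat.mul_le_mul_right _ (Nat.mul_le_mul_right _ hrk)) hg
              exact_mod_cast h8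
            calc ((r * n : ℕ) : ℝ) * (g / (2 * N)) = (((r * n : ℕ) : ℝ) * g) / (2 * N) := by ring
              _ ≤ N / (2 * N) := div_le_div_of_nonneg_right h7 (by positivity)
              _ = 1 / 2 := by field_simp
        _ ≤ 2 := by
            have h9 : Real.exp (1 / 2) ^ 2 = Real.exp 1 := by
              rw [← Real.exp_nat_mul]
              norm_num
            have h10 := Real.exp_one_lt_d9
            nlinarith [Real.exp_pos (1 / 2)]
    have h5 : (2 * N : ℝ) ^ (r * n) ≤ (2 * T) ^ (k * n) * p ^ r := by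
      calc (2 * N : ℝ) ^ (r * n) = (2 ^ n * (N : ℝ) ^ n) ^ r := by
            rw [← mul_pow, ← pow_mul, mul_comm n r]
        _ ≤ (2 ^ n * (T ^ n * p)) ^ r := by
            refine pow_le_pow_left₀ (by positivity) ?_ _
            exact mul_le_mul_of_nonneg_left hNT (by positivity)
        _ = (2 * T) ^ (r * n) * p ^ r := by
            rw [← mul_assoc, ← mul_pow 2 T n, mul_pow, ← pow_mul, mul_comm n r]
        _ ≤ (2 * T) ^ (k * n) * p ^ r := by
            refine mul_le_mul_of_nonneg_right ?_ (pow_nonneg hp0.le _)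
            exact pow_le_pow_right₀ (by linarith) (Nat.mul_le_mul_right _ hrk)
    calc ((2 * N + g : ℝ) ^ r) ^ n = (2 * N : ℝ) ^ (r * n) * (1 + g / (2 * N) : ℝ) ^ (r * n) := by
          rw [← mul_pow, ← h3, pow_mul]
      _ ≤ ((2 * T) ^ (k * n) * p ^ r) * 2 := by
          have : (0 : ℝ) ≤ (1 + g / (2 * N) : ℝ) ^ (r * n) := by positivity
          exact mul_le_mul h5 h4 this (by positivity)
      _ = _ := by ring
  have h3 := SK_abs (p := p) (N := N) hT h hb hp2
  have hpr : (0 : ℝ) < (p : ℝ) ^ r := pow_pos hp0 r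
  have h4 : (|SK p N h K| * (g : ℝ) ^ n) * p ^ r ≤
      (p ^ n * (2 * b ^ k * (2 * T) ^ (k * n))) * p ^ r := by
    calc (|SK p N h K| * (g : ℝ) ^ n) * p ^ r = (|SK p N h K| * p ^ r) * (g : ℝ) ^ n := by ring
      _ ≤ (p ^ n * (b ^ k * (((bxt k n N).filter (fun X => Kx X = K)).card : ℝ))) * (g : ℝ) ^ n :=
          mul_le_mul_of_nonneg_right h3 (by positivity)
      _ = p ^ n * b ^ k * ((((bxt k n N).filter (fun X => Kx X = K)).card : ℝ) * (g : ℝ) ^ n) := by
          ring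
      _ ≤ p ^ n * b ^ k * (2 * ((2 * T) ^ (k * n) * p ^ r)) :=
          mul_le_mul_of_nonneg_left (h1.trans h2) (by positivity)
      _ = _ := by ring
  exact le_of_mul_le_mul_right h4 hpr

theorem SK_far {k n r N : ℕ} {ι : Fin r → Fin k} {C : Fin k → Fin r → ℚ}
    {K : Submodule ℚ (Fin k → ℚ)} (hT : IsT n ι C K)
    (h : (Fin n → ℤ) → ℝ) {b T : ℝ} (hb : ∀ x, |h x| ≤ b) (hp2 : r.factorial * (n * N ^ 2) ^ r < p)
    (hN : 1 ≤ N) (hT1 : 1 ≤ T) (hNT : (N : ℝ) ^ n ≤ T ^ n * p) :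
    |SK p N h K| * (MC C).index ^ n ≤ p ^ n * (b ^ k * ((2 * k + 3) * T) ^ (k * n)) := by
  have hp0 : (0 : ℝ) < p := by exact_mod_cast (Fact.out : p.Prime).pos
  have hb0 : 0 ≤ b := (abs_nonneg _).trans (hb 0)
  have hrk := hT.le
  set g := (MC C).index with hgd
  have h1 : (((bxt k n N).filter (fun X => Kx X = K)).card : ℝ) * (g : ℝ) ^ n ≤
      ((2 * ((r + 1) * N) + 1 : ℝ) ^ r) ^ n := by
    exact_mod_cast fib_span (N := N) hT
  have hN1 : (1 : ℝ) ≤ N := by exact_mod_cast hN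
  have h2 : ((2 * ((r + 1) * N) + 1 : ℝ) ^ r) ^ n ≤ ((2 * k + 3) * T) ^ (k * n) * p ^ r := by
    have hrk' : (r : ℝ) ≤ k := by exact_mod_cast hrk
    have h3 : (2 * ((r + 1) * N) + 1 : ℝ) ≤ (2 * k + 3) * N := by nlinarith
    calc ((2 * ((r + 1) * N) + 1 : ℝ) ^ r) ^ n ≤ (((2 * k + 3) * N : ℝ) ^ r) ^ n := by
          refine pow_le_pow_left₀ (by positivity) (pow_le_pow_left₀ (by positivity) h3 _) _
      _ = ((2 * k + 3 : ℝ) ^ n * (N : ℝ) ^ n) ^ r := by
          rw [← mul_pow, ← pow_mul, ← pow_mul, mul_comm n r]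
      _ ≤ ((2 * k + 3 : ℝ) ^ n * (T ^ n * p)) ^ r := by
          refine pow_le_pow_left₀ (by positivity) ?_ _
          exact mul_le_mul_of_nonneg_left hNT (by positivity)
      _ = ((2 * k + 3) * T) ^ (r * n) * p ^ r := by
          rw [← mul_assoc, ← mul_pow _ T n, mul_pow _ (p : ℝ), ← pow_mul, mul_comm n r]
      _ ≤ _ := by
          refine mul_le_mul_of_nonneg_right ?_ (pow_nonneg hp0.le _)
          refine pow_le_pow_right₀ ?_ (Nat.mul_le_mul_right _ hrk)
          have : (0 : ℝ) ≤ k := Nat.cast_nonneg _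
          nlinarith
  have h3 := SK_abs (p := p) (N := N) hT h hb hp2
  have hpr : (0 : ℝ) < (p : ℝ) ^ r := pow_pos hp0 r
  have h4 : (|SK p N h K| * (g : ℝ) ^ n) * p ^ r ≤
      (p ^ n * (b ^ k * ((2 * k + 3) * T) ^ (k * n))) * p ^ r := by
    calc (|SK p N h K| * (g : ℝ) ^ n) * p ^ r = (|SK p N h K| * p ^ r) * (g : ℝ) ^ n := by ring
      _ ≤ (p ^ n * (b ^ k * (((bxt k n N).filter (fun X => Kx X = K)).card : ℝ))) * (g : ℝ) ^ n :=
          mul_le_mul_of_nonneg_right h3 (by positivity)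
      _ = p ^ n * b ^ k * ((((bxt k n N).filter (fun X => Kx X = K)).card : ℝ) * (g : ℝ) ^ n) := by
          ring
      _ ≤ p ^ n * b ^ k * (((2 * k + 3) * T) ^ (k * n) * p ^ r) :=
          mul_le_mul_of_nonneg_left (h1.trans h2) (by positivity)
      _ = _ := by ring
  exact le_of_mul_le_mul_right h4 hpr

end

theorem sum_bi {α : Type*} [DecidableEq α] (s : Finset ℕ) (t : ℕ → Finset α) (f : α → ℝ)
    (hf : ∀ a, 0 ≤ f a) : ∑ a ∈ s.biUnion t, f a ≤ ∑ i ∈ s, ∑ a ∈ t i, f a := by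
  classical
  induction s using Finset.induction_on with
  | empty => simp
  | insert i s hi ih =>
    rw [Finset.biUnion_insert, Finset.sum_insert hi]
    have h1 := Finset.sum_union_inter (s₁ := t i) (s₂ := s.biUnion t) (f := f)
    have h2 : 0 ≤ ∑ a ∈ t i ∩ s.biUnion t, f a := Finset.sum_nonneg fun a _ => hf a
    linarith

/-- summing over the classes -/
theorem sum_classes {n k : ℕ} (hk : 1 ≤ k) (KK : Finset (Submodule ℚ (Fin k → ℚ)))
    (hKK : ∀ K ∈ KK, ∃ X0 : Fin k → Fin n → ℤ, Kx X0 = K)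
    (W : Submodule ℚ (Fin k → ℚ) → ℝ) (w : ℕ → ℝ) (hw : ∀ g, 0 ≤ w g)
    (hW : ∀ (r : ℕ) (ι : Fin r → Fin k) (C : Fin k → Fin r → ℚ) (K : Submodule ℚ (Fin k → ℚ)),
      IsT n ι C K → W K ≤ w (MC C).index) {A : ℝ}
    (hA : ∀ r ≤ k, ∀ S : Finset (Fin k → Fin r → ℚ), (∀ C ∈ S, ∀ e i, |C e i| ≤ 1) →
      ∑ C ∈ S, w (MC C).index ≤ A) :
    ∑ K ∈ KK, W K ≤ (k + 1) * k ^ k * A := by
  classical
  have hA0 : 0 ≤ A := by
    have := hA 0 (Nat.zero_le _) ∅ (by simp)
    simpa using this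
  set W' : Submodule ℚ (Fin k → ℚ) → ℝ := fun K => max (W K) 0 with hW'
  have hW'1 : ∀ K, W K ≤ W' K := fun K => le_max_left _ _
  have hW'0 : ∀ K, 0 ≤ W' K := fun K => le_max_right _ _
  have hW'2 : ∀ (r : ℕ) (ι : Fin r → Fin k) (C : Fin k → Fin r → ℚ)
      (K : Submodule ℚ (Fin k → ℚ)), IsT n ι C K → W' K ≤ w (MC C).index :=
    fun r ι C K h => max_le (hW r ι C K h) (hw _)
  set KR : ℕ → Finset (Submodule ℚ (Fin k → ℚ)) := fun r => KK.filter
    (fun K => ∃ (ι : Fin r → Fin k) (C : Fin k → Fin r → ℚ), IsT n ι C K) with hKR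
  have h1 : KK ⊆ (Finset.range (k + 1)).biUnion KR := by
    intro K hK
    obtain ⟨X0, hX0⟩ := hKK K hK
    obtain ⟨r, ι, C, hT⟩ := type_exists X0
    rw [hX0] at hT
    rw [Finset.mem_biUnion]
    refine ⟨r, ?_, Finset.mem_filter.2 ⟨hK, ι, C, hT⟩⟩
    have := hT.le
    rw [Finset.mem_range]
    omega
  have h2 : ∀ r ∈ Finset.range (k + 1), ∑ K ∈ KR r, W' K ≤ k ^ k * A := by
    intro r hr
    have hrk : r ≤ k := by
      rw [Finset.mem_range] at hr
      omega
    have hd : ∀ K, ∃ d : (Fin r → Fin k) × (Fin k → Fin r → ℚ), K ∈ KR r → IsT n d.1 d.2 K := by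
      intro K
      by_cases hK : K ∈ KR r
      · obtain ⟨-, ι, C, hT⟩ := Finset.mem_filter.1 hK
        exact ⟨(ι, C), fun _ => hT⟩
      · exact ⟨(fun _ => ⟨0, hk⟩, fun _ _ => 0), fun h => absurd h hK⟩
    choose d hd using hd
    calc ∑ K ∈ KR r, W' K ≤ ∑ K ∈ KR r, w (MC (d K).2).index :=
          Finset.sum_le_sum fun K hK => hW'2 r _ _ K (hd K hK)
      _ = ∑ ι : Fin r → Fin k, ∑ K ∈ KR r with (d K).1 = ι, w (MC (d K).2).index :=
          (Finset.sum_fiberwise_of_maps_to (fun _ _ => Finset.mem_univ _) _).symm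
      _ ≤ ∑ _ι : Fin r → Fin k, A := by
          refine Finset.sum_le_sum fun ι _ => ?_
          have h3 : ∑ K ∈ KR r with (d K).1 = ι, w (MC (d K).2).index =
              ∑ C ∈ ((KR r).filter (fun K => (d K).1 = ι)).image (fun K => (d K).2),
                w (MC C).index := by
            rw [Finset.sum_image]
            intro K hK K' hK' hKK'
            obtain ⟨hK1, hK2⟩ := Finset.mem_filter.1 hK
            obtain ⟨hK'1, hK'2⟩ := Finset.mem_filter.1 hK'
            obtain ⟨X0, hX0⟩ := hKK K (Finset.mem_filter.1 hK1).1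
            have e1 := (hd K hK1).2.2 X0
            have e2 := (hd K' hK'1).2.2 X0
            simp only at hKK'
            rw [hK2, hKK'] at e1
            rw [hK'2] at e2
            rw [← hX0]
            exact e2.2 (e1.1 hX0)
          rw [h3]
          refine hA r hrk _ ?_
          intro C hC
          obtain ⟨K, hK, rfl⟩ := Finset.mem_image.1 hC
          exact (hd K (Finset.mem_filter.1 hK).1).1
      _ = (k : ℝ) ^ r * A := by
          rw [Finset.sum_const, Finset.card_univ, nsmul_eq_mul]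
          simp
      _ ≤ k ^ k * A := by
          refine mul_le_mul_of_nonneg_right ?_ hA0
          exact pow_le_pow_right₀ (by exact_mod_cast hk) hrk
  calc ∑ K ∈ KK, W K ≤ ∑ K ∈ KK, W' K := Finset.sum_le_sum fun K _ => hW'1 K
    _ ≤ ∑ K ∈ (Finset.range (k + 1)).biUnion KR, W' K :=
        Finset.sum_le_sum_of_subset_of_nonneg h1 fun K _ _ => hW'0 K
    _ ≤ ∑ r ∈ Finset.range (k + 1), ∑ K ∈ KR r, W' K := sum_bi _ _ _ hW'0
    _ ≤ ∑ _r ∈ Finset.range (k + 1), (k ^ k * A : ℝ) := Finset.sum_le_sum h2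
    _ = _ := by
        rw [Finset.sum_const, Finset.card_range, nsmul_eq_mul]
        push_cast
        ring

end Pool.Agent.K4H71.RL
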