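import Pool.Agent.K4H71.RL.Gam

/-! Exponential sums over the lattice points of a ball. -/

set_option autoImplicit false

namespace Pool.Agent.K4H71.RL

open MeasureTheory Finset Filter Topology

theorem nm_add {n : ℕ} (a b : Fin n → ℝ) : nm (a + b) ≤ nm a + nm b := by
  rw [nm_toLp, nm_toLp, nm_toLp]
  have : (WithLp.toLp 2 (a + b) : EuclideanSpace ℝ (Fin n)) = WithLp.toLp 2 a + WithLp.toLp 2 b := rfl
  rw [this]
  exact norm_add_le _ _

theorem nm_neg {n : ℕ} (a : Fin n → ℝ) : nm (-a) = nm a := by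
  simp [nm, dt]

theorem dt_le {n : ℕ} (a b : Fin n → ℝ) : |dt a b| ≤ nm a * nm b := by
  rw [← inner_toLp, nm_toLp, nm_toLp]
  exact abs_real_inner_le_norm _ _

theorem nm_cube {n : ℕ} {κ : ℝ} (hκ : 0 ≤ κ) {u : Fin n → ℝ} (hu : u ∈ Qc n κ) :
    nm u ≤ √n * κ := by
  have h1 : dt u u ≤ n * κ ^ 2 := by
    rw [dt]
    calc ∑ i, u i * u i ≤ ∑ _i : Fin n, κ ^ 2 := by
          refine Finset.sum_le_sum fun i _ => ?_
          have h2 := hu i (Set.mem_univ i)
          have h3 : |u i| ≤ κ := abs_le.2 ⟨h2.1.le, h2.2⟩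
          calc u i * u i = |u i| ^ 2 := by rw [sq_abs]; ring
            _ ≤ κ ^ 2 := pow_le_pow_left₀ (abs_nonneg _) h3 2
      _ = _ := by simp
  rw [nm]
  calc √(dt u u) ≤ √(n * κ ^ 2) := Real.sqrt_le_sqrt h1
    _ = √n * κ := by rw [Real.sqrt_mul (Nat.cast_nonneg _), Real.sqrt_sq hκ]

theorem Vb_scale {n : ℕ} {ρ : ℝ} (hρ : 0 < ρ) : Vb n ρ = ρ ^ n * Vb n 1 := by
  rw [Vb, Vb, Vb_eq, Vb_eq, Measure.addHaar_ball_of_pos _ _ hρ, ENNReal.toReal_mul,
    ENNReal.toReal_ofReal (by positivity)]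
  simp

theorem Vb_mono {n : ℕ} {ρ σ : ℝ} (h : ρ ≤ σ) : Vb n ρ ≤ Vb n σ := by
  rw [Vb, Vb]
  refine ENNReal.toReal_mono (Db_fin n σ).ne (measure_mono ?_)
  intro y hy
  exact lt_of_lt_of_le hy h

/-- the one dimensional factor -/
noncomputable def s1 (t : ℝ) : ℝ := ∫ u in Set.Ioc (-(1 / 2) : ℝ) (1 / 2), Real.cos (2 * Real.pi * (t * u))

noncomputable def Sc {n : ℕ} (φ : Fin n → ℝ) : ℝ := ∏ i, s1 (φ i)

theorem s1_c (t : ℝ) : ∫ u in Set.Ioc (-(1 / 2) : ℝ) (1 / 2),
    Complex.exp ((2 * Real.pi * (t * u) : ℝ) * Complex.I) = ((s1 t : ℝ) : ℂ) := by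
  have h0 : ∫ u in Set.Ioc (-(1 / 2) : ℝ) (1 / 2), Real.sin (2 * Real.pi * (t * u)) = 0 := by
    rw [← intervalIntegral.integral_of_le (by norm_num)]
    have h1 := intervalIntegral.integral_comp_neg (a := (-(1 / 2) : ℝ)) (b := 1 / 2)
      (fun u => Real.sin (2 * Real.pi * (t * u)))
    rw [neg_neg] at h1
    have h2 : ∫ u in (-(1 / 2) : ℝ)..(1 / 2), Real.sin (2 * Real.pi * (t * -u)) =
        -∫ u in (-(1 / 2) : ℝ)..(1 / 2), Real.sin (2 * Real.pi * (t * u)) := by
      rw [← intervalIntegral.integral_neg]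
      refine intervalIntegral.integral_congr fun u _ => ?_
      rw [mul_neg, mul_neg, Real.sin_neg]
    rw [h2] at h1
    linarith
  have hi : ∀ f : ℝ → ℝ, Continuous f →
      Integrable (fun u => ((f u : ℝ) : ℂ)) (volume.restrict (Set.Ioc (-(1 / 2) : ℝ) (1 / 2))) := by
    intro f hf
    have := ((Complex.continuous_ofReal.comp hf).integrableOn_Icc (a := (-(1 / 2) : ℝ)) (b := 1 / 2)
      (μ := volume)).mono_set Set.Ioc_subset_Icc_self
    exact this
  have h1 : ∀ u : ℝ, Complex.exp ((2 * Real.pi * (t * u) : ℝ) * Complex.I) =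
      ((Real.cos (2 * Real.pi * (t * u)) : ℝ) : ℂ) +
      ((Real.sin (2 * Real.pi * (t * u)) : ℝ) : ℂ) * Complex.I := by
    intro u
    rw [Complex.exp_mul_I]
    push_cast
    rfl
  simp only [h1]
  rw [integral_add (hi _ (by fun_prop)) ((hi _ (by fun_prop)).mul_const _), integral_mul_const,
    integral_complex_ofReal, integral_complex_ofReal, h0]
  simp [s1]

theorem Sc_c {n : ℕ} (φ : Fin n → ℝ) : ∫ u in Qc n (1 / 2),
    Complex.exp ((2 * Real.pi * dt φ u : ℝ) * Complex.I) = ((Sc φ : ℝ) : ℂ) := by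
  have h1 : ∀ u : Fin n → ℝ, Complex.exp ((2 * Real.pi * dt φ u : ℝ) * Complex.I) =
      ∏ i, Complex.exp ((2 * Real.pi * (φ i * u i) : ℝ) * Complex.I) := by
    intro u
    rw [← Complex.exp_sum]
    congr 1
    rw [← Finset.sum_mul]
    congr 1
    rw [← Complex.ofReal_sum]
    congr 1
    rw [dt, Finset.mul_sum]
  simp only [h1]
  rw [Q_restrict, integral_fintype_prod_eq_prod (fun i (t : ℝ) =>
    Complex.exp ((2 * Real.pi * (φ i * t) : ℝ) * Complex.I))]
  simp only [s1_c]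
  rw [Sc, Complex.ofReal_prod]

theorem dt_cont' {n : ℕ} (φ : Fin n → ℝ) : Continuous fun u : Fin n → ℝ => dt φ u := by
  unfold dt
  fun_prop

theorem exp_int {n : ℕ} (φ : Fin n → ℝ) : Integrable (fun u : Fin n → ℝ =>
    Complex.exp ((2 * Real.pi * dt φ u : ℝ) * Complex.I)) (volume.restrict (Qc n (1 / 2))) := by
  refine Measure.integrableOn_of_bounded (M := 1) (Qc_fin n _).ne ?_ ?_
  · refine Continuous.aestronglyMeasurable ?_
    have h1 := dt_cont' φ
    have h2 : Continuous fun u : Fin n → ℝ => ((2 * Real.pi * dt φ u : ℝ) : ℂ) :=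
      Complex.continuous_ofReal.comp (by fun_prop)
    fun_prop
  · exact Filter.Eventually.of_forall fun u => by rw [Complex.norm_exp_ofReal_mul_I]

theorem Sc_cos {n : ℕ} (φ : Fin n → ℝ) :
    ∫ u in Qc n (1 / 2), Real.cos (2 * Real.pi * dt φ u) = Sc φ := by
  have h := congrArg Complex.re (Sc_c φ)
  rw [← RCLike.re_eq_complex_re, ← integral_re (exp_int φ)] at h
  simp only [RCLike.re_eq_complex_re, Complex.exp_ofReal_mul_I_re] at h
  rw [h, Complex.ofReal_re]

theorem Sc_sin {n : ℕ} (φ : Fin n → ℝ) :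
    ∫ u in Qc n (1 / 2), Real.sin (2 * Real.pi * dt φ u) = 0 := by
  have h := congrArg Complex.im (Sc_c φ)
  rw [← RCLike.im_eq_complex_im, ← integral_im (exp_int φ)] at h
  simp only [RCLike.im_eq_complex_im, Complex.exp_ofReal_mul_I_im] at h
  rw [h, Complex.ofReal_im]

theorem Qc_vol (n : ℕ) : (volume (Qc n (1 / 2))).toReal = 1 := by
  rw [Qc, volume_pi, Measure.pi_pi]
  simp
  norm_num

theorem Sc_near {n : ℕ} (φ : Fin n → ℝ) :
    |1 - Sc φ| ≤ (2 * Real.pi * (nm φ * (√n * (1 / 2)))) ^ 2 / 2 := by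
  have h1 : ∫ _u in Qc n (1 / 2), (1 : ℝ) = 1 := by
    rw [integral_const, measureReal_restrict_apply_univ, measureReal_def, Qc_vol]
    simp
  rw [← Sc_cos]
  have h2 : 1 - ∫ u in Qc n (1 / 2), Real.cos (2 * Real.pi * dt φ u) =
      ∫ u in Qc n (1 / 2), (1 - Real.cos (2 * Real.pi * dt φ u)) := by
    rw [integral_sub (bdd_int continuous_const) (bdd_int ?_), h1]
    have := dt_cont' φ
    fun_prop
  rw [h2, ← Real.norm_eq_abs]
  have h3 := norm_setIntegral_le_of_norm_le_const (μ := volume) (s := Qc n (1 / 2))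
    (C := (2 * Real.pi * (nm φ * (√n * (1 / 2)))) ^ 2 / 2)
    (f := fun u => 1 - Real.cos (2 * Real.pi * dt φ u)) (Qc_fin n _)
    (fun u hu => by
      have h4 := Real.one_sub_sq_div_two_le_cos (x := 2 * Real.pi * dt φ u)
      have h5 := Real.cos_le_one (2 * Real.pi * dt φ u)
      rw [Real.norm_eq_abs, abs_of_nonneg (by linarith)]
      have h6 : |dt φ u| ≤ nm φ * (√n * (1 / 2)) :=
        (dt_le φ u).trans (mul_le_mul_of_nonneg_left (nm_cube (by norm_num) hu) (nm_nonneg φ))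
      have h7 : (2 * Real.pi * dt φ u) ^ 2 ≤ (2 * Real.pi * (nm φ * (√n * (1 / 2)))) ^ 2 := by
        rw [mul_pow, mul_pow _ (nm φ * (√n * (1 / 2)))]
        refine mul_le_mul_of_nonneg_left ?_ (by positivity)
        rw [← sq_abs]
        exact pow_le_pow_left₀ (abs_nonneg _) h6 2
      linarith)
  rw [measureReal_def, Qc_vol, mul_one] at h3
  exact h3

theorem s1_low {t : ℝ} (ht : |t| ≤ 1 / 2) : 1 / 2 ≤ s1 t := by
  rw [s1, ← intervalIntegral.integral_of_le (by norm_num)]
  have h1 : ∫ u in (-(1 / 2) : ℝ)..(1 / 2), (1 - 4 * |t| * |u|) ≤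
      ∫ u in (-(1 / 2) : ℝ)..(1 / 2), Real.cos (2 * Real.pi * (t * u)) := by
    refine intervalIntegral.integral_mono_on (by norm_num)
      (Continuous.intervalIntegrable (by fun_prop) _ _)
      (Continuous.intervalIntegrable (by fun_prop) _ _) ?_
    intro u hu
    have hu' : |u| ≤ 1 / 2 := abs_le.2 hu
    have h2 : |2 * Real.pi * (t * u)| ≤ Real.pi / 2 := by
      rw [abs_mul, abs_of_pos Real.two_pi_pos, abs_mul]
      have h3 : |t| * |u| ≤ 1 / 2 * (1 / 2) :=
        mul_le_mul ht hu' (abs_nonneg _) (by norm_num)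
      nlinarith [Real.pi_pos]
    have h4 := Real.one_sub_mul_le_cos (abs_nonneg (2 * Real.pi * (t * u))) h2
    rw [Real.cos_abs] at h4
    refine le_trans (le_of_eq ?_) h4
    rw [abs_mul, abs_of_pos Real.two_pi_pos, abs_mul]
    field_simp
    ring
  refine le_trans ?_ h1
  have h2 : ∫ u in (-(1 / 2) : ℝ)..(1 / 2), (1 - 4 * |t| * |u|) = 1 - |t| := by
    rw [intervalIntegral.integral_sub (Continuous.intervalIntegrable (by fun_prop) _ _)
      (Continuous.intervalIntegrable (by fun_prop) _ _), intervalIntegral.integral_const_mul]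
    have h3 : ∫ u in (-(1 / 2) : ℝ)..(1 / 2), |u| = 1 / 4 := by
      rw [← intervalIntegral.integral_add_adjacent_intervals (b := 0)
        (Continuous.intervalIntegrable (by fun_prop) _ _)
        (Continuous.intervalIntegrable (by fun_prop) _ _)]
      have e1 : ∫ u in (-(1 / 2) : ℝ)..0, |u| = ∫ u in (-(1 / 2) : ℝ)..0, -u := by
        refine intervalIntegral.integral_congr fun u hu => ?_
        rw [Set.uIcc_of_le (by norm_num)] at hu
        exact abs_of_nonpos hu.2
      have e2 : ∫ u in (0 : ℝ)..(1 / 2), |u| = ∫ u in (0 : ℝ)..(1 / 2), u := by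
        refine intervalIntegral.integral_congr fun u hu => ?_
        rw [Set.uIcc_of_le (by norm_num)] at hu
        exact abs_of_nonneg hu.1
      rw [e1, e2, intervalIntegral.integral_neg, integral_id, integral_id]
      norm_num
    rw [h3]
    simp
    ring
  rw [h2]
  linarith

theorem Sc_low {n : ℕ} {φ : Fin n → ℝ} (hφ : φ ∈ Qc n (1 / 2)) : (1 / 2 : ℝ) ^ n ≤ Sc φ := by
  rw [Sc]
  calc (1 / 2 : ℝ) ^ n = ∏ _i : Fin n, (1 / 2 : ℝ) := by simp
    _ ≤ _ := by
      refine Finset.prod_le_prod (fun _ _ => by norm_num) fun i _ => ?_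
      have h2 := hφ i (Set.mem_univ i)
      exact s1_low (abs_le.2 ⟨h2.1.le, h2.2⟩)

/-- rounding -/
noncomputable def rd {n : ℕ} (y : Fin n → ℝ) : Fin n → ℤ := fun i => ⌈y i - 1 / 2⌉

theorem rd_iff {n : ℕ} (y : Fin n → ℝ) (x : Fin n → ℤ) :
    y - cr x ∈ Qc n (1 / 2) ↔ x = rd y := by
  constructor
  · intro h
    funext i
    have h1 := h i (Set.mem_univ i)
    simp only [Pi.sub_apply, cr, Set.mem_Ioc] at h1
    rw [rd, eq_comm, Int.ceil_eq_iff]
    constructor <;> linarith [h1.1, h1.2]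
  · rintro rfl i -
    have h1 := Int.le_ceil (y i - 1 / 2)
    have h2 := Int.ceil_lt_add_one (y i - 1 / 2)
    simp only [Pi.sub_apply, cr, rd, Set.mem_Ioc]
    constructor <;> linarith

/-- lattice points of the ball -/
noncomputable def SS (n : ℕ) (ρ : ℝ) : Finset (Fin n → ℤ) :=
  open Classical in (bx n ⌈ρ⌉₊).filter (fun x => nm (cr x) < ρ)

theorem mem_SS {n : ℕ} {ρ : ℝ} {x : Fin n → ℤ} : x ∈ SS n ρ ↔ nm (cr x) < ρ := by
  classical
  rw [SS, Finset.mem_filter]
  constructor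
  · exact fun h => h.2
  · intro h
    refine ⟨mem_bx.2 fun i => ?_, h⟩
    have h1 : |(x i : ℝ)| ≤ nm (cr x) := by
      rw [nm, ← Real.sqrt_sq_eq_abs]
      refine Real.sqrt_le_sqrt ?_
      rw [dt]
      have := Finset.single_le_sum (f := fun i => cr x i * cr x i)
        (fun i _ => mul_self_nonneg _) (Finset.mem_univ i)
      refine le_trans (le_of_eq ?_) this
      simp only [cr]
      ring
    have h2 : |(x i : ℝ)| ≤ (⌈ρ⌉₊ : ℝ) := h1.trans (h.le.trans (Nat.le_ceil ρ))
    have h3 : ((|x i| : ℤ) : ℝ) ≤ ((⌈ρ⌉₊ : ℤ) : ℝ) := by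
      push_cast
      exact h2
    exact_mod_cast h3

theorem SS_neg {n : ℕ} {ρ : ℝ} : ∀ x ∈ SS n ρ, -x ∈ SS n ρ := by
  intro x hx
  rw [mem_SS] at hx ⊢
  rw [cr_neg, nm_neg]
  exact hx

/-- the sum over the ball times the factor is an integral over cells -/
theorem cell {n : ℕ} (ρ : ℝ) (φ : Fin n → ℝ) :
    Js (SS n ρ) φ * Sc φ = ∫ y : Fin n → ℝ,
      ({y | rd y ∈ SS n ρ} : Set (Fin n → ℝ)).indicator (fun y => Real.cos (2 * Real.pi * dt φ y)) y := by
  classical
  have h1 : ∀ x : Fin n → ℤ, ∫ y : Fin n → ℝ,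
      (Qc n (1 / 2)).indicator (fun u => Real.cos (2 * Real.pi * dt φ (u + cr x))) (y - cr x) =
      cw φ x * Sc φ := by
    intro x
    rw [integral_sub_right_eq_self (fun y => (Qc n (1 / 2)).indicator
      (fun u => Real.cos (2 * Real.pi * dt φ (u + cr x))) y) (cr x),
      integral_indicator (Qc_meas n _)]
    have h2 : ∀ u : Fin n → ℝ, Real.cos (2 * Real.pi * dt φ (u + cr x)) =
        cw φ x * Real.cos (2 * Real.pi * dt φ u) -
        Real.sin (2 * Real.pi * dt φ (cr x)) * Real.sin (2 * Real.pi * dt φ u) := by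
      intro u
      have e2 : dt φ (u + cr x) = dt φ u + dt φ (cr x) := by
        rw [dt_comm, dt_add, dt_comm, dt_comm (cr x)]
      rw [e2, mul_add, Real.cos_add, cw]
      ring
    simp only [h2]
    have hc := dt_cont' φ
    rw [integral_sub ((bdd_int (by fun_prop)).const_mul _) ((bdd_int (by fun_prop)).const_mul _),
      integral_const_mul, integral_const_mul, Sc_cos, Sc_sin, mul_zero, sub_zero]
  rw [Js, Finset.sum_mul]
  simp only [← h1]
  rw [← integral_finsetSum]
  · refine integral_congr_ae (Filter.Eventually.of_forall fun y => ?_)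
    simp only
    have h3 : ∀ x ∈ SS n ρ, (Qc n (1 / 2)).indicator
        (fun u => Real.cos (2 * Real.pi * dt φ (u + cr x))) (y - cr x) =
        if x = rd y then Real.cos (2 * Real.pi * dt φ y) else 0 := by
      intro x _
      by_cases hx : x = rd y
      · rw [if_pos hx, Set.indicator_of_mem ((rd_iff y x).2 hx), sub_add_cancel]
      · rw [if_neg hx, Set.indicator_of_notMem (fun h => hx ((rd_iff y x).1 h))]
    rw [Finset.sum_congr rfl h3, Finset.sum_ite_eq']
    by_cases hy : rd y ∈ SS n ρ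
    · rw [if_pos hy, Set.indicator_of_mem (show y ∈ {y | rd y ∈ SS n ρ} from hy)]
    · rw [if_neg hy, Set.indicator_of_notMem (show y ∉ {y | rd y ∈ SS n ρ} from hy)]
  · intro x _
    have hc := dt_cont' φ
    have h4 : Integrable (fun y => (Qc n (1 / 2)).indicator
        (fun u => Real.cos (2 * Real.pi * dt φ (u + cr x))) y) := by
      rw [integrable_indicator_iff (Qc_meas n _)]
      refine bdd_int ?_
      have : Continuous fun u : Fin n → ℝ => u + cr x := by fun_prop
      have h5 := hc.comp this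
      have h6 : Continuous fun u : Fin n → ℝ => dt φ (u + cr x) := h5
      fun_prop
    exact h4.comp_sub_right (cr x)

end Pool.Agent.K4H71.RL
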