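import Pool.Agent.K4H71.RL.Cel

/-! Comparison of the exponential sum with the transform of the ball. -/

set_option autoImplicit false

namespace Pool.Agent.K4H71.RL

open MeasureTheory Finset Filter Topology

theorem rd_meas {n : ℕ} (ρ : ℝ) : MeasurableSet ({y | rd y ∈ SS n ρ} : Set (Fin n → ℝ)) := by
  have h1 : Measurable (rd : (Fin n → ℝ) → Fin n → ℤ) := by
    refine measurable_pi_lambda _ fun i => ?_
    exact Int.measurable_ceil.comp (by fun_prop)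
  exact h1 (SS n ρ).measurableSet

theorem near_mem {n : ℕ} (y : Fin n → ℝ) : nm (y - cr (rd y)) ≤ √n / 2 := by
  have h := nm_cube (by norm_num : (0 : ℝ) ≤ 1 / 2) ((rd_iff y (rd y)).2 rfl)
  linarith

theorem cell2 {n : ℕ} (ρ : ℝ) (φ : Fin n → ℝ) :
    |Js (SS n ρ) φ * Sc φ - Jb n ρ φ| ≤ Vb n (ρ + √n / 2) - Vb n (ρ - √n / 2) := by
  classical
  set c : ℝ := √n / 2 with hc
  have hc0 : 0 ≤ c := by positivity
  set A : Set (Fin n → ℝ) := {y | rd y ∈ SS n ρ} with hA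
  set f : (Fin n → ℝ) → ℝ := fun y => Real.cos (2 * Real.pi * dt φ y) with hf
  have hfc : Continuous f := by
    have := dt_cont' φ
    rw [hf]
    fun_prop
  have hf1 : ∀ y, |f y| ≤ 1 := fun y => Real.abs_cos_le_one _
  have hAsub : A ⊆ Db n (ρ + c) := by
    intro y hy
    have h1 : nm (cr (rd y)) < ρ := mem_SS.1 hy
    have h2 := nm_add (y - cr (rd y)) (cr (rd y))
    rw [sub_add_cancel] at h2
    show nm y < ρ + c
    have := near_mem y
    linarith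
  have hsubA : Db n (ρ - c) ⊆ A := by
    intro y hy
    have h1 : nm y < ρ - c := hy
    show rd y ∈ SS n ρ
    rw [mem_SS]
    have h2 := nm_add (cr (rd y) - y) y
    rw [sub_add_cancel] at h2
    have h3 := near_mem y
    have h4 : nm (cr (rd y) - y) = nm (y - cr (rd y)) := by
      rw [← nm_neg, neg_sub]
    linarith
  have hD1 : Db n ρ ⊆ Db n (ρ + c) := fun y hy => lt_of_lt_of_le (show nm y < ρ from hy) (by linarith)
  have hD2 : Db n (ρ - c) ⊆ Db n ρ := fun y hy => lt_of_lt_of_le (show nm y < ρ - c from hy) (by linarith)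
  have hDD : Db n (ρ - c) ⊆ Db n (ρ + c) := hD2.trans hD1
  have hint : ∀ B : Set (Fin n → ℝ), MeasurableSet B → B ⊆ Db n (ρ + c) →
      Integrable (B.indicator f) := by
    intro B hB hBs
    rw [integrable_indicator_iff hB]
    refine Measure.integrableOn_of_bounded (M := 1)
      (lt_of_le_of_lt (measure_mono hBs) (Db_fin n _)).ne hfc.aestronglyMeasurable ?_
    exact Filter.Eventually.of_forall fun y => hf1 y
  rw [cell, Jb, ← integral_indicator (Db_meas n ρ)]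
  change |(∫ y, A.indicator f y) - ∫ y, (Db n ρ).indicator f y| ≤ _
  rw [← integral_sub (hint A (rd_meas ρ) hAsub) (hint _ (Db_meas n ρ) hD1)]
  have hmd : MeasurableSet (Db n (ρ + c) \ Db n (ρ - c)) := (Db_meas n _).diff (Db_meas n _)
  have hR : Vb n (ρ + c) - Vb n (ρ - c) =
      ∫ y, (Db n (ρ + c) \ Db n (ρ - c)).indicator (fun _ => (1 : ℝ)) y := by
    rw [integral_indicator hmd, integral_const, smul_eq_mul, mul_one,
      measureReal_restrict_apply_univ, measureReal_def,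
      measure_diff hDD (Db_meas n _).nullMeasurableSet (Db_fin n _).ne,
      ENNReal.toReal_sub_of_le (measure_mono hDD) (Db_fin n _).ne]
    rfl
  rw [hR, ← Real.norm_eq_abs]
  refine norm_integral_le_of_norm_le ?_ (Filter.Eventually.of_forall fun y => ?_)
  · rw [integrable_indicator_iff hmd]
    refine integrableOn_const ?_
    exact (lt_of_le_of_lt (measure_mono Set.diff_subset) (Db_fin n _)).ne
  · rw [Real.norm_eq_abs]
    by_cases h1 : y ∈ Db n (ρ - c)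
    · rw [Set.indicator_of_mem (hsubA h1), Set.indicator_of_mem (hD2 h1), sub_self, abs_zero]
      exact Set.indicator_nonneg (fun _ _ => zero_le_one) _
    · by_cases h2 : y ∈ Db n (ρ + c)
      · rw [Set.indicator_of_mem (show y ∈ Db n (ρ + c) \ Db n (ρ - c) from ⟨h2, h1⟩)]
        have h3 := hf1 y
        by_cases h4 : y ∈ A
        · rw [Set.indicator_of_mem h4]
          by_cases h5 : y ∈ Db n ρ
          · rw [Set.indicator_of_mem h5, sub_self, abs_zero]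
            exact zero_le_one
          · rw [Set.indicator_of_notMem h5, sub_zero]
            exact h3
        · rw [Set.indicator_of_notMem h4]
          by_cases h5 : y ∈ Db n ρ
          · rw [Set.indicator_of_mem h5, zero_sub, abs_neg]
            exact h3
          · rw [Set.indicator_of_notMem h5, sub_self, abs_zero]
            exact zero_le_one
      · rw [Set.indicator_of_notMem (fun h => h2 (hAsub h)),
          Set.indicator_of_notMem (fun h => h2 (hD1 h)), sub_self, abs_zero]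
        exact Set.indicator_nonneg (fun _ _ => zero_le_one) _

theorem shell {n : ℕ} {c ε : ℝ} (hc : 0 ≤ c) (hε : 0 < ε) :
    ∃ ρ0 : ℝ, 0 < ρ0 ∧ ∀ ρ, ρ0 ≤ ρ → Vb n (ρ + c) - Vb n (ρ - c) ≤ ε * Vb n ρ := by
  have h1 : Tendsto (fun ρ : ℝ => (1 + c * ρ⁻¹) ^ n - (1 - c * ρ⁻¹) ^ n) atTop (𝓝 0) := by
    have h2 : Tendsto (fun ρ : ℝ => ρ⁻¹) atTop (𝓝 0) := tendsto_inv_atTop_zero
    have h3 := ((tendsto_const_nhds (x := (1 : ℝ))).add (h2.const_mul c)).pow n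
    have h4 := ((tendsto_const_nhds (x := (1 : ℝ))).sub (h2.const_mul c)).pow n
    have h5 := h3.sub h4
    simpa using h5
  have h2 := h1.eventually_le_const hε
  obtain ⟨ρ1, hρ1⟩ := eventually_atTop.1 (h2.and (eventually_ge_atTop (c + 1)))
  refine ⟨max ρ1 1, by positivity, fun ρ hρ => ?_⟩
  obtain ⟨h3, h4⟩ := hρ1 ρ ((le_max_left _ _).trans hρ)
  have hρ0 : 0 < ρ := by linarith
  rw [Vb_scale (by linarith : 0 < ρ + c), Vb_scale (by linarith : 0 < ρ - c), Vb_scale hρ0]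
  have h5 : (ρ + c) ^ n = ρ ^ n * (1 + c * ρ⁻¹) ^ n := by
    rw [← mul_pow]
    congr 1
    field_simp
  have h6 : (ρ - c) ^ n = ρ ^ n * (1 - c * ρ⁻¹) ^ n := by
    rw [← mul_pow]
    congr 1
    field_simp
  rw [h5, h6]
  have h7 : 0 ≤ ρ ^ n * Vb n 1 := mul_nonneg (by positivity) (Vb_nonneg n 1)
  calc ρ ^ n * (1 + c * ρ⁻¹) ^ n * Vb n 1 - ρ ^ n * (1 - c * ρ⁻¹) ^ n * Vb n 1
      = ((1 + c * ρ⁻¹) ^ n - (1 - c * ρ⁻¹) ^ n) * (ρ ^ n * Vb n 1) := by ring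
    _ ≤ ε * (ρ ^ n * Vb n 1) := mul_le_mul_of_nonneg_right h3 h7

theorem Sc_zero {n : ℕ} : Sc (0 : Fin n → ℝ) = 1 := by
  have h := Sc_near (0 : Fin n → ℝ)
  have h1 : nm (0 : Fin n → ℝ) = 0 := by simp [nm, dt]
  rw [h1] at h
  simp only [zero_mul, mul_zero, ne_eq, OfNat.ofNat_ne_zero, not_false_eq_true, zero_pow,
    zero_div] at h
  have := abs_nonpos_iff.1 h
  linarith

theorem Jb_zero (n : ℕ) (ρ : ℝ) : Jb n ρ 0 = Vb n ρ := by
  rw [Jb]
  have : ∀ y : Fin n → ℝ, Real.cos (2 * Real.pi * dt 0 y) = 1 := by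
    intro y
    simp [dt]
  simp only [this]
  rw [integral_const, measureReal_restrict_apply_univ, measureReal_def]
  simp [Vb]

theorem Js_le {n : ℕ} (S : Finset (Fin n → ℤ)) (φ : Fin n → ℝ) : |Js S φ| ≤ S.card := by
  rw [Js]
  refine (Finset.abs_sum_le_sum_abs _ _).trans ?_
  calc ∑ x ∈ S, |cw φ x| ≤ ∑ _x ∈ S, (1 : ℝ) := Finset.sum_le_sum fun x _ => cw_abs _ _
    _ = S.card := by simp

theorem card_SS {n : ℕ} {ε : ℝ} (hε : 0 < ε) :
    ∃ ρ0 : ℝ, 0 < ρ0 ∧ ∀ ρ, ρ0 ≤ ρ → |((SS n ρ).card : ℝ) - Vb n ρ| ≤ ε * Vb n ρ := by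
  obtain ⟨ρ0, h0, h1⟩ := shell (n := n) (c := √n / 2) (by positivity) hε
  refine ⟨ρ0, h0, fun ρ hρ => ?_⟩
  have h2 := cell2 ρ (0 : Fin n → ℝ)
  rw [Sc_zero, mul_one, Jb_zero] at h2
  have h3 : Js (SS n ρ) (0 : Fin n → ℝ) = (SS n ρ).card := by
    rw [Js]
    simp [cw_zero_left]
  rw [h3] at h2
  exact h2.trans (h1 ρ hρ)

theorem near_zero {n : ℕ} {Z ε : ℝ} (hZ : 0 ≤ Z) (hε : 0 < ε) :
    ∃ ρ0 : ℝ, 0 < ρ0 ∧ ∀ ρ, ρ0 ≤ ρ → ∀ φ : Fin n → ℝ, ρ * nm φ ≤ Z →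
      |Js (SS n ρ) φ - Jb n ρ φ| ≤ ε * Vb n ρ := by
  obtain ⟨ρ1, h1, h1'⟩ := shell (n := n) (c := √n / 2) (by positivity) (half_pos hε)
  obtain ⟨ρ2, h2, h2'⟩ := card_SS (n := n) one_pos
  have h3 : Tendsto (fun ρ : ℝ => (2 * Real.pi * (Z * (√n * (1 / 2)))) ^ 2 * (ρ⁻¹) ^ 2) atTop (𝓝 0) := by
    have := (tendsto_inv_atTop_zero (𝕜 := ℝ)).pow 2
    have := this.const_mul ((2 * Real.pi * (Z * (√n * (1 / 2)))) ^ 2)
    simpa using this
  obtain ⟨ρ3, h3'⟩ := eventually_atTop.1 (h3.eventually_le_const (half_pos hε))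
  refine ⟨max ρ1 (max ρ2 ρ3), lt_of_lt_of_le h1 (le_max_left _ _), fun ρ hρ φ hφ => ?_⟩
  have hρ1 : ρ1 ≤ ρ := (le_max_left _ _).trans hρ
  have hρ2 : ρ2 ≤ ρ := (le_max_left _ _).trans ((le_max_right _ _).trans hρ)
  have hρ3 : ρ3 ≤ ρ := (le_max_right _ _).trans ((le_max_right _ _).trans hρ)
  have hρ0 : 0 < ρ := h1.trans_le hρ1
  have e1 := (cell2 ρ φ).trans (h1' ρ hρ1)
  have e2 := h2' ρ hρ2
  have e3 := h3' ρ hρ3
  have e4 : ((SS n ρ).card : ℝ) ≤ 2 * Vb n ρ := by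
    have := (abs_le.1 e2).2
    linarith
  have e5 := Sc_near φ
  have hφ' : nm φ ≤ Z * ρ⁻¹ := by
    rw [← div_eq_mul_inv, le_div_iff₀ hρ0]
    linarith
  have e6 : (2 * Real.pi * (nm φ * (√n * (1 / 2)))) ^ 2 ≤ ε / 2 := by
    refine le_trans ?_ e3
    rw [← mul_pow]
    refine pow_le_pow_left₀ ?_ ?_ 2
    · have := nm_nonneg φ
      positivity
    · calc 2 * Real.pi * (nm φ * (√n * (1 / 2))) ≤ 2 * Real.pi * ((Z * ρ⁻¹) * (√n * (1 / 2))) := by
            refine mul_le_mul_of_nonneg_left ?_ (by positivity)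
            exact mul_le_mul_of_nonneg_right hφ' (by positivity)
        _ = _ := by ring
  have hV := Vb_nonneg n ρ
  have e7 : |Js (SS n ρ) φ * (1 - Sc φ)| ≤ 2 * Vb n ρ * (ε / 2 / 2) := by
    rw [abs_mul]
    refine mul_le_mul ((Js_le _ _).trans e4) (by linarith) (abs_nonneg _) (by positivity)
  calc |Js (SS n ρ) φ - Jb n ρ φ|
      = |(Js (SS n ρ) φ * Sc φ - Jb n ρ φ) + Js (SS n ρ) φ * (1 - Sc φ)| := by
        congr 1
        ring
    _ ≤ |Js (SS n ρ) φ * Sc φ - Jb n ρ φ| + |Js (SS n ρ) φ * (1 - Sc φ)| := abs_add_le _ _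
    _ ≤ ε / 2 * Vb n ρ + 2 * Vb n ρ * (ε / 2 / 2) := add_le_add e1 e7
    _ = _ := by ring

theorem far_zero {n : ℕ} (hn : 3 ≤ n) {ε : ℝ} (hε : 0 < ε) :
    ∃ Z ρ0 : ℝ, 0 < Z ∧ 0 < ρ0 ∧ ∀ ρ, ρ0 ≤ ρ → ∀ φ ∈ Qc n (1 / 2), Z ≤ ρ * nm φ →
      |Js (SS n ρ) φ| ≤ ε * Vb n ρ := by
  set η : ℝ := ε / 2 * (1 / 2) ^ n with hη
  have hη0 : 0 < η := by positivity
  obtain ⟨ρ1, h1, h1'⟩ := shell (n := n) (c := √n / 2) (by positivity) hη0
  have h2 := (Kn_zero hn).abs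
  rw [abs_zero] at h2
  obtain ⟨Z, hZ⟩ := eventually_atTop.1 (h2.eventually_le_const hη0)
  refine ⟨max Z 1, ρ1, by positivity, h1, fun ρ hρ φ hφ hφZ => ?_⟩
  have hρ0 : 0 < ρ := h1.trans_le hρ
  have e1 := (cell2 ρ φ).trans (h1' ρ hρ)
  have e2 := hZ (ρ * nm φ) ((le_max_left _ _).trans hφZ)
  have e3 : |Jb n ρ φ| ≤ η * Vb n ρ := by
    rw [Jb_eq hn hρ0, abs_mul, abs_of_nonneg (Vb_nonneg n ρ), mul_comm]
    exact mul_le_mul_of_nonneg_right e2 (Vb_nonneg n ρ)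
  have e4 := Sc_low hφ
  have hp : (0 : ℝ) < (1 / 2) ^ n := by positivity
  have e5 : |Js (SS n ρ) φ| * (1 / 2) ^ n ≤ |Js (SS n ρ) φ * Sc φ| := by
    rw [abs_mul]
    refine mul_le_mul_of_nonneg_left (e4.trans (le_abs_self _)) (abs_nonneg _)
  have e6 : |Js (SS n ρ) φ * Sc φ| ≤ η * Vb n ρ + η * Vb n ρ := by
    calc |Js (SS n ρ) φ * Sc φ| = |(Js (SS n ρ) φ * Sc φ - Jb n ρ φ) + Jb n ρ φ| := by
          congr 1
          ring
      _ ≤ _ := (abs_add_le _ _).trans (add_le_add e1 e3)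
  have e7 : |Js (SS n ρ) φ| * (1 / 2) ^ n ≤ (ε * Vb n ρ) * (1 / 2) ^ n := by
    refine (e5.trans e6).trans (le_of_eq ?_)
    rw [hη]
    ring
  exact le_of_mul_le_mul_right e7 hp

open Classical in
/-- the low frequency part of the transform -/
noncomputable def Hf (n : ℕ) (ρ x0 : ℝ) (φ : Fin n → ℝ) : ℝ :=
  if 2 * Real.pi * (ρ * nm φ) < x0 then Jb n ρ φ else 0

theorem Js_main {n : ℕ} (hn : 3 ≤ n) {x0 ε : ℝ} (hx0 : 0 ≤ x0) (hx0n : x0 ≤ (n : ℝ) / 2)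
    (hε : 0 < ε) : ∃ ρ0 : ℝ, 0 < ρ0 ∧ ∀ ρ, ρ0 ≤ ρ → ∀ φ ∈ Qc n (1 / 2),
      |Js (SS n ρ) φ - Hf n ρ x0 φ| ≤
        Vb n ρ * (2 * √2 * n * Real.exp (-(x0 ^ 2 / (2 * n))) + ε) := by
  obtain ⟨Z, ρ1, hZ, h1, h1'⟩ := far_zero hn hε
  obtain ⟨ρ2, h2, h2'⟩ := near_zero (n := n) (Z := max Z (x0 / (2 * Real.pi))) (by positivity) hε
  refine ⟨max ρ1 ρ2, lt_of_lt_of_le h1 (le_max_left _ _), fun ρ hρ φ hφ => ?_⟩
  have hρ1 : ρ1 ≤ ρ := (le_max_left _ _).trans hρ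
  have hρ2 : ρ2 ≤ ρ := (le_max_right _ _).trans hρ
  have hρ0 : 0 < ρ := h1.trans_le hρ1
  have hV := Vb_nonneg n ρ
  set τ : ℝ := 2 * √2 * n * Real.exp (-(x0 ^ 2 / (2 * n))) with hτ
  have hτ0 : 0 ≤ τ := by positivity
  rw [Hf]
  split_ifs with hc
  · have h3 : ρ * nm φ ≤ max Z (x0 / (2 * Real.pi)) := by
      refine le_trans ?_ (le_max_right _ _)
      rw [le_div_iff₀ Real.two_pi_pos]
      linarith
    refine (h2' ρ hρ2 φ h3).trans ?_
    nlinarith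
  · push Not at hc
    rw [sub_zero]
    rcases le_or_gt (ρ * nm φ) Z with h3 | h3
    · have h4 := h2' ρ hρ2 φ (h3.trans (le_max_left _ _))
      have h5 : |Jb n ρ φ| ≤ Vb n ρ * τ := by
        rw [Jb_eq hn hρ0, abs_mul, abs_of_nonneg hV]
        exact mul_le_mul_of_nonneg_left (Kn_far hn hx0 hx0n hc) hV
      calc |Js (SS n ρ) φ| = |(Js (SS n ρ) φ - Jb n ρ φ) + Jb n ρ φ| := by
            congr 1
            ring
        _ ≤ _ := (abs_add_le _ _).trans (add_le_add h4 h5)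
        _ = _ := by ring
    · refine (h1' ρ hρ1 φ hφ h3.le).trans ?_
      nlinarith

end Pool.Agent.K4H71.RL
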