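import Pool.Agent.K4H71.RL.Idx

/-! Counting bounded rational matrices by the index of their lattice of integrality. -/

set_option autoImplicit false

namespace Pool.Agent.K4H71.RL

open Finset

theorem index_smul (r t : ℕ) (ht : 0 < t) (M : AddSubgroup (Fin r → ℤ)) :
    (M.map (nsmulAddMonoidHom t)).index = M.index * t ^ r := by
  have : NeZero t := ⟨ht.ne'⟩
  have hinj : Function.Injective (nsmulAddMonoidHom t : (Fin r → ℤ) →+ (Fin r → ℤ)) := by
    intro x y h
    funext i
    have h1 := congrFun h i
    simp only [nsmulAddMonoidHom_apply, Pi.smul_apply, nsmul_eq_mul] at h1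
    have ht' : (t : ℤ) ≠ 0 := by exact_mod_cast ht.ne'
    exact mul_left_cancel₀ ht' h1
  rw [AddSubgroup.index_map_of_injective _ hinj]
  congr 1
  set φ : (Fin r → ℤ) →+ (Fin r → ZMod t) :=
    { toFun := fun z e => (z e : ZMod t)
      map_zero' := by
        funext e
        simp
      map_add' := by
        intro x y
        funext e
        simp } with hφ
  have hker : (nsmulAddMonoidHom t : (Fin r → ℤ) →+ (Fin r → ℤ)).range = φ.ker := by
    ext z
    rw [AddMonoidHom.mem_ker, AddMonoidHom.mem_range]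
    constructor
    · rintro ⟨y, rfl⟩
      funext e
      show (((t • y) e : ℤ) : ZMod t) = 0
      simp
    · intro hz
      have h1 : ∀ e, ∃ c, z e = t * c := by
        intro e
        have h2 : (z e : ZMod t) = 0 := congrFun hz e
        rw [ZMod.intCast_zmod_eq_zero_iff_dvd] at h2
        exact h2
      choose c hc using h1
      refine ⟨c, ?_⟩
      funext e
      simp [hc e]
  rw [hker, AddSubgroup.index_ker]
  have hsurj : Function.Surjective φ := by
    intro w
    refine ⟨fun e => ((w e).cast : ℤ), ?_⟩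
    funext e
    show (((w e).cast : ℤ) : ZMod t) = w e
    simp
  rw [AddMonoidHom.range_eq_top.2 hsurj]
  simp [Nat.card_eq_fintype_card, ZMod.card]

/-- the character of a rational vector -/
noncomputable def chq {r : ℕ} (M : AddSubgroup (Fin r → ℤ)) (c : Fin r → ℚ)
    (h : ∀ z ∈ M, ∃ m : ℤ, ∑ i, c i * z i = m) : AddChar ((Fin r → ℤ) ⧸ M) ℂ :=
  AddChar.toAddMonoidHomEquiv.symm (QuotientAddGroup.lift M
    { toFun := fun z => Additive.ofMul (Complex.exp (2 * Real.pi * Complex.I * ((∑ i, c i * z i : ℚ) : ℂ)))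
      map_zero' := by simp
      map_add' := by
        intro x y
        rw [← ofMul_mul, ← Complex.exp_add]
        congr 2
        simp only [Pi.add_apply]
        push_cast
        rw [← mul_add, ← Finset.sum_add_distrib]
        congr 1
        refine Finset.sum_congr rfl fun i _ => ?_
        ring }
    (by
      intro z hz
      obtain ⟨m, hm⟩ := h z hz
      show Additive.ofMul (Complex.exp (2 * Real.pi * Complex.I * ((∑ i, c i * z i : ℚ) : ℂ))) = 0
      rw [hm]
      have : Complex.exp (2 * Real.pi * Complex.I * ((m : ℚ) : ℂ)) = 1 := by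
        rw [Complex.exp_eq_one_iff]
        refine ⟨m, ?_⟩
        push_cast
        ring
      rw [this]
      rfl))

theorem chq_single {r : ℕ} (M : AddSubgroup (Fin r → ℤ)) (c : Fin r → ℚ)
    (h : ∀ z ∈ M, ∃ m : ℤ, ∑ i, c i * z i = m) (i : Fin r) :
    chq M c h (QuotientAddGroup.mk (Pi.single i 1)) =
      Complex.exp (2 * Real.pi * Complex.I * (c i : ℂ)) := by
  classical
  show (Complex.exp (2 * Real.pi * Complex.I * ((∑ j, c j * ((Pi.single i 1 : Fin r → ℤ) j) : ℚ) : ℂ))) = _
  congr 2
  rw [Finset.sum_eq_single i]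
  · simp
  · intro j _ hj
    simp [Pi.single_eq_of_ne hj]
  · intro h
    exact absurd (Finset.mem_univ i) h

theorem dual_count {r : ℕ} (M : AddSubgroup (Fin r → ℤ)) (hM : M.index ≠ 0)
    (S : Finset (Fin r → ℚ)) (h1 : ∀ c ∈ S, ∀ i, |c i| ≤ 1)
    (h2 : ∀ c ∈ S, ∀ z ∈ M, ∃ m : ℤ, ∑ i, c i * z i = m) : S.card ≤ 3 ^ r * M.index := by
  classical
  have hfin : Finite ((Fin r → ℤ) ⧸ M) := by
    rw [AddSubgroup.index] at hM
    exact Nat.finite_of_card_ne_zero hM
  have : Fintype ((Fin r → ℤ) ⧸ M) := Fintype.ofFinite _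
  have hcard : Fintype.card (AddChar ((Fin r → ℤ) ⧸ M) ℂ) = M.index := by
    rw [AddChar.card_eq, AddSubgroup.index, Nat.card_eq_fintype_card]
  set Q := (Finset.univ : Finset (AddChar ((Fin r → ℤ) ⧸ M) ℂ)) ×ˢ
    (Fintype.piFinset fun _ : Fin r => Finset.Icc (-1 : ℤ) 1) with hQ
  have hQc : Q.card = 3 ^ r * M.index := by
    rw [hQ, Finset.card_product, Finset.card_univ, hcard, Fintype.card_piFinset_const, Int.card_Icc]
    rw [mul_comm]
    rfl
  rw [← hQc]
  refine Finset.card_le_card_of_injOn
    (fun c => if hc : c ∈ S then (chq M c (h2 c hc), fun i => ⌊c i⌋) else (0, 0)) ?_ ?_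
  · intro c hc
    have hc' : c ∈ S := hc
    simp only [hc', dif_pos]
    rw [hQ, Finset.coe_product]
    refine ⟨Finset.mem_coe.2 (Finset.mem_univ _), ?_⟩
    show _ ∈ (Fintype.piFinset fun _ : Fin r => Finset.Icc (-1 : ℤ) 1)
    rw [Fintype.mem_piFinset]
    intro i
    have h3 := abs_le.1 (h1 c hc' i)
    rw [Finset.mem_Icc]
    constructor
    · rw [Int.le_floor]
      push_cast
      exact h3.1
    · have : (⌊c i⌋ : ℚ) ≤ 1 := (Int.floor_le _).trans h3.2
      exact_mod_cast this
  · intro c hc c' hc' h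
    have hc1 : c ∈ S := hc
    have hc2 : c' ∈ S := hc'
    simp only [hc1, hc2, dif_pos, Prod.mk.injEq] at h
    obtain ⟨h3, h4⟩ := h
    funext i
    have h5 : ⌊c i⌋ = ⌊c' i⌋ := congrFun h4 i
    have h6 := congrArg (fun χ : AddChar ((Fin r → ℤ) ⧸ M) ℂ =>
      χ (QuotientAddGroup.mk (Pi.single i 1))) h3
    simp only [chq_single] at h6
    rw [Complex.exp_eq_exp_iff_exists_int] at h6
    obtain ⟨m, hm⟩ := h6
    have h7 : (c i : ℂ) = c' i + m := by
      have h8 : (2 * Real.pi * Complex.I : ℂ) ≠ 0 := Complex.two_pi_I_ne_zero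
      apply mul_left_cancel₀ h8
      rw [hm]
      ring
    have h9 : c i = c' i + m := by exact_mod_cast h7
    have h10 : ⌊c i⌋ = ⌊c' i⌋ + m := by rw [h9, Int.floor_add_intCast]
    have h11 : m = 0 := by omega
    rw [h9, h11]
    simp

open Classical in
/-- the number of bounded rational matrices of given index -/
theorem mat_count (r : ℕ) : ∀ (k g : ℕ) (S : Finset (Fin k → Fin r → ℚ)),
    (∀ C ∈ S, ∀ e i, |C e i| ≤ 1) → (∀ C ∈ S, (MC C).index = g) →
    S.card ≤ 3 ^ (r * k) * g ^ (r + 2 * k) := by
  intro k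
  induction k with
  | zero =>
    intro g S h1 h2
    have h3 : S.card ≤ 1 := Finset.card_le_one.2 fun a _ b _ => Subsingleton.elim a b
    rcases S.eq_empty_or_nonempty with rfl | ⟨C, hC⟩
    · simp
    · have h4 : (MC C).index = 1 := by
        rw [AddSubgroup.index_eq_one]
        rw [eq_top_iff]
        intro z _
        rw [mem_MC]
        intro e
        exact e.elim0
      rw [h2 C hC] at h4
      rw [h4]
      simpa using h3
  | succ k ih =>
    intro g S h1 h2
    rcases Nat.eq_zero_or_pos g with rfl | hg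
    · have : S = ∅ := by
        rw [Finset.eq_empty_iff_forall_notMem]
        intro C hC
        exact MC_index C (h2 C hC)
      rw [this]
      simp
    set S' := S.image Fin.init with hS'
    have hle : ∀ C : Fin (k + 1) → Fin r → ℚ, MC C ≤ MC (Fin.init C) := by
      intro C z hz e
      exact hz (Fin.castSucc e)
    have hdvd : ∀ C' ∈ S', (MC C').index ∈ Nat.divisors g := by
      intro C' hC'
      obtain ⟨C, hC, rfl⟩ := Finset.mem_image.1 hC'
      rw [Nat.mem_divisors]
      refine ⟨?_, hg.ne'⟩
      rw [← h2 C hC]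
      exact AddSubgroup.index_dvd_of_le (hle C)
    have hS'1 : ∀ C ∈ S', ∀ e i, |C e i| ≤ 1 := by
      intro C' hC'
      obtain ⟨C, hC, rfl⟩ := Finset.mem_image.1 hC'
      intro e i
      exact h1 C hC _ i
    have hfib : ∀ C' ∈ S', (S.filter (fun C => Fin.init C = C')).card ≤
        3 ^ r * ((MC C').index * (g / (MC C').index) ^ r) := by
      intro C' hC'
      set g1 := (MC C').index with hg1
      have hg1d := (Nat.mem_divisors.1 (hdvd C' hC')).1
      have hg10 : 0 < g1 := Nat.pos_of_ne_zero (MC_index C')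
      have ht : 0 < g / g1 := Nat.div_pos (Nat.le_of_dvd hg hg1d) hg10
      have h3 : (S.filter (fun C => Fin.init C = C')).card =
          ((S.filter (fun C => Fin.init C = C')).image (fun C => C (Fin.last k))).card := by
        rw [Finset.card_image_of_injOn]
        intro C hC D hD hCD
        have hC2 := (Finset.mem_filter.1 hC).2
        have hD2 := (Finset.mem_filter.1 hD).2
        rw [← Fin.snoc_init_self C, ← Fin.snoc_init_self D, hC2, hD2]
        simp only at hCD
        rw [hCD]
      rw [h3, hg1, ← index_smul r _ ht]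
      refine dual_count _ ?_ _ ?_ ?_
      · rw [index_smul r _ ht]
        exact Nat.mul_ne_zero (MC_index C') (pow_ne_zero _ ht.ne')
      · intro c hc i
        obtain ⟨C, hC, rfl⟩ := Finset.mem_image.1 hc
        exact h1 C (Finset.mem_filter.1 hC).1 _ i
      · intro c hc z hz
        obtain ⟨C, hC, rfl⟩ := Finset.mem_image.1 hc
        obtain ⟨y, hy, rfl⟩ := hz
        obtain ⟨hCS, hCi⟩ := Finset.mem_filter.1 hC
        -- the multiple of y lies in MC C
        have h5 : (MC C).relIndex (MC C') = g / g1 := by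
          have h6 := AddSubgroup.relIndex_mul_index (show MC C ≤ MC C' by rw [← hCi]; exact hle C)
          rw [h2 C hCS, ← hg1] at h6
          rw [← h6, Nat.mul_div_cancel _ hg10]
        have h7 : (g / g1) • y ∈ MC C := by
          have h8 := AddSubgroup.nsmul_index_mem ((MC C).addSubgroupOf (MC C')) ⟨y, hy⟩
          rw [AddSubgroup.mem_addSubgroupOf] at h8
          have h9 : ((MC C).addSubgroupOf (MC C')).index = g / g1 := h5
          rw [h9] at h8
          exact h8
        exact h7 (Fin.last k)
    calc S.card = ∑ C' ∈ S', (S.filter (fun C => Fin.init C = C')).card :=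
          Finset.card_eq_sum_card_image _ _
      _ ≤ ∑ C' ∈ S', 3 ^ r * ((MC C').index * (g / (MC C').index) ^ r) := Finset.sum_le_sum hfib
      _ = ∑ g1 ∈ Nat.divisors g, ∑ C' ∈ S' with (MC C').index = g1,
            3 ^ r * ((MC C').index * (g / (MC C').index) ^ r) :=
          (Finset.sum_fiberwise_of_maps_to hdvd _).symm
      _ = ∑ g1 ∈ Nat.divisors g, (S'.filter (fun C' => (MC C').index = g1)).card *
            (3 ^ r * (g1 * (g / g1) ^ r)) := by
          refine Finset.sum_congr rfl fun g1 _ => ?_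
          rw [← smul_eq_mul, ← Finset.sum_const]
          refine Finset.sum_congr rfl fun C' hC' => ?_
          rw [(Finset.mem_filter.1 hC').2]
      _ ≤ ∑ g1 ∈ Nat.divisors g, (3 ^ (r * k) * g1 ^ (r + 2 * k)) *
            (3 ^ r * (g1 * (g / g1) ^ r)) := by
          refine Finset.sum_le_sum fun g1 _ => Nat.mul_le_mul_right _ ?_
          refine ih g1 _ (fun C hC => hS'1 C (Finset.mem_filter.1 hC).1)
            (fun C hC => (Finset.mem_filter.1 hC).2)
      _ ≤ ∑ _g1 ∈ Nat.divisors g, 3 ^ (r * (k + 1)) * g ^ (r + 2 * k + 1) := by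
          refine Finset.sum_le_sum fun g1 hg1 => ?_
          have hd := (Nat.mem_divisors.1 hg1).1
          have h4 : g1 * (g / g1) = g := Nat.mul_div_cancel' hd
          have h5 : g1 ≤ g := Nat.le_of_dvd hg hd
          calc (3 ^ (r * k) * g1 ^ (r + 2 * k)) * (3 ^ r * (g1 * (g / g1) ^ r))
              = 3 ^ (r * (k + 1)) * ((g1 * (g / g1)) ^ r * g1 ^ (2 * k + 1)) := by
                rw [mul_pow, mul_add, mul_one, pow_add, pow_add, pow_succ]
                ring
            _ ≤ 3 ^ (r * (k + 1)) * (g ^ r * g ^ (2 * k + 1)) := by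
                rw [h4]
                exact Nat.mul_le_mul_left _ (Nat.mul_le_mul_left _ (Nat.pow_le_pow_left h5 _))
            _ = _ := by
                rw [← pow_add]
                ring_nf
      _ = (Nat.divisors g).card * (3 ^ (r * (k + 1)) * g ^ (r + 2 * k + 1)) := by
          rw [Finset.sum_const, smul_eq_mul]
      _ ≤ g * (3 ^ (r * (k + 1)) * g ^ (r + 2 * k + 1)) :=
          Nat.mul_le_mul_right _ (Nat.card_divisors_le_self g)
      _ = 3 ^ (r * (k + 1)) * g ^ (r + 2 * (k + 1)) := by
          rw [show r + 2 * (k + 1) = (r + 2 * k + 1) + 1 by ring, pow_succ]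
          ring

end Pool.Agent.K4H71.RL
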