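import Pool.Agent.K4H71.RL.One
import Pool.Agent.K4H71.RL.Cnt

/-! The contribution of one class of matrices. -/

set_option autoImplicit false

namespace Pool.Agent.K4H71.RL

open Finset Module Submodule

section
variable {p : ℕ} [Fact p.Prime]

/-- solutions modulo `p` of the relations with matrix `D` over `g` -/
def UU (p : ℕ) {k r : ℕ} (ι : Fin r → Fin k) (g : ℤ) (D : Fin k → Fin r → ℤ) :
    Submodule (ZMod p) (Fin k → ZMod p) where
  carrier := {v | ∀ e, (g : ZMod p) * v e = ∑ i, (D e i : ZMod p) * v (ι i)}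
  zero_mem' := by
    intro e
    simp
  add_mem' := by
    intro x y hx hy e
    simp only [Pi.add_apply, mul_add, Finset.sum_add_distrib]
    rw [hx e, hy e]
  smul_mem' := by
    intro c x hx e
    simp only [Pi.smul_apply, smul_eq_mul]
    have h1 : ∀ i, (D e i : ZMod p) * (c * x (ι i)) = c * ((D e i : ZMod p) * x (ι i)) :=
      fun i => by ring
    simp only [h1]
    rw [← Finset.mul_sum, ← hx e]
    ring

theorem UU_finrank {k r : ℕ} (ι : Fin r → Fin k) (g : ℤ) (D : Fin k → Fin r → ℤ)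
    (hg : (g : ZMod p) ≠ 0) : finrank (ZMod p) (UU p ι g D) ≤ r := by
  set f : (UU p ι g D) →ₗ[ZMod p] (Fin r → ZMod p) :=
    { toFun := fun v i => v.1 (ι i)
      map_add' := fun _ _ => rfl
      map_smul' := fun _ _ => rfl } with hf
  have hinj : Function.Injective f := by
    rw [injective_iff_map_eq_zero]
    rintro ⟨v, hv⟩ h0
    have h1 : ∀ i, v (ι i) = 0 := fun i => congrFun h0 i
    apply Subtype.ext
    funext e
    have h2 := hv e
    simp only [h1, mul_zero, Finset.sum_const_zero] at h2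
    exact (mul_eq_zero.1 h2).resolve_left hg
  have := LinearMap.finrank_le_finrank_of_injective hinj
  simpa using this

theorem rel_iff {k n r N : ℕ} (ι : Fin r → Fin k) (C : Fin k → Fin r → ℚ)
    (hC : ∀ e i, |C e i| ≤ 1)
    (D : Fin k → Fin r → ℤ) (hD : ∀ e i, ((MC C).index : ℚ) * C e i = D e i)
    (hp : (MC C).index * (N * (r + 1)) < p) {X : Fin k → Fin n → ℤ} (hX : X ∈ bxt k n N) :
    (∀ j, (fun e => red p (X e) j) ∈ UU p ι ((MC C).index : ℤ) D) ↔ Rel ι C X := by
  set g := (MC C).index with hg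
  have hg0 : 0 < g := Nat.pos_of_ne_zero (MC_index C)
  have hDb : ∀ e i, |D e i| ≤ g := by
    intro e i
    have h1 : |(D e i : ℚ)| ≤ g := by
      rw [← hD, abs_mul]
      calc |(g : ℚ)| * |C e i| ≤ |(g : ℚ)| * 1 := mul_le_mul_of_nonneg_left (hC e i) (abs_nonneg _)
        _ = g := by simp
    exact_mod_cast h1
  constructor
  · intro h e
    funext j
    have h1 : ((g : ℤ) : ZMod p) * (X e j : ZMod p) = ∑ i, (D e i : ZMod p) * (X (ι i) j : ZMod p) :=
      h j e
    have h2 : (((g : ℤ) * X e j - ∑ i, D e i * X (ι i) j : ℤ) : ZMod p) = 0 := by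
      push_cast
      push_cast at h1
      rw [h1, sub_self]
    rw [ZMod.intCast_zmod_eq_zero_iff_dvd] at h2
    have h3 : |(g : ℤ) * X e j - ∑ i, D e i * X (ι i) j| ≤ g * (N * (r + 1)) := by
      have h4 : |∑ i, D e i * X (ι i) j| ≤ r * (g * N) := by
        refine (Finset.abs_sum_le_sum_abs _ _).trans ?_
        calc ∑ i, |D e i * X (ι i) j| ≤ ∑ _i : Fin r, ((g : ℤ) * N) := by
              refine Finset.sum_le_sum fun i _ => ?_
              rw [abs_mul]
              exact mul_le_mul (hDb e i) (mem_bx.1 (mem_bxt.1 hX _) j) (abs_nonneg _)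
                (Int.natCast_nonneg _)
          _ = _ := by simp
      have h5 : |(g : ℤ) * X e j| ≤ g * N := by
        rw [abs_mul]
        exact mul_le_mul (le_of_eq (by simp)) (mem_bx.1 (mem_bxt.1 hX _) j) (abs_nonneg _)
          (Int.natCast_nonneg _)
      calc |(g : ℤ) * X e j - ∑ i, D e i * X (ι i) j|
          ≤ |(g : ℤ) * X e j| + |∑ i, D e i * X (ι i) j| := abs_sub _ _
        _ ≤ g * N + r * (g * N) := add_le_add h5 h4
        _ = _ := by ring
    have h6 := Int.eq_zero_of_abs_lt_dvd h2 (lt_of_le_of_lt h3 (by exact_mod_cast hp))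
    have h7 : ((g : ℤ) * X e j : ℚ) = ∑ i, (D e i : ℚ) * X (ι i) j := by
      have := sub_eq_zero.1 h6
      exact_mod_cast this
    have hgq : (g : ℚ) ≠ 0 := by exact_mod_cast hg0.ne'
    apply mul_left_cancel₀ hgq
    simp only [Finset.sum_apply, Pi.smul_apply, smul_eq_mul, cq]
    rw [Finset.mul_sum]
    push_cast at h7
    rw [h7]
    refine Finset.sum_congr rfl fun i _ => ?_
    rw [← hD]
    ring
  · intro h j e
    show ((g : ℤ) : ZMod p) * (X e j : ZMod p) = ∑ i, (D e i : ZMod p) * (X (ι i) j : ZMod p)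
    have h1 : ((g : ℤ) * X e j : ℤ) = ∑ i, D e i * X (ι i) j := by
      have h2 : (((g : ℤ) * X e j : ℤ) : ℚ) = ((∑ i, D e i * X (ι i) j : ℤ) : ℚ) := by
        push_cast
        rw [h.col e j, Finset.mul_sum]
        refine Finset.sum_congr rfl fun i _ => ?_
        rw [← hD, cols]
        ring
      exact_mod_cast h2
    have h3 := congrArg (fun z : ℤ => (z : ZMod p)) h1
    push_cast at h3
    push_cast
    exact h3

open Classical in
/-- number of solutions `a` of `a · X_e = 0` -/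
noncomputable def sol (p : ℕ) [Fact p.Prime] {k n : ℕ} (X : Fin k → Fin n → ℤ) : ℕ :=
  ((Finset.univ : Finset (Fin n → ZMod p)).filter
    (fun a => ∀ e, ∑ j, a j * red p (X e) j = 0)).card

theorem sol_le {k n r N : ℕ} (ι : Fin r → Fin k) {X : Fin k → Fin n → ℤ} (hX : X ∈ bxt k n N)
    (hI : Ind ι X) (hp : r.factorial * (n * N ^ 2) ^ r < p) : sol p X * p ^ r ≤ p ^ n := by
  classical
  have h1 := indep_mod (p := p) (fun i => X (ι i)) (fun i => mem_bxt.1 hX _) hI hp
  rw [← ker_card _ h1]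
  refine Nat.mul_le_mul_right _ (Finset.card_le_card ?_)
  intro a ha
  obtain ⟨-, ha⟩ := Finset.mem_filter.1 ha
  exact Finset.mem_filter.2 ⟨Finset.mem_univ _, fun i => ha (ι i)⟩

theorem sol_eq {k n r N : ℕ} (ι : Fin r → Fin k) (C : Fin k → Fin r → ℚ)
    {X : Fin k → Fin n → ℤ} (hX : X ∈ bxt k n N) (hR : Rel ι C X)
    (hI : Ind ι X) (hp : r.factorial * (n * N ^ 2) ^ r < p) (hg : (MC C).index < p) :
    sol p X * p ^ r = p ^ n := by
  classical
  have h1 := indep_mod (p := p) (fun i => X (ι i)) (fun i => mem_bxt.1 hX _) hI hp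
  rw [← ker_card _ h1]
  refine congrArg (fun m => m * p ^ r) ?_
  rw [sol]
  refine congrArg Finset.card (Finset.filter_congr fun a _ => ?_)
  constructor
  · intro ha i
    exact ha (ι i)
  · intro ha e
    have hg0 : 0 < (MC C).index := Nat.pos_of_ne_zero (MC_index C)
    have hgp : (((MC C).index : ℤ) : ZMod p) ≠ 0 := by
      intro h0
      rw [ZMod.intCast_zmod_eq_zero_iff_dvd] at h0
      have := Int.le_of_dvd (by exact_mod_cast hg0) h0
      omega
    choose D hD using MC_int C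
    have h2 : ∀ j, ((MC C).index : ℤ) * X e j = ∑ i, D e i * X (ι i) j := by
      intro j
      have h2 : ((((MC C).index : ℤ) * X e j : ℤ) : ℚ) = ((∑ i, D e i * X (ι i) j : ℤ) : ℚ) := by
        push_cast
        rw [hR.col e j, Finset.mul_sum]
        refine Finset.sum_congr rfl fun i _ => ?_
        rw [← hD, cols]
        ring
      exact_mod_cast h2
    have h3 : ∀ j, (((MC C).index : ℤ) : ZMod p) * (X e j : ZMod p) =
        ∑ i, (D e i : ZMod p) * (X (ι i) j : ZMod p) := by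
      intro j
      have h4 := congrArg (fun z : ℤ => (z : ZMod p)) (h2 j)
      push_cast at h4
      push_cast
      exact h4
    have h5 : (((MC C).index : ℤ) : ZMod p) * ∑ j, a j * red p (X e) j = 0 := by
      calc (((MC C).index : ℤ) : ZMod p) * ∑ j, a j * red p (X e) j
          = ∑ j, a j * ((((MC C).index : ℤ) : ZMod p) * (X e j : ZMod p)) := by
            rw [Finset.mul_sum]
            refine Finset.sum_congr rfl fun j _ => ?_
            rw [red]
            ring
        _ = ∑ j, a j * ∑ i, (D e i : ZMod p) * (X (ι i) j : ZMod p) := by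
            refine Finset.sum_congr rfl fun j _ => ?_
            rw [h3 j]
        _ = ∑ i, (D e i : ZMod p) * ∑ j, a j * (X (ι i) j : ZMod p) := by
            simp only [Finset.mul_sum]
            rw [Finset.sum_comm]
            refine Finset.sum_congr rfl fun i _ => Finset.sum_congr rfl fun j _ => ?_
            ring
        _ = 0 := Finset.sum_eq_zero fun i _ => by rw [ha i, mul_zero]
    exact (mul_eq_zero.1 h5).resolve_left hgp

open Classical in
/-- the contribution of the class `K` -/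
noncomputable def SK (p : ℕ) [Fact p.Prime] {k n : ℕ} (N : ℕ) (h : (Fin n → ℤ) → ℝ)
    (K : Submodule ℚ (Fin k → ℚ)) : ℝ :=
  ∑ X ∈ (bxt k n N).filter (fun X => Kx X = K), (∏ e, h (X e)) * sol p X

theorem prod_le_pow {k n : ℕ} (h : (Fin n → ℤ) → ℝ) {b : ℝ} (hb : ∀ x, |h x| ≤ b)
    (X : Fin k → Fin n → ℤ) : |∏ e, h (X e)| ≤ b ^ k := by
  rw [Finset.abs_prod]
  calc ∏ e, |h (X e)| ≤ ∏ _e : Fin k, b := Finset.prod_le_prod (fun _ _ => abs_nonneg _) fun e _ => hb _
    _ = b ^ k := by simp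

open Classical in
/-- classes of small index -/
theorem SK_one {k n r N : ℕ} {ι : Fin r → Fin k} {C : Fin k → Fin r → ℚ}
    {K : Submodule ℚ (Fin k → ℚ)} (hT : IsT n ι C K)
    (h : (Fin n → ℤ) → ℝ) {b B : ℝ} (hb : ∀ x, |h x| ≤ b) (hB : 0 < B) (h1 : ∀ x, |h x| ≤ B)
    (hN : 2 * N < p) (h2 : ∑ x ∈ bx n N, h x ^ 2 ≤ p * B ^ 2)
    (h3 : ∀ χ : AddChar (Fin n → ZMod p) ℂ,
      ‖∑ x ∈ bx n N, (h x : ℂ) * χ (red p x)‖ ≤ p * B)
    (hp1 : (MC C).index * (N * (r + 1)) < p) (hp2 : r.factorial * (n * N ^ 2) ^ r < p)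
    (hp3 : (MC C).index < p) :
    |SK p N h K| * p ^ r ≤ p ^ n * (p ^ r * B ^ k +
      b ^ k * (r * (((2 * N + 1) ^ n) ^ (r - 1) * (2 * N + 1) ^ (r - 1)) : ℕ)) := by
  have hp0 : (0 : ℝ) < p := by exact_mod_cast (Fact.out : p.Prime).pos
  have hp1' : (1 : ℝ) ≤ p := by exact_mod_cast (Fact.out : p.Prime).one_lt.le
  choose D hD using MC_int C
  have e1 : SK p N h K * p ^ r = p ^ n * ∑ X ∈ (bxt k n N).filter (fun X => Kx X = K),
      ∏ e, h (X e) := by
    rw [SK, Finset.sum_mul, Finset.mul_sum]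
    refine Finset.sum_congr rfl fun X hX => ?_
    obtain ⟨hX1, hX2⟩ := Finset.mem_filter.1 hX
    obtain ⟨hR, hI⟩ := (hT.2.2 X).1 hX2
    have h4 := sol_eq (p := p) ι C hX1 hR hI hp2 hp3
    have h5 : (sol p X : ℝ) * p ^ r = p ^ n := by exact_mod_cast h4
    rw [mul_assoc, h5, mul_comm]
  have e2 : ∑ X ∈ (bxt k n N).filter (fun X => Kx X = K), ∏ e, h (X e) =
      ∑ X ∈ (bxt k n N).filter (fun X => Rel ι C X), ∏ e, h (X e) -
      ∑ X ∈ (bxt k n N).filter (fun X => Rel ι C X ∧ ¬ Ind ι X), ∏ e, h (X e) := by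
    rw [eq_sub_iff_add_eq]
    have h5 : (bxt k n N).filter (fun X => Kx X = K) =
        ((bxt k n N).filter (fun X => Rel ι C X)).filter (fun X => Ind ι X) := by
      rw [Finset.filter_filter]
      refine Finset.filter_congr fun X _ => ?_
      exact hT.2.2 X
    have h6 : (bxt k n N).filter (fun X => Rel ι C X ∧ ¬ Ind ι X) =
        ((bxt k n N).filter (fun X => Rel ι C X)).filter (fun X => ¬ Ind ι X) := by
      rw [Finset.filter_filter]
    rw [h5, h6]
    exact Finset.sum_filter_add_sum_filter_not _ _ _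
  have e3 : |∑ X ∈ (bxt k n N).filter (fun X => Rel ι C X), ∏ e, h (X e)| ≤ p ^ r * B ^ k := by
    have h5 : (bxt k n N).filter (fun X => Rel ι C X) = (bxt k n N).filter
        (fun X => ∀ j, (fun e => red p (X e) j) ∈ UU p ι ((MC C).index : ℤ) D) := by
      refine Finset.filter_congr fun X hX => ?_
      exact (rel_iff ι C hT.1 D hD hp1 hX).symm
    rw [h5]
    refine (mixZ h hB h1 hN h2 h3 _).trans ?_
    refine mul_le_mul_of_nonneg_right ?_ (pow_nonneg hB.le _)
    refine pow_le_pow_right₀ hp1' (UU_finrank _ _ _ ?_)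
    intro h0
    have hg0 : 0 < (MC C).index := Nat.pos_of_ne_zero (MC_index C)
    rw [ZMod.intCast_zmod_eq_zero_iff_dvd] at h0
    have := Int.le_of_dvd (by exact_mod_cast hg0) h0
    omega
  have hb0 : 0 ≤ b := (abs_nonneg _).trans (hb 0)
  have e4 : |∑ X ∈ (bxt k n N).filter (fun X => Rel ι C X ∧ ¬ Ind ι X), ∏ e, h (X e)| ≤
      b ^ k * (r * (((2 * N + 1) ^ n) ^ (r - 1) * (2 * N + 1) ^ (r - 1)) : ℕ) := by
    refine (Finset.abs_sum_le_sum_abs _ _).trans ?_
    calc ∑ X ∈ (bxt k n N).filter (fun X => Rel ι C X ∧ ¬ Ind ι X), |∏ e, h (X e)|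
        ≤ ∑ _X ∈ (bxt k n N).filter (fun X => Rel ι C X ∧ ¬ Ind ι X), b ^ k :=
          Finset.sum_le_sum fun X _ => prod_le_pow h hb X
      _ = b ^ k * (((bxt k n N).filter (fun X => Rel ι C X ∧ ¬ Ind ι X)).card : ℝ) := by
          rw [Finset.sum_const, nsmul_eq_mul, mul_comm]
      _ ≤ _ := by
          refine mul_le_mul_of_nonneg_left ?_ (pow_nonneg hb0 _)
          exact_mod_cast (rel_dep_card ι C N).trans (dep_count r n N)
  have e5 : |SK p N h K| * p ^ r = p ^ n * |∑ X ∈ (bxt k n N).filter (fun X => Kx X = K),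
      ∏ e, h (X e)| := by
    have h5 : |SK p N h K| * p ^ r = |SK p N h K * p ^ r| := by
      rw [abs_mul, abs_of_pos (pow_pos hp0 r)]
    rw [h5, e1, abs_mul, abs_of_pos (pow_pos hp0 n)]
  rw [e5, e2]
  refine mul_le_mul_of_nonneg_left ?_ (pow_nonneg hp0.le _)
  exact (abs_sub _ _).trans (add_le_add e3 e4)

open Classical in
/-- classes of large index, first bound -/
theorem SK_abs {k n r N : ℕ} {ι : Fin r → Fin k} {C : Fin k → Fin r → ℚ}
    {K : Submodule ℚ (Fin k → ℚ)} (hT : IsT n ι C K)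
    (h : (Fin n → ℤ) → ℝ) {b : ℝ} (hb : ∀ x, |h x| ≤ b) (hp2 : r.factorial * (n * N ^ 2) ^ r < p) :
    |SK p N h K| * p ^ r ≤ p ^ n * (b ^ k * (((bxt k n N).filter (fun X => Kx X = K)).card : ℝ)) := by
  have hp0 : (0 : ℝ) < p := by exact_mod_cast (Fact.out : p.Prime).pos
  have hb0 : 0 ≤ b := (abs_nonneg _).trans (hb 0)
  calc |SK p N h K| * p ^ r
      ≤ (∑ X ∈ (bxt k n N).filter (fun X => Kx X = K), b ^ k * (sol p X : ℝ)) * p ^ r := by
        refine mul_le_mul_of_nonneg_right ?_ (pow_nonneg hp0.le _)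
        rw [SK]
        refine (Finset.abs_sum_le_sum_abs _ _).trans (Finset.sum_le_sum fun X _ => ?_)
        rw [abs_mul, Nat.abs_cast]
        exact mul_le_mul_of_nonneg_right (prod_le_pow h hb X) (Nat.cast_nonneg _)
    _ = ∑ X ∈ (bxt k n N).filter (fun X => Kx X = K), b ^ k * ((sol p X : ℝ) * p ^ r) := by
        rw [Finset.sum_mul]
        refine Finset.sum_congr rfl fun X _ => ?_
        ring
    _ ≤ ∑ _X ∈ (bxt k n N).filter (fun X => Kx X = K), b ^ k * (p ^ n : ℝ) := by
        refine Finset.sum_le_sum fun X hX => ?_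
        obtain ⟨hX1, hX2⟩ := Finset.mem_filter.1 hX
        obtain ⟨hR, hI⟩ := (hT.2.2 X).1 hX2
        refine mul_le_mul_of_nonneg_left ?_ (pow_nonneg hb0 _)
        exact_mod_cast sol_le ι hX1 hI hp2
    _ = _ := by
        rw [Finset.sum_const, nsmul_eq_mul]
        ring

end

end Pool.Agent.K4H71.RL
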