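import Pool.Agent.K4H71.RL.Idx

/-! Integer points of subspaces in boxes, and dependent tuples. -/

set_option autoImplicit false

namespace Pool.Agent.K4H71.RL

open Finset Module Submodule

/-- the rational vector of an integer vector -/
def cq {n : ℕ} (z : Fin n → ℤ) : Fin n → ℚ := fun j => z j

theorem cq_inj {n : ℕ} : Function.Injective (cq (n := n)) := by
  intro x y h
  funext j
  have h1 : (x j : ℚ) = y j := congrFun h j
  exact_mod_cast h1

open Classical in
theorem sub_count {n : ℕ} (S : Submodule ℚ (Fin n → ℚ)) (N d : ℕ) (hd : finrank ℚ S ≤ d) :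
    ((bx n N).filter (fun z => cq z ∈ S)).card ≤ (2 * N + 1) ^ d := by
  set f : Fin n → Dual ℚ S := fun j => (LinearMap.proj j).comp S.subtype with hf
  obtain ⟨K, -, -, hK3, hK4⟩ := exists_linearIndepOn_extension (K := ℚ) (v := f)
    (s := ∅) (t := Set.univ) (linearIndepOn_empty ℚ f) (Set.empty_subset _)
  have hKc : Fintype.card K ≤ d := by
    have h1 := LinearIndependent.fintype_card_le_finrank (R := ℚ) (b := fun x : K => f x) hK4
    rw [Subspace.dual_finrank_eq] at h1
    exact h1.trans hd
  have hinj : Set.InjOn (fun z : Fin n → ℤ => fun j : K => z j)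
      ((bx n N).filter (fun z => cq z ∈ S)) := by
    intro x hx y hy hxy
    have hxS := (Finset.mem_filter.1 hx).2
    have hyS := (Finset.mem_filter.1 hy).2
    set w : S := ⟨cq x - cq y, S.sub_mem hxS hyS⟩ with hw
    have h1 : ∀ g ∈ span ℚ (f '' K), g w = 0 := by
      intro g hg
      induction hg using span_induction with
      | mem g hg =>
        obtain ⟨j, hj, rfl⟩ := hg
        have := congrFun hxy ⟨j, hj⟩
        simp only at this
        show cq x j - cq y j = 0
        simp [cq, this]
      | zero => simp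
      | add a b _ _ ha hb => simp [ha, hb]
      | smul c a _ ha => simp [ha]
    apply cq_inj
    funext j
    have h2 : f j ∈ span ℚ (f '' K) := hK3 ⟨j, Set.mem_univ _, rfl⟩
    have h3 : cq x j - cq y j = 0 := h1 _ h2
    exact sub_eq_zero.1 h3
  have h4 : ((bx n N).filter (fun z => cq z ∈ S)).card ≤
      (Fintype.piFinset (fun _ : K => Finset.Icc (-(N : ℤ)) N)).card := by
    refine Finset.card_le_card_of_injOn _ ?_ hinj
    intro z hz
    have h5 := mem_bx.1 (Finset.mem_filter.1 hz).1
    simp only [Finset.mem_coe, Fintype.mem_piFinset, Finset.mem_Icc]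
    intro j
    exact abs_le.1 (h5 j)
  refine h4.trans ?_
  rw [Fintype.card_piFinset, Finset.prod_const, Finset.card_univ, Int.card_Icc]
  have h6 : ((N : ℤ) + 1 - -(N : ℤ)).toNat = 2 * N + 1 := by omega
  rw [h6]
  exact Nat.pow_le_pow_right (by omega) hKc

/-- tuples of points of the box -/
noncomputable def bxt (r n N : ℕ) : Finset (Fin r → Fin n → ℤ) := Fintype.piFinset fun _ => bx n N

theorem mem_bxt {r n N : ℕ} {Z : Fin r → Fin n → ℤ} : Z ∈ bxt r n N ↔ ∀ i, Z i ∈ bx n N := by
  simp [bxt]

theorem card_bxt (r n N : ℕ) : (bxt r n N).card = ((2 * N + 1) ^ n) ^ r := by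
  rw [bxt, Fintype.card_piFinset_const, card_bx]

open Classical in
theorem dep_count (r n N : ℕ) :
    ((bxt r n N).filter (fun Z => ¬ LinearIndependent ℚ (fun i => cq (Z i)))).card ≤
      r * (((2 * N + 1) ^ n) ^ (r - 1) * (2 * N + 1) ^ (r - 1)) := by
  rcases Nat.eq_zero_or_pos r with rfl | hr
  · have : ((bxt 0 n N).filter (fun Z => ¬ LinearIndependent ℚ (fun i => cq (Z i)))) = ∅ := by
      rw [Finset.filter_eq_empty_iff]
      intro Z _
      rw [not_not]
      exact linearIndependent_empty_type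
    rw [this]
    simp
  obtain ⟨m, rfl⟩ : ∃ m, r = m + 1 := ⟨r - 1, by omega⟩
  simp only [Nat.add_sub_cancel]
  have hsub : ((bxt (m + 1) n N).filter (fun Z => ¬ LinearIndependent ℚ (fun i => cq (Z i)))) ⊆
      Finset.univ.biUnion (fun j : Fin (m + 1) => (bxt (m + 1) n N).filter
        (fun Z => cq (Z j) ∈ span ℚ (Set.range fun i : Fin m => cq (Z (j.succAbove i))))) := by
    intro Z hZ
    rw [Finset.mem_filter] at hZ
    rw [linearIndependent_iff_notMem_span] at hZ
    obtain ⟨hZ1, hZ2⟩ := hZ
    push Not at hZ2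
    obtain ⟨j, hj⟩ := hZ2
    rw [Finset.mem_biUnion]
    refine ⟨j, Finset.mem_univ _, Finset.mem_filter.2 ⟨hZ1, ?_⟩⟩
    have hset : (Set.range fun i : Fin m => cq (Z (j.succAbove i))) =
        (fun i => cq (Z i)) '' (Set.univ \ {j}) := by
      ext y
      constructor
      · rintro ⟨i, rfl⟩
        exact ⟨j.succAbove i, ⟨Set.mem_univ _, by simpa using Fin.succAbove_ne j i⟩, rfl⟩
      · rintro ⟨i, ⟨-, hi⟩, rfl⟩
        obtain ⟨i', hi'⟩ := Fin.exists_succAbove_eq (show i ≠ j from hi)
        exact ⟨i', by simp only [hi']⟩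
    rw [hset]
    exact hj
  refine (Finset.card_le_card hsub).trans (Finset.card_biUnion_le.trans ?_)
  have hj : ∀ j : Fin (m + 1), ((bxt (m + 1) n N).filter
        (fun Z => cq (Z j) ∈ span ℚ (Set.range fun i : Fin m => cq (Z (j.succAbove i))))).card ≤
      ((2 * N + 1) ^ n) ^ m * (2 * N + 1) ^ m := by
    intro j
    have h1 : ((bxt (m + 1) n N).filter
        (fun Z => cq (Z j) ∈ span ℚ (Set.range fun i : Fin m => cq (Z (j.succAbove i))))) ⊆
        (bxt m n N).biUnion (fun Y => ((bx n N).filter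
          (fun z => cq z ∈ span ℚ (Set.range fun i : Fin m => cq (Y i)))).image
            (fun z => j.insertNth z Y)) := by
      intro Z hZ
      rw [Finset.mem_filter, mem_bxt] at hZ
      rw [Finset.mem_biUnion]
      refine ⟨j.removeNth Z, mem_bxt.2 fun i => hZ.1 _, ?_⟩
      rw [Finset.mem_image]
      refine ⟨Z j, Finset.mem_filter.2 ⟨hZ.1 j, hZ.2⟩, ?_⟩
      exact Fin.insertNth_self_removeNth j Z
    refine (Finset.card_le_card h1).trans (Finset.card_biUnion_le.trans ?_)
    rw [← card_bxt m n N, ← smul_eq_mul, ← Finset.sum_const]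
    refine Finset.sum_le_sum fun Y _ => Finset.card_image_le.trans ?_
    refine sub_count _ _ _ ?_
    have := finrank_range_le_card (R := ℚ) (fun i : Fin m => cq (Y i))
    simpa [Set.finrank] using this
  calc ∑ j : Fin (m + 1), ((bxt (m + 1) n N).filter
        (fun Z => cq (Z j) ∈ span ℚ (Set.range fun i : Fin m => cq (Z (j.succAbove i))))).card
      ≤ ∑ _j : Fin (m + 1), ((2 * N + 1) ^ n) ^ m * (2 * N + 1) ^ m :=
        Finset.sum_le_sum fun j _ => hj j
    _ = _ := by simp

end Pool.Agent.K4H71.RL
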