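import Mathlib

/-! The Fejer kernel on the circle. -/

set_option autoImplicit false

namespace Pool.Agent.K4H71.RL

open MeasureTheory Finset

/-- the Fejer kernel -/
noncomputable def Fj (N : ℕ) (θ : ℝ) : ℝ :=
  ∑ m ∈ Finset.Icc (-(N : ℤ)) N, (1 - |(m : ℝ)| / N) * Real.cos (2 * Real.pi * (m * θ))

theorem Icc_succ (N : ℕ) : Finset.Icc (-((N + 1 : ℕ) : ℤ)) ((N + 1 : ℕ) : ℤ) =
    insert ((N : ℤ) + 1) (insert (-((N : ℤ) + 1)) (Finset.Icc (-(N : ℤ)) N)) := by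
  ext m
  simp only [Finset.mem_Icc, Finset.mem_insert, Nat.cast_add, Nat.cast_one]
  omega

theorem sum_Icc_succ (N : ℕ) (f : ℤ → ℝ) :
    ∑ m ∈ Finset.Icc (-((N + 1 : ℕ) : ℤ)) ((N + 1 : ℕ) : ℤ), f m =
      f ((N : ℤ) + 1) + (f (-((N : ℤ) + 1)) + ∑ m ∈ Finset.Icc (-(N : ℤ)) N, f m) := by
  rw [Icc_succ, Finset.sum_insert, Finset.sum_insert]
  · simp only [Finset.mem_Icc]
    omega
  · simp only [Finset.mem_Icc, Finset.mem_insert]
    omega

theorem sum_sym (N : ℕ) (f : ℤ → ℝ) : ∑ m ∈ Finset.Icc (-(N : ℤ)) N, f m =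
    f 0 + ∑ j ∈ Finset.range N, (f ((N : ℤ) - j) + f ((j : ℤ) - N)) := by
  induction N with
  | zero => simp
  | succ N ih =>
    rw [sum_Icc_succ, ih, Finset.sum_range_succ']
    have h1 : ∀ j ∈ Finset.range N, (f (((N + 1 : ℕ) : ℤ) - ((j + 1 : ℕ) : ℤ)) +
        f (((j + 1 : ℕ) : ℤ) - ((N + 1 : ℕ) : ℤ))) = f ((N : ℤ) - j) + f ((j : ℤ) - N) := by
      intro j _
      have e1 : (((N + 1 : ℕ) : ℤ) - ((j + 1 : ℕ) : ℤ)) = (N : ℤ) - j := by push_cast; ring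
      have e2 : (((j + 1 : ℕ) : ℤ) - ((N + 1 : ℕ) : ℤ)) = (j : ℤ) - N := by push_cast; ring
      rw [e1, e2]
    rw [Finset.sum_congr rfl h1]
    have e3 : (((N + 1 : ℕ) : ℤ) - ((0 : ℕ) : ℤ)) = (N : ℤ) + 1 := by push_cast; ring
    have e4 : (((0 : ℕ) : ℤ) - ((N + 1 : ℕ) : ℤ)) = -((N : ℤ) + 1) := by push_cast; ring
    rw [e3, e4]
    ring

theorem sum_diff (N : ℕ) (f : ℤ → ℝ) :
    ∑ j ∈ Finset.range N, ∑ l ∈ Finset.range N, f ((j : ℤ) - l) =
      ∑ m ∈ Finset.Icc (-(N : ℤ)) N, ((N : ℝ) - |(m : ℝ)|) * f m := by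
  induction N with
  | zero => simp
  | succ N ih =>
    rw [Finset.sum_range_succ]
    have h1 : ∑ j ∈ Finset.range N, ∑ l ∈ Finset.range (N + 1), f ((j : ℤ) - l) =
        ∑ j ∈ Finset.range N, ∑ l ∈ Finset.range N, f ((j : ℤ) - l) +
        ∑ j ∈ Finset.range N, f ((j : ℤ) - N) := by
      rw [← Finset.sum_add_distrib]
      refine Finset.sum_congr rfl fun j _ => ?_
      rw [Finset.sum_range_succ]
    rw [h1, ih, Finset.sum_range_succ, sum_Icc_succ]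
    have h2 : ∑ m ∈ Finset.Icc (-(N : ℤ)) N, (((N + 1 : ℕ) : ℝ) - |(m : ℝ)|) * f m =
        ∑ m ∈ Finset.Icc (-(N : ℤ)) N, ((N : ℝ) - |(m : ℝ)|) * f m +
        ∑ m ∈ Finset.Icc (-(N : ℤ)) N, f m := by
      rw [← Finset.sum_add_distrib]
      refine Finset.sum_congr rfl fun m _ => ?_
      push_cast
      ring
    rw [h2, sum_sym N f, Finset.sum_add_distrib]
    have e1 : |(((N : ℤ) + 1 : ℤ) : ℝ)| = (N : ℝ) + 1 := by
      push_cast
      exact abs_of_pos (by positivity)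
    have e2 : |((-((N : ℤ) + 1) : ℤ) : ℝ)| = (N : ℝ) + 1 := by
      push_cast
      rw [abs_of_neg] <;> have : (0 : ℝ) ≤ N := Nat.cast_nonneg _ <;> linarith
    rw [e1, e2]
    push_cast
    simp only [sub_self, zero_mul]
    ring

theorem Fj_sq {N : ℕ} (hN : 1 ≤ N) (θ : ℝ) : N * Fj N θ =
    (∑ j ∈ Finset.range N, Real.cos (2 * Real.pi * (j * θ))) ^ 2 +
    (∑ j ∈ Finset.range N, Real.sin (2 * Real.pi * (j * θ))) ^ 2 := by
  have hN0 : (N : ℝ) ≠ 0 := by positivity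
  have h := sum_diff N (fun m => Real.cos (2 * Real.pi * (m * θ)))
  have h1 : N * Fj N θ = ∑ m ∈ Finset.Icc (-(N : ℤ)) N,
      ((N : ℝ) - |(m : ℝ)|) * Real.cos (2 * Real.pi * (m * θ)) := by
    rw [Fj, Finset.mul_sum]
    refine Finset.sum_congr rfl fun m _ => ?_
    field_simp
  rw [h1, ← h, sq, sq, Finset.sum_mul_sum, Finset.sum_mul_sum, ← Finset.sum_add_distrib]
  refine Finset.sum_congr rfl fun j _ => ?_
  rw [← Finset.sum_add_distrib]
  refine Finset.sum_congr rfl fun l _ => ?_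
  rw [← Real.cos_sub]
  congr 1
  push_cast
  ring

theorem Fj_nonneg {N : ℕ} (hN : 1 ≤ N) (θ : ℝ) : 0 ≤ Fj N θ := by
  have h := Fj_sq hN θ
  have hN0 : (0 : ℝ) < N := by positivity
  have h1 : 0 ≤ N * Fj N θ := by
    rw [h]
    positivity
  exact nonneg_of_mul_nonneg_right h1 hN0

theorem Fj_sin {N : ℕ} (hN : 1 ≤ N) (θ : ℝ) :
    N * Fj N θ * Real.sin (Real.pi * θ) ^ 2 ≤ 1 := by
  rw [Fj_sq hN]
  set z : ℂ := Complex.exp ((2 * Real.pi * θ : ℝ) * Complex.I) with hz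
  have hzj : ∀ j : ℕ, z ^ j = Complex.exp ((2 * Real.pi * (j * θ) : ℝ) * Complex.I) := by
    intro j
    rw [hz, ← Complex.exp_nat_mul]
    congr 1
    push_cast
    ring
  have hS : (∑ j ∈ Finset.range N, z ^ j) =
      ((∑ j ∈ Finset.range N, Real.cos (2 * Real.pi * (j * θ)) : ℝ) : ℂ) +
      ((∑ j ∈ Finset.range N, Real.sin (2 * Real.pi * (j * θ)) : ℝ) : ℂ) * Complex.I := by
    push_cast
    rw [Finset.sum_mul, ← Finset.sum_add_distrib]
    refine Finset.sum_congr rfl fun j _ => ?_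
    rw [hzj, Complex.exp_mul_I]
    push_cast
    rfl
  have hn1 : Complex.normSq (∑ j ∈ Finset.range N, z ^ j) =
      (∑ j ∈ Finset.range N, Real.cos (2 * Real.pi * (j * θ))) ^ 2 +
      (∑ j ∈ Finset.range N, Real.sin (2 * Real.pi * (j * θ))) ^ 2 := by
    rw [hS, Complex.normSq_add_mul_I]
  rw [← hn1]
  have hg : (z - 1) * ∑ j ∈ Finset.range N, z ^ j = z ^ N - 1 := mul_geom_sum z N
  have h1 : Complex.normSq (z - 1) = 4 * Real.sin (Real.pi * θ) ^ 2 := by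
    rw [hz, Complex.exp_mul_I, ← Complex.ofReal_cos, ← Complex.ofReal_sin]
    have : ((Real.cos (2 * Real.pi * θ) : ℝ) : ℂ) + ((Real.sin (2 * Real.pi * θ) : ℝ) : ℂ) * Complex.I - 1 =
        ((Real.cos (2 * Real.pi * θ) - 1 : ℝ) : ℂ) + ((Real.sin (2 * Real.pi * θ) : ℝ) : ℂ) * Complex.I := by
      push_cast
      ring
    rw [this, Complex.normSq_add_mul_I]
    have h2 : 2 * Real.pi * θ = 2 * (Real.pi * θ) := by ring
    rw [h2, Real.cos_two_mul, Real.sin_two_mul]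
    have h3 := Real.sin_sq_add_cos_sq (Real.pi * θ)
    have h4 : Real.cos (Real.pi * θ) ^ 2 = 1 - Real.sin (Real.pi * θ) ^ 2 := by linarith
    calc (2 * Real.cos (Real.pi * θ) ^ 2 - 1 - 1) ^ 2 +
          (2 * Real.sin (Real.pi * θ) * Real.cos (Real.pi * θ)) ^ 2
        = (2 * Real.cos (Real.pi * θ) ^ 2 - 1 - 1) ^ 2 +
          4 * Real.sin (Real.pi * θ) ^ 2 * Real.cos (Real.pi * θ) ^ 2 := by ring
      _ = _ := by
          rw [h4]
          ring
  have h2 : Complex.normSq (z ^ N - 1) ≤ 4 := by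
    rw [Complex.normSq_eq_norm_sq]
    have h3 : ‖z ^ N - 1‖ ≤ 2 := by
      refine (norm_sub_le _ _).trans ?_
      rw [norm_pow, hz, Complex.norm_exp_ofReal_mul_I]
      norm_num
    nlinarith [norm_nonneg (z ^ N - 1)]
  have h3 := congrArg Complex.normSq hg
  rw [Complex.normSq_mul, h1] at h3
  nlinarith

theorem Fj_far {N : ℕ} (hN : 1 ≤ N) {θ : ℝ} (h0 : θ ≠ 0) (h1 : |θ| ≤ 1 / 2) :
    Fj N θ ≤ 1 / (4 * N) * (θ ^ 2)⁻¹ := by
  have h2 := Fj_sin hN θ
  have h3 : 2 * |θ| ≤ |Real.sin (Real.pi * θ)| := by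
    have h4 := Real.mul_abs_le_abs_sin (x := Real.pi * θ) (by
      rw [abs_mul, abs_of_pos Real.pi_pos]
      nlinarith [Real.pi_pos])
    rw [abs_mul, abs_of_pos Real.pi_pos] at h4
    refine le_trans (le_of_eq ?_) h4
    field_simp
  have h5 : 4 * θ ^ 2 ≤ Real.sin (Real.pi * θ) ^ 2 := by
    have h6 : (2 * |θ|) ^ 2 ≤ |Real.sin (Real.pi * θ)| ^ 2 :=
      pow_le_pow_left₀ (by positivity) h3 2
    rw [sq_abs, mul_pow, sq_abs] at h6
    linarith
  have hN0 : (0 : ℝ) < N := by positivity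
  have hθ : 0 < θ ^ 2 := by positivity
  have h6 := Fj_nonneg hN θ
  have h7 : N * Fj N θ * (4 * θ ^ 2) ≤ 1 :=
    (mul_le_mul_of_nonneg_left h5 (by positivity)).trans h2
  have h8 : 1 / (4 * (N : ℝ)) * (θ ^ 2)⁻¹ = 1 / (4 * N * θ ^ 2) := by field_simp
  rw [h8, le_div_iff₀ (by positivity)]
  linarith

theorem Fj_cont (N : ℕ) : Continuous (Fj N) := by
  unfold Fj
  fun_prop

theorem int_cos (m : ℤ) : ∫ θ in (-(1 / 2) : ℝ)..(1 / 2), Real.cos (2 * Real.pi * (m * θ)) =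
    if m = 0 then 1 else 0 := by
  split_ifs with hm
  · subst hm
    simp
    norm_num
  · have hm' : (2 * Real.pi * m : ℝ) ≠ 0 := by
      have : (m : ℝ) ≠ 0 := by exact_mod_cast hm
      positivity
    have h1 : ∀ θ : ℝ, HasDerivAt (fun θ => Real.sin (2 * Real.pi * (m * θ)) / (2 * Real.pi * m))
        (Real.cos (2 * Real.pi * (m * θ))) θ := by
      intro θ
      have h2 : HasDerivAt (fun θ : ℝ => 2 * Real.pi * (m * θ)) (2 * Real.pi * m) θ := by
        have := ((hasDerivAt_id θ).const_mul (m : ℝ)).const_mul (2 * Real.pi)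
        refine this.congr_deriv ?_
        ring
      have h3 := (h2.sin).div_const (2 * Real.pi * m)
      refine h3.congr_deriv ?_
      field_simp
    rw [intervalIntegral.integral_eq_sub_of_hasDerivAt (fun θ _ => h1 θ)
      (Continuous.intervalIntegrable (by fun_prop) _ _)]
    have h4 : Real.sin (2 * Real.pi * (m * (1 / 2))) = 0 := by
      have : 2 * Real.pi * (m * (1 / 2)) = m * Real.pi := by ring
      rw [this, Real.sin_int_mul_pi]
    have h5 : Real.sin (2 * Real.pi * (m * (-(1 / 2)))) = 0 := by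
      have : 2 * Real.pi * (m * (-(1 / 2))) = -(m * Real.pi) := by ring
      rw [this, Real.sin_neg, Real.sin_int_mul_pi, neg_zero]
    rw [h4, h5]
    simp

theorem Fj_int {N : ℕ} (hN : 1 ≤ N) : ∫ θ in (-(1 / 2) : ℝ)..(1 / 2), Fj N θ = 1 := by
  unfold Fj
  rw [intervalIntegral.integral_finsetSum (fun m _ => Continuous.intervalIntegrable (by fun_prop) _ _)]
  simp only [intervalIntegral.integral_const_mul, int_cos]
  rw [Finset.sum_eq_single 0]
  · simp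
  · intro m _ hm
    simp [hm]
  · intro h
    exfalso
    apply h
    rw [Finset.mem_Icc]
    constructor <;> omega

theorem Fj_near {N : ℕ} (hN : 1 ≤ N) {κ : ℝ} (hκ : 0 < κ) (hκ2 : κ ≤ 1 / 2) :
    1 - 1 / (2 * N * κ) ≤ ∫ θ in (-κ)..κ, Fj N θ := by
  have hN0 : (0 : ℝ) < N := by positivity
  have hI : ∀ a b, IntervalIntegrable (Fj N) volume a b := fun a b =>
    (Fj_cont N).intervalIntegrable _ _
  have hs1 := intervalIntegral.integral_add_adjacent_intervals (hI (-(1 / 2)) (-κ)) (hI (-κ) κ)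
  have hs2 := intervalIntegral.integral_add_adjacent_intervals (hI (-(1 / 2)) κ) (hI κ (1 / 2))
  rw [← hs1, Fj_int hN] at hs2
  have hd : ∀ θ : ℝ, θ ≠ 0 → HasDerivAt (fun θ => 1 / (4 * (N : ℝ)) * (-θ⁻¹))
      (1 / (4 * N) * (θ ^ 2)⁻¹) θ := by
    intro θ hθ
    have := ((hasDerivAt_inv hθ).neg).const_mul (1 / (4 * (N : ℝ)))
    refine this.congr_deriv ?_
    simp
  have h1 : ∫ θ in κ..(1 / 2), Fj N θ ≤ 1 / (4 * N * κ) := by
    have hc : ContinuousOn (fun θ : ℝ => 1 / (4 * (N : ℝ)) * (θ ^ 2)⁻¹) (Set.uIcc κ (1 / 2)) := by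
      refine continuousOn_const.mul (ContinuousOn.inv₀ (by fun_prop) ?_)
      intro θ hθ
      rw [Set.uIcc_of_le hκ2] at hθ
      have : 0 < θ := lt_of_lt_of_le hκ hθ.1
      positivity
    calc ∫ θ in κ..(1 / 2), Fj N θ ≤ ∫ θ in κ..(1 / 2), 1 / (4 * N) * (θ ^ 2)⁻¹ := by
          refine intervalIntegral.integral_mono_on hκ2 (hI _ _) hc.intervalIntegrable ?_
          intro θ hθ
          have h0 : 0 < θ := lt_of_lt_of_le hκ hθ.1
          exact Fj_far hN h0.ne' (by rw [abs_of_pos h0]; exact hθ.2)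
      _ = 1 / (4 * (N : ℝ)) * (-(1 / 2 : ℝ)⁻¹) - 1 / (4 * (N : ℝ)) * (-κ⁻¹) := by
          refine intervalIntegral.integral_eq_sub_of_hasDerivAt
            (f := fun θ => 1 / (4 * (N : ℝ)) * (-θ⁻¹)) (fun θ hθ => ?_) hc.intervalIntegrable
          rw [Set.uIcc_of_le hκ2] at hθ
          exact hd θ (lt_of_lt_of_le hκ hθ.1).ne'
      _ ≤ 1 / (4 * N * κ) := by
          have h2 : 1 / (4 * (N : ℝ)) * (-κ⁻¹) = -(1 / (4 * N * κ)) := by field_simp
          rw [h2]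
          have h3 : 0 ≤ 1 / (4 * (N : ℝ)) * (1 / 2 : ℝ)⁻¹ := by positivity
          linarith
  have h2 : ∫ θ in (-(1 / 2))..(-κ), Fj N θ ≤ 1 / (4 * N * κ) := by
    have h3 : ∫ θ in (-(1 / 2))..(-κ), Fj N θ = ∫ θ in κ..(1 / 2), Fj N θ := by
      rw [← intervalIntegral.integral_comp_neg (fun θ => Fj N θ)]
      refine intervalIntegral.integral_congr fun θ _ => ?_
      simp only [Fj]
      refine Finset.sum_congr rfl fun m _ => ?_
      rw [mul_neg, mul_neg, Real.cos_neg]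
    rw [h3]
    exact h1
  have h4 : 1 / (2 * (N : ℝ) * κ) = 1 / (4 * N * κ) + 1 / (4 * N * κ) := by
    field_simp
    norm_num
  rw [h4]
  linarith

end Pool.Agent.K4H71.RL
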