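import Mathlib

/-! Subgroups of `ℤ^r`: points in boxes. -/

set_option autoImplicit false

namespace Pool.Agent.K4H71.RL

open Finset Module

/-- the box `[-N, N]^r` -/
noncomputable def bx (r N : ℕ) : Finset (Fin r → ℤ) := Fintype.piFinset fun _ => Finset.Icc (-(N : ℤ)) N

theorem mem_bx {r N : ℕ} {z : Fin r → ℤ} : z ∈ bx r N ↔ ∀ i, |z i| ≤ N := by
  simp [bx, abs_le]

theorem card_bx (r N : ℕ) : (bx r N).card = (2 * N + 1) ^ r := by
  rw [bx, Fintype.card_piFinset_const, Int.card_Icc]
  congr 1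
  omega

/-- the vectors `z` such that `C z` is integral -/
def MC {k r : ℕ} (C : Fin k → Fin r → ℚ) : AddSubgroup (Fin r → ℤ) where
  carrier := {z | ∀ e, ∃ m : ℤ, ∑ i, C e i * z i = m}
  zero_mem' := fun e => ⟨0, by simp⟩
  add_mem' := by
    intro x y hx hy e
    obtain ⟨a, ha⟩ := hx e
    obtain ⟨b, hb⟩ := hy e
    refine ⟨a + b, ?_⟩
    push_cast
    rw [← ha, ← hb, ← Finset.sum_add_distrib]
    refine Finset.sum_congr rfl fun i _ => ?_
    simp only [Pi.add_apply]
    push_cast
    ring
  neg_mem' := by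
    intro x hx e
    obtain ⟨a, ha⟩ := hx e
    refine ⟨-a, ?_⟩
    push_cast
    rw [← ha, ← Finset.sum_neg_distrib]
    refine Finset.sum_congr rfl fun i _ => ?_
    simp only [Pi.neg_apply]
    push_cast
    ring

theorem mem_MC {k r : ℕ} {C : Fin k → Fin r → ℚ} {z : Fin r → ℤ} :
    z ∈ MC C ↔ ∀ e, ∃ m : ℤ, ∑ i, C e i * z i = m := Iff.rfl

theorem MC_index {k r : ℕ} (C : Fin k → Fin r → ℚ) : (MC C).index ≠ 0 := by
  classical
  set q : ℕ := ∏ e, ∏ i, (C e i).den with hq
  have hq0 : q ≠ 0 := by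
    rw [hq]
    exact Finset.prod_ne_zero_iff.2 fun e _ => Finset.prod_ne_zero_iff.2 fun i _ => (C e i).den_nz
  have hD : ∀ e i, ∃ d : ℤ, (q : ℚ) * C e i = d := by
    intro e i
    have h1 : (C e i).den ∣ q :=
      (Finset.dvd_prod_of_mem (fun i => (C e i).den) (Finset.mem_univ i)).trans
        (Finset.dvd_prod_of_mem (fun e => ∏ i, (C e i).den) (Finset.mem_univ e))
    obtain ⟨c, hc⟩ := h1
    refine ⟨c * (C e i).num, ?_⟩
    rw [hc]
    push_cast
    have h2 : ((C e i).den : ℚ) * C e i = (C e i).num := by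
      rw [mul_comm]
      exact Rat.mul_den_eq_num _
    linear_combination (c : ℚ) * h2
  choose D hD using hD
  have : NeZero q := ⟨hq0⟩
  set φ : (Fin r → ℤ) →+ (Fin k → ZMod q) :=
    { toFun := fun z e => ((∑ i, D e i * z i : ℤ) : ZMod q)
      map_zero' := by
        funext e
        simp
      map_add' := by
        intro x y
        funext e
        simp only [Pi.add_apply, mul_add, Finset.sum_add_distrib]
        push_cast
        rfl } with hφ
  have hker : φ.ker = MC C := by
    ext z
    rw [AddMonoidHom.mem_ker, mem_MC]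
    constructor
    · intro hz e
      have h1 : ((∑ i, D e i * z i : ℤ) : ZMod q) = 0 := congrFun hz e
      rw [ZMod.intCast_zmod_eq_zero_iff_dvd] at h1
      obtain ⟨m, hm⟩ := h1
      refine ⟨m, ?_⟩
      have h2 : (q : ℚ) * ∑ i, C e i * z i = q * m := by
        rw [Finset.mul_sum]
        have h3 : ((∑ i, D e i * z i : ℤ) : ℚ) = ((q : ℤ) * m : ℤ) := by rw [hm]
        push_cast at h3
        rw [← h3]
        refine Finset.sum_congr rfl fun i _ => ?_
        rw [← hD]
        ring
      exact mul_left_cancel₀ (by exact_mod_cast hq0) h2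
    · intro hz
      funext e
      obtain ⟨m, hm⟩ := hz e
      show ((∑ i, D e i * z i : ℤ) : ZMod q) = 0
      rw [ZMod.intCast_zmod_eq_zero_iff_dvd]
      refine ⟨m, ?_⟩
      have h3 : ((∑ i, D e i * z i : ℤ) : ℚ) = ((q : ℤ) * m : ℤ) := by
        push_cast
        rw [← hm, Finset.mul_sum]
        refine Finset.sum_congr rfl fun i _ => ?_
        rw [← hD]
        ring
      exact_mod_cast h3
  rw [← hker, AddSubgroup.index_ker]
  exact Nat.card_pos.ne'

theorem smul_mem {r : ℕ} (M : AddSubgroup (Fin r → ℤ)) (z : Fin r → ℤ) : M.index • z ∈ M :=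
  M.nsmul_index_mem z

theorem MC_int {k r : ℕ} (C : Fin k → Fin r → ℚ) (e : Fin k) (i : Fin r) :
    ∃ m : ℤ, ((MC C).index : ℚ) * C e i = m := by
  classical
  have h := smul_mem (MC C) (Pi.single i 1)
  obtain ⟨m, hm⟩ := h e
  refine ⟨m, ?_⟩
  rw [← hm]
  rw [Finset.sum_eq_single i]
  · simp [mul_comm]
  · intro j _ hj
    simp [Pi.single_eq_of_ne hj]
  · intro h
    exact absurd (Finset.mem_univ i) h

open Classical in
theorem coset_count {r : ℕ} (M : AddSubgroup (Fin r → ℤ)) (hM : M.index ≠ 0)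
    (S T : Finset (Fin r → ℤ)) (hS : ∀ m ∈ S, m ∈ M)
    (u : (Fin r → ℤ) ⧸ M → (Fin r → ℤ)) (hu : ∀ q, (QuotientAddGroup.mk (u q) : (Fin r → ℤ) ⧸ M) = q)
    (hT : ∀ m ∈ S, ∀ q, m + u q ∈ T) : S.card * M.index ≤ T.card := by
  have hfin : Finite ((Fin r → ℤ) ⧸ M) := by
    rw [AddSubgroup.index] at hM
    exact Nat.finite_of_card_ne_zero hM
  have : Fintype ((Fin r → ℤ) ⧸ M) := Fintype.ofFinite _
  have h1 : M.index = (Finset.univ : Finset ((Fin r → ℤ) ⧸ M)).card := by
    rw [AddSubgroup.index, Nat.card_eq_fintype_card, Finset.card_univ]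
  rw [h1, ← Finset.card_product]
  refine Finset.card_le_card_of_injOn (fun p => p.1 + u p.2) ?_ ?_
  · intro p hp
    rw [Finset.coe_product] at hp
    exact hT _ hp.1 _
  · rintro ⟨m, q⟩ hp ⟨m', q'⟩ hp' h
    rw [Finset.coe_product] at hp hp'
    simp only at h
    have hm := hS _ hp.1
    have hm' := hS _ hp'.1
    have hq : q = q' := by
      rw [← hu q, ← hu q']
      rw [QuotientAddGroup.eq]
      have : -u q + u q' = m - m' := by
        have : u q' = m + u q - m' := by rw [h]; abel
        rw [this]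
        abel
      rw [this]
      exact M.sub_mem hm hm'
    subst hq
    rw [add_left_inj] at h
    rw [h]

open Classical in
/-- the bound by residue classes -/
theorem count_res {r : ℕ} (M : AddSubgroup (Fin r → ℤ)) (hM : M.index ≠ 0) (N : ℕ) :
    ((bx r N).filter (fun z => z ∈ M)).card * M.index ≤ (2 * N + M.index) ^ r := by
  set g := M.index with hg
  have hg0 : 0 < (g : ℤ) := by exact_mod_cast Nat.pos_of_ne_zero hM
  set T : Finset (Fin r → ℤ) := Fintype.piFinset fun _ => Finset.Icc (-(N : ℤ)) (N + g - 1) with hT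
  have hcard : T.card = (2 * N + g) ^ r := by
    rw [hT, Fintype.card_piFinset_const, Int.card_Icc]
    congr 1
    omega
  rw [← hcard]
  refine coset_count M hM _ T (fun m hm => (Finset.mem_filter.1 hm).2)
    (fun q i => (Quotient.out q : Fin r → ℤ) i % g) ?_ ?_
  · intro q
    conv_rhs => rw [← Quotient.out_eq' q]
    refine QuotientAddGroup.eq.2 ?_
    have h2 : -(fun i => (Quotient.out q : Fin r → ℤ) i % g) + (Quotient.out q : Fin r → ℤ) =
        g • (fun i => (Quotient.out q : Fin r → ℤ) i / g) := by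
      funext i
      simp only [Pi.add_apply, Pi.neg_apply, Pi.smul_apply, nsmul_eq_mul]
      have := Int.emod_add_mul_ediv ((Quotient.out q : Fin r → ℤ) i) g
      linarith
    have h3 := smul_mem M (fun i => (Quotient.out q : Fin r → ℤ) i / g)
    rw [← hg, ← h2] at h3
    exact h3
  · intro m hm q
    have h1 := mem_bx.1 (Finset.mem_filter.1 hm).1
    rw [hT, Fintype.mem_piFinset]
    intro i
    have h2 := abs_le.1 (h1 i)
    have h3 := Int.emod_nonneg ((Quotient.out q : Fin r → ℤ) i) hg0.ne'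
    have h4 := Int.emod_lt_of_pos ((Quotient.out q : Fin r → ℤ) i) hg0
    rw [Finset.mem_Icc]
    simp only [Pi.add_apply]
    constructor <;> linarith

open Classical in
/-- the bound for subgroups whose points in the box span -/
theorem count_span {r : ℕ} (M : AddSubgroup (Fin r → ℤ)) (hM : M.index ≠ 0) (N : ℕ)
    (v : Fin r → (Fin r → ℤ)) (hv : ∀ i, v i ∈ M) (hvN : ∀ i, v i ∈ bx r N)
    (hli : LinearIndependent ℚ (fun i => fun j => (v i j : ℚ))) :
    ((bx r N).filter (fun z => z ∈ M)).card * M.index ≤ (2 * ((r + 1) * N) + 1) ^ r := by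
  rw [← card_bx]
  have hcard : Fintype.card (Fin r) = finrank ℚ (Fin r → ℚ) := by simp
  set B := Basis.mk hli (hli.span_eq_top_of_card_eq_finrank' hcard).ge with hB
  have hBi : ∀ i, B i = fun j => (v i j : ℚ) := by
    intro i
    rw [hB, Basis.mk_apply]
  set c : (Fin r → ℤ) → Fin r → ℚ := fun z i => B.repr (fun j => (z j : ℚ)) i with hc
  have hcz : ∀ z : Fin r → ℤ, ∀ j, (z j : ℚ) = ∑ i, c z i * v i j := by
    intro z j
    have h1 := B.sum_repr (fun j => (z j : ℚ))
    have h2 := congrFun h1 j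
    simp only [Finset.sum_apply, Pi.smul_apply, smul_eq_mul, hBi] at h2
    exact h2.symm
  set U : (Fin r → ℤ) → (Fin r → ℤ) := fun z => z - ∑ i, ⌊c z i⌋ • v i with hU
  have hUj : ∀ z j, ((U z j : ℤ) : ℚ) = ∑ i, Int.fract (c z i) * v i j := by
    intro z j
    simp only [hU, Pi.sub_apply, Finset.sum_apply, Pi.smul_apply, smul_eq_mul]
    push_cast
    rw [hcz z j, ← Finset.sum_sub_distrib]
    refine Finset.sum_congr rfl fun i _ => ?_
    rw [← sub_mul]
    rfl
  refine coset_count M hM _ _ (fun m hm => (Finset.mem_filter.1 hm).2)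
    (fun q => U (Quotient.out q)) ?_ ?_
  · intro q
    conv_rhs => rw [← Quotient.out_eq' q]
    refine QuotientAddGroup.eq.2 ?_
    have h2 : -U (Quotient.out q) + (Quotient.out q : Fin r → ℤ) =
        ∑ i, ⌊c (Quotient.out q) i⌋ • v i := by
      simp only [hU]
      abel
    rw [h2]
    exact M.sum_mem fun i _ => M.zsmul_mem (hv i) _
  · intro m hm q
    have h1 := mem_bx.1 (Finset.mem_filter.1 hm).1
    rw [mem_bx]
    intro j
    have h3 : |((U (Quotient.out q) j : ℤ) : ℚ)| ≤ (r : ℚ) * N := by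
      rw [hUj]
      refine (Finset.abs_sum_le_sum_abs _ _).trans ?_
      calc ∑ i, |Int.fract (c (Quotient.out q) i) * (v i j : ℚ)| ≤ ∑ _i : Fin r, (N : ℚ) := by
            refine Finset.sum_le_sum fun i _ => ?_
            rw [abs_mul, abs_of_nonneg (Int.fract_nonneg _)]
            have h4 : |(v i j : ℚ)| ≤ N := by
              have := mem_bx.1 (hvN i) j
              exact_mod_cast this
            have h5 := (Int.fract_lt_one (c (Quotient.out q) i)).le
            have h6 := Int.fract_nonneg (c (Quotient.out q) i)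
            calc Int.fract (c (Quotient.out q) i) * |(v i j : ℚ)| ≤ 1 * N :=
                  mul_le_mul h5 h4 (abs_nonneg _) zero_le_one
              _ = N := one_mul _
        _ = r * N := by simp
    have h4 : |U (Quotient.out q) j| ≤ (r : ℤ) * N := by exact_mod_cast h3
    simp only [Pi.add_apply]
    have h5 := abs_add_le (m j) (U (Quotient.out q) j)
    have h6 := h1 j
    push_cast
    linarith

end Pool.Agent.K4H71.RL
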