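import Pool.Agent.K4H71.RL.Bal
import Pool.Agent.K4H71.RL.Fej
import Pool.Agent.K4H71.RL.Idx

/-! Fourier series with Fejer weights on the cube. -/

set_option autoImplicit false

namespace Pool.Agent.K4H71.RL

open MeasureTheory Finset

/-- real vector of an integer vector -/
def cr {n : ℕ} (x : Fin n → ℤ) : Fin n → ℝ := fun i => (x i : ℝ)

noncomputable def cw {n : ℕ} (θ : Fin n → ℝ) (x : Fin n → ℤ) : ℝ :=
  Real.cos (2 * Real.pi * dt θ (cr x))

noncomputable def ew {n : ℕ} (θ : Fin n → ℝ) (x : Fin n → ℤ) : ℂ :=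
  Complex.exp ((2 * Real.pi * dt θ (cr x) : ℝ) * Complex.I)

noncomputable def gw {n : ℕ} (N : ℕ) (x : Fin n → ℤ) : ℝ := ∏ i, (1 - |(x i : ℝ)| / N)

noncomputable def GN {n : ℕ} (N : ℕ) (θ : Fin n → ℝ) : ℝ := ∏ i, Fj N (θ i)

/-- cubes -/
def Qc (n : ℕ) (κ : ℝ) : Set (Fin n → ℝ) := Set.univ.pi fun _ => Set.Ioc (-κ) κ

theorem Qc_meas (n : ℕ) (κ : ℝ) : MeasurableSet (Qc n κ) :=
  MeasurableSet.univ_pi fun _ => measurableSet_Ioc

theorem Qc_fin (n : ℕ) (κ : ℝ) : volume (Qc n κ) < ⊤ := by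
  rw [Qc, volume_pi, Measure.pi_pi]
  exact ENNReal.prod_lt_top fun _ _ => measure_Ioc_lt_top

theorem ew_re {n : ℕ} (θ : Fin n → ℝ) (x : Fin n → ℤ) : (ew θ x).re = cw θ x := by
  rw [ew, Complex.exp_ofReal_mul_I_re, cw]

theorem ew_im {n : ℕ} (θ : Fin n → ℝ) (x : Fin n → ℤ) :
    (ew θ x).im = Real.sin (2 * Real.pi * dt θ (cr x)) := by
  rw [ew, Complex.exp_ofReal_mul_I_im]

theorem ew_prod {n : ℕ} (θ : Fin n → ℝ) (x : Fin n → ℤ) :
    ew θ x = ∏ i, Complex.exp ((2 * Real.pi * (x i * θ i) : ℝ) * Complex.I) := by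
  rw [ew, ← Complex.exp_sum]
  congr 1
  rw [← Finset.sum_mul]
  congr 1
  rw [← Complex.ofReal_sum]
  congr 1
  rw [dt, Finset.mul_sum]
  refine Finset.sum_congr rfl fun i _ => ?_
  rw [cr]
  ring

theorem Fj_c (N : ℕ) (θ : ℝ) : ∑ m ∈ Finset.Icc (-(N : ℤ)) N,
    ((1 - |(m : ℝ)| / N : ℝ) : ℂ) * Complex.exp ((2 * Real.pi * (m * θ) : ℝ) * Complex.I) =
    ((Fj N θ : ℝ) : ℂ) := by
  have h1 : ∑ m ∈ Finset.Icc (-(N : ℤ)) N, (1 - |(m : ℝ)| / N) * Real.sin (2 * Real.pi * (m * θ)) = 0 := by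
    have h2 : ∑ m ∈ Finset.Icc (-(N : ℤ)) N, (1 - |(m : ℝ)| / N) * Real.sin (2 * Real.pi * (m * θ)) =
        ∑ m ∈ Finset.Icc (-(N : ℤ)) N, -((1 - |(m : ℝ)| / N) * Real.sin (2 * Real.pi * (m * θ))) := by
      refine Finset.sum_nbij' (fun m => -m) (fun m => -m) ?_ ?_ ?_ ?_ ?_
      · intro m hm
        rw [Finset.mem_Icc] at hm ⊢
        constructor <;> omega
      · intro m hm
        rw [Finset.mem_Icc] at hm ⊢
        constructor <;> omega
      · intro m _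
        exact neg_neg m
      · intro m _
        exact neg_neg m
      · intro m _
        push_cast
        rw [abs_neg, neg_mul, mul_neg, Real.sin_neg]
        ring
    rw [Finset.sum_neg_distrib] at h2
    linarith
  rw [Fj]
  have h3 : ∀ m ∈ Finset.Icc (-(N : ℤ)) N,
      ((1 - |(m : ℝ)| / N : ℝ) : ℂ) * Complex.exp ((2 * Real.pi * (m * θ) : ℝ) * Complex.I) =
      (((1 - |(m : ℝ)| / N) * Real.cos (2 * Real.pi * (m * θ)) : ℝ) : ℂ) +
      (((1 - |(m : ℝ)| / N) * Real.sin (2 * Real.pi * (m * θ)) : ℝ) : ℂ) * Complex.I := by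
    intro m _
    rw [Complex.exp_mul_I]
    push_cast
    ring
  rw [Finset.sum_congr rfl h3, Finset.sum_add_distrib, ← Finset.sum_mul, ← Complex.ofReal_sum,
    ← Complex.ofReal_sum, h1]
  simp

theorem G_c {n : ℕ} (N : ℕ) (θ : Fin n → ℝ) :
    ∑ x ∈ bx n N, (gw N x : ℂ) * ew θ x = ((GN N θ : ℝ) : ℂ) := by
  have h1 : ∀ x ∈ bx n N, (gw N x : ℂ) * ew θ x = ∏ i, (((1 - |(x i : ℝ)| / N : ℝ) : ℂ) *
      Complex.exp ((2 * Real.pi * (x i * θ i) : ℝ) * Complex.I)) := by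
    intro x _
    rw [gw, ew_prod, Complex.ofReal_prod, ← Finset.prod_mul_distrib]
  rw [Finset.sum_congr rfl h1, bx, GN, Complex.ofReal_prod]
  simp only [← Fj_c]
  rw [Finset.prod_univ_sum]

theorem G_r {n : ℕ} (N : ℕ) (θ : Fin n → ℝ) : ∑ x ∈ bx n N, gw N x * cw θ x = GN N θ := by
  have h := congrArg Complex.re (G_c N θ)
  rw [Complex.re_sum, Complex.ofReal_re] at h
  rw [← h]
  refine Finset.sum_congr rfl fun x _ => ?_
  rw [Complex.re_ofReal_mul, ew_re]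

/-- the symmetrised kernel -/
noncomputable def Gm {n : ℕ} (N : ℕ) (θ φ : Fin n → ℝ) : ℝ :=
  ∑ y ∈ bx n N, gw N y * cw θ y * cw φ y

theorem dt_sub {n : ℕ} (a b c : Fin n → ℝ) : dt (a - b) c = dt a c - dt b c := by
  simp only [dt, Pi.sub_apply]
  rw [← Finset.sum_sub_distrib]
  exact Finset.sum_congr rfl fun i _ => by ring

theorem dt_add {n : ℕ} (a b c : Fin n → ℝ) : dt (a + b) c = dt a c + dt b c := by
  simp only [dt, Pi.add_apply]
  rw [← Finset.sum_add_distrib]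
  exact Finset.sum_congr rfl fun i _ => by ring

theorem dt_comm {n : ℕ} (a b : Fin n → ℝ) : dt a b = dt b a := by
  simp only [dt]
  exact Finset.sum_congr rfl fun i _ => by ring

theorem cr_sub {n : ℕ} (x y : Fin n → ℤ) : cr (x - y) = cr x - cr y := by
  funext i
  simp [cr]

theorem cr_add {n : ℕ} (x y : Fin n → ℤ) : cr (x + y) = cr x + cr y := by
  funext i
  simp [cr]

theorem cr_neg {n : ℕ} (x : Fin n → ℤ) : cr (-x) = -cr x := by
  funext i
  simp [cr]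

theorem cw_neg {n : ℕ} (θ : Fin n → ℝ) (x : Fin n → ℤ) : cw θ (-x) = cw θ x := by
  rw [cw, cw, cr_neg]
  have : dt θ (-cr x) = -dt θ (cr x) := by
    simp [dt, Finset.sum_neg_distrib]
  rw [this, mul_neg, Real.cos_neg]

theorem cw_zero {n : ℕ} (θ : Fin n → ℝ) : cw θ 0 = 1 := by
  rw [cw]
  simp [dt, cr]

theorem cw_zero_left {n : ℕ} (x : Fin n → ℤ) : cw 0 x = 1 := by
  rw [cw]
  simp [dt]

theorem cw_abs {n : ℕ} (θ : Fin n → ℝ) (x : Fin n → ℤ) : |cw θ x| ≤ 1 := Real.abs_cos_le_one _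

theorem gw_neg {n : ℕ} (N : ℕ) (x : Fin n → ℤ) : gw N (-x) = gw N x := by
  simp [gw]

theorem gw_zero {n : ℕ} (N : ℕ) : gw N (0 : Fin n → ℤ) = 1 := by
  simp [gw]

theorem gw_nonneg {n N : ℕ} {x : Fin n → ℤ} (hx : x ∈ bx n N) : 0 ≤ gw N x := by
  refine Finset.prod_nonneg fun i _ => ?_
  have h1 : |(x i : ℝ)| ≤ N := by
    have := mem_bx.1 hx i
    exact_mod_cast this
  rw [sub_nonneg]
  exact div_le_one_of_le₀ h1 (Nat.cast_nonneg _)

theorem gw_le_one {n N : ℕ} {x : Fin n → ℤ} (hx : x ∈ bx n N) : gw N x ≤ 1 := by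
  refine Finset.prod_le_one (fun i _ => ?_) fun i _ => ?_
  · have h1 : |(x i : ℝ)| ≤ N := by
      have := mem_bx.1 hx i
      exact_mod_cast this
    rw [sub_nonneg]
    exact div_le_one_of_le₀ h1 (Nat.cast_nonneg _)
  · have : 0 ≤ |(x i : ℝ)| / N := by positivity
    linarith

theorem Gm_eq {n : ℕ} (N : ℕ) (θ φ : Fin n → ℝ) :
    Gm N θ φ = (GN N (θ - φ) + GN N (θ + φ)) / 2 := by
  rw [← G_r, ← G_r, Gm, ← Finset.sum_add_distrib, Finset.sum_div]
  refine Finset.sum_congr rfl fun y _ => ?_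
  simp only [cw, dt_sub, dt_add]
  have h1 : Real.cos (2 * Real.pi * (dt θ (cr y) - dt φ (cr y))) +
      Real.cos (2 * Real.pi * (dt θ (cr y) + dt φ (cr y))) =
      2 * (Real.cos (2 * Real.pi * dt θ (cr y)) * Real.cos (2 * Real.pi * dt φ (cr y))) := by
    rw [mul_sub, mul_add, Real.cos_sub, Real.cos_add]
    ring
  rw [← mul_add, h1]
  ring

theorem GN_nonneg {n N : ℕ} (hN : 1 ≤ N) (θ : Fin n → ℝ) : 0 ≤ GN N θ :=
  Finset.prod_nonneg fun i _ => Fj_nonneg hN _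

theorem Gm_nonneg {n N : ℕ} (hN : 1 ≤ N) (θ φ : Fin n → ℝ) : 0 ≤ Gm N θ φ := by
  rw [Gm_eq]
  have h1 := GN_nonneg hN (θ - φ)
  have h2 := GN_nonneg hN (θ + φ)
  linarith

theorem Gm_zero {n N : ℕ} (φ : Fin n → ℝ) : Gm N 0 φ = GN N φ := by
  rw [← G_r, Gm]
  refine Finset.sum_congr rfl fun y _ => ?_
  rw [cw_zero_left, mul_one]

theorem dt_cont {n : ℕ} (b : Fin n → ℝ) : Continuous fun φ : Fin n → ℝ => dt φ b := by
  unfold dt
  fun_prop

theorem cw_cont {n : ℕ} (x : Fin n → ℤ) : Continuous fun φ : Fin n → ℝ => cw φ x := by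
  unfold cw
  have := dt_cont (cr x)
  fun_prop

theorem ew_cont {n : ℕ} (x : Fin n → ℤ) : Continuous fun φ : Fin n → ℝ => ew φ x := by
  unfold ew
  have h1 := dt_cont (cr x)
  have h2 : Continuous fun φ : Fin n → ℝ => ((2 * Real.pi * dt φ (cr x) : ℝ) : ℂ) :=
    Complex.continuous_ofReal.comp (by fun_prop)
  fun_prop

theorem Gm_cont {n : ℕ} (N : ℕ) (θ : Fin n → ℝ) : Continuous fun φ : Fin n → ℝ => Gm N θ φ := by
  unfold Gm
  refine continuous_finsetSum _ fun y _ => ?_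
  exact continuous_const.mul (cw_cont y)

theorem ew_norm {n : ℕ} (θ : Fin n → ℝ) (x : Fin n → ℤ) : ‖ew θ x‖ = 1 := by
  rw [ew, Complex.norm_exp_ofReal_mul_I]

theorem int_e1 (m : ℤ) : ∫ θ in Set.Ioc (-(1 / 2) : ℝ) (1 / 2),
    Complex.exp ((2 * Real.pi * (m * θ) : ℝ) * Complex.I) = if m = 0 then 1 else 0 := by
  rw [← intervalIntegral.integral_of_le (by norm_num)]
  split_ifs with hm
  · subst hm
    simp
    norm_num
  · set c : ℂ := 2 * Real.pi * m * Complex.I with hc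
    have hc0 : c ≠ 0 := by
      have h1 : (m : ℂ) ≠ 0 := by exact_mod_cast hm
      have h2 : (Real.pi : ℂ) ≠ 0 := by exact_mod_cast Real.pi_ne_zero
      rw [hc]
      simp [h1, h2, Complex.I_ne_zero]
    have h1 : ∀ θ : ℝ, Complex.exp ((2 * Real.pi * (m * θ) : ℝ) * Complex.I) =
        Complex.exp (c * θ) := by
      intro θ
      congr 1
      rw [hc]
      push_cast
      ring
    simp only [h1]
    rw [integral_exp_mul_complex hc0]
    have h2 : Complex.exp (c * ((1 / 2 : ℝ) : ℂ)) = Complex.exp (c * ((-(1 / 2) : ℝ) : ℂ)) := by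
      rw [Complex.exp_eq_exp_iff_exists_int]
      refine ⟨m, ?_⟩
      rw [hc]
      push_cast
      ring
    rw [h2, sub_self, zero_div]

theorem Q_restrict (n : ℕ) (κ : ℝ) : (volume : Measure (Fin n → ℝ)).restrict (Qc n κ) =
    Measure.pi fun _ : Fin n => (volume : Measure ℝ).restrict (Set.Ioc (-κ) κ) := by
  rw [Qc, volume_pi, Measure.restrict_pi_pi]

theorem int_ew {n : ℕ} (x : Fin n → ℤ) :
    ∫ φ in Qc n (1 / 2), ew φ x = if x = 0 then 1 else 0 := by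
  rw [Q_restrict]
  simp only [ew_prod]
  rw [integral_fintype_prod_eq_prod (fun i (t : ℝ) =>
    Complex.exp ((2 * Real.pi * (x i * t) : ℝ) * Complex.I))]
  simp only [int_e1]
  split_ifs with hx
  · subst hx
    simp
  · have : ∃ i, x i ≠ 0 := by
      by_contra hc
      push Not at hc
      exact hx (funext hc)
    obtain ⟨i, hi⟩ := this
    exact Finset.prod_eq_zero (Finset.mem_univ i) (if_neg hi)

theorem int_cw {n : ℕ} (x : Fin n → ℤ) :
    ∫ φ in Qc n (1 / 2), cw φ x = if x = 0 then 1 else 0 := by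
  have h := congrArg Complex.re (int_ew x)
  have hint : Integrable (fun φ => ew φ x) (volume.restrict (Qc n (1 / 2))) := by
    refine Measure.integrableOn_of_bounded (M := 1) (Qc_fin n _).ne
      (ew_cont x).aestronglyMeasurable ?_
    exact Filter.Eventually.of_forall fun φ => (ew_norm φ x).le
  rw [← RCLike.re_eq_complex_re, ← integral_re hint] at h
  simp only [RCLike.re_eq_complex_re, ew_re] at h
  rw [h]
  split_ifs <;> simp

theorem bdd_int {n : ℕ} {κ : ℝ} {f : (Fin n → ℝ) → ℝ} (hf : Continuous f) :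
    IntegrableOn f (Qc n κ) := by
  have h1 : IsCompact (Set.univ.pi fun _ : Fin n => Set.Icc (-κ) κ) :=
    isCompact_univ_pi fun _ => isCompact_Icc
  refine (hf.continuousOn.integrableOn_compact h1).mono_set ?_
  exact Set.pi_mono fun i _ => Set.Ioc_subset_Icc_self

theorem int_cw2 {n : ℕ} (x y : Fin n → ℤ) :
    ∫ φ in Qc n (1 / 2), cw φ x * cw φ y =
      ((if x = y then 1 else 0) + (if x = -y then 1 else 0)) / 2 := by
  have h1 : ∀ φ : Fin n → ℝ, cw φ x * cw φ y = (cw φ (x - y) + cw φ (x + y)) / 2 := by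
    intro φ
    simp only [cw, cr_sub, cr_add]
    have e1 : dt φ (cr x - cr y) = dt φ (cr x) - dt φ (cr y) := by
      rw [dt_comm, dt_sub, dt_comm, dt_comm (cr y)]
    have e2 : dt φ (cr x + cr y) = dt φ (cr x) + dt φ (cr y) := by
      rw [dt_comm, dt_add, dt_comm, dt_comm (cr y)]
    rw [e1, e2, mul_sub, mul_add, Real.cos_sub, Real.cos_add]
    ring
  simp only [h1]
  rw [integral_div, integral_add (bdd_int (cw_cont _)) (bdd_int (cw_cont _)), int_cw, int_cw]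
  congr 2
  · simp only [sub_eq_zero]
  · simp only [add_eq_zero_iff_eq_neg]

/-- Fourier coefficients -/
noncomputable def hat {n : ℕ} (H : (Fin n → ℝ) → ℝ) (x : Fin n → ℤ) : ℝ :=
  ∫ φ in Qc n (1 / 2), H φ * cw φ x

theorem mul_int {n : ℕ} {κ : ℝ} {H f : (Fin n → ℝ) → ℝ} (hH : IntegrableOn H (Qc n κ))
    (hf : Continuous f) : IntegrableOn (fun φ => H φ * f φ) (Qc n κ) := by
  have h1 : IsCompact (Set.univ.pi fun _ : Fin n => Set.Icc (-κ) κ) :=
    isCompact_univ_pi fun _ => isCompact_Icc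
  obtain ⟨C, hC⟩ := h1.exists_bound_of_continuousOn hf.continuousOn
  refine Integrable.mul_bdd (c := C) hH hf.aestronglyMeasurable ?_
  filter_upwards [ae_restrict_mem (Qc_meas n κ)] with φ hφ
  exact hC φ (Set.pi_mono (fun i _ => Set.Ioc_subset_Icc_self) hφ)

theorem L1 {n N : ℕ} {H : (Fin n → ℝ) → ℝ} (hH : IntegrableOn H (Qc n (1 / 2)))
    (θ : Fin n → ℝ) :
    ∑ x ∈ bx n N, hat H x * gw N x * cw θ x = ∫ φ in Qc n (1 / 2), H φ * Gm N θ φ := by
  have h1 : ∀ φ, H φ * Gm N θ φ = ∑ x ∈ bx n N, (gw N x * cw θ x) * (H φ * cw φ x) := by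
    intro φ
    rw [Gm, Finset.mul_sum]
    exact Finset.sum_congr rfl fun x _ => by ring
  simp only [h1]
  rw [integral_finsetSum _ fun x _ => (mul_int hH (cw_cont x)).const_mul _]
  refine Finset.sum_congr rfl fun x _ => ?_
  rw [integral_const_mul, hat]
  ring

theorem Gm_int {n N : ℕ} (θ : Fin n → ℝ) : ∫ φ in Qc n (1 / 2), Gm N θ φ = 1 := by
  unfold Gm
  rw [integral_finsetSum _ fun x _ => (bdd_int (cw_cont x)).const_mul _]
  simp only [integral_const_mul, int_cw]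
  rw [Finset.sum_eq_single 0]
  · simp [gw_zero, cw_zero]
  · intro x _ hx
    simp [hx]
  · intro h
    exact absurd (mem_bx.2 fun i => by simp) h

theorem L2 {n N : ℕ} (hN : 1 ≤ N) {H : (Fin n → ℝ) → ℝ} (hH : IntegrableOn H (Qc n (1 / 2)))
    {M : ℝ} (hM : ∀ φ ∈ Qc n (1 / 2), |H φ| ≤ M) (θ : Fin n → ℝ) :
    |∫ φ in Qc n (1 / 2), H φ * Gm N θ φ| ≤ M := by
  rw [← Real.norm_eq_abs]
  calc ‖∫ φ in Qc n (1 / 2), H φ * Gm N θ φ‖ ≤ ∫ φ in Qc n (1 / 2), M * Gm N θ φ := by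
        refine norm_integral_le_of_norm_le ((bdd_int (Gm_cont N θ)).const_mul _) ?_
        filter_upwards [ae_restrict_mem (Qc_meas n (1 / 2))] with φ hφ
        rw [norm_mul, Real.norm_eq_abs, Real.norm_eq_abs, abs_of_nonneg (Gm_nonneg hN θ φ)]
        exact mul_le_mul_of_nonneg_right (hM φ hφ) (Gm_nonneg hN θ φ)
    _ = M := by rw [integral_const_mul, Gm_int, mul_one]

theorem L2' {n N : ℕ} (hN : 1 ≤ N) {H : (Fin n → ℝ) → ℝ}
    (h0 : ∀ φ ∈ Qc n (1 / 2), 0 ≤ H φ) (θ : Fin n → ℝ) :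
    0 ≤ ∫ φ in Qc n (1 / 2), H φ * Gm N θ φ := by
  refine setIntegral_nonneg (Qc_meas n _) fun φ hφ => ?_
  exact mul_nonneg (h0 φ hφ) (Gm_nonneg hN θ φ)

/-- the exponential sum of a finite set -/
noncomputable def Js {n : ℕ} (S : Finset (Fin n → ℤ)) (φ : Fin n → ℝ) : ℝ := ∑ x ∈ S, cw φ x

theorem Js_cont {n : ℕ} (S : Finset (Fin n → ℤ)) : Continuous (Js S) := by
  unfold Js
  exact continuous_finsetSum _ fun x _ => cw_cont x

theorem L3 {n : ℕ} (S : Finset (Fin n → ℤ)) (hS : ∀ x ∈ S, -x ∈ S) (x : Fin n → ℤ) :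
    hat (Js S) x = if x ∈ S then 1 else 0 := by
  rw [hat]
  have h1 : ∀ φ, Js S φ * cw φ x = ∑ y ∈ S, cw φ y * cw φ x := by
    intro φ
    rw [Js, Finset.sum_mul]
  simp only [h1]
  have hi : ∀ y ∈ S, Integrable (fun φ : Fin n → ℝ => cw φ y * cw φ x)
      (volume.restrict (Qc n (1 / 2))) := fun y _ => bdd_int ((cw_cont y).mul (cw_cont x))
  rw [integral_finsetSum _ hi]
  simp only [int_cw2]
  rw [← Finset.sum_div, Finset.sum_add_distrib]
  have h2 : ∑ y ∈ S, (if y = x then (1 : ℝ) else 0) = if x ∈ S then 1 else 0 := by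
    rw [Finset.sum_ite_eq']
  have h3 : ∑ y ∈ S, (if y = -x then (1 : ℝ) else 0) = if x ∈ S then 1 else 0 := by
    rw [Finset.sum_ite_eq']
    have : -x ∈ S ↔ x ∈ S := by
      constructor
      · intro h
        have := hS _ h
        rwa [neg_neg] at this
      · exact hS x
    simp only [this]
  rw [h2, h3]
  split_ifs <;> norm_num

theorem L5 {n : ℕ} {H : (Fin n → ℝ) → ℝ} (hH : IntegrableOn H (Qc n (1 / 2)))
    (h0 : ∀ φ ∈ Qc n (1 / 2), 0 ≤ H φ) (x : Fin n → ℤ) : |hat H x| ≤ hat H 0 := by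
  rw [← Real.norm_eq_abs, hat, hat]
  simp only [cw_zero, mul_one]
  refine norm_integral_le_of_norm_le hH ?_
  filter_upwards [ae_restrict_mem (Qc_meas n (1 / 2))] with φ hφ
  rw [norm_mul, Real.norm_eq_abs, Real.norm_eq_abs, abs_of_nonneg (h0 φ hφ)]
  calc H φ * |cw φ x| ≤ H φ * 1 := mul_le_mul_of_nonneg_left (cw_abs _ _) (h0 φ hφ)
    _ = H φ := mul_one _

theorem L4 {n N : ℕ} (hN : 1 ≤ N) {H : (Fin n → ℝ) → ℝ} (hH : IntegrableOn H (Qc n (1 / 2)))
    (h0 : ∀ φ ∈ Qc n (1 / 2), 0 ≤ H φ) {M : ℝ} (hM : ∀ φ ∈ Qc n (1 / 2), H φ ≤ M) :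
    ∑ x ∈ bx n N, hat H x ^ 2 * gw N x ≤ M * hat H 0 := by
  have h1 : ∑ x ∈ bx n N, hat H x ^ 2 * gw N x =
      ∫ φ in Qc n (1 / 2), H φ * ∑ x ∈ bx n N, hat H x * gw N x * cw φ x := by
    have h2 : ∀ φ, H φ * ∑ x ∈ bx n N, hat H x * gw N x * cw φ x =
        ∑ x ∈ bx n N, (hat H x * gw N x) * (H φ * cw φ x) := by
      intro φ
      rw [Finset.mul_sum]
      exact Finset.sum_congr rfl fun x _ => by ring
    simp only [h2]
    rw [integral_finsetSum _ fun x _ => (mul_int hH (cw_cont x)).const_mul _]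
    refine Finset.sum_congr rfl fun x _ => ?_
    rw [integral_const_mul, ← hat]
    ring
  rw [h1]
  have h3 : M * hat H 0 = ∫ φ in Qc n (1 / 2), H φ * M := by
    rw [hat]
    simp only [cw_zero, mul_one]
    rw [integral_mul_const, mul_comm]
  rw [h3]
  refine integral_mono_ae ?_ (hH.mul_const _) ?_
  · refine mul_int hH ?_
    exact continuous_finsetSum _ fun x _ => continuous_const.mul (cw_cont x)
  · filter_upwards [ae_restrict_mem (Qc_meas n (1 / 2))] with φ hφ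
    refine mul_le_mul_of_nonneg_left ?_ (h0 φ hφ)
    rw [L1 hH]
    refine (le_abs_self _).trans (L2 hN hH (fun ψ hψ => ?_) φ)
    rw [abs_of_nonneg (h0 ψ hψ)]
    exact hM ψ hψ

/-- the lower bound at the origin -/
theorem L6 {n N : ℕ} (hN : 1 ≤ N) {H : (Fin n → ℝ) → ℝ} (hH : IntegrableOn H (Qc n (1 / 2)))
    (h0 : ∀ φ ∈ Qc n (1 / 2), 0 ≤ H φ) {κ c : ℝ} (hκ : 0 < κ) (hκ2 : κ ≤ 1 / 2) (hc : 0 ≤ c)
    (h1 : ∀ φ ∈ Qc n κ, c ≤ H φ) (h2 : 1 / (2 * N * κ) ≤ 1) :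
    c * (1 - 1 / (2 * N * κ)) ^ n ≤ ∫ φ in Qc n (1 / 2), H φ * Gm N 0 φ := by
  have hsub : Qc n κ ⊆ Qc n (1 / 2) :=
    Set.pi_mono fun i _ => Set.Ioc_subset_Ioc (neg_le_neg hκ2) hκ2
  have hi := mul_int hH (Gm_cont N 0)
  calc c * (1 - 1 / (2 * N * κ)) ^ n ≤ c * ∫ φ in Qc n κ, GN N φ := by
        refine mul_le_mul_of_nonneg_left ?_ hc
        rw [Q_restrict]
        unfold GN
        rw [integral_fintype_prod_eq_prod (fun _ (t : ℝ) => Fj N t)]
        rw [Finset.prod_const, Finset.card_univ, Fintype.card_fin]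
        refine pow_le_pow_left₀ (by linarith) ?_ n
        rw [← intervalIntegral.integral_of_le (by linarith)]
        exact Fj_near hN hκ hκ2
    _ = ∫ φ in Qc n κ, c * GN N φ := (integral_const_mul _ _).symm
    _ ≤ ∫ φ in Qc n κ, H φ * Gm N 0 φ := by
        refine setIntegral_mono_on ?_ (hi.mono_set hsub) (Qc_meas n κ) ?_
        · refine Integrable.const_mul (bdd_int ?_) _
          have hg : (GN N : (Fin n → ℝ) → ℝ) = fun φ => Gm N 0 φ := by
            funext φ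
            rw [Gm_zero]
          rw [hg]
          exact Gm_cont N 0
        · intro φ hφ
          rw [Gm_zero]
          exact mul_le_mul_of_nonneg_right (h1 φ hφ) (GN_nonneg hN φ)
    _ ≤ ∫ φ in Qc n (1 / 2), H φ * Gm N 0 φ := by
        refine setIntegral_mono_set hi ?_ hsub.eventuallyLE
        filter_upwards [ae_restrict_mem (Qc_meas n (1 / 2))] with φ hφ
        exact mul_nonneg (h0 φ hφ) (Gm_nonneg hN 0 φ)

end Pool.Agent.K4H71.RL
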