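import Pool.Agent.K4H71.RL.Dep

/-! Rational independence gives independence modulo a large prime; number of solutions. -/

set_option autoImplicit false

namespace Pool.Agent.K4H71.RL

open Finset Module Submodule

open Classical in
theorem ker_card {p : ℕ} [Fact p.Prime] {r n : ℕ} (Z : Fin r → Fin n → ZMod p)
    (h : LinearIndependent (ZMod p) Z) :
    ((Finset.univ : Finset (Fin n → ZMod p)).filter (fun a => ∀ i, ∑ j, a j * Z i j = 0)).card *
      p ^ r = p ^ n := by
  set f : (Fin n → ZMod p) →ₗ[ZMod p] (Fin r → ZMod p) := (Matrix.of Z).mulVecLin with hf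
  have hfa : ∀ a i, f a i = ∑ j, a j * Z i j := by
    intro a i
    rw [hf, Matrix.mulVecLin_apply, Matrix.mulVec, dotProduct]
    refine Finset.sum_congr rfl fun j _ => ?_
    rw [mul_comm]
    rfl
  have h1 : finrank (ZMod p) (LinearMap.range f) = r := by
    have h2 : (Matrix.of Z).rank = r := by
      have := LinearIndependent.rank_matrix (M := Matrix.of Z) h
      simpa using this
    exact h2
  have h3 := LinearMap.finrank_range_add_finrank_ker f
  rw [h1] at h3
  simp only [finrank_fin_fun] at h3
  have h4 : Fintype.card (LinearMap.ker f) = p ^ (finrank (ZMod p) (LinearMap.ker f)) := by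
    have := Module.card_eq_pow_finrank (K := ZMod p) (V := LinearMap.ker f)
    rw [this, ZMod.card]
  have h5 : ((Finset.univ : Finset (Fin n → ZMod p)).filter
      (fun a => ∀ i, ∑ j, a j * Z i j = 0)).card = Fintype.card (LinearMap.ker f) := by
    rw [← Fintype.card_subtype]
    refine Fintype.card_congr (Equiv.subtypeEquivRight fun a => ?_)
    rw [LinearMap.mem_ker]
    constructor
    · intro h
      funext i
      rw [hfa]
      exact h i
    · intro h i
      rw [← hfa, h]
      rfl
  rw [h5, h4, ← pow_add, add_comm, h3]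

/-- a positive bound for the Gram determinant -/
theorem gram {r n N : ℕ} (Z : Fin r → Fin n → ℤ) (hN : ∀ i, Z i ∈ bx n N)
    (h : LinearIndependent ℚ (fun i => cq (Z i))) :
    (Matrix.of (fun i j => ∑ l, Z i l * Z j l) : Matrix (Fin r) (Fin r) ℤ).det ≠ 0 ∧
    |(Matrix.of (fun i j => ∑ l, Z i l * Z j l) : Matrix (Fin r) (Fin r) ℤ).det| ≤
      r.factorial * (n * N ^ 2 : ℤ) ^ r := by
  classical
  constructor
  · intro hdet
    obtain ⟨v, hv0, hv⟩ := Matrix.exists_mulVec_eq_zero_iff.2 hdet
    have h1 : ∀ i, ∑ j, (∑ l, Z i l * Z j l) * v j = 0 := fun i => congrFun hv i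
    have h2 : ∑ l, (∑ i, v i * Z i l) ^ 2 = 0 := by
      calc ∑ l, (∑ i, v i * Z i l) ^ 2 = ∑ l, ∑ i, ∑ j, v i * (Z i l * Z j l * v j) := by
            refine Finset.sum_congr rfl fun l _ => ?_
            rw [sq, Finset.sum_mul_sum]
            refine Finset.sum_congr rfl fun i _ => Finset.sum_congr rfl fun j _ => ?_
            ring
        _ = ∑ i, v i * ∑ j, (∑ l, Z i l * Z j l) * v j := by
            rw [Finset.sum_comm]
            refine Finset.sum_congr rfl fun i _ => ?_
            rw [Finset.sum_comm, Finset.mul_sum]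
            refine Finset.sum_congr rfl fun j _ => ?_
            rw [Finset.sum_mul, Finset.mul_sum]
        _ = 0 := Finset.sum_eq_zero fun i _ => by rw [h1 i, mul_zero]
    have h3 : ∀ l, ∑ i, v i * Z i l = 0 := by
      intro l
      have := (Finset.sum_eq_zero_iff_of_nonneg (fun l _ => sq_nonneg (∑ i, v i * Z i l))).1 h2 l
        (Finset.mem_univ l)
      exact pow_eq_zero_iff (two_ne_zero) |>.1 this
    apply hv0
    funext i
    have h4 := Fintype.linearIndependent_iff.1 h (fun i => (v i : ℚ)) (by
      funext l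
      simp only [Finset.sum_apply, Pi.smul_apply, smul_eq_mul, Pi.zero_apply, cq]
      have := h3 l
      exact_mod_cast this) i
    exact_mod_cast h4
  · have h1 := Matrix.det_le (abv := AbsoluteValue.abs)
      (A := (Matrix.of (fun i j => ∑ l, Z i l * Z j l) : Matrix (Fin r) (Fin r) ℤ))
      (x := (n * N ^ 2 : ℤ)) (by
        intro i j
        show |∑ l, Z i l * Z j l| ≤ _
        refine (Finset.abs_sum_le_sum_abs _ _).trans ?_
        calc ∑ l, |Z i l * Z j l| ≤ ∑ _l : Fin n, (N ^ 2 : ℤ) := by
              refine Finset.sum_le_sum fun l _ => ?_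
              rw [abs_mul, sq]
              exact mul_le_mul (mem_bx.1 (hN i) l) (mem_bx.1 (hN j) l) (abs_nonneg _)
                (Int.natCast_nonneg _)
          _ = _ := by simp)
    simpa [AbsoluteValue.abs_apply, nsmul_eq_mul] using h1

theorem indep_mod {p : ℕ} [Fact p.Prime] {r n N : ℕ} (Z : Fin r → Fin n → ℤ)
    (hN : ∀ i, Z i ∈ bx n N) (h : LinearIndependent ℚ (fun i => cq (Z i)))
    (hp : r.factorial * (n * N ^ 2) ^ r < p) :
    LinearIndependent (ZMod p) (fun i => fun j => (Z i j : ZMod p)) := by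
  classical
  obtain ⟨h1, h2⟩ := gram Z hN h
  set G : Matrix (Fin r) (Fin r) ℤ := Matrix.of (fun i j => ∑ l, Z i l * Z j l) with hG
  have h3 : (G.det : ZMod p) ≠ 0 := by
    intro h0
    rw [ZMod.intCast_zmod_eq_zero_iff_dvd] at h0
    have h4 := Int.eq_zero_of_abs_lt_dvd h0 (lt_of_le_of_lt h2 (by exact_mod_cast hp))
    exact h1 h4
  have h5 : (G.map (Int.castRingHom (ZMod p))).det ≠ 0 := by
    rw [← RingHom.mapMatrix_apply, ← RingHom.map_det]
    exact h3
  rw [Fintype.linearIndependent_iff]
  intro c hc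
  by_contra hne
  push Not at hne
  obtain ⟨i0, hi0⟩ := hne
  apply h5
  rw [← Matrix.exists_vecMul_eq_zero_iff]
  refine ⟨c, fun h0 => hi0 (congrFun h0 i0), ?_⟩
  funext j
  have h6 : ∀ l, ∑ i, c i * (Z i l : ZMod p) = 0 := by
    intro l
    have := congrFun hc l
    simpa only [Finset.sum_apply, Pi.smul_apply, smul_eq_mul, Pi.zero_apply] using this
  show ∑ i, c i * (((∑ l, Z i l * Z j l : ℤ)) : ZMod p) = 0
  calc ∑ i, c i * (((∑ l, Z i l * Z j l : ℤ)) : ZMod p)
      = ∑ l, (∑ i, c i * (Z i l : ZMod p)) * (Z j l : ZMod p) := by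
        push_cast
        simp only [Finset.mul_sum, Finset.sum_mul]
        rw [Finset.sum_comm]
        refine Finset.sum_congr rfl fun l _ => Finset.sum_congr rfl fun i _ => ?_
        ring
    _ = 0 := Finset.sum_eq_zero fun l _ => by rw [h6 l, zero_mul]

end Pool.Agent.K4H71.RL
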