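import Pool.Agent.K4H71.RL.Big

/-! The moment bound. -/

set_option autoImplicit false

namespace Pool.Agent.K4H71.RL

open Finset Module Submodule

theorem type_card {k r G0 : ℕ} (S : Finset (Fin k → Fin r → ℚ))
    (h1 : ∀ C ∈ S, ∀ e i, |C e i| ≤ 1) (h2 : ∀ C ∈ S, (MC C).index ≤ G0) :
    S.card ≤ 3 ^ (r * k) * G0 ^ (r + 2 * k + 1) := by
  classical
  have hm : ∀ C ∈ S, (MC C).index ∈ Finset.Icc 1 G0 := fun C hC =>
    Finset.mem_Icc.2 ⟨Nat.pos_of_ne_zero (MC_index C), h2 C hC⟩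
  rw [Finset.card_eq_sum_card_fiberwise hm]
  calc ∑ g ∈ Finset.Icc 1 G0, (S.filter (fun C => (MC C).index = g)).card
      ≤ ∑ _g ∈ Finset.Icc 1 G0, 3 ^ (r * k) * G0 ^ (r + 2 * k) := by
        refine Finset.sum_le_sum fun g hg => ?_
        refine (mat_count r k g _ (fun C hC => h1 C (Finset.mem_filter.1 hC).1)
          (fun C hC => (Finset.mem_filter.1 hC).2)).trans ?_
        exact Nat.mul_le_mul_left _ (Nat.pow_le_pow_left (Finset.mem_Icc.1 hg).2 _)
    _ = _ := by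
        rw [Finset.sum_const, Nat.card_Icc, smul_eq_mul, pow_succ _ (r + 2 * k)]
        simp only [Nat.add_sub_cancel]
        ring

theorem type_sum {k r n : ℕ} (S : Finset (Fin k → Fin r → ℚ))
    (h1 : ∀ C ∈ S, ∀ e i, |C e i| ≤ 1) {G : ℝ} (hG : 1 ≤ G)
    (h2 : ∀ C ∈ S, G ≤ (MC C).index) (hn : r + 2 * k + 2 ≤ n) :
    ∑ C ∈ S, (((MC C).index : ℝ) ^ n)⁻¹ ≤ 2 * 3 ^ (r * k) * (G ^ (n - (r + 2 * k + 2)))⁻¹ := by
  classical
  set m := n - (r + 2 * k + 2) with hm
  have hG0 : 0 < G := by linarith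
  obtain ⟨L, hL⟩ : ∃ L : ℕ, ∀ C ∈ S, (MC C).index < L := by
    refine ⟨S.sup (fun C => (MC C).index) + 1, fun C hC => ?_⟩
    have := Finset.le_sup (f := fun C => (MC C).index) hC
    omega
  have hmaps : ∀ C ∈ S, (MC C).index ∈ Finset.Ioo 0 L := fun C hC =>
    Finset.mem_Ioo.2 ⟨Nat.pos_of_ne_zero (MC_index C), hL C hC⟩
  calc ∑ C ∈ S, (((MC C).index : ℝ) ^ n)⁻¹
      = ∑ g ∈ Finset.Ioo 0 L, ∑ C ∈ S with (MC C).index = g, (((MC C).index : ℝ) ^ n)⁻¹ :=
        (Finset.sum_fiberwise_of_maps_to hmaps _).symm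
    _ ≤ ∑ g ∈ Finset.Ioo 0 L, 3 ^ (r * k) * (G ^ m)⁻¹ * ((g : ℝ) ^ 2)⁻¹ := by
        refine Finset.sum_le_sum fun g hg => ?_
        have hg0 : (0 : ℝ) < g := by exact_mod_cast (Finset.mem_Ioo.1 hg).1
        have h3 : ∑ C ∈ S with (MC C).index = g, (((MC C).index : ℝ) ^ n)⁻¹ =
            ((S.filter (fun C => (MC C).index = g)).card : ℝ) * ((g : ℝ) ^ n)⁻¹ := by
          rw [← nsmul_eq_mul, ← Finset.sum_const]
          refine Finset.sum_congr rfl fun C hC => ?_
          rw [(Finset.mem_filter.1 hC).2]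
        rw [h3]
        rcases (S.filter (fun C => (MC C).index = g)).eq_empty_or_nonempty with he | ⟨C, hC⟩
        · rw [he]
          simp only [Finset.card_empty, Nat.cast_zero, zero_mul]
          positivity
        · obtain ⟨hC1, hC2⟩ := Finset.mem_filter.1 hC
          have hGg : G ≤ g := by
            rw [← hC2]
            exact h2 C hC1
          have h4 : ((S.filter (fun C => (MC C).index = g)).card : ℝ) ≤
              3 ^ (r * k) * (g : ℝ) ^ (r + 2 * k) := by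
            exact_mod_cast mat_count r k g _ (fun C hC => h1 C (Finset.mem_filter.1 hC).1)
              (fun C hC => (Finset.mem_filter.1 hC).2)
          have h5 : (g : ℝ) ^ n = (g : ℝ) ^ (r + 2 * k) * ((g : ℝ) ^ m * (g : ℝ) ^ 2) := by
            rw [← pow_add, ← pow_add]
            congr 1
            omega
          calc ((S.filter (fun C => (MC C).index = g)).card : ℝ) * ((g : ℝ) ^ n)⁻¹
              ≤ (3 ^ (r * k) * (g : ℝ) ^ (r + 2 * k)) * ((g : ℝ) ^ n)⁻¹ :=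
                mul_le_mul_of_nonneg_right h4 (by positivity)
            _ = 3 ^ (r * k) * ((g : ℝ) ^ m)⁻¹ * ((g : ℝ) ^ 2)⁻¹ := by
                rw [h5]
                field_simp
            _ ≤ _ := by
                refine mul_le_mul_of_nonneg_right ?_ (by positivity)
                refine mul_le_mul_of_nonneg_left ?_ (by positivity)
                exact inv_anti₀ (by positivity) (pow_le_pow_left₀ hG0.le hGg _)
    _ = 3 ^ (r * k) * (G ^ m)⁻¹ * ∑ g ∈ Finset.Ioo 0 L, ((g : ℝ) ^ 2)⁻¹ := by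
        rw [Finset.mul_sum]
    _ ≤ 3 ^ (r * k) * (G ^ m)⁻¹ * 2 := by
        refine mul_le_mul_of_nonneg_left ?_ (by positivity)
        have := sum_Ioo_inv_sq_le (α := ℝ) 0 L
        simpa using this
    _ = _ := by ring

/-- the weights of the classes -/
noncomputable def wt (k n N G0 : ℕ) (w1 w2 w3 : ℝ) (g : ℕ) : ℝ :=
  if g ≤ G0 then w1 else if k * n * g ≤ N then w2 * ((g : ℝ) ^ n)⁻¹ else w3 * ((g : ℝ) ^ n)⁻¹

theorem wt_sum {k n N G0 : ℕ} {w1 w2 w3 : ℝ} (h01 : 0 ≤ w1) (h02 : 0 ≤ w2) (h03 : 0 ≤ w3)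
    (hk : 1 ≤ k) (hn : 3 * k + 2 ≤ n) (hG0 : 1 ≤ G0) (hkn : k * n ≤ N) (r : ℕ) (hr : r ≤ k)
    (S : Finset (Fin k → Fin r → ℚ)) (h1 : ∀ C ∈ S, ∀ e i, |C e i| ≤ 1) :
    ∑ C ∈ S, wt k n N G0 w1 w2 w3 (MC C).index ≤
      3 ^ (k * k) * (w1 * G0 ^ (3 * k + 1) + w2 * 2 * ((G0 : ℝ) ^ (n - (3 * k + 2)))⁻¹ +
        w3 * 2 * ((N / (k * n) : ℝ) ^ (n - (3 * k + 2)))⁻¹) := by
  classical
  have hn0 : 0 < n := by omega
  have hkn0 : (0 : ℝ) < k * n := by
    have : 0 < k * n := Nat.mul_pos hk hn0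
    exact_mod_cast this
  have hG0' : (1 : ℝ) ≤ G0 := by exact_mod_cast hG0
  have hNkn : (1 : ℝ) ≤ N / (k * n) := by
    rw [le_div_iff₀ hkn0, one_mul]
    exact_mod_cast hkn
  set S1 := S.filter (fun C => (MC C).index ≤ G0) with hS1
  set S2 := S.filter (fun C => ¬ (MC C).index ≤ G0) with hS2
  set S3 := S.filter (fun C => ¬ k * n * (MC C).index ≤ N) with hS3
  have e0 : ∑ C ∈ S, wt k n N G0 w1 w2 w3 (MC C).index ≤
      ∑ _C ∈ S1, w1 + ∑ C ∈ S2, w2 * (((MC C).index : ℝ) ^ n)⁻¹ +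
      ∑ C ∈ S3, w3 * (((MC C).index : ℝ) ^ n)⁻¹ := by
    rw [hS1, hS2, hS3, Finset.sum_filter, Finset.sum_filter, Finset.sum_filter,
      ← Finset.sum_add_distrib, ← Finset.sum_add_distrib]
    refine Finset.sum_le_sum fun C _ => ?_
    rw [wt]
    have p2 : 0 ≤ w2 * (((MC C).index : ℝ) ^ n)⁻¹ := by positivity
    have p3 : 0 ≤ w3 * (((MC C).index : ℝ) ^ n)⁻¹ := by positivity
    by_cases c1 : (MC C).index ≤ G0
    · by_cases c2 : k * n * (MC C).index ≤ N
      · simp [c1, c2]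
      · simp only [c1, c2, if_true, not_true_eq_false, if_false, not_false_eq_true]
        linarith
    · by_cases c2 : k * n * (MC C).index ≤ N
      · simp [c1, c2]
      · simp only [c1, c2, if_true, if_false, not_false_eq_true]
        linarith
  have e1 : ∑ _C ∈ S1, w1 ≤ 3 ^ (k * k) * (w1 * G0 ^ (3 * k + 1)) := by
    rw [Finset.sum_const, nsmul_eq_mul]
    have h2 : (S1.card : ℝ) ≤ 3 ^ (r * k) * (G0 : ℝ) ^ (r + 2 * k + 1) := by
      exact_mod_cast type_card S1 (fun C hC => h1 C (Finset.mem_filter.1 hC).1)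
        (fun C hC => (Finset.mem_filter.1 hC).2)
    have h3 : (3 : ℝ) ^ (r * k) * (G0 : ℝ) ^ (r + 2 * k + 1) ≤ 3 ^ (k * k) * G0 ^ (3 * k + 1) := by
      refine mul_le_mul ?_ ?_ (by positivity) (by positivity)
      · exact pow_le_pow_right₀ (by norm_num) (Nat.mul_le_mul_right _ hr)
      · exact pow_le_pow_right₀ hG0' (by omega)
    calc (S1.card : ℝ) * w1 ≤ (3 ^ (k * k) * G0 ^ (3 * k + 1)) * w1 :=
          mul_le_mul_of_nonneg_right (h2.trans h3) h01
      _ = _ := by ring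
  have hcmp : ∀ G : ℝ, 1 ≤ G → 2 * (3 : ℝ) ^ (r * k) * (G ^ (n - (r + 2 * k + 2)))⁻¹ ≤
      3 ^ (k * k) * (2 * (G ^ (n - (3 * k + 2)))⁻¹) := by
    intro G hG
    have hG0 : 0 < G := by linarith
    have h2 : (3 : ℝ) ^ (r * k) ≤ 3 ^ (k * k) :=
      pow_le_pow_right₀ (by norm_num) (Nat.mul_le_mul_right _ hr)
    have h3 : (G ^ (n - (r + 2 * k + 2)))⁻¹ ≤ (G ^ (n - (3 * k + 2)))⁻¹ :=
      inv_anti₀ (by positivity) (pow_le_pow_right₀ hG (by omega))
    calc 2 * (3 : ℝ) ^ (r * k) * (G ^ (n - (r + 2 * k + 2)))⁻¹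
        ≤ 2 * (3 : ℝ) ^ (k * k) * (G ^ (n - (3 * k + 2)))⁻¹ := by
          refine mul_le_mul (by linarith) h3 (by positivity) (by positivity)
      _ = _ := by ring
  have e2 : ∑ C ∈ S2, w2 * (((MC C).index : ℝ) ^ n)⁻¹ ≤
      3 ^ (k * k) * (w2 * 2 * ((G0 : ℝ) ^ (n - (3 * k + 2)))⁻¹) := by
    rw [← Finset.mul_sum]
    have h2 := type_sum (n := n) S2 (fun C hC => h1 C (Finset.mem_filter.1 hC).1) hG0'
      (fun C hC => by
        have := (Finset.mem_filter.1 hC).2
        have h3 : G0 ≤ (MC C).index := by omega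
        exact_mod_cast h3) (by omega)
    calc w2 * ∑ C ∈ S2, (((MC C).index : ℝ) ^ n)⁻¹
        ≤ w2 * (3 ^ (k * k) * (2 * ((G0 : ℝ) ^ (n - (3 * k + 2)))⁻¹)) :=
          mul_le_mul_of_nonneg_left (h2.trans (hcmp _ hG0')) h02
      _ = _ := by ring
  have e3 : ∑ C ∈ S3, w3 * (((MC C).index : ℝ) ^ n)⁻¹ ≤
      3 ^ (k * k) * (w3 * 2 * ((N / (k * n) : ℝ) ^ (n - (3 * k + 2)))⁻¹) := by
    rw [← Finset.mul_sum]
    have h2 := type_sum (n := n) S3 (fun C hC => h1 C (Finset.mem_filter.1 hC).1) hNkn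
      (fun C hC => by
        have := (Finset.mem_filter.1 hC).2
        push Not at this
        rw [div_le_iff₀ hkn0]
        have h3 : ((N : ℕ) : ℝ) < ((k * n * (MC C).index : ℕ) : ℝ) := by exact_mod_cast this
        push_cast at h3
        linarith) (by omega)
    calc w3 * ∑ C ∈ S3, (((MC C).index : ℝ) ^ n)⁻¹
        ≤ w3 * (3 ^ (k * k) * (2 * ((N / (k * n) : ℝ) ^ (n - (3 * k + 2)))⁻¹)) :=
          mul_le_mul_of_nonneg_left (h2.trans (hcmp _ hNkn)) h03
      _ = _ := by ring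
  calc _ ≤ _ := e0
    _ ≤ _ := add_le_add (add_le_add e1 e2) e3
    _ = _ := by ring

section
variable {p : ℕ} [Fact p.Prime]

open Classical in
/-- the weighted count of the vectors of the box orthogonal to `a` modulo `p` -/
noncomputable def FF (p : ℕ) {n : ℕ} (N : ℕ) (h : (Fin n → ℤ) → ℝ) (a : Fin n → ZMod p) : ℝ :=
  ∑ x ∈ bx n N, if ∑ j, a j * red p x j = 0 then h x else 0

theorem FF_pow {k n N : ℕ} (h : (Fin n → ℤ) → ℝ) :
    ∑ a, (FF p N h a) ^ k = ∑ X ∈ bxt k n N, (∏ e, h (X e)) * sol p X := by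
  classical
  have h1 : ∀ a : Fin n → ZMod p, (FF p N h a) ^ k = ∑ X ∈ bxt k n N,
      if (∀ e, ∑ j, a j * red p (X e) j = 0) then ∏ e, h (X e) else 0 := by
    intro a
    have h2 : (FF p N h a) ^ k = ∏ _e : Fin k, FF p N h a := by simp
    rw [h2]
    simp only [FF]
    rw [Finset.prod_univ_sum]
    refine Finset.sum_congr rfl fun X _ => ?_
    split_ifs with hX
    · refine Finset.prod_congr rfl fun e _ => ?_
      rw [if_pos (hX e)]
    · push Not at hX
      obtain ⟨e, he⟩ := hX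
      exact Finset.prod_eq_zero (Finset.mem_univ e) (if_neg he)
  simp only [h1]
  rw [Finset.sum_comm]
  refine Finset.sum_congr rfl fun X _ => ?_
  rw [← Finset.sum_filter, Finset.sum_const, nsmul_eq_mul, mul_comm]
  rfl

/-- the bound for the `k`-th moment -/
noncomputable def bound (k n N G0 : ℕ) (p T b B : ℝ) : ℝ :=
  (k + 1) * k ^ k * (3 ^ (k * k) *
    ((B ^ k + b ^ k * (k * (3 * T) ^ (k * n) * (3 * N) ^ k / p)) * G0 ^ (3 * k + 1) +
      (2 * b ^ k * (2 * T) ^ (k * n)) * 2 * ((G0 : ℝ) ^ (n - (3 * k + 2)))⁻¹ +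
      (b ^ k * ((2 * k + 3) * T) ^ (k * n)) * 2 * ((N / (k * n) : ℝ) ^ (n - (3 * k + 2)))⁻¹))

theorem moment {k n N G0 : ℕ} (hk : 1 ≤ k) (hn : 3 * k + 2 ≤ n) (hG0 : 1 ≤ G0)
    (hkn : k * n ≤ N) {T b B : ℝ} (hT1 : 1 ≤ T) (hNT : (N : ℝ) ^ n ≤ T ^ n * p)
    (hp1 : G0 * (N * (k + 1)) < p) (hp2 : k.factorial * (n * N ^ 2) ^ k < p)
    (h : (Fin n → ℤ) → ℝ) (hb : ∀ x, |h x| ≤ b) (hB : 0 < B) (h1 : ∀ x, |h x| ≤ B)
    (h2 : ∑ x ∈ bx n N, h x ^ 2 ≤ p * B ^ 2)
    (h3 : ∀ χ : AddChar (Fin n → ZMod p) ℂ,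
      ‖∑ x ∈ bx n N, (h x : ℂ) * χ (red p x)‖ ≤ p * B) :
    ∑ a, (FF p N h a) ^ k ≤ p ^ n * bound k n N G0 p T b B := by
  classical
  have hp0 : (0 : ℝ) < p := by exact_mod_cast (Fact.out : p.Prime).pos
  have hb0 : 0 ≤ b := (abs_nonneg _).trans (hb 0)
  have hn0 : 0 < n := by omega
  have hN1 : 1 ≤ N := le_trans (Nat.mul_pos hk hn0) hkn
  have hN1' : (1 : ℝ) ≤ N := by exact_mod_cast hN1
  have hk1' : (1 : ℝ) ≤ k := by exact_mod_cast hk
  set w1 : ℝ := B ^ k + b ^ k * (k * (3 * T) ^ (k * n) * (3 * N) ^ k / p) with hw1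
  set w2 : ℝ := 2 * b ^ k * (2 * T) ^ (k * n) with hw2
  set w3 : ℝ := b ^ k * ((2 * k + 3) * T) ^ (k * n) with hw3
  have h01 : 0 ≤ w1 := by positivity
  have h02 : 0 ≤ w2 := by positivity
  have h03 : 0 ≤ w3 := by positivity
  have hpr : ∀ r ≤ k, r.factorial * (n * N ^ 2) ^ r < p := by
    intro r hr
    refine lt_of_le_of_lt ?_ hp2
    refine Nat.mul_le_mul (Nat.factorial_le hr) (Nat.pow_le_pow_right ?_ hr)
    exact Nat.mul_pos hn0 (pow_pos (by omega) 2)
  have h2N : 2 * N < p := by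
    have : 2 * N ≤ G0 * (N * (k + 1)) := by nlinarith [Nat.mul_le_mul hG0 (le_refl (N * (k + 1)))]
    omega
  set KK := (bxt k n N).image Kx with hKK
  have hsum : ∑ a, (FF p N h a) ^ k = ∑ K ∈ KK, SK p N h K := by
    rw [FF_pow]
    simp only [SK]
    exact (Finset.sum_fiberwise_of_maps_to (fun X hX => Finset.mem_image_of_mem Kx hX) _).symm
  have hW : ∀ (r : ℕ) (ι : Fin r → Fin k) (C : Fin k → Fin r → ℚ)
      (K : Submodule ℚ (Fin k → ℚ)), IsT n ι C K →
      |SK p N h K| / p ^ n ≤ wt k n N G0 w1 w2 w3 (MC C).index := by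
    intro r ι C K hT
    have hrk := hT.le
    have hpn : (0 : ℝ) < (p : ℝ) ^ n := pow_pos hp0 n
    rw [wt]
    split_ifs with c1 c2
    · rw [div_le_iff₀ hpn, mul_comm w1]
      have hr1 := SK_one hT h hb hB h1 h2N h2 h3 (by
        refine lt_of_le_of_lt ?_ hp1
        exact Nat.mul_le_mul c1 (Nat.mul_le_mul_left _ (by omega))) (hpr r hrk) (by
        refine lt_of_le_of_lt c1 (lt_of_le_of_lt ?_ hp1)
        have : 0 < N * (k + 1) := Nat.mul_pos hN1 (by omega)
        exact Nat.le_mul_of_pos_right _ this)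
      have hppr : (0 : ℝ) < (p : ℝ) ^ r := pow_pos hp0 r
      have h5 : ((r * (((2 * N + 1) ^ n) ^ (r - 1) * (2 * N + 1) ^ (r - 1)) : ℕ) : ℝ) ≤
          (k * (3 * T) ^ (k * n) * (3 * N) ^ k / p) * p ^ r := by
        rcases Nat.eq_zero_or_pos r with rfl | hr
        · simp only [zero_mul, Nat.cast_zero]
          positivity
        · have h6 : (2 * N + 1 : ℝ) ≤ 3 * N := by linarith
          have h7 : (2 * N + 1 : ℝ) ^ n ≤ (3 * T) ^ n * p := by
            calc (2 * N + 1 : ℝ) ^ n ≤ (3 * N) ^ n := pow_le_pow_left₀ (by positivity) h6 _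
              _ = 3 ^ n * (N : ℝ) ^ n := mul_pow _ _ _
              _ ≤ 3 ^ n * (T ^ n * p) := mul_le_mul_of_nonneg_left hNT (by positivity)
              _ = _ := by rw [mul_pow]; ring
          have h8 : ((2 * N + 1 : ℝ) ^ n) ^ (r - 1) ≤ (3 * T) ^ (k * n) * p ^ (r - 1) := by
            calc ((2 * N + 1 : ℝ) ^ n) ^ (r - 1) ≤ ((3 * T) ^ n * p) ^ (r - 1) :=
                  pow_le_pow_left₀ (by positivity) h7 _
              _ = (3 * T) ^ (n * (r - 1)) * p ^ (r - 1) := by rw [mul_pow, ← pow_mul]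
              _ ≤ _ := by
                  refine mul_le_mul_of_nonneg_right ?_ (by positivity)
                  refine pow_le_pow_right₀ (by linarith) ?_
                  rw [mul_comm]
                  exact Nat.mul_le_mul_right _ (by omega)
          have h9 : (2 * N + 1 : ℝ) ^ (r - 1) ≤ (3 * N) ^ k := by
            calc (2 * N + 1 : ℝ) ^ (r - 1) ≤ (3 * N) ^ (r - 1) :=
                  pow_le_pow_left₀ (by positivity) h6 _
              _ ≤ _ := pow_le_pow_right₀ (by linarith) (by omega)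
          have h10 : (r : ℝ) ≤ k := by exact_mod_cast hrk
          have h11 : (p : ℝ) ^ r = p ^ (r - 1) * p := by
            rw [← pow_succ]
            congr 1
            omega
          push_cast
          rw [h11]
          calc (r : ℝ) * (((2 * N + 1 : ℝ) ^ n) ^ (r - 1) * (2 * N + 1 : ℝ) ^ (r - 1))
              ≤ k * (((3 * T) ^ (k * n) * p ^ (r - 1)) * (3 * N) ^ k) := by
                refine mul_le_mul h10 ?_ (by positivity) (by positivity)
                exact mul_le_mul h8 h9 (by positivity) (by positivity)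
            _ = _ := by
                field_simp
      have h6 : |SK p N h K| * p ^ r ≤ (p ^ n * w1) * p ^ r := by
        calc |SK p N h K| * p ^ r ≤ _ := hr1
          _ ≤ p ^ n * (p ^ r * B ^ k + b ^ k * ((k * (3 * T) ^ (k * n) * (3 * N) ^ k / p) * p ^ r)) := by
              refine mul_le_mul_of_nonneg_left ?_ hpn.le
              have := mul_le_mul_of_nonneg_left h5 (pow_nonneg hb0 k)
              linarith
          _ = _ := by
              rw [hw1]
              ring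
      exact le_of_mul_le_mul_right h6 hppr
    · have hg0 : (0 : ℝ) < ((MC C).index : ℝ) ^ n := by
        have : 0 < (MC C).index := Nat.pos_of_ne_zero (MC_index C)
        positivity
      have hr1 := SK_mid (p := p) (T := T) hT h hb (hpr r hrk) hN1 hT1 hNT c2
      rw [div_le_iff₀ hpn, ← div_eq_mul_inv, div_mul_eq_mul_div, le_div_iff₀ hg0]
      linarith
    · have hg0 : (0 : ℝ) < ((MC C).index : ℝ) ^ n := by
        have : 0 < (MC C).index := Nat.pos_of_ne_zero (MC_index C)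
        positivity
      have hr1 := SK_far (p := p) (T := T) hT h hb (hpr r hrk) hN1 hT1 hNT
      rw [div_le_iff₀ hpn, ← div_eq_mul_inv, div_mul_eq_mul_div, le_div_iff₀ hg0]
      linarith
  have hfin := sum_classes (n := n) hk KK (by
      intro K hK
      obtain ⟨X, -, hX⟩ := Finset.mem_image.1 hK
      exact ⟨X, hX⟩) (fun K => |SK p N h K| / p ^ n) (wt k n N G0 w1 w2 w3)
    (by
      intro g
      rw [wt]
      split_ifs
      · exact h01
      · positivity
      · positivity) hW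
    (fun r hr S hS => wt_sum h01 h02 h03 hk hn hG0 hkn r hr S hS)
  have hpn : (0 : ℝ) < (p : ℝ) ^ n := pow_pos hp0 n
  calc ∑ a, (FF p N h a) ^ k = ∑ K ∈ KK, SK p N h K := hsum
    _ ≤ ∑ K ∈ KK, |SK p N h K| := Finset.sum_le_sum fun K _ => le_abs_self _
    _ = p ^ n * ∑ K ∈ KK, |SK p N h K| / p ^ n := by
        rw [Finset.mul_sum]
        refine Finset.sum_congr rfl fun K _ => ?_
        field_simp
    _ ≤ p ^ n * bound k n N G0 p T b B := by
        refine mul_le_mul_of_nonneg_left ?_ hpn.le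
        refine hfin.trans (le_of_eq ?_)
        rw [bound]

end

end Pool.Agent.K4H71.RL
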