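import Pool.Agent.K4H71.RL.Cel2
import Pool.Agent.K4H71.RL.Mom

/-! The test function on the lattice. -/

set_option autoImplicit false

namespace Pool.Agent.K4H71.RL

open MeasureTheory Finset Filter Topology

section
variable {n : ℕ}

theorem even_sum {N : ℕ} {f : (Fin n → ℤ) → ℝ} (hf : ∀ x, f (-x) = f x) (θ : Fin n → ℝ) :
    ∑ x ∈ bx n N, (f x : ℂ) * ew θ x = ((∑ x ∈ bx n N, f x * cw θ x : ℝ) : ℂ) := by
  apply Complex.ext
  · rw [Complex.re_sum, Complex.ofReal_re]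
    refine Finset.sum_congr rfl fun x _ => ?_
    rw [Complex.re_ofReal_mul, ew_re]
  · rw [Complex.im_sum, Complex.ofReal_im]
    simp only [Complex.im_ofReal_mul, ew_im]
    have h2 : ∑ x ∈ bx n N, f x * Real.sin (2 * Real.pi * dt θ (cr x)) =
        ∑ x ∈ bx n N, -(f x * Real.sin (2 * Real.pi * dt θ (cr x))) := by
      refine Finset.sum_nbij' (fun x => -x) (fun x => -x) ?_ ?_ ?_ ?_ ?_
      · intro x hx
        rw [mem_bx] at hx ⊢
        intro i
        simpa using hx i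
      · intro x hx
        rw [mem_bx] at hx ⊢
        intro i
        simpa using hx i
      · intro x _
        exact neg_neg x
      · intro x _
        exact neg_neg x
      · intro x _
        have h3 : dt θ (cr (-x)) = -dt θ (cr x) := by
          rw [cr_neg]
          simp [dt, Finset.sum_neg_distrib]
        rw [hf, h3, mul_neg, Real.sin_neg]
        ring
    rw [Finset.sum_neg_distrib] at h2
    linarith

theorem hat_neg (H : (Fin n → ℝ) → ℝ) (x : Fin n → ℤ) : hat H (-x) = hat H x := by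
  rw [hat, hat]
  simp only [cw_neg]

theorem char_theta {p : ℕ} [Fact p.Prime] (χ : AddChar (Fin n → ZMod p) ℂ) :
    ∃ θ : Fin n → ℝ, ∀ x : Fin n → ℤ, χ (red p x) = ew θ x := by
  classical
  refine ⟨fun j => Complex.arg (χ (Pi.single j 1)) / (2 * Real.pi), fun x => ?_⟩
  have h1 : red p x = ∑ j, x j • (Pi.single j (1 : ZMod p) : Fin n → ZMod p) := by
    funext i
    rw [Finset.sum_apply, Finset.sum_eq_single i]
    · simp [red]
    · intro j _ hj
      simp [Pi.single_eq_of_ne (Ne.symm hj)]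
    · intro h
      exact absurd (Finset.mem_univ i) h
  rw [h1, char_sum, ew_prod]
  refine Finset.prod_congr rfl fun j _ => ?_
  rw [AddChar.map_zsmul_eq_zpow]
  have h2 : ‖χ (Pi.single j (1 : ZMod p))‖ = 1 := AddChar.norm_apply _ _
  have h3 : χ (Pi.single j (1 : ZMod p)) =
      Complex.exp (Complex.arg (χ (Pi.single j (1 : ZMod p))) * Complex.I) := by
    have h4 := Complex.norm_mul_exp_arg_mul_I (χ (Pi.single j (1 : ZMod p)))
    rw [h2, Complex.ofReal_one, one_mul] at h4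
    exact h4.symm
  conv_lhs => rw [h3]
  rw [← Complex.exp_int_mul]
  congr 1
  have hpi : (Real.pi : ℂ) ≠ 0 := by exact_mod_cast Real.pi_ne_zero
  push_cast
  field_simp

variable {ρ x0 : ℝ}

theorem Hf_nonneg (hn : 3 ≤ n) (hρ : 0 < ρ) (hx0n : x0 ≤ (n : ℝ) / 2) (φ : Fin n → ℝ) :
    0 ≤ Hf n ρ x0 φ := by
  rw [Hf]
  split_ifs with hc
  · rw [Jb_eq hn hρ]
    refine mul_nonneg (Vb_nonneg n ρ) ?_
    have h1 : 0 ≤ ρ * nm φ := mul_nonneg hρ.le (nm_nonneg φ)
    exact (Real.exp_pos _).le.trans (Kn_low hn h1 (by linarith))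
  · exact le_rfl

theorem Hf_low (hn : 3 ≤ n) (hρ : 0 < ρ) (hx0n : x0 ≤ (n : ℝ) / 2) {φ : Fin n → ℝ} {z : ℝ}
    (hz : 2 * Real.pi * (ρ * nm φ) ≤ z) (hzx : z < x0) :
    Vb n ρ * Real.exp (-(z ^ 2 / n)) ≤ Hf n ρ x0 φ := by
  have hn0 : (0 : ℝ) < n := by positivity
  rw [Hf, if_pos (lt_of_le_of_lt hz hzx), Jb_eq hn hρ]
  have h1 : 0 ≤ ρ * nm φ := mul_nonneg hρ.le (nm_nonneg φ)
  refine mul_le_mul_of_nonneg_left ?_ (Vb_nonneg n ρ)
  refine le_trans ?_ (Kn_low hn h1 (by linarith))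
  apply Real.exp_le_exp.2
  rw [neg_le_neg_iff]
  refine div_le_div_of_nonneg_right ?_ hn0.le
  exact pow_le_pow_left₀ (by positivity) hz 2

theorem Hf_le (φ : Fin n → ℝ) : Hf n ρ x0 φ ≤ Vb n ρ := by
  rw [Hf]
  split_ifs
  · exact (le_abs_self _).trans (Jb_le n ρ φ)
  · exact Vb_nonneg n ρ

theorem nm_cont : Continuous fun φ : Fin n → ℝ => nm φ := by
  unfold nm dt
  fun_prop

theorem Jb_meas (n : ℕ) (ρ : ℝ) : StronglyMeasurable fun φ : Fin n → ℝ => Jb n ρ φ := by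
  unfold Jb
  refine StronglyMeasurable.integral_prod_right
    (f := fun (φ : Fin n → ℝ) (y : Fin n → ℝ) => Real.cos (2 * Real.pi * dt φ y)) ?_
  refine Continuous.stronglyMeasurable ?_
  unfold dt Function.uncurry
  fun_prop

theorem Hf_meas : Measurable fun φ : Fin n → ℝ => Hf n ρ x0 φ := by
  classical
  unfold Hf
  refine Measurable.ite ?_ (Jb_meas n ρ).measurable measurable_const
  have h : Continuous fun φ : Fin n → ℝ => 2 * Real.pi * (ρ * nm φ) := by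
    have := nm_cont (n := n)
    fun_prop
  exact measurableSet_lt h.measurable measurable_const

theorem Hf_int (hn : 3 ≤ n) (hρ : 0 < ρ) (hx0n : x0 ≤ (n : ℝ) / 2) :
    IntegrableOn (Hf n ρ x0) (Qc n (1 / 2)) := by
  refine Measure.integrableOn_of_bounded (M := Vb n ρ) (Qc_fin n _).ne
    Hf_meas.aestronglyMeasurable ?_
  refine Filter.Eventually.of_forall fun φ => ?_
  rw [Real.norm_eq_abs, abs_of_nonneg (Hf_nonneg hn hρ hx0n φ)]
  exact Hf_le φ

theorem Hf_hat0 (hn : 3 ≤ n) (hρ : 0 < ρ) (hx0 : 0 < x0) (hx0n : x0 ≤ (n : ℝ) / 2) :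
    hat (Hf n ρ x0) 0 ≤ (x0 / (2 * Real.pi)) ^ n * Vb n 1 ^ 2 := by
  set η : ℝ := x0 / (2 * Real.pi * ρ) with hη
  have hη0 : 0 < η := by positivity
  have h1 : ∀ φ : Fin n → ℝ, Hf n ρ x0 φ * cw φ 0 ≤ (Db n η).indicator (fun _ => Vb n ρ) φ := by
    intro φ
    rw [cw_zero, mul_one]
    by_cases hφ : φ ∈ Db n η
    · rw [Set.indicator_of_mem hφ]
      exact Hf_le φ
    · rw [Set.indicator_of_notMem hφ, Hf, if_neg]
      intro hc
      apply hφ
      show nm φ < η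
      rw [hη, lt_div_iff₀ (by positivity)]
      linarith
  have hi : Integrable ((Db n η).indicator (fun _ : Fin n → ℝ => Vb n ρ)) := by
    rw [integrable_indicator_iff (Db_meas n η)]
    exact integrableOn_const (Db_fin n η).ne
  calc hat (Hf n ρ x0) 0 ≤ ∫ φ in Qc n (1 / 2), (Db n η).indicator (fun _ => Vb n ρ) φ := by
        rw [hat]
        refine integral_mono_ae ?_ hi.integrableOn (Filter.Eventually.of_forall h1)
        exact mul_int (Hf_int hn hρ hx0n) (cw_cont 0)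
    _ ≤ ∫ φ, (Db n η).indicator (fun _ => Vb n ρ) φ := by
        refine setIntegral_le_integral hi (Filter.Eventually.of_forall fun φ => ?_)
        exact Set.indicator_nonneg (fun _ _ => Vb_nonneg n ρ) _
    _ = Vb n ρ * Vb n η := by
        rw [integral_indicator (Db_meas n η), integral_const, smul_eq_mul,
          measureReal_restrict_apply_univ, measureReal_def, mul_comm]
        rfl
    _ = _ := by
        rw [Vb_scale hρ, Vb_scale hη0]
        have h2 : ρ ^ n * η ^ n = (x0 / (2 * Real.pi)) ^ n := by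
          rw [← mul_pow, hη]
          congr 1
          field_simp
        rw [← h2]
        ring

/-- the test function -/
noncomputable def hh (n : ℕ) (ρ x0 : ℝ) (N : ℕ) (x : Fin n → ℤ) : ℝ :=
  open Classical in if x ∈ bx n N ∧ x ≠ 0 then
    ((if x ∈ SS n ρ then 1 else 0) - hat (Hf n ρ x0) x) * gw N x else 0

theorem hh_neg {N : ℕ} (x : Fin n → ℤ) : hh n ρ x0 N (-x) = hh n ρ x0 N x := by
  classical
  have h1 : -x ∈ bx n N ↔ x ∈ bx n N := by
    simp [mem_bx]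
  have h2 : -x ∈ SS n ρ ↔ x ∈ SS n ρ := by
    rw [mem_SS, mem_SS, cr_neg, nm_neg]
  rw [hh, hh]
  simp only [h1, h2, hat_neg, gw_neg, neg_ne_zero]

theorem hh_abs {N : ℕ} (hn : 3 ≤ n) (hρ : 0 < ρ) (hx0n : x0 ≤ (n : ℝ) / 2)
    (hψ : hat (Hf n ρ x0) 0 ≤ 1) (x : Fin n → ℤ) : |hh n ρ x0 N x| ≤ 2 := by
  classical
  rw [hh]
  by_cases h1 : x ∈ bx n N ∧ x ≠ 0
  · rw [if_pos h1]
    have h2 := L5 (Hf_int hn hρ hx0n) (fun φ _ => Hf_nonneg hn hρ hx0n φ) x
    rw [abs_mul, abs_of_nonneg (gw_nonneg h1.1)]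
    have h3 := gw_le_one h1.1
    have h4 : |(if x ∈ SS n ρ then (1 : ℝ) else 0) - hat (Hf n ρ x0) x| ≤ 2 := by
      refine (abs_sub _ _).trans ?_
      have h5 : |(if x ∈ SS n ρ then (1 : ℝ) else 0)| ≤ 1 := by
        split_ifs <;> simp
      linarith
    calc _ ≤ 2 * 1 := mul_le_mul h4 h3 (gw_nonneg h1.1) (by norm_num)
      _ = 2 := by norm_num
  · rw [if_neg h1, abs_zero]
    norm_num

theorem hh_sq {N : ℕ} (hN : 1 ≤ N) (hn : 3 ≤ n) (hρ : 0 < ρ) (hx0n : x0 ≤ (n : ℝ) / 2)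
    (hψ : hat (Hf n ρ x0) 0 ≤ 1) :
    ∑ x ∈ bx n N, hh n ρ x0 N x ^ 2 ≤ 2 * (SS n ρ).card + 2 * Vb n ρ := by
  classical
  have h1 : ∀ x ∈ bx n N, hh n ρ x0 N x ^ 2 ≤ 2 * (if x ∈ SS n ρ then 1 else 0) +
      2 * (hat (Hf n ρ x0) x ^ 2 * gw N x) := by
    intro x hx
    have hg0 := gw_nonneg hx
    have hg1 := gw_le_one hx
    have hi : (0 : ℝ) ≤ (if x ∈ SS n ρ then 1 else 0) := by split_ifs <;> norm_num
    have hi2 : (if x ∈ SS n ρ then (1 : ℝ) else 0) ^ 2 = (if x ∈ SS n ρ then 1 else 0) := by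
      split_ifs <;> norm_num
    rw [hh]
    by_cases h2 : x ∈ bx n N ∧ x ≠ 0
    · rw [if_pos h2, mul_pow]
      have h3 : gw N x ^ 2 ≤ gw N x := by nlinarith
      set a : ℝ := (if x ∈ SS n ρ then (1 : ℝ) else 0) with ha
      set b : ℝ := hat (Hf n ρ x0) x with hb
      have h4 : (a - b) ^ 2 ≤ 2 * a + 2 * b ^ 2 := by nlinarith [sq_nonneg (a + b)]
      calc (a - b) ^ 2 * gw N x ^ 2 ≤ (2 * a + 2 * b ^ 2) * gw N x := by
            refine mul_le_mul h4 h3 (sq_nonneg _) (by positivity)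
        _ = 2 * a * gw N x + 2 * (b ^ 2 * gw N x) := by ring
        _ ≤ 2 * a + 2 * (b ^ 2 * gw N x) := by
            have h5 : 2 * a * gw N x ≤ 2 * a * 1 := mul_le_mul_of_nonneg_left hg1 (by linarith)
            linarith
    · have : 0 ≤ hat (Hf n ρ x0) x ^ 2 * gw N x := by positivity
      rw [if_neg h2, zero_pow (by norm_num)]
      linarith
  refine (Finset.sum_le_sum h1).trans ?_
  rw [Finset.sum_add_distrib, ← Finset.mul_sum, ← Finset.mul_sum]
  have h2 : ∑ x ∈ bx n N, (if x ∈ SS n ρ then (1 : ℝ) else 0) ≤ (SS n ρ).card := by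
    rw [← Finset.sum_filter, Finset.sum_const, nsmul_eq_mul, mul_one]
    exact_mod_cast Finset.card_le_card fun x hx => (Finset.mem_filter.1 hx).2
  have h3 := L4 hN (Hf_int hn hρ hx0n) (fun φ _ => Hf_nonneg hn hρ hx0n φ)
    (fun φ _ => Hf_le φ)
  have h4 : Vb n ρ * hat (Hf n ρ x0) 0 ≤ Vb n ρ * 1 :=
    mul_le_mul_of_nonneg_left hψ (Vb_nonneg n ρ)
  linarith

theorem hh_char {p : ℕ} [Fact p.Prime] {N : ℕ} (hN : 1 ≤ N) (hn : 3 ≤ n) (hρ : 0 < ρ)
    (hx0n : x0 ≤ (n : ℝ) / 2) (hψ : hat (Hf n ρ x0) 0 ≤ 1) {M : ℝ}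
    (hM : ∀ φ ∈ Qc n (1 / 2), |Js (SS n ρ) φ - Hf n ρ x0 φ| ≤ M)
    (χ : AddChar (Fin n → ZMod p) ℂ) :
    ‖∑ x ∈ bx n N, (hh n ρ x0 N x : ℂ) * χ (red p x)‖ ≤ M + 1 := by
  classical
  obtain ⟨θ, hθ⟩ := char_theta χ
  simp only [hθ]
  rw [even_sum hh_neg, Complex.norm_real, Real.norm_eq_abs]
  set H : (Fin n → ℝ) → ℝ := fun φ => Js (SS n ρ) φ - Hf n ρ x0 φ with hH
  have hHi : IntegrableOn H (Qc n (1 / 2)) := (bdd_int (Js_cont _)).sub (Hf_int hn hρ hx0n)
  have hhat : ∀ x, hat H x = (if x ∈ SS n ρ then 1 else 0) - hat (Hf n ρ x0) x := by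
    intro x
    rw [← L3 (SS n ρ) SS_neg x, hat, hat, hat]
    rw [← integral_sub (mul_int (bdd_int (Js_cont _)) (cw_cont x))
      (mul_int (Hf_int hn hρ hx0n) (cw_cont x))]
    refine integral_congr_ae (Filter.Eventually.of_forall fun φ => ?_)
    simp only [hH]
    ring
  have h1 : ∑ x ∈ bx n N, hh n ρ x0 N x * cw θ x =
      ∑ x ∈ bx n N, hat H x * gw N x * cw θ x - (1 - hat (Hf n ρ x0) 0) := by
    have h0 : (0 : Fin n → ℤ) ∈ bx n N := mem_bx.2 fun i => by simp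
    rw [← Finset.add_sum_erase _ _ h0, ← Finset.add_sum_erase _ (fun x => hat H x * gw N x * cw θ x) h0]
    have h2 : ∑ x ∈ (bx n N).erase 0, hh n ρ x0 N x * cw θ x =
        ∑ x ∈ (bx n N).erase 0, hat H x * gw N x * cw θ x := by
      refine Finset.sum_congr rfl fun x hx => ?_
      obtain ⟨hx1, hx2⟩ := Finset.mem_erase.1 hx
      rw [hh, if_pos ⟨hx2, hx1⟩, hhat]
    rw [h2]
    have h3 : hh n ρ x0 N (0 : Fin n → ℤ) = 0 := by
      rw [hh, if_neg]
      simp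
    have h4 : (0 : Fin n → ℤ) ∈ SS n ρ := by
      rw [mem_SS]
      have : nm (cr (0 : Fin n → ℤ)) = 0 := by simp [nm, dt, cr]
      rw [this]
      exact hρ
    rw [h3, hhat, if_pos h4, gw_zero, cw_zero]
    ring
  rw [h1, L1 hHi]
  refine (abs_sub _ _).trans (add_le_add (L2 hN hHi hM θ) ?_)
  have h5 : 0 ≤ hat (Hf n ρ x0) 0 := by
    rw [hat]
    refine setIntegral_nonneg (Qc_meas n _) fun φ _ => ?_
    rw [cw_zero, mul_one]
    exact Hf_nonneg hn hρ hx0n φ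
  rw [abs_of_nonneg (by linarith)]
  linarith

open Classical in
/-- sums over the points orthogonal to `a` of functions with nonnegative transform -/
theorem lat_low {p : ℕ} [Fact p.Prime] {N : ℕ} (hN : 1 ≤ N) {H : (Fin n → ℝ) → ℝ}
    (hH : IntegrableOn H (Qc n (1 / 2))) (h0 : ∀ φ ∈ Qc n (1 / 2), 0 ≤ H φ)
    (a : Fin n → ZMod p) :
    ∫ φ in Qc n (1 / 2), H φ * Gm N 0 φ ≤
      p * ∑ x ∈ bx n N, if ∑ j, a j * red p x j = 0 then hat H x * gw N x else 0 := by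
  have hfe : ∀ x : Fin n → ℤ, hat H (-x) * gw N (-x) = hat H x * gw N x := by
    intro x
    rw [hat_neg, gw_neg]
  set ψ0 : AddChar (ZMod p) ℂ := ZMod.stdAddChar with hψ0
  have hprim : ψ0.IsPrimitive := ZMod.isPrimitive_stdAddChar p
  set χ : ZMod p → AddChar (Fin n → ZMod p) ℂ := fun t =>
    { toFun := fun x => ψ0 (t * ∑ j, a j * x j)
      map_zero_eq_one' := by simp
      map_add_eq_mul' := by
        intro x y
        rw [← AddChar.map_add_eq_mul]
        congr 1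
        simp only [Pi.add_apply, mul_add, Finset.sum_add_distrib] } with hχ
  have hT : ∀ t, ∃ r : ℝ, 0 ≤ r ∧ ∑ x ∈ bx n N, ((hat H x * gw N x : ℝ) : ℂ) * χ t (red p x) = r := by
    intro t
    obtain ⟨θ, hθ⟩ := char_theta (χ t)
    refine ⟨∫ φ in Qc n (1 / 2), H φ * Gm N θ φ, L2' hN h0 θ, ?_⟩
    simp only [hθ]
    rw [even_sum hfe, L1 hH]
  choose r hr0 hr using hT
  have hr00 : r 0 = ∫ φ in Qc n (1 / 2), H φ * Gm N 0 φ := by
    have h1 := hr 0
    have h2 : ∑ x ∈ bx n N, ((hat H x * gw N x : ℝ) : ℂ) * χ 0 (red p x) =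
        ((∑ x ∈ bx n N, hat H x * gw N x * cw 0 x : ℝ) : ℂ) := by
      rw [Complex.ofReal_sum]
      refine Finset.sum_congr rfl fun x _ => ?_
      have h3 : χ 0 (red p x) = 1 := by
        show ψ0 (0 * ∑ j, a j * red p x j) = 1
        rw [zero_mul, AddChar.map_zero_eq_one]
      rw [h3, cw_zero_left, mul_one, mul_one]
    rw [h2, L1 hH] at h1
    exact_mod_cast h1.symm
  have hsum : ((p * ∑ x ∈ bx n N, (if ∑ j, a j * red p x j = 0 then hat H x * gw N x else 0) : ℝ) : ℂ) =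
      ((∑ t, r t : ℝ) : ℂ) := by
    rw [Complex.ofReal_sum]
    simp only [← hr]
    rw [Finset.sum_comm]
    push_cast
    rw [Finset.mul_sum]
    refine Finset.sum_congr rfl fun x _ => ?_
    rw [← Finset.mul_sum]
    have h3 : ∑ t, χ t (red p x) = if ∑ j, a j * red p x j = 0 then (p : ℂ) else 0 := by
      have h4 := AddChar.sum_mulShift (ψ := ψ0) (∑ j, a j * red p x j) hprim
      have h5 : ∑ t, χ t (red p x) = ∑ t, ψ0 (t * ∑ j, a j * red p x j) := rfl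
      rw [h5, h4, ZMod.card]
      split_ifs <;> simp
    rw [h3]
    split_ifs with hc
    · push_cast
      ring
    · simp
  have hsum' := Complex.ofReal_injective hsum
  rw [hsum', ← hr00]
  exact Finset.single_le_sum (f := r) (fun t _ => hr0 t) (Finset.mem_univ 0)

/-- the lattice of `a` has no short vectors -/
def Adm (p : ℕ) {n : ℕ} (ρ : ℝ) (a : Fin n → ZMod p) : Prop :=
  ∀ x : Fin n → ℤ, x ≠ 0 → ∑ j, a j * red p x j = 0 → ρ ≤ nm (cr x)

theorem FF_adm {p : ℕ} [Fact p.Prime] {N : ℕ} (hN : 1 ≤ N) (hn : 3 ≤ n) (hρ : 0 < ρ)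
    (hx0n : x0 ≤ (n : ℝ) / 2) (a : Fin n → ZMod p) (ha : Adm p ρ a) :
    p * FF p N (hh n ρ x0 N) a ≤ p * hat (Hf n ρ x0) 0 -
      ∫ φ in Qc n (1 / 2), Hf n ρ x0 φ * Gm N 0 φ := by
  classical
  have h1 := lat_low hN (Hf_int hn hρ hx0n) (fun φ _ => Hf_nonneg hn hρ hx0n φ) a
  have h2 : FF p N (hh n ρ x0 N) a = hat (Hf n ρ x0) 0 -
      ∑ x ∈ bx n N, if ∑ j, a j * red p x j = 0 then hat (Hf n ρ x0) x * gw N x else 0 := by
    have h0 : (0 : Fin n → ℤ) ∈ bx n N := mem_bx.2 fun i => by simp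
    rw [FF, ← Finset.add_sum_erase _ _ h0, ← Finset.add_sum_erase _
      (fun x => if ∑ j, a j * red p x j = 0 then hat (Hf n ρ x0) x * gw N x else 0) h0]
    have h3 : hh n ρ x0 N (0 : Fin n → ℤ) = 0 := by
      rw [hh, if_neg]
      simp
    have h4 : ∑ j, a j * red p (0 : Fin n → ℤ) j = 0 := by
      refine Finset.sum_eq_zero fun j _ => ?_
      simp [red]
    have h5 : ∑ x ∈ (bx n N).erase 0, (if ∑ j, a j * red p x j = 0 then hh n ρ x0 N x else 0) =
        -∑ x ∈ (bx n N).erase 0,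
          (if ∑ j, a j * red p x j = 0 then hat (Hf n ρ x0) x * gw N x else 0) := by
      rw [← Finset.sum_neg_distrib]
      refine Finset.sum_congr rfl fun x hx => ?_
      obtain ⟨hx1, hx2⟩ := Finset.mem_erase.1 hx
      split_ifs with hc
      · have h6 := ha x hx1 hc
        have h7 : x ∉ SS n ρ := by
          rw [mem_SS]
          exact not_lt.2 h6
        rw [hh, if_pos ⟨hx2, hx1⟩, if_neg h7]
        ring
      · simp
    simp only [h3, h4, if_true, gw_zero, mul_one]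
    rw [h5]
    ring
  rw [h2]
  have h3 : (p : ℝ) * (hat (Hf n ρ x0) 0 - ∑ x ∈ bx n N,
      if ∑ j, a j * red p x j = 0 then hat (Hf n ρ x0) x * gw N x else 0) =
      p * hat (Hf n ρ x0) 0 - p * ∑ x ∈ bx n N,
      if ∑ j, a j * red p x j = 0 then hat (Hf n ρ x0) x * gw N x else 0 := by ring
  rw [h3]
  linarith

/-- the lower bound at the origin for the low frequency part -/
theorem Hf_origin {N : ℕ} (hN : 1 ≤ N) (hn : 3 ≤ n) (hρ : 0 < ρ)
    (hx0n : x0 ≤ (n : ℝ) / 2) {κ z : ℝ} (hκ : 0 < κ) (hκ2 : κ ≤ 1 / 2)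
    (hz : 2 * Real.pi * (ρ * (√n * κ)) ≤ z) (hzx : z < x0) (h2 : 1 / (2 * N * κ) ≤ 1) :
    Vb n ρ * Real.exp (-(z ^ 2 / n)) * (1 - 1 / (2 * N * κ)) ^ n ≤
      ∫ φ in Qc n (1 / 2), Hf n ρ x0 φ * Gm N 0 φ := by
  refine L6 hN (Hf_int hn hρ hx0n) (fun φ _ => Hf_nonneg hn hρ hx0n φ) hκ hκ2
    (mul_nonneg (Vb_nonneg n ρ) (Real.exp_pos _).le) (fun φ hφ => ?_) h2
  refine Hf_low hn hρ hx0n (le_trans ?_ hz) hzx
  refine mul_le_mul_of_nonneg_left ?_ Real.two_pi_pos.le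
  exact mul_le_mul_of_nonneg_left (nm_cube hκ.le hφ) hρ.le

end

end Pool.Agent.K4H71.RL
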