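import Pool.Agent.K4H71.RL.Wts

/-! An inequality of Brascamp-Lieb type over a finite field: a function `h` with `|h| ≤ 1`,
`∑ |h|² ≤ P` and `|ĥ| ≤ P` satisfies `|∑ ∏ h(x_e)| ≤ P ^ dim U` where the sum is over the tuples
whose coordinates lie in a subspace `U`. -/

set_option autoImplicit false

namespace Pool.Agent.K4H71.RL

open Finset Submodule Module

theorem amgm {E : Type*} [Fintype E] [DecidableEq E] (l : Finset E → ℝ) (hl : ∀ J, 0 ≤ l J)
    (hl1 : ∑ J, l J = 1) (A : Finset E) (T : Finset E → Finset E) (hT : ∀ J, T J ⊆ A)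
    (hc : ∀ e ∈ A, ∑ J, l J * (if e ∈ T J then 1 else 0) ≤ 1 / 2) (t : E → ℝ)
    (h0 : ∀ e ∈ A, 0 ≤ t e) (h1 : ∀ e ∈ A, t e ≤ 1) :
    ∏ e ∈ A, t e ≤ ∑ J, l J * ∏ e ∈ T J, t e ^ 2 := by
  classical
  by_cases hz : ∃ e ∈ A, t e = 0
  · obtain ⟨e, he, hte⟩ := hz
    rw [Finset.prod_eq_zero he hte]
    refine Finset.sum_nonneg fun J _ => mul_nonneg (hl J) (Finset.prod_nonneg fun e _ => sq_nonneg _)
  · push Not at hz
    have hpos : ∀ e ∈ A, 0 < t e := fun e he => lt_of_le_of_ne (h0 e he) (Ne.symm (hz e he))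
    have h2 := Real.geom_mean_le_arith_mean_weighted Finset.univ l
      (fun J => ∏ e ∈ T J, t e ^ 2) (fun J _ => hl J) hl1
      (fun J _ => Finset.prod_nonneg fun e _ => sq_nonneg _)
    refine le_trans ?_ h2
    have h3 : ∀ J, (∏ e ∈ T J, t e ^ 2) ^ l J =
        Real.exp (l J * ∑ e ∈ A, (if e ∈ T J then 1 else 0) * (2 * Real.log (t e))) := by
      intro J
      have h4 : 0 < ∏ e ∈ T J, t e ^ 2 :=
        Finset.prod_pos fun e he => pow_pos (hpos e (hT J he)) 2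
      rw [Real.rpow_def_of_pos h4, Real.log_prod (fun e he => (pow_pos (hpos e (hT J he)) 2).ne')]
      congr 1
      rw [mul_comm]
      congr 1
      simp only [ite_mul, one_mul, zero_mul]
      rw [← Finset.sum_filter]
      have h5 : A.filter (fun e => e ∈ T J) = T J := by
        ext e
        simp only [Finset.mem_filter, and_iff_right_iff_imp]
        exact fun h => hT J h
      rw [h5]
      refine Finset.sum_congr rfl fun e _ => ?_
      rw [Real.log_pow]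
      norm_num
    have h6 : ∏ J, (∏ e ∈ T J, t e ^ 2) ^ l J =
        Real.exp (∑ e ∈ A, (∑ J, l J * (if e ∈ T J then 1 else 0)) * (2 * Real.log (t e))) := by
      rw [Finset.prod_congr rfl (fun J _ => h3 J), ← Real.exp_sum]
      congr 1
      simp_rw [Finset.mul_sum, Finset.sum_mul]
      rw [Finset.sum_comm]
      refine Finset.sum_congr rfl fun e _ => Finset.sum_congr rfl fun J _ => ?_
      ring
    rw [h6]
    have h7 : ∏ e ∈ A, t e = Real.exp (∑ e ∈ A, Real.log (t e)) := by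
      rw [Real.exp_sum]
      exact Finset.prod_congr rfl fun e he => (Real.exp_log (hpos e he)).symm
    rw [h7]
    refine Real.exp_le_exp.2 (Finset.sum_le_sum fun e he => ?_)
    have h8 : Real.log (t e) ≤ 0 := Real.log_nonpos (h0 e he) (h1 e he)
    have h9 := hc e he
    nlinarith

variable {F : Type*} [Field F] {W : Type*} [AddCommGroup W] [Module F W]

theorem char_sum {V ι : Type*} [AddCommGroup V] (χ : AddChar V ℂ) (s : Finset ι) (f : ι → V) :
    χ (∑ i ∈ s, f i) = ∏ i ∈ s, χ (f i) := by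
  classical
  induction s using Finset.induction_on with
  | empty => simp
  | insert a s ha ih => rw [Finset.sum_insert ha, Finset.prod_insert ha, AddChar.map_add_eq_mul, ih]

/-- `x ⊗ w` -/
def tens (n : ℕ) (w : W) : (Fin n → F) →+ (Fin n → W) where
  toFun x := fun i => x i • w
  map_zero' := by
    funext i
    simp
  map_add' x y := by
    funext i
    simp [add_smul]

theorem tens_apply (n : ℕ) (w : W) (x : Fin n → F) (i : Fin n) : tens n w x i = x i • w := rfl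

theorem parseval {V X : Type*} [AddCommGroup V] [Fintype V] [Fintype X]
    (Ψ : X → V) (hΨ : Function.Injective Ψ) (H : X → ℂ) :
    ∑ χ : AddChar V ℂ, ‖∑ x, H x * χ (Ψ x)‖ ^ 2 = Fintype.card V * ∑ x, ‖H x‖ ^ 2 := by
  classical
  have h1 : ∀ χ : AddChar V ℂ, ((‖∑ x, H x * χ (Ψ x)‖ ^ 2 : ℝ) : ℂ) =
      ∑ x, ∑ y, H x * (starRingEnd ℂ) (H y) * χ (Ψ x - Ψ y) := by
    intro χ
    have : ((‖∑ x, H x * χ (Ψ x)‖ ^ 2 : ℝ) : ℂ) =
        (∑ x, H x * χ (Ψ x)) * (starRingEnd ℂ) (∑ x, H x * χ (Ψ x)) := by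
      rw [Complex.mul_conj, Complex.normSq_eq_norm_sq]
    rw [this, map_sum, Finset.sum_mul_sum]
    refine Finset.sum_congr rfl fun x _ => Finset.sum_congr rfl fun y _ => ?_
    rw [map_mul, sub_eq_add_neg, AddChar.map_add_eq_mul, AddChar.map_neg_eq_conj]
    ring
  have h2 : ((∑ χ : AddChar V ℂ, ‖∑ x, H x * χ (Ψ x)‖ ^ 2 : ℝ) : ℂ) =
      ((Fintype.card V * ∑ x, ‖H x‖ ^ 2 : ℝ) : ℂ) := by
    rw [Complex.ofReal_sum, Finset.sum_congr rfl (fun χ _ => h1 χ), Finset.sum_comm]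
    push_cast
    rw [Finset.mul_sum]
    refine Finset.sum_congr rfl fun x _ => ?_
    rw [Finset.sum_comm]
    have h3 : ∀ y, ∑ χ : AddChar V ℂ, H x * (starRingEnd ℂ) (H y) * χ (Ψ x - Ψ y) =
        if y = x then (Fintype.card V : ℂ) * ((‖H x‖ : ℂ) ^ 2) else 0 := by
      intro y
      rw [← Finset.mul_sum, AddChar.sum_apply_eq_ite]
      by_cases hy : y = x
      · subst hy
        simp only [sub_self, if_true]
        rw [Complex.mul_conj, Complex.normSq_eq_norm_sq]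
        push_cast
        ring
      · rw [if_neg hy, if_neg, mul_zero]
        rw [sub_eq_zero]
        intro h
        exact hy (hΨ h).symm
    rw [Finset.sum_congr rfl (fun y _ => h3 y)]
    simp
  exact_mod_cast h2

theorem indic {V : Type*} [AddCommGroup V] [Fintype V] [DecidableEq V] (v b : V) :
    (if v = b then (1 : ℂ) else 0) = (Fintype.card V : ℂ)⁻¹ * ∑ χ : AddChar V ℂ, χ (v - b) := by
  rw [AddChar.sum_apply_eq_ite]
  have : (Fintype.card V : ℂ) ≠ 0 := by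
    have : 0 < Fintype.card V := Fintype.card_pos_iff.2 ⟨0⟩
    exact_mod_cast this.ne'
  by_cases h : v = b
  · subst h
    simp [this]
  · rw [if_neg h, if_neg (by rwa [sub_eq_zero]), mul_zero]

section

variable {n : ℕ} {E : Type*} [Fintype E] [DecidableEq E] [Fintype F] [Fintype W] [DecidableEq W]

theorem prod_char (w : E → W) (S : Finset E) (h : (Fin n → F) → ℂ)
    (χ : AddChar (Fin n → W) ℂ) :
    ∑ x : {e // e ∈ S} → (Fin n → F), (∏ e, h (x e)) * χ (∑ e : {e // e ∈ S}, tens n (w e) (x e)) =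
      ∏ e ∈ S, ∑ g, h g * χ (tens n (w e) g) := by
  classical
  rw [← Finset.prod_coe_sort S (fun e => ∑ g, h g * χ (tens n (w e) g)), Finset.prod_univ_sum,
    Fintype.piFinset_univ]
  refine Finset.sum_congr rfl fun x _ => ?_
  rw [char_sum, ← Finset.prod_mul_distrib]

theorem tens_inj (w : E → W) (S : Finset E) (hS : LinearIndepOn F w (S : Set E)) :
    Function.Injective (fun x : {e // e ∈ S} → (Fin n → F) => ∑ e : {e // e ∈ S}, tens n (w e) (x e)) := by
  classical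
  intro x y hxy
  have h1 : ∀ i, ∑ e : {e // e ∈ S}, (x e i - y e i) • w e = 0 := by
    intro i
    have := congrFun hxy i
    simp only [Finset.sum_apply, tens_apply] at this
    simp only [sub_smul, Finset.sum_sub_distrib, this, sub_self]
  have h2 : LinearIndependent F (fun e : {e // e ∈ S} => w e) := hS
  rw [Fintype.linearIndependent_iff] at h2
  funext e i
  exact sub_eq_zero.1 (h2 _ (h1 i) e)

theorem inner_bound (w : E → W) (A : Finset E) (l : Finset E → ℝ) (hl : ∀ J, 0 ≤ l J)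
    (hl1 : ∑ J, l J = 1) {c : ℕ}
    (hB : ∀ J, l J ≠ 0 → LinearIndepOn F w ((J ∩ A : Finset E) : Set E) ∧ (J ∩ A).card = c)
    (hcov : ∀ e ∈ A, om l e ≤ 1 / 2) (h : (Fin n → F) → ℂ) {P : ℝ} (hP : 0 < P)
    (h2 : ∑ x, ‖h x‖ ^ 2 ≤ P) (h3 : ∀ χ : AddChar (Fin n → F) ℂ, ‖∑ x, h x * χ x‖ ≤ P)
    (b : Fin n → W) :
    ‖∑ y : {e // e ∈ A} → (Fin n → F), if ∑ e : {e // e ∈ A}, tens n (w e) (y e) = b then ∏ e, h (y e) else 0‖ *
      P ^ c ≤ P ^ A.card := by
  classical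
  set N : ℝ := ((Fintype.card (Fin n → W) : ℕ) : ℝ) with hN
  have hN0 : 0 < N := by
    have : 0 < Fintype.card (Fin n → W) := Fintype.card_pos_iff.2 ⟨0⟩
    rw [hN]
    exact_mod_cast this
  set t : AddChar (Fin n → W) ℂ → E → ℝ := fun χ e => ‖∑ g, h g * χ (tens n (w e) g)‖ / P with ht
  have ht0 : ∀ χ e, 0 ≤ t χ e := fun χ e => by positivity
  have ht1 : ∀ χ e, t χ e ≤ 1 := by
    intro χ e
    rw [ht, div_le_one hP]
    have := h3 (χ.compAddMonoidHom (tens n (w e)))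
    simpa using this
  have e1 : (∑ y : {e // e ∈ A} → (Fin n → F),
      if ∑ e : {e // e ∈ A}, tens n (w e) (y e) = b then ∏ e, h (y e) else 0) =
      ((N : ℝ) : ℂ)⁻¹ * ∑ χ : AddChar (Fin n → W) ℂ, χ (-b) * ∏ e ∈ A, ∑ g, h g * χ (tens n (w e) g) := by
    have h4 : ∀ y : {e // e ∈ A} → (Fin n → F),
        (if ∑ e : {e // e ∈ A}, tens n (w e) (y e) = b then ∏ e, h (y e) else 0) =
        ((N : ℝ) : ℂ)⁻¹ * ∑ χ : AddChar (Fin n → W) ℂ, χ (-b) * ((∏ e, h (y e)) *
          χ (∑ e : {e // e ∈ A}, tens n (w e) (y e))) := by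
      intro y
      have h5 := indic (∑ e : {e // e ∈ A}, tens n (w e) (y e)) b
      have h6 : (if ∑ e : {e // e ∈ A}, tens n (w e) (y e) = b then ∏ e, h (y e) else 0) =
          (∏ e, h (y e)) * (if ∑ e : {e // e ∈ A}, tens n (w e) (y e) = b then (1 : ℂ) else 0) := by
        split_ifs <;> simp
      rw [h6, h5, hN, Complex.ofReal_natCast]
      rw [mul_left_comm, Finset.mul_sum]
      congr 1
      refine Finset.sum_congr rfl fun χ _ => ?_
      rw [sub_eq_add_neg, AddChar.map_add_eq_mul]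
      ring
    rw [Finset.sum_congr rfl (fun y _ => h4 y), ← Finset.mul_sum, Finset.sum_comm]
    congr 1
    refine Finset.sum_congr rfl fun χ _ => ?_
    rw [← Finset.mul_sum, prod_char]
  have e2 : ‖∑ y : {e // e ∈ A} → (Fin n → F),
      if ∑ e : {e // e ∈ A}, tens n (w e) (y e) = b then ∏ e, h (y e) else 0‖ ≤
      N⁻¹ * ∑ χ : AddChar (Fin n → W) ℂ, P ^ A.card * ∏ e ∈ A, t χ e := by
    rw [e1, norm_mul, norm_inv, Complex.norm_real, Real.norm_of_nonneg hN0.le]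
    refine mul_le_mul_of_nonneg_left ?_ (by positivity)
    refine (norm_sum_le _ _).trans (Finset.sum_le_sum fun χ _ => ?_)
    rw [norm_mul, AddChar.norm_apply, one_mul, norm_prod]
    refine le_of_eq ?_
    rw [← Finset.prod_const, ← Finset.prod_mul_distrib]
    refine Finset.prod_congr rfl fun e _ => ?_
    rw [ht]
    field_simp
  have e3 : ∀ J, l J ≠ 0 → N⁻¹ * ∑ χ : AddChar (Fin n → W) ℂ, ∏ e ∈ J ∩ A, t χ e ^ 2 ≤
      (P ^ c)⁻¹ := by
    intro J hJ
    obtain ⟨hi, hcard⟩ := hB J hJ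
    have h5 := parseval (fun x : {e // e ∈ J ∩ A} → (Fin n → F) => ∑ e : {e // e ∈ J ∩ A}, tens n (w e) (x e))
      (tens_inj w (J ∩ A) hi) (fun x => ∏ e, h (x e))
    simp_rw [prod_char] at h5
    have h6 : ∑ x : {e // e ∈ J ∩ A} → (Fin n → F), ‖∏ e, h (x e)‖ ^ 2 ≤ P ^ c := by
      have h7 : ∑ x : {e // e ∈ J ∩ A} → (Fin n → F), ‖∏ e, h (x e)‖ ^ 2 =
          ∏ _e : {e // e ∈ J ∩ A}, ∑ g, ‖h g‖ ^ 2 := by
        rw [Finset.prod_univ_sum, Fintype.piFinset_univ]
        refine Finset.sum_congr rfl fun x _ => ?_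
        rw [norm_prod, Finset.prod_pow]
      rw [h7, Finset.prod_const, Finset.card_univ, Fintype.card_coe, hcard]
      exact pow_le_pow_left₀ (Finset.sum_nonneg fun _ _ => sq_nonneg _) h2 c
    have h8 : ∀ χ : AddChar (Fin n → W) ℂ, ∏ e ∈ J ∩ A, t χ e ^ 2 =
        (P ^ c)⁻¹ * (P ^ c)⁻¹ * ‖∏ e ∈ J ∩ A, ∑ g, h g * χ (tens n (w e) g)‖ ^ 2 := by
      intro χ
      rw [norm_prod, ← Finset.prod_pow]
      have h9 : ∀ e, t χ e ^ 2 = (P⁻¹ * P⁻¹) * ‖∑ g, h g * χ (tens n (w e) g)‖ ^ 2 := by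
        intro e
        rw [ht]
        field_simp
      rw [Finset.prod_congr rfl (fun e _ => h9 e), Finset.prod_mul_distrib, Finset.prod_const, hcard]
      rw [mul_pow, inv_pow]
    simp_rw [h8]
    rw [← Finset.mul_sum, h5, ← hN]
    have h10 : N⁻¹ * ((P ^ c)⁻¹ * (P ^ c)⁻¹ * (N * ∑ x : {e // e ∈ J ∩ A} → (Fin n → F),
        ‖∏ e, h (x e)‖ ^ 2)) = (P ^ c)⁻¹ * (P ^ c)⁻¹ * ∑ x : {e // e ∈ J ∩ A} → (Fin n → F),
        ‖∏ e, h (x e)‖ ^ 2 := by
      field_simp
    rw [h10]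
    calc (P ^ c)⁻¹ * (P ^ c)⁻¹ * ∑ x : {e // e ∈ J ∩ A} → (Fin n → F), ‖∏ e, h (x e)‖ ^ 2
        ≤ (P ^ c)⁻¹ * (P ^ c)⁻¹ * P ^ c := by gcongr
      _ = (P ^ c)⁻¹ := by field_simp
  have e4 : ∀ χ : AddChar (Fin n → W) ℂ, ∏ e ∈ A, t χ e ≤ ∑ J, l J * ∏ e ∈ J ∩ A, t χ e ^ 2 := by
    intro χ
    refine amgm l hl hl1 A (fun J => J ∩ A) (fun J => Finset.inter_subset_right) ?_ (t χ)
      (fun e _ => ht0 χ e) (fun e _ => ht1 χ e)
    intro e he
    have := hcov e he
    unfold om at this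
    refine le_trans (le_of_eq ?_) this
    refine Finset.sum_congr rfl fun J _ => ?_
    simp [he]
  have e5 : N⁻¹ * ∑ χ : AddChar (Fin n → W) ℂ, P ^ A.card * ∏ e ∈ A, t χ e ≤
      P ^ A.card * (P ^ c)⁻¹ := by
    calc N⁻¹ * ∑ χ : AddChar (Fin n → W) ℂ, P ^ A.card * ∏ e ∈ A, t χ e
        ≤ N⁻¹ * ∑ χ : AddChar (Fin n → W) ℂ, P ^ A.card * ∑ J, l J * ∏ e ∈ J ∩ A, t χ e ^ 2 := by
          gcongr with χ _
          exact e4 χ
      _ = P ^ A.card * ∑ J, l J * (N⁻¹ * ∑ χ : AddChar (Fin n → W) ℂ, ∏ e ∈ J ∩ A, t χ e ^ 2) := by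
          rw [← Finset.mul_sum, Finset.sum_comm, mul_left_comm]
          congr 1
          rw [Finset.mul_sum]
          refine Finset.sum_congr rfl fun J _ => ?_
          rw [← Finset.mul_sum]
          ring
      _ ≤ P ^ A.card * ∑ J, l J * (P ^ c)⁻¹ := by
          refine mul_le_mul_of_nonneg_left (Finset.sum_le_sum fun J _ => ?_) (by positivity)
          by_cases hJ : l J = 0
          · simp [hJ]
          · exact mul_le_mul_of_nonneg_left (e3 J hJ) (hl J)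
      _ = P ^ A.card * (P ^ c)⁻¹ := by
          rw [← Finset.sum_mul, hl1, one_mul]
  have e6 := e2.trans e5
  have hPc : 0 < P ^ c := by positivity
  calc _ ≤ (P ^ A.card * (P ^ c)⁻¹) * P ^ c := by gcongr
    _ = P ^ A.card := by field_simp

end

end Pool.Agent.K4H71.RL
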