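import Pool.Agent.K4H71.RL.Asm

/-! The choice of the order of the moment. -/

set_option autoImplicit false

namespace Pool.Agent.K4H71.RL

open MeasureTheory Finset Filter Topology

theorem P0_le {k : ℕ} (hk : 1 ≤ k) : P0 k ≤ Real.exp (4 * (k : ℝ) ^ 2) := by
  have hk1 : (1 : ℝ) ≤ k := by exact_mod_cast hk
  have h1 : (k : ℝ) + 1 ≤ Real.exp ((k : ℝ) ^ 2) := by
    refine (Real.add_one_le_exp (k : ℝ)).trans ?_
    apply Real.exp_le_exp.2
    nlinarith
  have h2 : (k : ℝ) ^ k ≤ Real.exp ((k : ℝ) ^ 2) := by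
    have h3 : (k : ℝ) ≤ Real.exp k := by
      have := Real.add_one_le_exp (k : ℝ)
      linarith
    calc (k : ℝ) ^ k ≤ (Real.exp k) ^ k := pow_le_pow_left₀ (by positivity) h3 k
      _ = Real.exp ((k : ℝ) ^ 2) := by
          rw [← Real.exp_nat_mul]
          congr 1
          ring
  have h3 : (3 : ℝ) ^ (k * k) ≤ Real.exp (2 * (k : ℝ) ^ 2) := by
    have h4 : (3 : ℝ) ≤ Real.exp 2 := by
      have := Real.add_one_le_exp (2 : ℝ)
      linarith
    calc (3 : ℝ) ^ (k * k) ≤ (Real.exp 2) ^ (k * k) := pow_le_pow_left₀ (by norm_num) h4 _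
      _ = _ := by
          rw [← Real.exp_nat_mul]
          congr 1
          push_cast
          ring
  rw [P0]
  calc ((k : ℝ) + 1) * (k : ℝ) ^ k * 3 ^ (k * k)
      ≤ Real.exp ((k : ℝ) ^ 2) * Real.exp ((k : ℝ) ^ 2) * Real.exp (2 * (k : ℝ) ^ 2) := by
        refine mul_le_mul (mul_le_mul h1 h2 (by positivity) (Real.exp_pos _).le) h3
          (by positivity) (by positivity)
    _ = _ := by
        rw [← Real.exp_add, ← Real.exp_add]
        congr 1
        ring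

theorem final_num {lam T : ℝ} (hlam0 : 0 < lam) (hlam : lam ≤ 1 / 256) (hT : 1 ≤ T)
    {H0 : ℕ} (hH0 : (4 * T) ^ 4 ≤ H0) {n k : ℕ} (hk : 1 ≤ k) (hkn : 6 * k + 4 ≤ n)
    (hkL : 4 * (1 + Real.log H0) * k ≤ lam * n / 2) (hlog : Real.log 2 ≤ lam * n / 2) :
    P0 k * ((2 * Real.exp (-(2 * lam * n))) ^ k * ((H0 ^ k : ℕ) : ℝ) ^ (3 * k + 1) +
      4 * (4 * T) ^ (k * n) * ((((H0 ^ k : ℕ) : ℝ)) ^ (n - (3 * k + 2)))⁻¹) ≤
      5 * Real.exp (-(lam * k * n)) := by
  have hk1 : (1 : ℝ) ≤ k := by exact_mod_cast hk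
  have hn0 : (0 : ℝ) < n := by
    have : 0 < n := by omega
    exact_mod_cast this
  have hH1 : (1 : ℝ) ≤ H0 := by
    refine le_trans ?_ hH0
    exact one_le_pow₀ (by linarith)
  have hL0 : 0 ≤ Real.log H0 := Real.log_nonneg hH1
  set L := Real.log H0 with hL
  have hHL : (H0 : ℝ) = Real.exp L := (Real.exp_log (by linarith)).symm
  have hP := P0_le hk
  have hP00 : 0 ≤ P0 k := by
    unfold P0
    positivity
  have h4k : 4 * (k : ℝ) ≤ lam * n / 2 := by
    nlinarith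
  -- first term
  have t1 : P0 k * ((2 * Real.exp (-(2 * lam * n))) ^ k * ((H0 ^ k : ℕ) : ℝ) ^ (3 * k + 1)) ≤
      Real.exp (-(lam * k * n)) := by
    have e1 : (2 * Real.exp (-(2 * lam * n))) ^ k = Real.exp (k * (Real.log 2 - 2 * lam * n)) := by
      have : (2 : ℝ) * Real.exp (-(2 * lam * n)) = Real.exp (Real.log 2 - 2 * lam * n) := by
        rw [sub_eq_add_neg, Real.exp_add, Real.exp_log (by norm_num)]
      rw [this, ← Real.exp_nat_mul]
    have e2 : ((H0 ^ k : ℕ) : ℝ) ^ (3 * k + 1) ≤ Real.exp (4 * (k : ℝ) ^ 2 * L) := by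
      rw [Nat.cast_pow, ← pow_mul, hHL, ← Real.exp_nat_mul]
      apply Real.exp_le_exp.2
      refine mul_le_mul_of_nonneg_right ?_ hL0
      push_cast
      nlinarith
    calc P0 k * ((2 * Real.exp (-(2 * lam * n))) ^ k * ((H0 ^ k : ℕ) : ℝ) ^ (3 * k + 1))
        ≤ Real.exp (4 * (k : ℝ) ^ 2) * (Real.exp (k * (Real.log 2 - 2 * lam * n)) *
          Real.exp (4 * (k : ℝ) ^ 2 * L)) := by
          rw [e1]
          refine mul_le_mul hP ?_ (by positivity) (Real.exp_pos _).le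
          exact mul_le_mul_of_nonneg_left e2 (Real.exp_pos _).le
      _ = Real.exp (k * (4 * (1 + L) * k + Real.log 2 - 2 * lam * n)) := by
          rw [← Real.exp_add, ← Real.exp_add]
          congr 1
          ring
      _ ≤ Real.exp (-(lam * k * n)) := by
          apply Real.exp_le_exp.2
          have h5 : 4 * (1 + L) * k + Real.log 2 - 2 * lam * n ≤ -(lam * n) := by linarith
          have h6 := mul_le_mul_of_nonneg_left h5 (by positivity : (0 : ℝ) ≤ k)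
          linarith
  -- second term
  have t2 : P0 k * (4 * (4 * T) ^ (k * n) * ((((H0 ^ k : ℕ) : ℝ)) ^ (n - (3 * k + 2)))⁻¹) ≤
      4 * Real.exp (-(lam * k * n)) := by
    have h4T : 1 ≤ 4 * T := by linarith
    have e1 : (4 * T) ^ (k * n) * (4 * T) ^ (k * n) ≤ (((H0 ^ k : ℕ) : ℝ)) ^ (n - (3 * k + 2)) := by
      rw [Nat.cast_pow, ← pow_mul, ← pow_add]
      calc (4 * T) ^ (k * n + k * n) ≤ (4 * T) ^ (4 * (k * (n - (3 * k + 2)))) := by
            refine pow_le_pow_right₀ h4T ?_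
            have : n ≤ 2 * (n - (3 * k + 2)) := by omega
            calc k * n + k * n = k * n * 2 := by ring
              _ ≤ k * (2 * (n - (3 * k + 2))) * 2 :=
                  Nat.mul_le_mul_right _ (Nat.mul_le_mul_left _ this)
              _ = _ := by ring
        _ = ((4 * T) ^ 4) ^ (k * (n - (3 * k + 2))) := by rw [pow_mul]
        _ ≤ (H0 : ℝ) ^ (k * (n - (3 * k + 2))) := pow_le_pow_left₀ (by positivity) hH0 _
    have hpos : (0 : ℝ) < (4 * T) ^ (k * n) := by positivity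
    have e2 : (4 * T) ^ (k * n) * ((((H0 ^ k : ℕ) : ℝ)) ^ (n - (3 * k + 2)))⁻¹ ≤
        ((4 * T) ^ (k * n))⁻¹ := by
      have h5 := inv_anti₀ (by positivity) e1
      calc (4 * T) ^ (k * n) * ((((H0 ^ k : ℕ) : ℝ)) ^ (n - (3 * k + 2)))⁻¹
          ≤ (4 * T) ^ (k * n) * ((4 * T) ^ (k * n) * (4 * T) ^ (k * n))⁻¹ :=
            mul_le_mul_of_nonneg_left h5 hpos.le
        _ = _ := by
            rw [mul_inv, ← mul_assoc, mul_inv_cancel₀ hpos.ne', one_mul]
    have e3 : ((4 * T) ^ (k * n))⁻¹ ≤ Real.exp (-((k : ℝ) * n)) := by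
      rw [Real.exp_neg]
      refine inv_anti₀ (Real.exp_pos _) ?_
      have h5 : Real.exp 1 ≤ 4 * T := by
        have := Real.exp_one_lt_d9
        linarith
      calc Real.exp ((k : ℝ) * n) = (Real.exp 1) ^ (k * n) := by
            rw [← Real.exp_nat_mul]
            congr 1
            push_cast
            ring
        _ ≤ (4 * T) ^ (k * n) := pow_le_pow_left₀ (Real.exp_pos _).le h5 _
    calc P0 k * (4 * (4 * T) ^ (k * n) * ((((H0 ^ k : ℕ) : ℝ)) ^ (n - (3 * k + 2)))⁻¹)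
        = 4 * (P0 k * ((4 * T) ^ (k * n) * ((((H0 ^ k : ℕ) : ℝ)) ^ (n - (3 * k + 2)))⁻¹)) := by ring
      _ ≤ 4 * (Real.exp (4 * (k : ℝ) ^ 2) * Real.exp (-((k : ℝ) * n))) := by
          refine mul_le_mul_of_nonneg_left ?_ (by norm_num)
          exact mul_le_mul hP (e2.trans e3) (by positivity) (Real.exp_pos _).le
      _ = 4 * Real.exp (k * (4 * k - n)) := by
          rw [← Real.exp_add]
          congr 2
          ring
      _ ≤ 4 * Real.exp (-(lam * k * n)) := by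
          refine mul_le_mul_of_nonneg_left ?_ (by norm_num)
          apply Real.exp_le_exp.2
          have h5 : 4 * (k : ℝ) - n ≤ -(lam * n) := by nlinarith
          have h6 := mul_le_mul_of_nonneg_left h5 (by positivity : (0 : ℝ) ≤ k)
          linarith
  rw [mul_add]
  linarith

open Classical in
theorem nadm_mono {n p : ℕ} [Fact p.Prime] {ρ σ : ℝ} (h : ρ ≤ σ) : nadm n p σ ≤ nadm n p ρ := by
  rw [nadm, nadm]
  refine Finset.card_le_card fun a ha => ?_
  rw [Finset.mem_filter] at ha ⊢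
  exact ⟨ha.1, fun x hx hax => h.trans (ha.2 x hx hax)⟩

/-- the main estimate -/
theorem rare {δ : ℝ} (hδ : 0 < δ) : ∃ c : ℝ, 0 < c ∧ ∃ n0 : ℕ, ∀ n : ℕ, n0 ≤ n → ∃ p0 : ℕ,
    ∀ p : ℕ, ∀ _ : Fact p.Prime, p0 ≤ p →
      (nadm n p (RR n δ * (p : ℝ) ^ ((n : ℝ)⁻¹)) : ℝ) ≤ Real.exp (-(c * n ^ 2)) * p ^ n := by
  set δ' : ℝ := min δ 1 with hδ'
  have hδ'0 : 0 < δ' := lt_min hδ one_pos
  have hδ'1 : δ' ≤ 1 := min_le_right _ _
  set lam : ℝ := min (Real.log (1 + δ') / 32) (1 / 256) with hlamd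
  have hl : 0 < Real.log (1 + δ') := Real.log_pos (by linarith)
  have hlam0 : 0 < lam := lt_min (by positivity) (by norm_num)
  have hlam1 : lam ≤ Real.log (1 + δ') / 32 := min_le_left _ _
  have hlam : lam ≤ 1 / 256 := min_le_right _ _
  have hsl0 : 0 < √lam := Real.sqrt_pos.2 hlam0
  set T : ℝ := 5 / (√lam * lam) with hTd
  have hsl : √lam ≤ 1 / 16 := by
    have h1 : √lam ≤ √((1 / 16) ^ 2) := by
      refine Real.sqrt_le_sqrt ?_
      norm_num
      linarith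
    rwa [Real.sqrt_sq (by norm_num)] at h1
  have hT1 : 1 ≤ T := by
    rw [hTd, le_div_iff₀ (by positivity), one_mul]
    nlinarith
  set H0 : ℕ := ⌈(4 * T) ^ 4⌉₊ with hH0d
  have hH0 : (4 * T) ^ 4 ≤ (H0 : ℝ) := Nat.le_ceil _
  have hH1 : (1 : ℝ) ≤ H0 := le_trans (one_le_pow₀ (by linarith)) hH0
  have hL0 : 0 ≤ Real.log H0 := Real.log_nonneg hH1
  set e1 : ℝ := lam / (16 * (1 + Real.log H0)) with he1d
  have he10 : 0 < e1 := by positivity
  have he1 : 16 * (1 + Real.log H0) * e1 = lam := by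
    rw [he1d]
    field_simp
  have he1s : e1 ≤ 1 / 4096 := by
    have : 16 * 1 * e1 ≤ 16 * (1 + Real.log H0) * e1 := by
      refine mul_le_mul_of_nonneg_right ?_ he10.le
      linarith
    linarith
  set c : ℝ := lam * e1 / 2 with hcd
  have hc0 : 0 < c := by positivity
  have hev : ∀ᶠ n : ℕ in atTop, 2 ≤ e1 * n ∧ Real.log 2 ≤ lam * n / 2 ∧
      Real.log 6 ≤ c * n ^ 2 ∧ 6 * Real.exp (8 * lam * n) ≤ Vb n (RR n δ') ∧
      2 * √2 * n * Real.exp (-(((n : ℝ) / 4) ^ 2 / (2 * n))) ≤ 1 / 2 * Real.exp (-(4 * lam * n)) := by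
    have a1 := (tendsto_natCast_atTop_atTop (R := ℝ)).const_mul_atTop he10 |>.eventually_ge_atTop 2
    have a2 := ((tendsto_natCast_atTop_atTop (R := ℝ)).const_mul_atTop hlam0).atTop_div_const
      (by norm_num : (0 : ℝ) < 2) |>.eventually_ge_atTop (Real.log 2)
    have a3 := (((tendsto_pow_atTop (α := ℝ) (n := 2) (by norm_num)).comp
      (tendsto_natCast_atTop_atTop (R := ℝ))).const_mul_atTop hc0).eventually_ge_atTop (Real.log 6)
    filter_upwards [a1, a2, a3, vol_big hδ'0 hlam1, tau_small hlam] with n b1 b2 b3 b4 b5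
    exact ⟨b1, b2, b3, b4, b5⟩
  obtain ⟨n0, hn0⟩ := eventually_atTop.1 (hev.and (eventually_ge_atTop 10))
  refine ⟨c, hc0, n0, fun n hn => ?_⟩
  obtain ⟨⟨b1, b2, b3, b4, b5⟩, hn10⟩ := hn0 n hn
  have hnr : (10 : ℝ) ≤ n := by exact_mod_cast hn10
  set k : ℕ := 2 * ⌊e1 * n⌋₊ with hkd
  have hf1 : (⌊e1 * n⌋₊ : ℝ) ≤ e1 * n := Nat.floor_le (by positivity)
  have hf2 : e1 * n < ⌊e1 * n⌋₊ + 1 := Nat.lt_floor_add_one _
  have hkr : (k : ℝ) = 2 * (⌊e1 * n⌋₊ : ℝ) := by
    rw [hkd]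
    push_cast
    ring
  have hk1 : 1 ≤ k := by
    have h1 : (1 : ℝ) ≤ k := by
      rw [hkr]
      linarith
    exact_mod_cast h1
  have hke : Even k := ⟨⌊e1 * n⌋₊, by rw [hkd]; ring⟩
  have hkn : 6 * k + 4 ≤ n := by
    have h1 : ((6 * k + 4 : ℕ) : ℝ) ≤ n := by
      push_cast
      rw [hkr]
      have : e1 * n ≤ 1 / 4096 * n := mul_le_mul_of_nonneg_right he1s (by linarith)
      linarith
    exact_mod_cast h1
  have hkL : 4 * (1 + Real.log H0) * k ≤ lam * n / 2 := by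
    rw [hkr]
    have h1 : 4 * (1 + Real.log H0) * (2 * (⌊e1 * n⌋₊ : ℝ)) ≤
        4 * (1 + Real.log H0) * (2 * (e1 * n)) := by
      refine mul_le_mul_of_nonneg_left ?_ (by positivity)
      linarith
    refine h1.trans (le_of_eq ?_)
    calc 4 * (1 + Real.log H0) * (2 * (e1 * n)) = (16 * (1 + Real.log H0) * e1) * n / 2 := by ring
      _ = _ := by rw [he1]
  have hkc : e1 * n ≤ k := by
    rw [hkr]
    linarith
  have hPr : Pr n k (H0 ^ k) δ' lam T := by
    refine ⟨hδ'0, hδ'1, hlam0, hlam, hTd, hk1, by omega, b4, b5, ?_⟩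
    have : 1 ≤ H0 := by exact_mod_cast hH1
    exact Nat.one_le_pow _ _ this
  obtain ⟨p0, hp0⟩ := one_n hPr hke (show 0 < Real.exp (-(n : ℝ) ^ 2) by positivity)
  refine ⟨p0, fun p hpf hp => ?_⟩
  have hpp : (0 : ℝ) < p := by exact_mod_cast (Fact.out : p.Prime).pos
  have h1 := hp0 p hpf hp
  have h2 := final_num hlam0 hlam hT1 hH0 hk1 hkn hkL b2
  have hmono : (nadm n p (RR n δ * (p : ℝ) ^ ((n : ℝ)⁻¹)) : ℝ) ≤
      nadm n p (RR n δ' * (p : ℝ) ^ ((n : ℝ)⁻¹)) := by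
    have h3 : RR n δ' ≤ RR n δ := by
      rw [RR, RR]
      refine Real.sqrt_le_sqrt ?_
      refine div_le_div_of_nonneg_right ?_ (by positivity)
      refine mul_le_mul_of_nonneg_right ?_ (by linarith)
      have := min_le_left δ 1
      linarith
    exact_mod_cast nadm_mono (mul_le_mul_of_nonneg_right h3 (by positivity))
  refine hmono.trans (h1.trans ?_)
  rw [mul_comm (Real.exp _)]
  refine mul_le_mul_of_nonneg_left ?_ (by positivity)
  have h3 : Real.exp (-(lam * k * n)) ≤ Real.exp (-(2 * (c * n ^ 2))) := by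
    apply Real.exp_le_exp.2
    rw [neg_le_neg_iff]
    have h4 : lam * (e1 * n) * n ≤ lam * k * n := by
      refine mul_le_mul_of_nonneg_right ?_ (by linarith)
      exact mul_le_mul_of_nonneg_left hkc hlam0.le
    refine le_trans (le_of_eq ?_) h4
    rw [hcd]
    ring
  have h5 : Real.exp (-(n : ℝ) ^ 2) ≤ Real.exp (-(2 * (c * n ^ 2))) := by
    apply Real.exp_le_exp.2
    rw [neg_le_neg_iff]
    have h6 : 2 * c ≤ 1 := by
      rw [hcd]
      nlinarith
    nlinarith [sq_nonneg (n : ℝ)]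
  have h7 : 6 * Real.exp (-(c * n ^ 2)) ≤ 1 := by
    have h8 : (6 : ℝ) ≤ Real.exp (c * n ^ 2) := by
      calc (6 : ℝ) = Real.exp (Real.log 6) := (Real.exp_log (by norm_num)).symm
        _ ≤ _ := Real.exp_le_exp.2 b3
    rw [Real.exp_neg, ← div_eq_mul_inv, div_le_one (Real.exp_pos _)]
    exact h8
  have h9 : Real.exp (-(2 * (c * n ^ 2))) = Real.exp (-(c * n ^ 2)) * Real.exp (-(c * n ^ 2)) := by
    rw [← Real.exp_add]
    congr 1
    ring
  calc _ ≤ 5 * Real.exp (-(lam * k * n)) + Real.exp (-(n : ℝ) ^ 2) := by linarith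
    _ ≤ 6 * Real.exp (-(2 * (c * n ^ 2))) := by linarith
    _ = (6 * Real.exp (-(c * n ^ 2))) * Real.exp (-(c * n ^ 2)) := by
        rw [h9]
        ring
    _ ≤ 1 * Real.exp (-(c * n ^ 2)) := mul_le_mul_of_nonneg_right h7 (Real.exp_pos _).le
    _ = _ := one_mul _

end Pool.Agent.K4H71.RL
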