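import Pool.Agent.K4H71.RL.Mix

/-! The outer sum and the inequality for all subspaces. -/

set_option autoImplicit false

namespace Pool.Agent.K4H71.RL

open Finset Submodule Module

variable {F : Type*} [Field F] {W : Type*} [AddCommGroup W] [Module F W]
  {n : ℕ} {E : Type*} [Fintype E] [DecidableEq E] [Fintype F]

/-- extension by zero -/
def ext0 (A : Finset E) (x : {e // e ∉ A} → (Fin n → F)) (e : E) : Fin n → F :=
  if he : e ∉ A then x ⟨e, he⟩ else 0

theorem ext0_sum (A : Finset E) (w : E → W) (x : {e // e ∉ A} → (Fin n → F)) (i : Fin n) :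
    ∑ e : {e // e ∉ A}, x e i • w e = ∑ e ∈ Aᶜ, ext0 A x e i • w e := by
  rw [← Finset.sum_coe_sort Aᶜ (fun e => ext0 A x e i • w e)]
  refine Fintype.sum_equiv (Equiv.subtypeEquivRight (by simp)) _ _ ?_
  intro e
  simp only [Equiv.subtypeEquivRight_apply_coe]
  rw [ext0, dif_pos e.2]

theorem ext0_prod {M : Type*} [CommMonoid M] (A : Finset E) (g : (Fin n → F) → M)
    (x : {e // e ∉ A} → (Fin n → F)) :
    ∏ e : {e // e ∉ A}, g (x e) = ∏ e ∈ Aᶜ, g (ext0 A x e) := by
  rw [← Finset.prod_coe_sort Aᶜ (fun e => g (ext0 A x e))]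
  refine Fintype.prod_equiv (Equiv.subtypeEquivRight (by simp)) _ _ ?_
  intro e
  simp only [Equiv.subtypeEquivRight_apply_coe]
  rw [ext0, dif_pos e.2]

theorem sol_inj (w : E → W) (A J : Finset E) (hJ : LinearIndepOn F w (J : Set E))
    (hspan : span F (w '' ((J ∩ A : Finset E) : Set E)) = span F (w '' (A : Set E)))
    (x y : {e // e ∉ A} → (Fin n → F))
    (hx : ∀ i, ∑ e : {e // e ∉ A}, x e i • w e ∈ span F (w '' (A : Set E)))
    (hy : ∀ i, ∑ e : {e // e ∉ A}, y e i • w e ∈ span F (w '' (A : Set E)))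
    (hxy : ∀ e ∈ Aᶜ \ J, ext0 A x e = ext0 A y e) : x = y := by
  classical
  have hdj : Disjoint ((J ∩ A : Finset E) : Set E) ((J \ A : Finset E) : Set E) := by
    rw [Finset.disjoint_coe]
    exact Finset.disjoint_of_subset_left Finset.inter_subset_right Finset.disjoint_sdiff
  have hun : ((J ∩ A : Finset E) : Set E) ∪ ((J \ A : Finset E) : Set E) = (J : Set E) := by
    rw [← Finset.coe_union, Finset.union_comm, Finset.sdiff_union_inter]
  rw [← hun, linearIndepOn_union_iff hdj] at hJ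
  obtain ⟨-, hJ2, hJ3⟩ := hJ
  rw [hspan] at hJ3
  have key : ∀ i, ∀ e ∈ J \ A, ext0 A x e i - ext0 A y e i = 0 := by
    intro i
    rw [linearIndepOn_finset_iff] at hJ2
    refine hJ2 (fun e => ext0 A x e i - ext0 A y e i) ?_
    have h1 : ∑ e ∈ J \ A, (ext0 A x e i - ext0 A y e i) • w e =
        ∑ e : {e // e ∉ A}, x e i • w e - ∑ e : {e // e ∉ A}, y e i • w e := by
      rw [ext0_sum, ext0_sum, ← Finset.sum_sub_distrib]
      have h2 : J \ A ⊆ Aᶜ := by
        intro e he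
        rw [Finset.mem_compl]
        exact (Finset.mem_sdiff.1 he).2
      rw [← Finset.sum_subset h2]
      · refine Finset.sum_congr rfl fun e _ => ?_
        rw [sub_smul]
      · intro e he1 he2
        rw [hxy e, sub_self]
        rw [Finset.mem_sdiff]
        refine ⟨he1, fun h => he2 (Finset.mem_sdiff.2 ⟨h, Finset.mem_compl.1 he1⟩)⟩
    have h3 : ∑ e ∈ J \ A, (ext0 A x e i - ext0 A y e i) • w e ∈
        span F (w '' ((J \ A : Finset E) : Set E)) :=
      Submodule.sum_mem _ fun e he => Submodule.smul_mem _ _ (subset_span ⟨e, he, rfl⟩)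
    have h4 : ∑ e ∈ J \ A, (ext0 A x e i - ext0 A y e i) • w e ∈ span F (w '' (A : Set E)) := by
      rw [h1]
      exact Submodule.sub_mem _ (hx i) (hy i)
    exact Submodule.disjoint_def.1 hJ3 _ h4 h3
  funext e i
  have h5 : ext0 A x e = x e := by rw [ext0, dif_pos e.2]
  have h6 : ext0 A y e = y e := by rw [ext0, dif_pos e.2]
  by_cases he : (e : E) ∈ J
  · have := key i e (Finset.mem_sdiff.2 ⟨he, e.2⟩)
    rw [h5, h6] at this
    exact sub_eq_zero.1 this
  · have := hxy e (Finset.mem_sdiff.2 ⟨Finset.mem_compl.2 e.2, he⟩)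
    rw [h5, h6] at this
    exact congrFun this i

open Classical in
theorem outer_bound (w : E → W) (A : Finset E) (l : Finset E → ℝ) (hl : ∀ J, 0 ≤ l J)
    (hl1 : ∑ J, l J = 1) {m : ℕ}
    (hB : ∀ J, l J ≠ 0 → LinearIndepOn F w (J : Set E) ∧
      span F (w '' ((J ∩ A : Finset E) : Set E)) = span F (w '' (A : Set E)) ∧ (Aᶜ \ J).card = m)
    (hcov : ∀ e, e ∉ A → 1 / 2 ≤ om l e) (h : (Fin n → F) → ℂ) {P : ℝ}
    (h1 : ∀ x, ‖h x‖ ≤ 1) (h2 : ∑ x, ‖h x‖ ^ 2 ≤ P) :
    (∑ x : {e // e ∉ A} → (Fin n → F),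
      if (∀ i, ∑ e : {e // e ∉ A}, x e i • w e ∈ span F (w '' (A : Set E))) then
        ∏ e, ‖h (x e)‖ else 0) ≤ P ^ m := by
  set Sol : Finset ({e // e ∉ A} → (Fin n → F)) := Finset.univ.filter
    (fun x => ∀ i, ∑ e : {e // e ∉ A}, x e i • w e ∈ span F (w '' (A : Set E))) with hSol
  rw [← Finset.sum_filter, ← hSol]
  have e1 : ∀ x : {e // e ∉ A} → (Fin n → F), ∏ e, ‖h (x e)‖ ≤
      ∑ J, l J * ∏ e ∈ Aᶜ \ J, ‖h (ext0 A x e)‖ ^ 2 := by
    intro x
    rw [ext0_prod A (fun g => ‖h g‖) x]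
    refine amgm l hl hl1 Aᶜ (fun J => Aᶜ \ J) (fun J => Finset.sdiff_subset) ?_ _
      (fun e _ => norm_nonneg _) (fun e _ => h1 _)
    intro e he
    have h3 := hcov e (Finset.mem_compl.1 he)
    have h4 : ∑ J, l J * (if e ∈ Aᶜ \ J then 1 else 0) + om l e = 1 := by
      calc _ = ∑ J, l J := by
            rw [om, ← Finset.sum_add_distrib]
            refine Finset.sum_congr rfl fun J _ => ?_
            by_cases hJ : e ∈ J <;> simp [hJ, Finset.mem_compl.1 he]
        _ = 1 := hl1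
    linarith
  have e2 : ∀ J, l J ≠ 0 → ∑ x ∈ Sol, ∏ e ∈ Aᶜ \ J, ‖h (ext0 A x e)‖ ^ 2 ≤ P ^ m := by
    intro J hJ
    obtain ⟨hJ1, hJ2, hJ3⟩ := hB J hJ
    set r : ({e // e ∉ A} → (Fin n → F)) → ({e // e ∈ Aᶜ \ J} → (Fin n → F)) :=
      fun x e => ext0 A x e with hr
    have hinj : Set.InjOn r (Sol : Set ({e // e ∉ A} → (Fin n → F))) := by
      intro x hx y hy hxy
      refine sol_inj w A J hJ1 hJ2 x y (Finset.mem_filter.1 hx).2 (Finset.mem_filter.1 hy).2 ?_
      intro e he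
      exact congrFun hxy ⟨e, he⟩
    have h5 : ∑ x ∈ Sol, ∏ e ∈ Aᶜ \ J, ‖h (ext0 A x e)‖ ^ 2 =
        ∑ z ∈ Sol.image r, ∏ e, ‖h (z e)‖ ^ 2 := by
      rw [Finset.sum_image hinj]
      refine Finset.sum_congr rfl fun x _ => ?_
      rw [← Finset.prod_coe_sort (Aᶜ \ J) (fun e => ‖h (ext0 A x e)‖ ^ 2)]
    rw [h5]
    calc ∑ z ∈ Sol.image r, ∏ e, ‖h (z e)‖ ^ 2 ≤
        ∑ z : {e // e ∈ Aᶜ \ J} → (Fin n → F), ∏ e, ‖h (z e)‖ ^ 2 :=
          Finset.sum_le_univ_sum_of_nonneg fun z => Finset.prod_nonneg fun _ _ => sq_nonneg _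
      _ = ∏ _e : {e // e ∈ Aᶜ \ J}, ∑ g, ‖h g‖ ^ 2 := by
          rw [Finset.prod_univ_sum, Fintype.piFinset_univ]
      _ ≤ P ^ m := by
          rw [Finset.prod_const, Finset.card_univ, Fintype.card_coe, hJ3]
          exact pow_le_pow_left₀ (Finset.sum_nonneg fun _ _ => sq_nonneg _) h2 m
  calc ∑ x ∈ Sol, ∏ e, ‖h (x e)‖ ≤ ∑ x ∈ Sol, ∑ J, l J * ∏ e ∈ Aᶜ \ J, ‖h (ext0 A x e)‖ ^ 2 :=
        Finset.sum_le_sum fun x _ => e1 x
    _ = ∑ J, l J * ∑ x ∈ Sol, ∏ e ∈ Aᶜ \ J, ‖h (ext0 A x e)‖ ^ 2 := by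
        rw [Finset.sum_comm]
        exact Finset.sum_congr rfl fun J _ => by rw [Finset.mul_sum]
    _ ≤ ∑ J, l J * P ^ m := by
        refine Finset.sum_le_sum fun J _ => ?_
        by_cases hJ : l J = 0
        · simp [hJ]
        · exact mul_le_mul_of_nonneg_left (e2 J hJ) (hl J)
    _ = P ^ m := by rw [← Finset.sum_mul, hl1, one_mul]

theorem mixW [Fintype W] [FiniteDimensional F W] (w : E → W)
    (hs : span F (Set.range w) = ⊤) (h : (Fin n → F) → ℂ)
    {P : ℝ} (hP : 0 < P) (h1 : ∀ x, ‖h x‖ ≤ 1) (h2 : ∑ x, ‖h x‖ ^ 2 ≤ P)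
    (h3 : ∀ χ : AddChar (Fin n → F) ℂ, ‖∑ x, h x * χ x‖ ≤ P) [DecidableEq W] :
    ‖∑ X : E → (Fin n → F), if ∑ e, tens n (w e) (X e) = 0 then ∏ e, h (X e) else 0‖ *
      P ^ (finrank F W) ≤ P ^ (Fintype.card E) := by
  classical
  obtain ⟨l, A, hl, hl1, hB, hA1, hA2⟩ := weights w hs
  set cA := finrank F (span F (w '' (A : Set E))) with hcA
  have hJA : ∀ J, l J ≠ 0 → LinearIndepOn F w ((J ∩ A : Finset E) : Set E) ∧ (J ∩ A).card = cA := by
    intro J hJ
    obtain ⟨hJ1, hJ2⟩ := hB J hJ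
    have hi : LinearIndepOn F w ((J ∩ A : Finset E) : Set E) :=
      hJ1.1.mono (by exact_mod_cast Finset.inter_subset_left)
    refine ⟨hi, ?_⟩
    have h4 := finrank_span_eq_card hi
    have h5 : Set.range (fun x : ((J ∩ A : Finset E) : Set E) => w x) =
        w '' ((J ∩ A : Finset E) : Set E) := by
      ext y
      simp
    rw [h5, hJ2] at h4
    rw [hcA, h4]
    convert (Fintype.card_coe (J ∩ A)).symm
    exact Iff.rfl
  obtain ⟨J0, hJ0⟩ : ∃ J, l J ≠ 0 := by
    by_contra hc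
    push Not at hc
    simp [hc] at hl1
  have hcount : ∀ J, l J ≠ 0 → (Aᶜ \ J).card + finrank F W = Aᶜ.card + cA := by
    intro J hJ
    have h4 := (hJA J hJ).2
    have h5 := isB_card (hB J hJ).1
    have h6 : (J \ A).card + (J ∩ A).card = J.card := Finset.card_sdiff_add_card_inter J A
    have h7 : (Aᶜ \ J).card + (Aᶜ ∩ J).card = Aᶜ.card := Finset.card_sdiff_add_card_inter _ _
    have h8 : Aᶜ ∩ J = J \ A := by
      ext e
      simp [and_comm]
    rw [h8] at h7
    omega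
  set m := (Aᶜ \ J0).card with hm
  have hm2 := hcount J0 hJ0
  rw [← hm] at hm2
  have hout := outer_bound w A l hl hl1 (m := m) (fun J hJ => ⟨(hB J hJ).1.1, (hB J hJ).2, by
    have := hcount J hJ
    omega⟩) hA2 h h1 h2
  set eqv := Equiv.piEquivPiSubtypeProd (fun e => e ∈ A) (fun _ : E => (Fin n → F)) with heqv
  have hsum : (∑ X : E → (Fin n → F), if ∑ e, tens n (w e) (X e) = 0 then ∏ e, h (X e) else 0) =
      ∑ x : {e // e ∉ A} → (Fin n → F), (∏ e, h (x e)) * ∑ y : {e // e ∈ A} → (Fin n → F),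
        (if ∑ e : {e // e ∈ A}, tens n (w e) (y e) = -∑ e : {e // e ∉ A}, tens n (w e) (x e) then
          ∏ e, h (y e) else 0) := by
    rw [← Equiv.sum_comp eqv.symm, Fintype.sum_prod_type_right]
    refine Finset.sum_congr rfl fun x _ => ?_
    rw [Finset.mul_sum]
    refine Finset.sum_congr rfl fun y _ => ?_
    have h4 : ∀ e : {e // e ∈ A}, eqv.symm (y, x) e = y e := by
      intro e
      simp [heqv, Equiv.piEquivPiSubtypeProd, e.2]
    have h5 : ∀ e : {e // e ∉ A}, eqv.symm (y, x) e = x e := by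
      intro e
      simp [heqv, Equiv.piEquivPiSubtypeProd, e.2]
    have h6 : ∑ e, tens n (w e) (eqv.symm (y, x) e) =
        ∑ e : {e // e ∈ A}, tens n (w e) (y e) + ∑ e : {e // e ∉ A}, tens n (w e) (x e) := by
      rw [← Fintype.sum_subtype_add_sum_subtype (fun e => e ∈ A)]
      congr 1
      · exact Finset.sum_congr (by ext; simp) fun e _ => by rw [h4 e]
      · exact Finset.sum_congr (by ext; simp) fun e _ => by rw [h5 e]
    have h7 : ∏ e, h (eqv.symm (y, x) e) = (∏ e, h (y e)) * ∏ e, h (x e) := by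
      rw [← Fintype.prod_subtype_mul_prod_subtype (fun e => e ∈ A)]
      congr 1
      · exact Finset.prod_congr (by ext; simp) fun e _ => by rw [h4 e]
      · exact Finset.prod_congr (by ext; simp) fun e _ => by rw [h5 e]
    rw [h6, h7]
    by_cases h8 : ∑ e : {e // e ∈ A}, tens n (w e) (y e) = -∑ e : {e // e ∉ A}, tens n (w e) (x e)
    · rw [if_pos h8, if_pos (by rw [h8]; simp)]
      ring
    · rw [if_neg h8, if_neg (fun h9 => h8 (eq_neg_of_add_eq_zero_left h9)), mul_zero]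
  have hin : ∀ x : {e // e ∉ A} → (Fin n → F),
      ‖(∏ e, h (x e)) * ∑ y : {e // e ∈ A} → (Fin n → F),
        (if ∑ e : {e // e ∈ A}, tens n (w e) (y e) = -∑ e : {e // e ∉ A}, tens n (w e) (x e) then
          ∏ e, h (y e) else 0)‖ ≤ (P ^ A.card * (P ^ cA)⁻¹) *
        (if (∀ i, ∑ e : {e // e ∉ A}, x e i • w e ∈ span F (w '' (A : Set E))) then
        ∏ e, ‖h (x e)‖ else 0) := by
    intro x
    rw [norm_mul, norm_prod]
    split_ifs with hx
    · rw [mul_comm]
      refine mul_le_mul_of_nonneg_right ?_ (Finset.prod_nonneg fun _ _ => norm_nonneg _)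
      rw [← div_eq_mul_inv, le_div_iff₀ (by positivity)]
      exact inner_bound w A l hl hl1 hJA hA1 h hP h2 h3 _
    · rw [mul_zero]
      refine le_of_eq (mul_eq_zero_of_right _ ?_)
      rw [norm_eq_zero]
      refine Finset.sum_eq_zero fun y _ => ?_
      rw [if_neg]
      intro hy
      apply hx
      intro i
      have h8 := congrFun hy i
      simp only [Finset.sum_apply, tens_apply, Pi.neg_apply] at h8
      have h9 : ∑ e : {e // e ∉ A}, x e i • w e = -∑ e : {e // e ∈ A}, y e i • w e := by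
        rw [h8, neg_neg]
      rw [h9]
      refine Submodule.neg_mem _ (Submodule.sum_mem _ fun e _ => Submodule.smul_mem _ _ ?_)
      exact subset_span ⟨e, e.2, rfl⟩
  rw [hsum]
  have hfin : ‖∑ x : {e // e ∉ A} → (Fin n → F), (∏ e, h (x e)) *
      ∑ y : {e // e ∈ A} → (Fin n → F),
        (if ∑ e : {e // e ∈ A}, tens n (w e) (y e) = -∑ e : {e // e ∉ A}, tens n (w e) (x e) then
          ∏ e, h (y e) else 0)‖ ≤ (P ^ A.card * (P ^ cA)⁻¹) * P ^ m := by
    refine (norm_sum_le _ _).trans ((Finset.sum_le_sum fun x _ => hin x).trans ?_)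
    rw [← Finset.mul_sum]
    refine mul_le_mul_of_nonneg_left ?_ (by positivity)
    refine le_trans (le_of_eq ?_) hout
    refine Finset.sum_congr rfl fun x _ => ?_
    congr
  calc _ ≤ ((P ^ A.card * (P ^ cA)⁻¹) * P ^ m) * P ^ (finrank F W) := by gcongr
    _ = (P ^ cA)⁻¹ * (P ^ A.card * P ^ (m + finrank F W)) := by rw [pow_add]; ring
    _ = (P ^ cA)⁻¹ * (P ^ A.card * P ^ (Aᶜ.card + cA)) := by rw [hm2]
    _ = P ^ (A.card + Aᶜ.card) := by
        rw [pow_add, pow_add]
        field_simp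
    _ = P ^ (Fintype.card E) := by rw [Finset.card_add_card_compl]

/-- **The inequality for all subspaces.** -/
theorem mix [DecidableEq F] (h : (Fin n → F) → ℂ) {P B : ℝ} (hP : 0 < P) (hB : 0 < B)
    (h1 : ∀ x, ‖h x‖ ≤ B) (h2 : ∑ x, ‖h x‖ ^ 2 ≤ P * B ^ 2)
    (h3 : ∀ χ : AddChar (Fin n → F) ℂ, ‖∑ x, h x * χ x‖ ≤ P * B) (U : Submodule F (E → F))
    [DecidablePred fun X : E → (Fin n → F) => ∀ i, (fun e => X e i) ∈ U] :
    ‖∑ X : E → (Fin n → F) with (∀ i, (fun e => X e i) ∈ U), ∏ e, h (X e)‖ ≤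
      P ^ (finrank F U) * B ^ (Fintype.card E) := by
  classical
  have : Finite ((E → F) ⧸ U) := inferInstance
  have : Fintype ((E → F) ⧸ U) := Fintype.ofFinite _
  set w : E → ((E → F) ⧸ U) := fun e => U.mkQ (Pi.single e 1) with hw
  have hmk : ∀ v : E → F, U.mkQ v = ∑ e, v e • w e := by
    intro v
    have : v = ∑ e, v e • (Pi.single e (1 : F) : E → F) := by
      conv_lhs => rw [← Finset.univ_sum_single v]
      refine Finset.sum_congr rfl fun e _ => ?_
      ext j
      by_cases hj : j = e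
      · subst hj; simp
      · simp [Pi.single_eq_of_ne hj]
    conv_lhs => rw [this]
    rw [map_sum]
    simp only [map_smul, hw]
  have hs : span F (Set.range w) = ⊤ := by
    rw [eq_top_iff]
    rintro x -
    obtain ⟨v, rfl⟩ := U.mkQ_surjective x
    rw [hmk]
    exact Submodule.sum_mem _ fun e _ => Submodule.smul_mem _ _ (subset_span ⟨e, rfl⟩)
  set g : (Fin n → F) → ℂ := fun x => h x / B with hg
  have hgn : ∀ x, ‖g x‖ = ‖h x‖ / B := by
    intro x
    rw [hg, norm_div, Complex.norm_real, Real.norm_of_nonneg hB.le]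
  have hm := mixW w hs g hP (by
      intro x
      rw [hgn, div_le_one hB]
      exact h1 x) (by
      simp_rw [hgn, div_pow]
      rw [← Finset.sum_div, div_le_iff₀ (by positivity)]
      exact h2) (by
      intro χ
      have : ∑ x, g x * χ x = (∑ x, h x * χ x) / B := by
        rw [Finset.sum_div]
        refine Finset.sum_congr rfl fun x _ => ?_
        rw [hg]
        ring
      rw [this, norm_div, Complex.norm_real, Real.norm_of_nonneg hB.le, div_le_iff₀ hB]
      exact h3 χ)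
  have hcond : ∀ X : E → (Fin n → F), (∑ e, tens n (w e) (X e) = 0) ↔ ∀ i, (fun e => X e i) ∈ U := by
    intro X
    constructor
    · intro hX i
      have := congrFun hX i
      simp only [Finset.sum_apply, tens_apply, Pi.zero_apply] at this
      rw [← hmk (fun e => X e i)] at this
      simpa using this
    · intro hX
      funext i
      simp only [Finset.sum_apply, tens_apply, Pi.zero_apply]
      rw [← hmk (fun e => X e i)]
      simpa using hX i
  have hprod : ∀ X : E → (Fin n → F), ∏ e, g (X e) = (∏ e, h (X e)) / (B : ℂ) ^ (Fintype.card E) := by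
    intro X
    rw [hg]
    simp only [Finset.prod_div_distrib, Finset.prod_const, Finset.card_univ]
  have hsum : (∑ X : E → (Fin n → F), if ∑ e, tens n (w e) (X e) = 0 then ∏ e, g (X e) else 0) =
      (∑ X : E → (Fin n → F) with (∀ i, (fun e => X e i) ∈ U), ∏ e, h (X e)) /
        (B : ℂ) ^ (Fintype.card E) := by
    rw [← Finset.sum_filter, Finset.sum_div]
    refine Finset.sum_congr ?_ fun X _ => hprod X
    ext X
    simp only [Finset.mem_filter, Finset.mem_univ, true_and]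
    exact hcond X
  rw [hsum, norm_div, norm_pow, Complex.norm_real, Real.norm_of_nonneg hB.le] at hm
  have hdim := U.finrank_quotient_add_finrank
  rw [Module.finrank_fintype_fun_eq_card] at hdim
  have hpos : 0 < P ^ (finrank F ((E → F) ⧸ U)) := by positivity
  have hcard : P ^ Fintype.card E = P ^ finrank F U * P ^ (finrank F ((E → F) ⧸ U)) := by
    rw [← pow_add, ← hdim, add_comm]
  rw [hcard] at hm
  have hm2 := le_of_mul_le_mul_right hm hpos
  rwa [div_le_iff₀ (by positivity)] at hm2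

end Pool.Agent.K4H71.RL
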