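import Pool.Agent.K4H71.RL.Typ
import Pool.Agent.K4H71.RL.Ker
import Pool.Agent.K4H71.RL.Out

/-! The contribution of the matrices of one type of small index. -/

set_option autoImplicit false

namespace Pool.Agent.K4H71.RL

open Finset Module Submodule

section
variable {p : ℕ} [Fact p.Prime]

/-- reduction modulo `p` -/
def red (p : ℕ) {n : ℕ} (z : Fin n → ℤ) : Fin n → ZMod p := fun j => (z j : ZMod p)

/-- the lift of smallest absolute value -/
def lft {p n : ℕ} (x : Fin n → ZMod p) : Fin n → ℤ := fun j => (x j).valMinAbs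

theorem red_lft {n : ℕ} (x : Fin n → ZMod p) : red p (lft x) = x := by
  funext j
  exact ZMod.coe_valMinAbs _

theorem lft_red {n N : ℕ} (hN : 2 * N < p) {z : Fin n → ℤ} (hz : z ∈ bx n N) :
    lft (red p z) = z := by
  funext j
  have h1 := abs_le.1 (mem_bx.1 hz j)
  rw [lft, ZMod.valMinAbs_spec]
  refine ⟨rfl, ?_⟩
  rw [Set.mem_Ioc]
  constructor <;> omega

open Classical in
/-- the function modulo `p` -/
noncomputable def hp' {n : ℕ} (N : ℕ) (h : (Fin n → ℤ) → ℝ) (x : Fin n → ZMod p) : ℂ :=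
  if lft x ∈ bx n N then (h (lft x) : ℂ) else 0

open Classical in
theorem sum_lft {n N : ℕ} (hN : 2 * N < p) {M : Type*} [AddCommMonoid M]
    (G : (Fin n → ZMod p) → M) (h0 : ∀ x, lft x ∉ bx n N → G x = 0) :
    ∑ x, G x = ∑ z ∈ bx n N, G (red p z) := by
  have h1 : ∑ x, G x = ∑ x with lft x ∈ bx n N, G x := by
    rw [Finset.sum_filter]
    refine Finset.sum_congr rfl fun x _ => ?_
    split_ifs with hx
    · rfl
    · exact h0 x hx
  rw [h1]
  refine Finset.sum_nbij' lft (red p) ?_ ?_ ?_ ?_ ?_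
  · intro x hx
    exact (Finset.mem_filter.1 hx).2
  · intro z hz
    rw [Finset.mem_filter]
    refine ⟨Finset.mem_univ _, ?_⟩
    rw [lft_red hN hz]
    exact hz
  · intro x _
    exact red_lft x
  · intro z hz
    exact lft_red hN hz
  · intro x _
    rw [red_lft]

theorem hp'_red {n N : ℕ} (hN : 2 * N < p) (h : (Fin n → ℤ) → ℝ) {z : Fin n → ℤ}
    (hz : z ∈ bx n N) : hp' (p := p) N h (red p z) = h z := by
  classical
  rw [hp', lft_red hN hz, if_pos hz]

open Classical in
theorem mixZ {k n N : ℕ} (h : (Fin n → ℤ) → ℝ) {B : ℝ} (hB : 0 < B) (h1 : ∀ x, |h x| ≤ B)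
    (hN : 2 * N < p) (h2 : ∑ x ∈ bx n N, h x ^ 2 ≤ p * B ^ 2)
    (h3 : ∀ χ : AddChar (Fin n → ZMod p) ℂ,
      ‖∑ x ∈ bx n N, (h x : ℂ) * χ (red p x)‖ ≤ p * B)
    (U : Submodule (ZMod p) (Fin k → ZMod p)) :
    |∑ X ∈ (bxt k n N).filter (fun X => ∀ j, (fun e => red p (X e) j) ∈ U), ∏ e, h (X e)| ≤
      (p : ℝ) ^ (finrank (ZMod p) U) * B ^ k := by
  have hp0 : (0 : ℝ) < p := by exact_mod_cast (Fact.out : p.Prime).pos
  have hmix := mix (E := Fin k) (F := ZMod p) (n := n) (hp' N h) hp0 hB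
    (by
      intro x
      rw [hp']
      split_ifs
      · rw [Complex.norm_real]
        exact h1 _
      · simpa using hB.le)
    (by
      rw [sum_lft hN]
      · refine le_trans (le_of_eq ?_) h2
        refine Finset.sum_congr rfl fun z hz => ?_
        rw [hp'_red hN h hz, Complex.norm_real, Real.norm_eq_abs, sq_abs]
      · intro x hx
        rw [hp', if_neg hx]
        simp)
    (by
      intro χ
      rw [sum_lft hN]
      · refine le_trans (le_of_eq ?_) (h3 χ)
        congr 1
        refine Finset.sum_congr rfl fun z hz => ?_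
        rw [hp'_red hN h hz]
      · intro x hx
        rw [hp', if_neg hx]
        simp) U
  rw [Fintype.card_fin] at hmix
  refine le_trans (le_of_eq ?_) hmix
  have h4 : ∑ X : Fin k → (Fin n → ZMod p) with (∀ i, (fun e => X e i) ∈ U), ∏ e, hp' N h (X e) =
      ∑ X ∈ (bxt k n N).filter (fun X => ∀ j, (fun e => red p (X e) j) ∈ U),
        ((∏ e, h (X e) : ℝ) : ℂ) := by
    have h5 : ∑ X : Fin k → (Fin n → ZMod p) with (∀ i, (fun e => X e i) ∈ U),
        ∏ e, hp' N h (X e) = ∑ X : Fin k → (Fin n → ZMod p) with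
          ((∀ i, (fun e => X e i) ∈ U) ∧ ∀ e, lft (X e) ∈ bx n N), ∏ e, hp' N h (X e) := by
      rw [← Finset.filter_filter]
      symm
      refine Finset.sum_filter_of_ne ?_
      intro X _ hX e
      by_contra hne
      apply hX
      refine Finset.prod_eq_zero (Finset.mem_univ e) ?_
      rw [hp', if_neg hne]
    rw [h5]
    refine Finset.sum_nbij' (fun X e => lft (X e)) (fun X e => red p (X e)) ?_ ?_ ?_ ?_ ?_
    · intro X hX
      obtain ⟨-, hX1, hX2⟩ := Finset.mem_filter.1 hX
      refine Finset.mem_filter.2 ⟨mem_bxt.2 hX2, ?_⟩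
      intro j
      simp only [red_lft]
      exact hX1 j
    · intro X hX
      obtain ⟨hX1, hX2⟩ := Finset.mem_filter.1 hX
      refine Finset.mem_filter.2 ⟨Finset.mem_univ _, hX2, ?_⟩
      intro e
      rw [lft_red hN (mem_bxt.1 hX1 e)]
      exact mem_bxt.1 hX1 e
    · intro X _
      funext e
      exact red_lft _
    · intro X hX
      obtain ⟨hX1, -⟩ := Finset.mem_filter.1 hX
      funext e
      exact lft_red hN (mem_bxt.1 hX1 e)
    · intro X hX
      obtain ⟨-, -, hX2⟩ := Finset.mem_filter.1 hX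
      push_cast
      refine Finset.prod_congr rfl fun e _ => ?_
      rw [hp', if_pos (hX2 e)]
  rw [h4, ← Complex.ofReal_sum, Complex.norm_real, Real.norm_eq_abs]

end

end Pool.Agent.K4H71.RL
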