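import Pool.Agent.K4H71.RL.Lat
import Pool.Agent.H390R2.LP.Hermite

/-! Volumes and parameters. -/

set_option autoImplicit false

namespace Pool.Agent.K4H71.RL

open MeasureTheory Finset Filter Topology

theorem vol_one {n : ℕ} (hn : 1 ≤ n) : Vb n 1 ≤ (√(2 * Real.pi * Real.exp 1 / n)) ^ n := by
  rw [Vb, Vb_eq]
  have h := Pool.Agent.H390R2.LP.volume_ball_le n hn 0 1 zero_le_one
  rw [mul_one] at h
  exact ENNReal.toReal_le_of_le_ofReal (by positivity) h

theorem psi_small {n : ℕ} (hn : 1 ≤ n) :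
    ((n : ℝ) / 4 / (2 * Real.pi)) ^ n * Vb n 1 ^ 2 ≤ 1 := by
  have hn0 : (0 : ℝ) < n := by positivity
  have h1 := vol_one hn
  have h2 : Vb n 1 ^ 2 ≤ (2 * Real.pi * Real.exp 1 / n) ^ n := by
    calc Vb n 1 ^ 2 ≤ ((√(2 * Real.pi * Real.exp 1 / n)) ^ n) ^ 2 :=
          pow_le_pow_left₀ (Vb_nonneg n 1) h1 2
      _ = ((√(2 * Real.pi * Real.exp 1 / n)) ^ 2) ^ n := by rw [← pow_mul, ← pow_mul, mul_comm n 2]
      _ = _ := by rw [Real.sq_sqrt (by positivity)]
  calc ((n : ℝ) / 4 / (2 * Real.pi)) ^ n * Vb n 1 ^ 2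
      ≤ ((n : ℝ) / 4 / (2 * Real.pi)) ^ n * (2 * Real.pi * Real.exp 1 / n) ^ n :=
        mul_le_mul_of_nonneg_left h2 (by positivity)
    _ = (Real.exp 1 / 4) ^ n := by
        rw [← mul_pow]
        congr 1
        field_simp
    _ ≤ 1 := by
        refine pow_le_one₀ (by positivity) ?_
        have := Real.exp_one_lt_d9
        linarith

/-- the radius -/
noncomputable def RR (n : ℕ) (δ : ℝ) : ℝ := √((1 + δ) * n / (2 * Real.pi * Real.exp 1))

theorem vol_R {n : ℕ} (hn : 1 ≤ n) {δ : ℝ} (hδ : 0 < δ) :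
    (√(1 + δ)) ^ n / (3 * n) ≤ Vb n (RR n δ) := by
  have hn0 : (0 : ℝ) < n := by positivity
  have h := Pool.Agent.H390R2.LP.volume_ball_ge n hn 0 (RR n δ) (Real.sqrt_nonneg _)
  have h1 : √(2 * Real.pi * Real.exp 1 / n) * RR n δ = √(1 + δ) := by
    rw [RR, ← Real.sqrt_mul (by positivity)]
    congr 1
    field_simp
  rw [h1] at h
  rw [Vb, Vb_eq]
  exact (ENNReal.ofReal_le_iff_le_toReal measure_ball_lt_top.ne).1 h

theorem lin_exp {a C : ℝ} (ha : 0 < a) : ∀ᶠ n : ℕ in atTop, C * n ≤ Real.exp (a * n) := by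
  have h1 : Tendsto (fun x : ℝ => Real.exp (a * x) / x) atTop atTop := by
    have h2 := Real.tendsto_exp_div_pow_atTop 1
    have h3 : Tendsto (fun x : ℝ => a * x) atTop atTop := tendsto_id.const_mul_atTop ha
    have h4 := (h2.comp h3).const_mul_atTop ha
    refine h4.congr' ?_
    filter_upwards [eventually_gt_atTop 0] with x hx
    simp only [Function.comp_apply, pow_one]
    field_simp
  have h5 := (h1.comp tendsto_natCast_atTop_atTop).eventually_ge_atTop C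
  filter_upwards [h5, eventually_gt_atTop 0] with n hn hn0
  have hn0' : (0 : ℝ) < n := by exact_mod_cast hn0
  simp only [Function.comp_apply] at hn
  rwa [le_div_iff₀ hn0'] at hn

theorem vol_big {δ lam : ℝ} (hδ : 0 < δ) (hlam : lam ≤ Real.log (1 + δ) / 32) :
    ∀ᶠ n : ℕ in atTop, 6 * Real.exp (8 * lam * n) ≤ Vb n (RR n δ) := by
  have hl : 0 < Real.log (1 + δ) := Real.log_pos (by linarith)
  filter_upwards [lin_exp (a := Real.log (1 + δ) / 4) (C := 18) (by positivity),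
    eventually_ge_atTop 1] with n h1 hn
  have hn0 : (0 : ℝ) < n := by positivity
  refine le_trans ?_ (vol_R hn hδ)
  rw [le_div_iff₀ (by positivity)]
  have h2 : (√(1 + δ)) ^ n = Real.exp (Real.log (1 + δ) / 4 * n) * Real.exp (Real.log (1 + δ) / 4 * n) := by
    rw [← Real.exp_add]
    have h3 : √(1 + δ) = Real.exp (Real.log (1 + δ) / 2) := by
      rw [Real.exp_half, Real.exp_log (by linarith)]
    rw [h3, ← Real.exp_nat_mul]
    congr 1
    ring
  rw [h2]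
  have h4 : Real.exp (8 * lam * n) ≤ Real.exp (Real.log (1 + δ) / 4 * n) := by
    apply Real.exp_le_exp.2
    refine mul_le_mul_of_nonneg_right ?_ hn0.le
    linarith
  calc 6 * Real.exp (8 * lam * n) * (3 * n) = (18 * n) * Real.exp (8 * lam * n) := by ring
    _ ≤ Real.exp (Real.log (1 + δ) / 4 * n) * Real.exp (Real.log (1 + δ) / 4 * n) :=
        mul_le_mul h1 h4 (Real.exp_pos _).le (Real.exp_pos _).le

theorem tau_small {lam : ℝ} (hlam : lam ≤ 1 / 256) :
    ∀ᶠ n : ℕ in atTop, 2 * √2 * n * Real.exp (-(((n : ℝ) / 4) ^ 2 / (2 * n))) ≤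
      1 / 2 * Real.exp (-(4 * lam * n)) := by
  filter_upwards [lin_exp (a := 1 / 64) (C := 4 * √2) (by norm_num),
    eventually_ge_atTop 1] with n h1 hn
  have hn0 : (0 : ℝ) < n := by positivity
  have h2 : ((n : ℝ) / 4) ^ 2 / (2 * n) = n / 32 := by
    field_simp
    norm_num
  rw [h2]
  have h3 : Real.exp (-((n : ℝ) / 32)) = Real.exp (-(1 / 64 * n)) * Real.exp (-(1 / 64 * n)) := by
    rw [← Real.exp_add]
    congr 1
    ring
  rw [h3]
  have h4 : Real.exp (-(1 / 64 * (n : ℝ))) ≤ Real.exp (-(4 * lam * n)) := by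
    apply Real.exp_le_exp.2
    rw [neg_le_neg_iff]
    refine mul_le_mul_of_nonneg_right ?_ hn0.le
    linarith
  have h5 : 4 * √2 * n * Real.exp (-(1 / 64 * (n : ℝ))) ≤ 1 := by
    rw [Real.exp_neg, ← div_eq_mul_inv, div_le_one (Real.exp_pos _)]
    exact h1
  calc 2 * √2 * n * (Real.exp (-(1 / 64 * (n : ℝ))) * Real.exp (-(1 / 64 * (n : ℝ))))
      = 1 / 2 * ((4 * √2 * n * Real.exp (-(1 / 64 * (n : ℝ)))) * Real.exp (-(1 / 64 * (n : ℝ)))) := by
        ring
    _ ≤ 1 / 2 * (1 * Real.exp (-(4 * lam * n))) := by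
        refine mul_le_mul_of_nonneg_left ?_ (by norm_num)
        exact mul_le_mul h5 h4 (Real.exp_pos _).le zero_le_one
    _ = _ := by ring

theorem poly_ev {j n : ℕ} (hj : j < n) (C : ℝ) {ε : ℝ} (hε : 0 < ε) :
    ∀ᶠ s : ℝ in atTop, C * s ^ j ≤ ε * s ^ n := by
  have h1 := (tendsto_pow_atTop (α := ℝ) (n := n - j) (by omega)).eventually_ge_atTop (C / ε)
  filter_upwards [h1, eventually_gt_atTop 0] with s hs hs0
  rw [div_le_iff₀ hε] at hs
  have h2 : s ^ n = s ^ (n - j) * s ^ j := by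
    rw [← pow_add]
    congr 1
    omega
  rw [h2]
  have h3 : 0 < s ^ j := by positivity
  calc C * s ^ j ≤ (s ^ (n - j) * ε) * s ^ j := mul_le_mul_of_nonneg_right hs h3.le
    _ = _ := by ring

/-- powers of `1 - u` -/
theorem one_sub_pow {u lam : ℝ} (hu0 : 0 ≤ u) (hu : u ≤ lam / 2) (hlam : lam ≤ 1 / 256) (n : ℕ) :
    Real.exp (-(lam * n)) ≤ (1 - u) ^ n := by
  have h1 : Real.exp (-(2 * u)) ≤ 1 - u := by
    have h2 : 1 + 2 * u ≤ Real.exp (2 * u) := by
      have := Real.add_one_le_exp (2 * u)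
      linarith
    rw [Real.exp_neg]
    have h3 : (Real.exp (2 * u))⁻¹ ≤ (1 + 2 * u)⁻¹ := inv_anti₀ (by linarith) h2
    refine h3.trans ?_
    rw [← one_div, div_le_iff₀ (by linarith)]
    nlinarith
  calc Real.exp (-(lam * n)) ≤ Real.exp (-(2 * u)) ^ n := by
        rw [← Real.exp_nat_mul]
        apply Real.exp_le_exp.2
        have : (0 : ℝ) ≤ n := Nat.cast_nonneg _
        nlinarith
    _ ≤ (1 - u) ^ n := pow_le_pow_left₀ (Real.exp_pos _).le h1 n

theorem RR_le {n : ℕ} {δ : ℝ} (hδ1 : δ ≤ 1) : RR n δ ≤ 7 / 20 * √n := by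
  rw [RR]
  have h1 : (7 / 20 : ℝ) * √n = √((7 / 20) ^ 2 * n) := by
    rw [Real.sqrt_mul (by norm_num), Real.sqrt_sq (by norm_num)]
  rw [h1]
  refine Real.sqrt_le_sqrt ?_
  rw [div_le_iff₀ (by positivity)]
  have hpi := Real.pi_gt_d2
  have he := Real.exp_one_gt_d9
  have h2 : (8.5 : ℝ) ≤ Real.pi * Real.exp 1 := by nlinarith
  have hn : (0 : ℝ) ≤ n := Nat.cast_nonneg _
  have h3 : (1 + δ) * n ≤ 2 * n := mul_le_mul_of_nonneg_right (by linarith) hn
  have h4 : 2 * (n : ℝ) ≤ (7 / 20) ^ 2 * n * (2 * (Real.pi * Real.exp 1)) := by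
    nlinarith
  calc (1 + δ) * n ≤ 2 * n := h3
    _ ≤ (7 / 20) ^ 2 * n * (2 * (Real.pi * Real.exp 1)) := h4
    _ = _ := by ring

theorem RR_pos {n : ℕ} (hn : 1 ≤ n) {δ : ℝ} (hδ : 0 < δ) : 0 < RR n δ := by
  have hn0 : (0 : ℝ) < n := by positivity
  rw [RR]
  positivity

end Pool.Agent.K4H71.RL
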