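import Pool.Agent.K4H71.RL.Sub
import Pool.Agent.K4H71.RL.Num

/-! From vectors to subgroups. -/

set_option autoImplicit false

namespace Pool.Agent.K4H71.RL

open Finset

/-- proportions of vectors bound proportions of subgroups -/
theorem ratio {n p : ℕ} [Fact p.Prime] (hn : 1 ≤ n) (P : AddSubgroup (Fin n → ℤ) → Prop)
    {q : ℝ} (hq : 0 ≤ q)
    (h : open Classical in (((Finset.univ : Finset (Fin n → ZMod p)).filter
      (fun a => P (La p a))).card : ℝ) ≤ q * p ^ n) :
    (Set.ncard {M : AddSubgroup (Fin n → ℤ) | M.index = p ∧ P M} : ℝ) ≤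
      2 * q * Set.ncard {M : AddSubgroup (Fin n → ℤ) | M.index = p} := by
  classical
  have hp := (Fact.out : p.Prime)
  have hp2 : 2 ≤ p := hp.two_le
  have h1 := count_sub (n := n) (p := p) P
  have h2 := count_sub (n := n) (p := p) (fun _ => True)
  simp only [and_true] at h2
  have h3 : ((Finset.univ : Finset (Fin n → ZMod p)).filter (fun a => a ≠ 0)).card = p ^ n - 1 := by
    rw [Finset.filter_ne' Finset.univ 0, Finset.card_erase_of_mem (Finset.mem_univ _),
      Finset.card_univ]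
    simp [ZMod.card]
  rw [h3] at h2
  have h4 : ((Finset.univ : Finset (Fin n → ZMod p)).filter (fun a => a ≠ 0 ∧ P (La p a))).card ≤
      ((Finset.univ : Finset (Fin n → ZMod p)).filter (fun a => P (La p a))).card := by
    refine Finset.card_le_card fun a ha => ?_
    rw [Finset.mem_filter] at ha ⊢
    exact ⟨ha.1, ha.2.2⟩
  rw [h1] at h4
  have h5 : (((p - 1) * Set.ncard {M : AddSubgroup (Fin n → ℤ) | M.index = p ∧ P M} : ℕ) : ℝ) ≤
      q * p ^ n := le_trans (by exact_mod_cast h4) h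
  have h6 : (p : ℝ) ^ n ≤ 2 * (((p ^ n - 1 : ℕ)) : ℝ) := by
    have h7 : p ≤ p ^ n := Nat.le_self_pow (by omega) p
    have h8 : p ^ n ≤ 2 * (p ^ n - 1) := by omega
    exact_mod_cast h8
  rw [h2] at h6
  push_cast at h5 h6
  have hp1 : (0 : ℝ) < ((p - 1 : ℕ) : ℝ) := by
    have : 0 < p - 1 := by omega
    exact_mod_cast this
  have h9 : ((p - 1 : ℕ) : ℝ) * (Set.ncard {M : AddSubgroup (Fin n → ℤ) | M.index = p ∧ P M} : ℝ) ≤
      ((p - 1 : ℕ) : ℝ) * (2 * q * Set.ncard {M : AddSubgroup (Fin n → ℤ) | M.index = p}) := by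
    refine h5.trans ?_
    calc q * (p : ℝ) ^ n ≤ q * (2 * (((p - 1 : ℕ) : ℝ) *
          Set.ncard {M : AddSubgroup (Fin n → ℤ) | M.index = p})) := mul_le_mul_of_nonneg_left h6 hq
      _ = _ := by ring
  exact le_of_mul_le_mul_left h9 hp1

end Pool.Agent.K4H71.RL
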