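import Mathlib

/-! Integer matrices as products: bounded coefficients with respect to a maximal minor. -/

set_option autoImplicit false

namespace Pool.Agent.K4H71.RL

open Finset Submodule Module

/-- every finite family of vectors is expressed by a basis chosen among its members with
coefficients of absolute value at most one -/
theorem rep {k n : ℕ} (v : Fin k → (Fin n → ℚ)) :
    ∃ (r : ℕ) (ι : Fin r → Fin k) (C : Fin k → Fin r → ℚ), (∀ e i, |C e i| ≤ 1) ∧
      (∀ i j, C (ι i) j = if i = j then 1 else 0) ∧
      (∀ e, v e = ∑ i, C e i • v (ι i)) ∧ LinearIndependent ℚ (fun i => v (ι i)) := by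
  classical
  set R : Submodule ℚ (Fin n → ℚ) := span ℚ (Set.range v) with hR
  set v' : Fin k → R := fun e => ⟨v e, subset_span ⟨e, rfl⟩⟩ with hv'
  have hspan : span ℚ (Set.range v') = ⊤ := by
    rw [eq_top_iff]
    rintro ⟨x, hx⟩ -
    have h1 : (span ℚ (Set.range v')).map R.subtype = R := by
      rw [map_span]
      have h3 : R.subtype '' Set.range v' = Set.range v := by
        ext y
        constructor
        · rintro ⟨_, ⟨e, rfl⟩, rfl⟩
          exact ⟨e, rfl⟩
        · rintro ⟨e, rfl⟩
          exact ⟨v' e, ⟨e, rfl⟩, rfl⟩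
      rw [h3]
    have h2 : x ∈ (span ℚ (Set.range v')).map R.subtype := by rw [h1]; exact hx
    obtain ⟨y, hy, hyx⟩ := h2
    have : y = ⟨x, hx⟩ := Subtype.ext hyx
    rwa [← this]
  set r := finrank ℚ R with hr
  set b := Module.finBasis ℚ R with hb
  obtain ⟨ι, -, hmax⟩ := Finset.exists_max_image (Finset.univ : Finset (Fin r → Fin k))
    (fun ι => |b.det (fun i => v' (ι i))|) (by
      -- the set of functions is not empty
      obtain ⟨J, -, -, hJ3, hJ4⟩ := exists_linearIndepOn_extension (K := ℚ) (v := v')
        (s := ∅) (t := Set.univ) (linearIndepOn_empty ℚ v') (Set.empty_subset _)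
      have hJs : span ℚ (v' '' J) = ⊤ := by
        rw [eq_top_iff, ← hspan, span_le, ← Set.image_univ]
        exact hJ3
      have hc : Fintype.card J = r := by
        have h1 := finrank_span_eq_card (R := ℚ) (b := fun x : J => v' x) hJ4
        have h2 : Set.range (fun x : J => v' x) = v' '' J := by
          ext y
          simp
        rw [h2, hJs, finrank_top] at h1
        exact h1.symm
      exact ⟨fun i => (Fintype.equivFinOfCardEq hc).symm i, Finset.mem_univ _⟩)
  have hne : b.det (fun i => v' (ι i)) ≠ 0 := by
    obtain ⟨J, -, -, hJ3, hJ4⟩ := exists_linearIndepOn_extension (K := ℚ) (v := v')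
      (s := ∅) (t := Set.univ) (linearIndepOn_empty ℚ v') (Set.empty_subset _)
    have hJs : span ℚ (v' '' J) = ⊤ := by
      rw [eq_top_iff, ← hspan, span_le, ← Set.image_univ]
      exact hJ3
    have hc : Fintype.card J = r := by
      have h1 := finrank_span_eq_card (R := ℚ) (b := fun x : J => v' x) hJ4
      have h2 : Set.range (fun x : J => v' x) = v' '' J := by
        ext y
        simp
      rw [h2, hJs, finrank_top] at h1
      exact h1.symm
    set ε := (Fintype.equivFinOfCardEq hc).symm with hε
    have h3 : LinearIndependent ℚ (fun i => v' (ε i)) :=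
      LinearIndependent.comp (v := fun x : J => v' x) hJ4 _ ε.injective
    have h4 : span ℚ (Set.range (fun i => v' (ε i))) = ⊤ := by
      rw [← hJs]
      congr 1
      ext y
      constructor
      · rintro ⟨i, rfl⟩
        exact ⟨ε i, (ε i).2, rfl⟩
      · rintro ⟨x, hx, rfl⟩
        exact ⟨ε.symm ⟨x, hx⟩, by simp⟩
    have h5 := (Module.Basis.is_basis_iff_det b).1 ⟨h3, h4⟩
    have h6 := hmax (fun i => (ε i : Fin k)) (Finset.mem_univ _)
    have h7 : 0 < |b.det (fun i => v' (ε i))| := abs_pos.2 h5.ne_zero
    exact abs_pos.1 (h7.trans_le h6)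
  obtain ⟨hli, hsp⟩ := (Module.Basis.is_basis_iff_det b).2 (IsUnit.mk0 _ hne)
  have hsp' : ⊤ ≤ span ℚ (Set.range fun i => v' (ι i)) := hsp.ge
  set B := Basis.mk hli hsp' with hB
  have hBi : ∀ i, B i = v' (ι i) := fun i => by rw [hB, Basis.mk_apply]
  refine ⟨r, ι, fun e i => B.repr (v' e) i, ?_, ?_, ?_, ?_⟩
  · intro e i
    have h1 := b.det_smul_mk_coord_eq_det_update hli hsp' i
    have h2 := LinearMap.congr_fun h1 (v' e)
    simp only [LinearMap.smul_apply, smul_eq_mul, Basis.coord_apply] at h2
    have h3 : (b.det.toMultilinearMap.toLinearMap (fun i => v' (ι i)) i) (v' e) =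
        b.det (fun j => v' ((Function.update ι i e) j)) := by
      change b.det (Function.update (fun i => v' (ι i)) i (v' e)) = _
      congr 1
      funext j
      by_cases hj : j = i
      · subst hj; simp
      · simp [Function.update_of_ne hj]
    rw [h3] at h2
    have h4 := hmax (Function.update ι i e) (Finset.mem_univ _)
    rw [← h2, abs_mul] at h4
    have h5 : 0 < |b.det (fun i => v' (ι i))| := abs_pos.2 hne
    rw [← hB] at h4
    exact le_of_mul_le_mul_left (by rw [mul_one]; exact h4) h5
  · intro i j
    show B.repr (v' (ι i)) j = _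
    rw [← hBi i, Basis.repr_self, Finsupp.single_apply]
  · intro e
    have h1 := B.sum_repr (v' e)
    have h2 := congrArg (fun x : R => (x : Fin n → ℚ)) h1
    simp only [Submodule.coe_sum, Submodule.coe_smul, hBi] at h2
    exact h2.symm
  · have h1 := hli.map' R.subtype (Submodule.ker_subtype R)
    exact h1

end Pool.Agent.K4H71.RL
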