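import Pool.Agent.K4H71.RL.Lat

/-! Subgroups of prime index of `ℤ^n`. -/

set_option autoImplicit false

namespace Pool.Agent.K4H71.RL

open Finset

section
variable {n p : ℕ} [Fact p.Prime]

/-- the homomorphism of a vector -/
def phi (p : ℕ) {n : ℕ} (a : Fin n → ZMod p) : (Fin n → ℤ) →+ ZMod p where
  toFun x := ∑ j, a j * red p x j
  map_zero' := by
    refine Finset.sum_eq_zero fun j _ => ?_
    simp [red]
  map_add' := by
    intro x y
    rw [← Finset.sum_add_distrib]
    refine Finset.sum_congr rfl fun j _ => ?_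
    simp only [red, Pi.add_apply]
    push_cast
    ring

/-- its kernel -/
def La (p : ℕ) {n : ℕ} (a : Fin n → ZMod p) : AddSubgroup (Fin n → ℤ) := (phi p a).ker

theorem mem_La {a : Fin n → ZMod p} {x : Fin n → ℤ} :
    x ∈ La p a ↔ ∑ j, a j * red p x j = 0 := Iff.rfl

theorem phi_single (a : Fin n → ZMod p) (j : Fin n) (m : ℤ) :
    phi p a (Pi.single j m) = a j * (m : ZMod p) := by
  show ∑ i, a i * red p (Pi.single j m) i = _
  rw [Finset.sum_eq_single j]
  · simp [red]
  · intro i _ hi
    simp [red, Pi.single_eq_of_ne hi]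
  · intro h
    exact absurd (Finset.mem_univ j) h

theorem La_index {a : Fin n → ZMod p} (ha : a ≠ 0) : (La p a).index = p := by
  obtain ⟨j, hj⟩ : ∃ j, a j ≠ 0 := by
    by_contra hc
    push Not at hc
    exact ha (funext hc)
  have hsurj : Function.Surjective (phi p a) := by
    intro t
    refine ⟨Pi.single j ((t / a j).cast : ℤ), ?_⟩
    rw [phi_single]
    have : (((t / a j).cast : ℤ) : ZMod p) = t / a j := by simp
    rw [this, mul_div_cancel₀ _ hj]
  rw [La, AddSubgroup.index_ker, AddMonoidHom.range_eq_top.2 hsurj]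
  simp [Nat.card_eq_fintype_card, ZMod.card]

theorem La_surj {M : AddSubgroup (Fin n → ℤ)} (hM : M.index = p) :
    ∃ a : Fin n → ZMod p, a ≠ 0 ∧ La p a = M := by
  classical
  have hp := (Fact.out : p.Prime)
  have hcard : Nat.card ((Fin n → ℤ) ⧸ M) = p := hM
  have hcyc : IsAddCyclic ((Fin n → ℤ) ⧸ M) := isAddCyclic_of_prime_card hcard
  have e0 := zmodAddCyclicAddEquiv hcyc
  rw [hcard] at e0
  set ψ : (Fin n → ℤ) →+ ZMod p := (e0.symm : ((Fin n → ℤ) ⧸ M) →+ ZMod p).comp
    (QuotientAddGroup.mk' M) with hψ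
  have hker : ψ.ker = M := by
    ext x
    rw [AddMonoidHom.mem_ker, hψ]
    simp only [AddMonoidHom.coe_comp, Function.comp_apply]
    constructor
    · intro h
      have h1 : e0.symm (QuotientAddGroup.mk' M x) = 0 := h
      rw [AddEquiv.map_eq_zero_iff] at h1
      exact (QuotientAddGroup.eq_zero_iff x).1 h1
    · intro h
      have h1 : QuotientAddGroup.mk' M x = 0 := (QuotientAddGroup.eq_zero_iff x).2 h
      rw [h1]
      exact map_zero _
  refine ⟨fun j => ψ (Pi.single j 1), ?_, ?_⟩
  · intro h0
    have h1 : ∀ x, ψ x = 0 := by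
      intro x
      have h2 : x = ∑ j, x j • (Pi.single j (1 : ℤ) : Fin n → ℤ) := by
        funext i
        rw [Finset.sum_apply, Finset.sum_eq_single i]
        · simp
        · intro j _ hj
          simp [Pi.single_eq_of_ne (Ne.symm hj)]
        · intro h
          exact absurd (Finset.mem_univ i) h
      rw [h2, map_sum]
      refine Finset.sum_eq_zero fun j _ => ?_
      rw [map_zsmul]
      have h3 : ψ (Pi.single j 1) = 0 := congrFun h0 j
      rw [h3, smul_zero]
    have h2 : M = ⊤ := by
      rw [← hker, eq_top_iff]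
      intro x _
      exact h1 x
    rw [h2, AddSubgroup.index_top] at hM
    exact hp.one_lt.ne hM
  · rw [← hker]
    have h4 : phi p (fun j => ψ (Pi.single j 1)) = ψ := by
      refine AddMonoidHom.ext fun x => ?_
      have h2 : x = ∑ j, x j • (Pi.single j (1 : ℤ) : Fin n → ℤ) := by
        funext i
        rw [Finset.sum_apply, Finset.sum_eq_single i]
        · simp
        · intro j _ hj
          simp [Pi.single_eq_of_ne (Ne.symm hj)]
        · intro h
          exact absurd (Finset.mem_univ i) h
      conv_rhs => rw [h2, map_sum]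
      show ∑ j, ψ (Pi.single j 1) * red p x j = _
      refine Finset.sum_congr rfl fun j _ => ?_
      rw [map_zsmul, zsmul_eq_mul, mul_comm]
      rfl
    rw [La, h4]

theorem La_fib {a b : Fin n → ZMod p} (ha : a ≠ 0) (hb : b ≠ 0) :
    La p b = La p a ↔ ∃ u : (ZMod p)ˣ, b = fun j => (u : ZMod p) * a j := by
  classical
  constructor
  · intro h
    obtain ⟨j, hj⟩ : ∃ j, a j ≠ 0 := by
      by_contra hc
      push Not at hc
      exact ha (funext hc)
    have hbj : b j ≠ 0 := by
      intro h0
      have h1 : (Pi.single j 1 : Fin n → ℤ) ∈ La p b := by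
        show phi p b _ = 0
        rw [phi_single, h0, zero_mul]
      rw [h] at h1
      have h2 : phi p a (Pi.single j 1) = 0 := h1
      rw [phi_single] at h2
      simp [hj] at h2
    refine ⟨Units.mk0 (b j / a j) (div_ne_zero hbj hj), ?_⟩
    funext i
    rw [Units.val_mk0]
    have h1 : (Pi.single i ((a j).cast : ℤ) - Pi.single j ((a i).cast : ℤ) : Fin n → ℤ) ∈ La p a := by
      show phi p a _ = 0
      rw [map_sub, phi_single, phi_single]
      simp
      ring
    rw [← h] at h1
    have h2 : phi p b (Pi.single i ((a j).cast : ℤ) - Pi.single j ((a i).cast : ℤ)) = 0 := h1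
    rw [map_sub, phi_single, phi_single] at h2
    simp only [ZMod.intCast_cast, ZMod.cast_id', id_eq] at h2
    field_simp
    linear_combination h2
  · rintro ⟨u, rfl⟩
    ext x
    rw [mem_La, mem_La]
    have h1 : ∑ j, (u : ZMod p) * a j * red p x j = u * ∑ j, a j * red p x j := by
      rw [Finset.mul_sum]
      exact Finset.sum_congr rfl fun j _ => by ring
    rw [h1]
    constructor
    · intro h
      exact (mul_eq_zero.1 h).resolve_left u.ne_zero
    · intro h
      rw [h, mul_zero]

open Classical in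
/-- counting the subgroups of index `p` by vectors -/
theorem count_sub (P : AddSubgroup (Fin n → ℤ) → Prop) :
    ((Finset.univ : Finset (Fin n → ZMod p)).filter (fun a => a ≠ 0 ∧ P (La p a))).card =
      (p - 1) * Set.ncard {M : AddSubgroup (Fin n → ℤ) | M.index = p ∧ P M} := by
  set s := (Finset.univ : Finset (Fin n → ZMod p)).filter (fun a => a ≠ 0 ∧ P (La p a)) with hs
  have him : ((s.image (La p) : Finset (AddSubgroup (Fin n → ℤ))) : Set (AddSubgroup (Fin n → ℤ))) =
      {M | M.index = p ∧ P M} := by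
    ext M
    simp only [Finset.coe_image, Set.mem_image, Finset.mem_coe, hs, Finset.mem_filter,
      Finset.mem_univ, true_and]
    constructor
    · rintro ⟨a, ⟨ha, hP⟩, rfl⟩
      exact ⟨La_index ha, hP⟩
    · rintro ⟨hM, hP⟩
      obtain ⟨a, ha, rfl⟩ := La_surj hM
      exact ⟨a, ⟨ha, hP⟩, rfl⟩
  rw [← him, Set.ncard_coe_finset, Finset.card_eq_sum_card_image (La p) s, mul_comm,
    ← smul_eq_mul, ← Finset.sum_const]
  refine Finset.sum_congr rfl fun M hM => ?_
  obtain ⟨a, ha, rfl⟩ := Finset.mem_image.1 hM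
  obtain ⟨-, ha0, haP⟩ := Finset.mem_filter.1 ha
  have h1 : s.filter (fun b => La p b = La p a) =
      (Finset.univ : Finset (ZMod p)ˣ).image
        (fun (u : (ZMod p)ˣ) => ((fun j => (u : ZMod p) * a j) : Fin n → ZMod p)) := by
    ext b
    simp only [hs, Finset.mem_filter, Finset.mem_univ, true_and, Finset.mem_image]
    constructor
    · rintro ⟨⟨hb0, -⟩, h⟩
      obtain ⟨u, hu⟩ := (La_fib ha0 hb0).1 h
      exact ⟨u, hu.symm⟩
    · rintro ⟨u, hu⟩
      have hb0 : b ≠ 0 := by
        intro h0
        apply ha0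
        funext j
        have h2 := congrFun hu j
        rw [h0] at h2
        exact (mul_eq_zero.1 h2).resolve_left u.ne_zero
      have h3 := (La_fib ha0 hb0).2 ⟨u, hu.symm⟩
      refine ⟨⟨hb0, ?_⟩, h3⟩
      rw [h3]
      exact haP
  rw [h1, Finset.card_image_of_injective, Finset.card_univ, ZMod.card_units_eq_totient,
    Nat.totient_prime Fact.out]
  intro u v huv
  obtain ⟨j, hj⟩ : ∃ j, a j ≠ 0 := by
    by_contra hc
    push Not at hc
    exact ha0 (funext hc)
  have h2 := congrFun huv j
  simp only at h2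
  exact Units.ext (mul_right_cancel₀ hj h2)

end

end Pool.Agent.K4H71.RL
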