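import Pool.Agent.K4H71.RL.Dep
import Pool.Agent.K4H71.RL.Rep

/-! Types of integer matrices: the relations among the rows. -/

set_option autoImplicit false

namespace Pool.Agent.K4H71.RL

open Finset Module Submodule

/-- the rational relations among the rows -/
noncomputable def Kx {k n : ℕ} (X : Fin k → Fin n → ℤ) : Submodule ℚ (Fin k → ℚ) :=
  LinearMap.ker (Fintype.linearCombination ℚ (fun e => cq (X e)))

theorem mem_Kx {k n : ℕ} {X : Fin k → Fin n → ℤ} {y : Fin k → ℚ} :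
    y ∈ Kx X ↔ ∑ e, y e • cq (X e) = 0 := by
  rw [Kx, LinearMap.mem_ker, Fintype.linearCombination_apply]

/-- the matrix is expressed by the rows `ι i` with coefficients `C` -/
def Rel {k n r : ℕ} (ι : Fin r → Fin k) (C : Fin k → Fin r → ℚ) (X : Fin k → Fin n → ℤ) : Prop :=
  ∀ e, cq (X e) = ∑ i, C e i • cq (X (ι i))

/-- the rows `ι i` are independent -/
def Ind {k n r : ℕ} (ι : Fin r → Fin k) (X : Fin k → Fin n → ℤ) : Prop :=
  LinearIndependent ℚ (fun i => cq (X (ι i)))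

theorem mem_Kx_iff {k n r : ℕ} {ι : Fin r → Fin k} {C : Fin k → Fin r → ℚ}
    {X : Fin k → Fin n → ℤ} (h1 : Rel ι C X) (h2 : Ind ι X) (y : Fin k → ℚ) :
    y ∈ Kx X ↔ ∀ i, ∑ e, y e * C e i = 0 := by
  rw [mem_Kx]
  have h3 : ∑ e, y e • cq (X e) = ∑ i, (∑ e, y e * C e i) • cq (X (ι i)) := by
    calc ∑ e, y e • cq (X e) = ∑ e, y e • ∑ i, C e i • cq (X (ι i)) := by
          refine Finset.sum_congr rfl fun e _ => ?_
          rw [h1 e]
      _ = ∑ e, ∑ i, (y e * C e i) • cq (X (ι i)) := by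
          refine Finset.sum_congr rfl fun e _ => ?_
          rw [Finset.smul_sum]
          refine Finset.sum_congr rfl fun i _ => ?_
          rw [smul_smul]
      _ = _ := by
          rw [Finset.sum_comm]
          refine Finset.sum_congr rfl fun i _ => ?_
          rw [Finset.sum_smul]
  rw [h3]
  constructor
  · intro h
    exact Fintype.linearIndependent_iff.1 h2 _ h
  · intro h
    refine Finset.sum_eq_zero fun i _ => ?_
    rw [h i, zero_smul]

/-- the data `ι, C` describe the relations `K` -/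
def IsT (n : ℕ) {k r : ℕ} (ι : Fin r → Fin k) (C : Fin k → Fin r → ℚ)
    (K : Submodule ℚ (Fin k → ℚ)) : Prop :=
  (∀ e i, |C e i| ≤ 1) ∧ (∀ i j, C (ι i) j = if i = j then 1 else 0) ∧
    ∀ X : Fin k → Fin n → ℤ, Kx X = K ↔ (Rel ι C X ∧ Ind ι X)

theorem IsT.inj {n k r : ℕ} {ι : Fin r → Fin k} {C : Fin k → Fin r → ℚ}
    {K : Submodule ℚ (Fin k → ℚ)} (h : IsT n ι C K) : Function.Injective ι := by
  intro i j hij
  by_contra hne
  have h1 := h.2.1 i j
  have h2 := h.2.1 j j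
  rw [hij, h2] at h1
  simp [hne] at h1

theorem IsT.le {n k r : ℕ} {ι : Fin r → Fin k} {C : Fin k → Fin r → ℚ}
    {K : Submodule ℚ (Fin k → ℚ)} (h : IsT n ι C K) : r ≤ k := by
  have := Fintype.card_le_of_injective ι h.inj
  simpa using this

theorem type_exists {k n : ℕ} (X0 : Fin k → Fin n → ℤ) :
    ∃ (r : ℕ) (ι : Fin r → Fin k) (C : Fin k → Fin r → ℚ), IsT n ι C (Kx X0) := by
  classical
  obtain ⟨r, ι, C, h1, h2, h3, h4⟩ := rep (fun e => cq (X0 e))
  refine ⟨r, ι, C, h1, h2, fun X => ⟨fun h => ⟨?_, ?_⟩, ?_⟩⟩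
  · intro e
    have hs : ∀ (Y : Fin k → Fin n → ℤ), ((Pi.single e 1 : Fin k → ℚ) -
        ∑ i, C e i • (Pi.single (ι i) 1 : Fin k → ℚ)) ∈ Kx Y ↔
        cq (Y e) = ∑ i, C e i • cq (Y (ι i)) := by
      intro Y
      rw [Kx, LinearMap.mem_ker, map_sub, map_sum]
      simp only [map_smul, Fintype.linearCombination_apply_single, one_smul]
      exact sub_eq_zero
    rw [← hs X, h, hs X0]
    exact h3 e
  · rw [Ind, Fintype.linearIndependent_iff]
    intro c hc
    have hs : ∀ (Y : Fin k → Fin n → ℤ), (∑ i, c i • (Pi.single (ι i) 1 : Fin k → ℚ)) ∈ Kx Y ↔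
        ∑ i, c i • cq (Y (ι i)) = 0 := by
      intro Y
      rw [Kx, LinearMap.mem_ker, map_sum]
      simp only [map_smul, Fintype.linearCombination_apply_single, one_smul]
    rw [← hs X, h, hs X0] at hc
    exact Fintype.linearIndependent_iff.1 h4 c hc
  · rintro ⟨h5, h6⟩
    ext y
    rw [mem_Kx_iff h5 h6, mem_Kx_iff (ι := ι) (C := C) h3 h4]

/-- the columns -/
def cols {k n r : ℕ} (ι : Fin r → Fin k) (X : Fin k → Fin n → ℤ) (j : Fin n) : Fin r → ℤ :=
  fun i => X (ι i) j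

theorem Rel.col {k n r : ℕ} {ι : Fin r → Fin k} {C : Fin k → Fin r → ℚ}
    {X : Fin k → Fin n → ℤ} (h : Rel ι C X) (e : Fin k) (j : Fin n) :
    (X e j : ℚ) = ∑ i, C e i * (cols ι X j i : ℚ) := by
  have := congrFun (h e) j
  simp only [Finset.sum_apply, Pi.smul_apply, smul_eq_mul] at this
  exact this

theorem Rel.mem {k n r : ℕ} {ι : Fin r → Fin k} {C : Fin k → Fin r → ℚ}
    {X : Fin k → Fin n → ℤ} (h : Rel ι C X) (j : Fin n) : cols ι X j ∈ MC C :=
  fun e => ⟨X e j, (h.col e j).symm⟩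

theorem Rel.ext {k n r : ℕ} {ι : Fin r → Fin k} {C : Fin k → Fin r → ℚ}
    {X Y : Fin k → Fin n → ℤ} (hX : Rel ι C X) (hY : Rel ι C Y)
    (h : ∀ i, X (ι i) = Y (ι i)) : X = Y := by
  funext e
  apply cq_inj
  rw [hX e, hY e]
  refine Finset.sum_congr rfl fun i _ => ?_
  rw [h i]

open Classical in
theorem rel_card {k n r : ℕ} (ι : Fin r → Fin k) (C : Fin k → Fin r → ℚ) (N : ℕ) :
    ((bxt k n N).filter (fun X => Rel ι C X)).card ≤
      ((bx r N).filter (fun z => z ∈ MC C)).card ^ n := by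
  have h1 : ((bx r N).filter (fun z => z ∈ MC C)).card ^ n =
      (Fintype.piFinset fun _ : Fin n => (bx r N).filter (fun z => z ∈ MC C)).card := by
    rw [Fintype.card_piFinset_const]
  rw [h1]
  refine Finset.card_le_card_of_injOn (fun X => fun j => cols ι X j) ?_ ?_
  · intro X hX
    obtain ⟨hX1, hX2⟩ := Finset.mem_filter.1 hX
    rw [Finset.mem_coe, Fintype.mem_piFinset]
    intro j
    refine Finset.mem_filter.2 ⟨mem_bx.2 fun i => ?_, hX2.mem j⟩
    exact mem_bx.1 (mem_bxt.1 hX1 (ι i)) j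
  · intro X hX Y hY h
    obtain ⟨-, hX2⟩ := Finset.mem_filter.1 hX
    obtain ⟨-, hY2⟩ := Finset.mem_filter.1 hY
    refine hX2.ext hY2 fun i => ?_
    funext j
    exact congrFun (congrFun h j) i

open Classical in
theorem rel_dep_card {k n r : ℕ} (ι : Fin r → Fin k) (C : Fin k → Fin r → ℚ) (N : ℕ) :
    ((bxt k n N).filter (fun X => Rel ι C X ∧ ¬ Ind ι X)).card ≤
      ((bxt r n N).filter (fun Z => ¬ LinearIndependent ℚ (fun i => cq (Z i)))).card := by
  refine Finset.card_le_card_of_injOn (fun X => fun i => X (ι i)) ?_ ?_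
  · intro X hX
    obtain ⟨hX1, hX2, hX3⟩ := Finset.mem_filter.1 hX
    refine Finset.mem_coe.2 (Finset.mem_filter.2 ⟨mem_bxt.2 fun i => mem_bxt.1 hX1 (ι i), hX3⟩)
  · intro X hX Y hY h
    obtain ⟨-, hX2, -⟩ := Finset.mem_filter.1 hX
    obtain ⟨-, hY2, -⟩ := Finset.mem_filter.1 hY
    exact hX2.ext hY2 fun i => congrFun h i

/-- independent rows give independent columns -/
theorem col_basis {n r : ℕ} (Z : Fin r → Fin n → ℤ) (h : LinearIndependent ℚ (fun i => cq (Z i))) :
    ∃ c : Fin r → Fin n, LinearIndependent ℚ (fun i => fun j => (Z j (c i) : ℚ)) := by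
  classical
  set A : Matrix (Fin r) (Fin n) ℚ := fun i j => (Z i j : ℚ) with hA
  have h1 : A.rank = r := by
    have := LinearIndependent.rank_matrix (M := A) h
    simpa using this
  have h2 : finrank ℚ (span ℚ (Set.range A.col)) = r := by
    rw [← Matrix.rank_eq_finrank_span_cols, h1]
  obtain ⟨f, hf1, hf2, hf3⟩ := Submodule.exists_fun_fin_finrank_span_eq ℚ (Set.range A.col)
  have hc : ∀ i, ∃ c, A.col c = f i := fun i => hf1 i
  choose c hc using hc
  refine ⟨fun i => c (Fin.cast h2.symm i), ?_⟩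
  have h3 : (fun i : Fin r => fun j => (Z j (c (Fin.cast h2.symm i)) : ℚ)) =
      f ∘ (Fin.cast h2.symm) := by
    funext i
    rw [Function.comp_apply, ← hc]
    rfl
  rw [h3]
  exact hf3.comp _ (Fin.cast_injective _)

end Pool.Agent.K4H71.RL
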