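import Mathlib

/-! Fractional bases with small maximal weight: a finite family of vectors, weights on its bases,
and the set of the vectors of weight at most `1/2`. -/

set_option autoImplicit false

namespace Pool.Agent.K4H71.RL

open Finset Submodule Module

variable {K W E : Type*} [Field K] [AddCommGroup W] [Module K W] [FiniteDimensional K W]
  [Fintype E] [DecidableEq E]

/-- `J` indexes a basis -/
def IsB (K : Type*) [Field K] {W E : Type*} [AddCommGroup W] [Module K W] (w : E → W)
    (J : Finset E) : Prop :=
  LinearIndepOn K w (J : Set E) ∧ span K (w '' (J : Set E)) = ⊤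

theorem isB_card {w : E → W} {J : Finset E} (h : IsB K w J) : J.card = finrank K W := by
  have h1 := finrank_span_eq_card h.1
  have h2 : Set.range (fun x : (J : Set E) => w x) = w '' (J : Set E) := by
    ext y
    simp
  rw [h2, h.2, finrank_top] at h1
  rw [h1]
  simp

theorem exchange {w : E → W} {J A : Finset E} (hJ : IsB K w J) {a : E} (ha : a ∈ A)
    (hspan : w a ∉ span K (w '' ((J ∩ A : Finset E) : Set E))) :
    ∃ b : Finset E, IsB K w b ∧ ∃ i, i ∉ A ∧ i ≠ a ∧
      ∀ e, ((if e ∈ b then (1 : ℝ) else 0) - (if e ∈ J then 1 else 0)) =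
        (if e = a then 1 else 0) - (if e = i then 1 else 0) := by
  classical
  have hJA : LinearIndepOn K w ((J ∩ A : Finset E) : Set E) :=
    hJ.1.mono (by exact_mod_cast Finset.inter_subset_left)
  have hins : LinearIndepOn K w (insert a ((J ∩ A : Finset E) : Set E)) := by
    exact hJA.insert hspan
  have haJ : a ∉ J := by
    intro hc
    exact hspan (subset_span ⟨a, by simp [hc, ha], rfl⟩)
  obtain ⟨b, hb1, hb2, hb3, hb4⟩ := exists_linearIndepOn_extension
    (t := (insert a J : Set E)) hins (by
      intro x hx
      rcases hx with rfl | hx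
      · exact Or.inl rfl
      · right
        have : x ∈ J ∩ A := hx
        exact (Finset.mem_inter.1 this).1)
  have hbf : b.Finite := Set.toFinite b
  set B : Finset E := hbf.toFinset with hB
  have hBb : (B : Set E) = b := hbf.coe_toFinset
  have hBis : IsB K w B := by
    refine ⟨by rw [hBb]; exact hb4, ?_⟩
    rw [hBb, eq_top_iff, ← hJ.2]
    refine span_le.2 ?_
    refine Set.Subset.trans (Set.image_mono ?_) hb3
    intro x hx
    exact Or.inr hx
  have haB : a ∈ B := by
    have : a ∈ (B : Set E) := by
      rw [hBb]
      exact hb2 (Or.inl rfl)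
    exact this
  have hBsub : B ⊆ insert a J := by
    intro x hx
    have h1 : x ∈ (B : Set E) := hx
    rw [hBb] at h1
    have := hb1 h1
    rw [Finset.mem_insert]
    exact this
  have hcard : B.card = J.card := by rw [isB_card hBis, isB_card hJ]
  have hins2 : (insert a J).card = J.card + 1 := Finset.card_insert_of_notMem haJ
  have hsd : ((insert a J) \ B).card = 1 := by
    rw [Finset.card_sdiff_of_subset hBsub]
    omega
  obtain ⟨i, hi⟩ := Finset.card_eq_one.1 hsd
  have hi1 : i ∈ (insert a J) \ B := by rw [hi]; simp
  rw [Finset.mem_sdiff] at hi1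
  have hia : i ≠ a := by
    rintro rfl
    exact hi1.2 haB
  have hiJ : i ∈ J := by
    rcases Finset.mem_insert.1 hi1.1 with h | h
    · exact absurd h hia
    · exact h
  have hiA : i ∉ A := by
    intro hc
    apply hi1.2
    have : i ∈ (B : Set E) := by
      rw [hBb]
      refine hb2 (Or.inr ?_)
      exact_mod_cast Finset.mem_inter.2 ⟨hiJ, hc⟩
    exact this
  refine ⟨B, hBis, i, hiA, hia, fun e => ?_⟩
  by_cases he1 : e = a
  · subst he1
    simp [haB, haJ, hia.symm]
  · by_cases he2 : e = i
    · subst he2
      simp [hi1.2, hiJ, he1]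
    · have h3 : e ∈ B ↔ e ∈ J := by
        constructor
        · intro h
          rcases Finset.mem_insert.1 (hBsub h) with h | h
          · exact absurd h he1
          · exact h
        · intro h
          by_contra hc
          have : e ∈ (insert a J) \ B := Finset.mem_sdiff.2 ⟨Finset.mem_insert_of_mem h, hc⟩
          rw [hi, Finset.mem_singleton] at this
          exact he2 this
      by_cases h4 : e ∈ J
      · simp [h3.2 h4, h4, he1, he2]
      · have h5 : e ∉ B := fun h => h4 (h3.1 h)
        simp [h5, h4, he1, he2]

/-- the weight of an element -/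
noncomputable def om (l : Finset E → ℝ) (e : E) : ℝ := ∑ J, l J * (if e ∈ J then 1 else 0)

theorem weights (w : E → W) (hs : span K (Set.range w) = ⊤) :
    ∃ (l : Finset E → ℝ) (A : Finset E), (∀ J, 0 ≤ l J) ∧ ∑ J, l J = 1 ∧
      (∀ J, l J ≠ 0 → IsB K w J ∧
        span K (w '' ((J ∩ A : Finset E) : Set E)) = span K (w '' (A : Set E))) ∧
      (∀ e ∈ A, om l e ≤ 1 / 2) ∧ (∀ e, e ∉ A → 1 / 2 ≤ om l e) := by
  classical
  set S : Set (Finset E → ℝ) := stdSimplex ℝ (Finset E) ∩ {l | ∀ J, ¬ IsB K w J → l J = 0} with hS
  have hcomp : IsCompact S := by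
    refine (isCompact_stdSimplex ℝ (Finset E)).inter_right ?_
    have : {l : Finset E → ℝ | ∀ J, ¬ IsB K w J → l J = 0} =
        ⋂ J, ⋂ _ : ¬ IsB K w J, {l | l J = 0} := by
      ext l
      simp
    rw [this]
    refine isClosed_iInter fun J => isClosed_iInter fun _ => ?_
    exact isClosed_eq (continuous_apply J) continuous_const
  have hne : S.Nonempty := by
    obtain ⟨b, -, -, hb3, hb4⟩ := exists_linearIndepOn_extension (K := K) (v := w)
      (s := ∅) (t := Set.univ) (linearIndepOn_empty K w) (Set.empty_subset _)
    have hbf : b.Finite := Set.toFinite b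
    have hBb : ((hbf.toFinset : Finset E) : Set E) = b := hbf.coe_toFinset
    have hB : IsB K w hbf.toFinset := by
      refine ⟨by rw [hBb]; exact hb4, ?_⟩
      rw [hBb, eq_top_iff, ← hs, span_le]
      rw [Set.image_univ] at hb3
      exact hb3
    refine ⟨Pi.single hbf.toFinset 1, single_mem_stdSimplex ℝ _, ?_⟩
    intro J hJ
    rw [Pi.single_eq_of_ne]
    rintro rfl
    exact hJ hB
  set Q : (Finset E → ℝ) → ℝ := fun l => ∑ e, om l e ^ 2 with hQ
  have hQc : Continuous Q := by
    rw [hQ]
    unfold om
    fun_prop
  obtain ⟨l, hl, hmin⟩ := hcomp.exists_isMinOn hne hQc.continuousOn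
  set A : Finset E := Finset.univ.filter (fun e => om l e ≤ 1 / 2) with hA
  refine ⟨l, A, fun J => hl.1.1 J, hl.1.2, ?_, ?_, ?_⟩
  · intro J hJ0
    have hJB : IsB K w J := by
      by_contra hc
      exact hJ0 (hl.2 J hc)
    refine ⟨hJB, ?_⟩
    refine le_antisymm (span_mono (Set.image_mono ?_)) ?_
    · intro x hx
      have : x ∈ J ∩ A := hx
      exact (Finset.mem_inter.1 this).2
    rw [span_le]
    rintro _ ⟨a, ha, rfl⟩
    by_contra hc
    have haA : a ∈ A := ha
    obtain ⟨b, hb, i, hiA, hia, hind⟩ := exchange hJB haA hc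
    have hla : om l a ≤ 1 / 2 := (Finset.mem_filter.1 haA).2
    have hli : 1 / 2 < om l i := by
      by_contra hc
      exact hiA (Finset.mem_filter.2 ⟨Finset.mem_univ _, not_lt.1 hc⟩)
    have hlJ : 0 < l J := lt_of_le_of_ne (hl.1.1 J) (Ne.symm hJ0)
    set d : ℝ := om l i - om l a with hd
    have hd0 : 0 < d := by rw [hd]; linarith
    set ε : ℝ := min (l J) (d / 2) with hε
    have hε0 : 0 < ε := lt_min hlJ (by linarith)
    have hεJ : ε ≤ l J := min_le_left _ _
    have hεd : ε ≤ d / 2 := min_le_right _ _
    set l' : Finset E → ℝ := fun I => l I + ε * ((if I = b then 1 else 0) - (if I = J then 1 else 0))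
      with hl'
    have hmem : l' ∈ S := by
      refine ⟨⟨fun I => ?_, ?_⟩, ?_⟩
      · simp only [hl']
        have h1 := hl.1.1 I
        split_ifs with h2 h3
        · linarith
        · linarith
        · subst_vars; linarith
        · linarith
      · simp only [hl']
        rw [Finset.sum_add_distrib, ← Finset.mul_sum, Finset.sum_sub_distrib, hl.1.2]
        simp
      · intro I hI
        simp only [hl']
        have h1 : I ≠ b := by rintro rfl; exact hI hb
        have h2 : I ≠ J := by rintro rfl; exact hI hJB
        simp [h1, h2, hl.2 I hI]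
    have hom : ∀ e, om l' e = om l e + ε * ((if e = a then 1 else 0) - (if e = i then 1 else 0)) := by
      intro e
      rw [← hind e]
      unfold om
      simp only [hl', add_mul, Finset.sum_add_distrib, mul_assoc, sub_mul, ite_mul, one_mul, zero_mul]
      congr 1
      rw [← Finset.mul_sum, Finset.sum_sub_distrib]
      simp
    have h2 : Q l ≤ Q l' := hmin hmem
    have h3 : Q l' = Q l + (2 * ε * (om l a - om l i) + 2 * ε ^ 2) := by
      simp only [hQ]
      have h4 : ∀ e, om l' e ^ 2 = om l e ^ 2 + (2 * ε * (om l e *
          ((if e = a then 1 else 0) - (if e = i then 1 else 0))) +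
          ε ^ 2 * ((if e = a then 1 else 0) + (if e = i then 1 else 0))) := by
        intro e
        rw [hom e]
        by_cases h1 : e = a
        · have : e ≠ i := by rintro rfl; exact hia h1
          simp [h1, hia.symm]
          ring
        · by_cases h2 : e = i
          · simp [h2, hia]
            ring
          · simp [h1, h2]
      simp_rw [h4]
      rw [Finset.sum_add_distrib, Finset.sum_add_distrib, ← Finset.mul_sum, ← Finset.mul_sum,
        Finset.sum_add_distrib]
      simp only [mul_sub, Finset.sum_sub_distrib, mul_ite, mul_one, mul_zero, Finset.sum_ite_eq',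
        Finset.mem_univ, if_true]
      ring
    nlinarith
  · intro e he
    exact (Finset.mem_filter.1 he).2
  · intro e he
    by_contra hc
    exact he (Finset.mem_filter.2 ⟨Finset.mem_univ _, (not_le.1 hc).le⟩)

end Pool.Agent.K4H71.RL
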